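import Mathlib

/-! The abstract (ordinary differential inequality) part of the argument: tools. -/

open MeasureTheory Set Filter Topology
open scoped ContDiff ENNReal NNReal

namespace Pool.Agent.Lib.MP_c167ed_an

/-- Everything that is needed about the flow: `a` = radial velocity, `w` = scalar vorticity, as
functions of `(t,r,z)`, `r > 0`. -/
structure AbsData (m : ℕ) (T : ℝ) (a w : ℝ → ℝ → ℝ → ℝ) (K W A0 C1 : ℝ) : Prop where
  hT : 0 < T
  hK : 0 ≤ K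
  hW : 0 ≤ W
  hA0 : 0 ≤ A0
  hC1 : 0 ≤ C1
  traj : ∀ t ∈ Ioo 0 T, ∀ r, 0 < r → ∀ z, ∃ ρ ζ : ℝ → ℝ, ContinuousOn ρ (Icc 0 t) ∧
    (∀ s ∈ Icc 0 t, 0 < ρ s) ∧ (∀ s ∈ Ioo 0 t, HasDerivAt ρ (a s (ρ s) (ζ s)) s) ∧ ρ t = r ∧
    w t r z / r ^ (m - 1) = w 0 (ρ 0) (ζ 0) / (ρ 0) ^ (m - 1)
  near : ∀ t ∈ Ico 0 T, ∀ r ∈ Ioc (0 : ℝ) 1, ∀ z μ : ℝ, 0 ≤ μ →
    (∀ r' ∈ Ioc 0 (2 * r), ∀ z', |w t r' z'| ≤ μ * r') → a t r z ≤ r * (A0 + C1 * (μ * r))
  init : ∀ r, 0 < r → ∀ z, |w 0 r z| ≤ K * r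
  initW : ∀ r, 0 < r → ∀ z, |w 0 r z| ≤ W
  loc : ∀ T' < T, ∃ C, ∀ t ∈ Icc 0 T', ∀ r, 0 < r → ∀ z, |w t r z| ≤ C * r ∧ |w t r z| ≤ C

/-- bootstrap principle (real induction) -/
theorem bootstrap {P : ℝ → Prop} {T : ℝ}
    (hstep : ∀ τ ∈ Ico 0 T, (∀ σ ∈ Ico 0 τ, P σ) → ∃ h > 0, ∀ σ ∈ Icc τ (τ + h), σ < T → P σ) :
    ∀ σ ∈ Ico 0 T, P σ := by
  by_contra hcon
  push Not at hcon
  obtain ⟨σ0, hσ0, hPσ0⟩ := hcon
  have hT : 0 < T := hσ0.1.trans_lt hσ0.2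
  set S : Set ℝ := {τ | τ ∈ Icc 0 T ∧ ∀ σ ∈ Ico 0 τ, P σ} with hS
  have h0S : (0 : ℝ) ∈ S := ⟨⟨le_rfl, hT.le⟩, fun σ hσ => absurd hσ.2 (not_lt.2 hσ.1)⟩
  have hbdd : BddAbove S := ⟨T, fun τ hτ => hτ.1.2⟩
  set τ0 := sSup S with hτ0
  have hτ0nn : 0 ≤ τ0 := le_csSup hbdd h0S
  have hτ0T : τ0 ≤ T := csSup_le ⟨0, h0S⟩ (fun τ hτ => hτ.1.2)
  have hτ0P : ∀ σ ∈ Ico 0 τ0, P σ := by
    intro σ hσ
    obtain ⟨τ, hτS, hστ⟩ := exists_lt_of_lt_csSup ⟨0, h0S⟩ hσ.2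
    exact hτS.2 σ ⟨hσ.1, hστ⟩
  rcases hτ0T.lt_or_eq with hlt | heq
  · obtain ⟨h, hh, hP⟩ := hstep τ0 ⟨hτ0nn, hlt⟩ hτ0P
    have h1 : min (τ0 + h) T ∈ S := by
      refine ⟨⟨le_min (by linarith) hT.le, min_le_right _ _⟩, fun σ hσ => ?_⟩
      rcases lt_or_ge σ τ0 with h2 | h2
      · exact hτ0P σ ⟨hσ.1, h2⟩
      · exact hP σ ⟨h2, (hσ.2.trans_le (min_le_left _ _)).le⟩ (hσ.2.trans_le (min_le_right _ _))
    have h2 : min (τ0 + h) T ≤ τ0 := le_csSup hbdd h1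
    have h3 : τ0 < min (τ0 + h) T := lt_min (by linarith) hlt
    linarith
  · exact hPσ0 (hτ0P σ0 ⟨hσ0.1, by rw [heq]; exact hσ0.2⟩)

/-- barrier `barr ε ρ = ρ - ρ²/(2ε)` for `ρ ≤ ε`, `= ε/2` for `ρ ≥ ε`. -/
noncomputable def barr (ε ρ : ℝ) : ℝ := ε / 2 * (1 - (max (1 - ρ / ε) 0) ^ 2)

theorem barr_of_le {ε ρ : ℝ} (hε : 0 < ε) (hρ : ρ ≤ ε) : barr ε ρ = ρ - ρ ^ 2 / (2 * ε) := by
  have h1 : 0 ≤ 1 - ρ / ε := by
    rw [sub_nonneg, div_le_one hε]; exact hρ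
  rw [barr, max_eq_left h1]
  field_simp
  ring

theorem barr_of_ge {ε ρ : ℝ} (hε : 0 < ε) (hρ : ε ≤ ρ) : barr ε ρ = ε / 2 := by
  have h1 : 1 - ρ / ε ≤ 0 := by
    rw [sub_nonpos, one_le_div hε]; exact hρ
  rw [barr, max_eq_right h1]
  ring

theorem barr_le {ε ρ : ℝ} (hε : 0 < ε) (hρ : 0 ≤ ρ) : barr ε ρ ≤ ρ := by
  rcases le_total ρ ε with h | h
  · rw [barr_of_le hε h]
    have : 0 ≤ ρ ^ 2 / (2 * ε) := by positivity
    linarith
  · rw [barr_of_ge hε h]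
    linarith

theorem le_barr {ε ρ : ℝ} (hε : 0 < ε) (hρ : 0 ≤ ρ) : min ρ ε / 2 ≤ barr ε ρ := by
  have _ := hρ
  rcases le_total ρ ε with h | h
  · rw [barr_of_le hε h, min_eq_left h]
    have : ρ ^ 2 / (2 * ε) ≤ ρ / 2 := by
      rw [div_le_div_iff₀ (by positivity) (by norm_num)]
      nlinarith [mul_le_mul_of_nonneg_left h hρ]
    linarith
  · rw [barr_of_ge hε h, min_eq_right h]

theorem barr_nonneg {ε ρ : ℝ} (hε : 0 < ε) (hρ : 0 ≤ ρ) : 0 ≤ barr ε ρ :=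
  le_trans (by have := le_min hρ hε.le; linarith) (le_barr hε hρ)

theorem hasDerivAt_maxsq (x : ℝ) : HasDerivAt (fun x : ℝ => (max x 0) ^ 2) (2 * max x 0) x := by
  rcases lt_trichotomy x 0 with h | h | h
  · have h1 : (fun x : ℝ => (max x 0) ^ 2) =ᶠ[𝓝 x] fun _ => 0 := by
      filter_upwards [gt_mem_nhds h] with y hy
      rw [max_eq_right hy.le]; norm_num
    rw [max_eq_right h.le, mul_zero]
    exact (hasDerivAt_const x (0 : ℝ)).congr_of_eventuallyEq h1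
  · subst h
    rw [max_self, mul_zero, hasDerivAt_iff_isLittleO_nhds_zero]
    simp only [zero_add, max_self, ne_eq, OfNat.ofNat_ne_zero, not_false_eq_true, zero_pow,
      sub_zero, smul_eq_mul, mul_zero]
    have h1 : (fun x : ℝ => (max x 0) ^ 2) =O[𝓝 0] fun x : ℝ => x ^ 2 := by
      refine Asymptotics.IsBigO.of_bound 1 (Eventually.of_forall fun y => ?_)
      rw [one_mul, Real.norm_eq_abs, Real.norm_eq_abs, abs_pow, abs_pow]
      gcongr ?_ ^ 2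
      rcases le_total y 0 with hy | hy
      · rw [max_eq_right hy]; simp
      · rw [max_eq_left hy]
    have h2 : (fun x : ℝ => x ^ 2) =o[𝓝 0] fun x : ℝ => x := by
      simpa using (Asymptotics.isLittleO_pow_pow (𝕜 := ℝ) (m := 1) (n := 2) (by norm_num))
    exact h1.trans_isLittleO h2
  · have h1 : (fun x : ℝ => (max x 0) ^ 2) =ᶠ[𝓝 x] fun x => x ^ 2 := by
      filter_upwards [lt_mem_nhds h] with y hy
      rw [max_eq_left hy.le]
    rw [max_eq_left h.le]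
    have := (hasDerivAt_pow 2 x).congr_of_eventuallyEq h1
    simpa using this

theorem hasDerivAt_barr {ε : ℝ} (hε : 0 < ε) (ρ : ℝ) :
    HasDerivAt (barr ε) (max (1 - ρ / ε) 0) ρ := by
  have h1 : HasDerivAt (fun ρ : ℝ => 1 - ρ / ε) (-(1 / ε)) ρ := by
    simpa using ((hasDerivAt_id ρ).div_const ε).const_sub 1
  have h2 := (hasDerivAt_maxsq (1 - ρ / ε)).comp ρ h1
  have h3 := (h2.const_sub 1).const_mul (ε / 2)
  refine h3.congr_deriv ?_
  field_simp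

/-- `barr(ρ(s))` grows at most like `e^{As}` if `ρ' ≤ A ρ` as long as `ρ ≤ ε`. -/
theorem barr_growth {ε A s0 s1 : ℝ} {ρ a' : ℝ → ℝ} (hε : 0 < ε) (hA : 0 ≤ A) (h01 : s0 ≤ s1)
    (hc : ContinuousOn ρ (Icc s0 s1)) (hpos : ∀ s ∈ Icc s0 s1, 0 < ρ s)
    (hd : ∀ s ∈ Ioo s0 s1, HasDerivAt ρ (a' s) s)
    (ha : ∀ s ∈ Ioo s0 s1, ρ s ≤ ε → a' s ≤ A * ρ s) :
    barr ε (ρ s1) ≤ barr ε (ρ s0) * Real.exp (A * (s1 - s0)) := by
  set g : ℝ → ℝ := fun s => barr ε (ρ s) * Real.exp (-(A * (s - s0))) with hg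
  have hbc : Continuous (barr ε) :=
    continuous_iff_continuousAt.2 fun ρ => (hasDerivAt_barr hε ρ).continuousAt
  have hgd : ∀ s ∈ Ioo s0 s1, HasDerivAt g
      (max (1 - ρ s / ε) 0 * a' s * Real.exp (-(A * (s - s0)))
        + barr ε (ρ s) * (Real.exp (-(A * (s - s0))) * (-A))) s := by
    intro s hs
    have h1 := (hasDerivAt_barr hε (ρ s)).comp s (hd s hs)
    have h2 : HasDerivAt (fun s => Real.exp (-(A * (s - s0))))
        (Real.exp (-(A * (s - s0))) * (-A)) s := by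
      have h3 : HasDerivAt (fun s => -(A * (s - s0))) (-A) s := by
        have := (((hasDerivAt_id' s).sub_const s0).const_mul A).fun_neg
        simpa using this
      exact h3.exp
    exact h1.mul h2
  have hanti : AntitoneOn g (Icc s0 s1) := by
    refine antitoneOn_of_deriv_nonpos (convex_Icc _ _) ?_ ?_ ?_
    · exact (hbc.comp_continuousOn hc).mul (by fun_prop)
    · rw [interior_Icc]
      intro s hs
      exact (hgd s hs).differentiableAt.differentiableWithinAt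
    · rw [interior_Icc]
      intro s hs
      rw [(hgd s hs).deriv]
      have hρ := hpos s (Ioo_subset_Icc_self hs)
      have key : max (1 - ρ s / ε) 0 * a' s ≤ A * barr ε (ρ s) := by
        rcases le_total (ρ s) ε with h | h
        · have h1 : 0 ≤ 1 - ρ s / ε := by
            rw [sub_nonneg, div_le_one hε]; exact h
          rw [max_eq_left h1, barr_of_le hε h]
          calc (1 - ρ s / ε) * a' s ≤ (1 - ρ s / ε) * (A * ρ s) :=
                mul_le_mul_of_nonneg_left (ha s hs h) h1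
            _ = A * (ρ s - ρ s ^ 2 / ε) := by field_simp
            _ ≤ A * (ρ s - ρ s ^ 2 / (2 * ε)) := by
                refine mul_le_mul_of_nonneg_left ?_ hA
                have : ρ s ^ 2 / (2 * ε) ≤ ρ s ^ 2 / ε := by
                  apply div_le_div_of_nonneg_left (by positivity) hε (by linarith)
                linarith
        · have h1 : 1 - ρ s / ε ≤ 0 := by
            rw [sub_nonpos, one_le_div hε]; exact h
          rw [max_eq_right h1, zero_mul]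
          exact mul_nonneg hA (barr_nonneg hε hρ.le)
      have hexp := Real.exp_pos (-(A * (s - s0)))
      nlinarith [mul_le_mul_of_nonneg_right key hexp.le]
  have h1 := hanti (left_mem_Icc.2 h01) (right_mem_Icc.2 h01) h01
  simp only [hg, sub_self, mul_zero, neg_zero, Real.exp_zero, mul_one] at h1
  calc barr ε (ρ s1) = barr ε (ρ s1) * Real.exp (-(A * (s1 - s0))) * Real.exp (A * (s1 - s0)) := by
        rw [mul_assoc, ← Real.exp_add]; simp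
    _ ≤ barr ε (ρ s0) * Real.exp (A * (s1 - s0)) := by
        gcongr

end Pool.Agent.Lib.MP_c167ed_an
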