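import Pool.Agent.Lib.MP_c167ed_an.AbsNear

/-! Conclusion for `d ≤ 6`. -/

open MeasureTheory Set Filter Topology
open scoped ContDiff ENNReal NNReal

namespace Pool.Agent.Lib.MP_c167ed_an

variable {m : ℕ} {T : ℝ} {a w : ℝ → ℝ → ℝ → ℝ} {K W A0 C1 : ℝ}

/-- comparison with a primitive above a level -/
theorem grow_aux {X G : ℝ → ℝ} {s0 s1 c0 b0 : ℝ} (h01 : s0 ≤ s1)
    (hX : ContinuousOn X (Icc s0 s1)) (hG : ContinuousOn G (Icc s0 s1))
    (hGm : MonotoneOn G (Icc s0 s1))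
    (hd : ∀ s ∈ Ioo s0 s1, c0 ≤ X s →
      ∃ x' g', HasDerivAt X x' s ∧ HasDerivAt G g' s ∧ x' ≤ g')
    (hb : c0 ≤ b0) (h0 : X s0 ≤ b0) : X s1 ≤ b0 + (G s1 - G s0) := by
  by_contra hcon
  push Not at hcon
  have hs0 : s0 ∈ Icc s0 s1 := ⟨le_rfl, h01⟩
  have hs1 : s1 ∈ Icc s0 s1 := ⟨h01, le_rfl⟩
  set f : ℝ → ℝ := fun s => X s - G s with hf
  have hfc : ContinuousOn f (Icc s0 s1) := hX.sub hG
  set c : ℝ := b0 - G s0 with hc
  set S : Set ℝ := {s | s ∈ Icc s0 s1 ∧ f s ≤ c} with hS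
  have hScl : IsClosed S := by
    have : S = Icc s0 s1 ∩ f ⁻¹' (Iic c) := by ext s; simp [hS]
    rw [this]
    exact hfc.preimage_isClosed_of_isClosed isClosed_Icc isClosed_Iic
  have hSne : S.Nonempty := ⟨s0, hs0, by simp only [hf, hc]; linarith⟩
  have hSb : BddAbove S := ⟨s1, fun s hs => hs.1.2⟩
  have hmem : sSup S ∈ S := hScl.csSup_mem hSne hSb
  set σ := sSup S with hσ
  have hlt : σ < s1 := by
    rcases lt_or_eq_of_le hmem.1.2 with h | h
    · exact h
    · exfalso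
      have := hmem.2
      rw [h] at this
      simp only [hf, hc] at this
      linarith
  have hgt : ∀ s ∈ Ioc σ s1, c < f s := by
    intro s hs
    by_contra hle
    push Not at hle
    have : s ∈ S := ⟨⟨hmem.1.1.trans hs.1.le, hs.2⟩, hle⟩
    exact absurd (le_csSup hSb this) (not_le.mpr hs.1)
  have hder : ∀ s ∈ Ioo σ s1, ∃ f', HasDerivAt f f' s ∧ f' ≤ 0 := by
    intro s hs
    have hsI : s ∈ Icc s0 s1 := ⟨hmem.1.1.trans hs.1.le, hs.2.le⟩
    have h1 := hgt s ⟨hs.1, hs.2.le⟩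
    have h2 : G s0 ≤ G s := hGm hs0 hsI hsI.1
    have h3 : c0 ≤ X s := by
      simp only [hf, hc] at h1
      linarith
    obtain ⟨x', g', hx, hg, hle⟩ := hd s ⟨hmem.1.1.trans_lt hs.1, hs.2⟩ h3
    exact ⟨x' - g', hx.sub hg, by linarith⟩
  have hanti : AntitoneOn f (Icc σ s1) := by
    apply antitoneOn_of_deriv_nonpos (convex_Icc σ s1)
      (hfc.mono (Icc_subset_Icc_left hmem.1.1))
    · intro s hs
      rw [interior_Icc] at hs
      obtain ⟨f', h1, -⟩ := hder s hs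
      exact h1.differentiableAt.differentiableWithinAt
    · intro s hs
      rw [interior_Icc] at hs
      obtain ⟨f', h1, h2⟩ := hder s hs
      rw [h1.deriv]
      exact h2
  have h1 := hanti ⟨le_rfl, hlt.le⟩ ⟨hlt.le, le_rfl⟩ hlt.le
  have h2 := hmem.2
  have h3 := hgt s1 ⟨hlt, le_rfl⟩
  linarith

/-- the growth rate of `√(ρ^{m-1})` -/
theorem rate_aux (hm : 3 ≤ m) (hm5 : m ≤ 5) {C2 η ρ N b : ℝ} (hC2 : 0 ≤ C2) (hη : 0 < η)
    (hη1 : η ≤ 1) (hρ : η ≤ ρ) (hN : 1 ≤ N)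
    (hb : ∀ δ : ℝ, 0 < δ → δ ≤ ρ / 2 → b ≤ C2 * (1 / (δ * √(ρ ^ (m - 1))) + δ * N ^ 2)) :
    ((m - 1 : ℕ) : ℝ) * ρ ^ (m - 2) * b / (2 * √(ρ ^ (m - 1))) ≤
      2 * C2 * (2 / η ^ 2 + η / 2) * N := by
  have hρ0 : 0 < ρ := hη.trans_le hρ
  have hN0 : 0 < N := one_pos.trans_le hN
  set X := √(ρ ^ (m - 1)) with hX
  have hX0 : 0 < X := Real.sqrt_pos.mpr (pow_pos hρ0 _)
  have hXsq : X ^ 2 = ρ ^ (m - 1) := Real.sq_sqrt (pow_pos hρ0 _).le
  have hδ0 : 0 < η ^ 2 / (2 * ρ * N) := by positivity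
  have hδ1 : η ^ 2 / (2 * ρ * N) ≤ ρ / 2 := by
    rw [div_le_div_iff₀ (by positivity) (by positivity)]
    have : η ^ 2 ≤ ρ ^ 2 := by gcongr
    nlinarith [mul_le_mul this hN (by norm_num) (by positivity), sq_nonneg ρ]
  have h1 := hb _ hδ0 hδ1
  have h2 : C2 * (1 / (η ^ 2 / (2 * ρ * N) * X) + η ^ 2 / (2 * ρ * N) * N ^ 2) =
      C2 * N * (2 * ρ / (η ^ 2 * X) + η ^ 2 / (2 * ρ)) := by
    field_simp
  rw [h2] at h1
  -- X ≤ ρ^2/η
  have hXle : X * η ≤ ρ ^ 2 := by
    have h3 : (X * η) ^ 2 ≤ (ρ ^ 2) ^ 2 := by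
      rw [mul_pow, hXsq]
      obtain rfl | rfl | rfl : m = 3 ∨ m = 4 ∨ m = 5 := by omega
      · have h4 : ρ ^ 2 * η ^ 2 ≤ ρ ^ 2 * ρ ^ 2 := by gcongr
        have h5 : (ρ ^ 2) ^ 2 = ρ ^ 2 * ρ ^ 2 := by ring
        rw [h5]
        exact h4
      · have h4 : ρ ^ 3 * (η * η) ≤ ρ ^ 3 * (ρ * 1) := by gcongr
        have h5 : (ρ ^ 2) ^ 2 = ρ ^ 3 * (ρ * 1) := by ring
        have h6 : η ^ 2 = η * η := by ring
        rw [h5, h6]
        exact h4
      · have h4 : ρ ^ 4 * (η * η) ≤ ρ ^ 4 * (1 * 1) := by gcongr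
        have h5 : (ρ ^ 2) ^ 2 = ρ ^ 4 * (1 * 1) := by ring
        have h6 : η ^ 2 = η * η := by ring
        rw [h5, h6]
        exact h4
    exact (pow_le_pow_iff_left₀ (by positivity) (by positivity) (by norm_num)).mp h3
  have hm1 : ((m - 1 : ℕ) : ℝ) ≤ 4 := by exact_mod_cast (by omega : m - 1 ≤ 4)
  have hm0 : (0 : ℝ) ≤ ((m - 1 : ℕ) : ℝ) := Nat.cast_nonneg _
  have hpow : ρ ^ (m - 2) * ρ = X ^ 2 := by
    rw [hXsq, ← pow_succ]; congr 1; omega
  have hcoef : 0 ≤ ((m - 1 : ℕ) : ℝ) * ρ ^ (m - 2) / (2 * X) := by positivity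
  calc ((m - 1 : ℕ) : ℝ) * ρ ^ (m - 2) * b / (2 * X)
      = (((m - 1 : ℕ) : ℝ) * ρ ^ (m - 2) / (2 * X)) * b := by ring
    _ ≤ (((m - 1 : ℕ) : ℝ) * ρ ^ (m - 2) / (2 * X)) *
        (C2 * N * (2 * ρ / (η ^ 2 * X) + η ^ 2 / (2 * ρ))) := by gcongr
    _ = ((m - 1 : ℕ) : ℝ) / 2 * (C2 * N) *
        (2 * (ρ ^ (m - 2) * ρ) / (η ^ 2 * X ^ 2) +
          η ^ 2 * (ρ ^ (m - 2) * ρ) / (2 * ρ ^ 2 * X)) := by
        field_simp
    _ = ((m - 1 : ℕ) : ℝ) / 2 * (C2 * N) *
        (2 / η ^ 2 + η * (X * η) / (2 * ρ ^ 2)) := by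
        rw [hpow]; field_simp
    _ ≤ 4 / 2 * (C2 * N) * (2 / η ^ 2 + η * (ρ ^ 2) / (2 * ρ ^ 2)) := by gcongr
    _ = 2 * C2 * (2 / η ^ 2 + η / 2) * N := by field_simp; ring

theorem abs_far (hm : 3 ≤ m) (hm5 : m ≤ 5) (D : AbsData m T a w K W A0 C1) {C2 : ℝ}
    (hC2 : 0 ≤ C2)
    (far : ∀ t ∈ Ico 0 T, ∀ r, 0 < r → ∀ z δ M : ℝ, 0 < δ → δ ≤ r / 2 → 0 ≤ M →
      (∀ r', 0 < r' → ∀ z', |w t r' z'| ≤ M) →
      a t r z ≤ C2 * (1 / (δ * √(r ^ (m - 1))) + δ * M)) :
    ∃ C, ∀ t ∈ Ico 0 T, ∀ r, 0 < r → ∀ z, |w t r z| ≤ C := by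
  obtain ⟨ε, η', μ, hε, hε1, hη', hμ, hnear, htr⟩ := abs_near hm D
  set η := min η' 1 with hηdef
  have hη : 0 < η := lt_min hη' one_pos
  have hη1 : η ≤ 1 := min_le_right _ _
  have hηle : η ≤ η' := min_le_left _ _
  set X0 := √(η ^ (m - 1)) with hX0def
  have hX0 : 0 < X0 := Real.sqrt_pos.mpr (pow_pos hη _)
  set C' := 2 * C2 * (2 / η ^ 2 + η / 2) with hC'
  have hC'0 : 0 ≤ C' := by positivity
  set sW := √W with hsW
  have hsW0 : 0 ≤ sW := Real.sqrt_nonneg _
  have hsWsq : sW ^ 2 = W := Real.sq_sqrt D.hW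
  set α := 4 * sW + 1 + μ * ε with hα
  have hμε : 0 ≤ μ * ε := by positivity
  have hα1 : 1 ≤ α := by linarith
  set β := 2 * (C' / X0) * sW + 1 with hβ
  have hβ0 : 0 < β := by positivity
  -- growth of X along one trajectory piece
  have hpiece : ∀ (ρ ζ : ℝ → ℝ) (t s0 s1 N' : ℝ) (N : ℝ → ℝ) (G : ℝ → ℝ) (b0 : ℝ),
      t < T → 0 ≤ s0 → s0 ≤ s1 → s1 ≤ t → ContinuousOn ρ (Icc 0 t) →
      (∀ s ∈ Icc 0 t, 0 < ρ s) → (∀ s ∈ Ioo 0 t, HasDerivAt ρ (a s (ρ s) (ζ s)) s) →
      (∀ s, HasDerivAt G (C' * N s) s) → (∀ s ∈ Ioo s0 s1, 1 ≤ N s) → Monotone G →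
      (∀ s ∈ Ioo s0 s1, ∀ r', 0 < r' → ∀ z', |w s r' z'| ≤ (N s) ^ 2) →
      X0 ≤ b0 → √((ρ s0) ^ (m - 1)) ≤ b0 →
      √((ρ s1) ^ (m - 1)) ≤ b0 + (G s1 - G s0) := by
    intro ρ ζ t s0 s1 N' N G b0 htT h0 h01 h1t hρc hρpos hρd hG hN hGm hw hb0 hb1
    refine grow_aux (X := fun s => √((ρ s) ^ (m - 1))) (c0 := X0) h01 ?_ ?_ (hGm.monotoneOn _)
      ?_ hb0 hb1
    · exact ((hρc.mono (Icc_subset_Icc h0 h1t)).pow _).sqrt
    · exact fun s _ => (hG s).continuousAt.continuousWithinAt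
    · intro s hs hXs
      have hsI : s ∈ Ioo 0 t := ⟨h0.trans_lt hs.1, hs.2.trans_le h1t⟩
      have hρs := hρpos s ⟨hsI.1.le, hsI.2.le⟩
      have hd1 : HasDerivAt (fun s => (ρ s) ^ (m - 1))
          (((m - 1 : ℕ) : ℝ) * (ρ s) ^ (m - 1 - 1) * a s (ρ s) (ζ s)) s := (hρd s hsI).pow _
      have hd2 := hd1.sqrt (pow_pos hρs _).ne'
      refine ⟨_, _, hd2, hG s, ?_⟩
      have hηρ : η ≤ ρ s := by
        by_contra hlt
        push Not at hlt
        have : √((ρ s) ^ (m - 1)) < X0 := by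
          apply Real.sqrt_lt_sqrt (by positivity)
          exact pow_lt_pow_left₀ hlt hρs.le (by omega)
        exact absurd hXs (not_le.mpr this)
      have := rate_aux (b := a s (ρ s) (ζ s)) hm hm5 hC2 hη hη1 hηρ (hN s hs)
        (fun δ hδ hδ2 => far s ⟨hsI.1.le, hsI.2.trans htT⟩ (ρ s) hρs (ζ s) δ ((N s) ^ 2) hδ hδ2
          (by positivity) (hw s hs))
      have he : m - 1 - 1 = m - 2 := by omega
      rw [he]
      exact this
  -- bootstrap
  have hboot : ∀ σ ∈ Ico 0 T, ∀ r, 0 < r → ∀ z, |w σ r z| ≤ (α * Real.exp (β * σ)) ^ 2 := by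
    apply bootstrap
    intro τ hτ hP
    obtain ⟨C, hC⟩ := D.loc ((τ + T) / 2) (by linarith [hτ.2])
    set c1 := |C| + 1 with hc1
    have hc1C : 1 ≤ c1 := by have := abs_nonneg C; linarith
    have hc1sq : C ≤ c1 ^ 2 := by
      have h1 := le_abs_self C
      have h2 := abs_nonneg C
      nlinarith
    refine ⟨min ((T - τ) / 2) (1 / (C' / X0 * c1 + 1)), lt_min (by linarith [hτ.2])
      (by positivity), ?_⟩
    intro σ hσ hσT r hr z
    have hσ1 : σ ≤ (τ + T) / 2 := by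
      have := hσ.2.trans (add_le_add_right (min_le_left _ _) τ)
      linarith
    have hσ2 : σ - τ ≤ 1 / (C' / X0 * c1 + 1) := by
      have := hσ.2.trans (add_le_add_right (min_le_right _ _) τ)
      linarith
    have hσ0 : 0 ≤ σ := hτ.1.trans hσ.1
    have hexp : 1 ≤ Real.exp (β * σ) := Real.one_le_exp (by positivity)
    have hαe : α ≤ α * Real.exp (β * σ) := by nlinarith
    rcases lt_or_ge r ε with hrε | hrε
    · -- near the axis
      have h1 := hnear σ ⟨hσ0, hσT⟩ r ⟨hr, by linarith⟩ z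
      have h2 : μ * r ≤ μ * ε := by gcongr
      have h3 : μ * ε ≤ α := by linarith
      nlinarith
    · rcases eq_or_lt_of_le hσ0 with h0 | h0
      · -- time 0
        have h1 := D.initW r hr z
        rw [← h0]
        have h2 : W ≤ α ^ 2 := by
          rw [← hsWsq]
          nlinarith
        simp only [mul_zero, Real.exp_zero, mul_one]
        linarith
      · obtain ⟨ρ, ζ, hρc, hρpos, hρd, hρt, hρw⟩ := D.traj σ ⟨h0, hσT⟩ r hr z
        have hρ0 : 0 < ρ 0 := hρpos 0 ⟨le_rfl, h0.le⟩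
        have hη0 : η ≤ ρ 0 := hηle.trans (htr σ ⟨h0, hσT⟩ ρ ζ hρc hρpos hρd (by rw [hρt]; exact hrε))
        set b0 := √((ρ 0) ^ (m - 1)) with hb0def
        have hX0b : X0 ≤ b0 := Real.sqrt_le_sqrt (pow_le_pow_left₀ hη.le hη0 _)
        have hb00 : 0 < b0 := hX0.trans_le hX0b
        -- phase 1
        have hph1 := hpiece ρ ζ σ 0 τ 0 (fun s => α * Real.exp (β * s))
          (fun s => C' * (α * (Real.exp (β * s) / β))) b0 hσT le_rfl hτ.1 hσ.1 hρc hρpos hρd
          (by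
            intro s
            have h1 : HasDerivAt (fun s => Real.exp (β * s)) (Real.exp (β * s) * (β * 1)) s :=
              ((hasDerivAt_id s).const_mul β).exp
            have h2 := ((h1.div_const β).const_mul α).const_mul C'
            refine h2.congr_deriv ?_
            show C' * (α * (Real.exp (β * s) * (β * 1) / β)) = C' * (α * Real.exp (β * s))
            field_simp)
          (by
            intro s hs
            have : 1 ≤ Real.exp (β * s) := Real.one_le_exp (by have := hs.1.le; positivity)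
            nlinarith)
          (by
            intro x y hxy
            have : Real.exp (β * x) ≤ Real.exp (β * y) := Real.exp_le_exp.mpr (by gcongr)
            have hα0 : 0 ≤ α := by linarith
            dsimp only
            gcongr)
          (fun s hs r' hr' z' => hP s ⟨hs.1.le, hs.2⟩ r' hr' z')
          hX0b le_rfl
        set b1 := b0 + (C' * (α * (Real.exp (β * τ) / β)) - C' * (α * (Real.exp (β * 0) / β)))
          with hb1def
        have hb01 : b0 ≤ b1 := by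
          have : Real.exp (β * 0) ≤ Real.exp (β * τ) := Real.exp_le_exp.mpr (by
            have := hτ.1; gcongr)
          have hα0 : 0 ≤ α := by linarith
          have : C' * (α * (Real.exp (β * 0) / β)) ≤ C' * (α * (Real.exp (β * τ) / β)) := by
            gcongr
          linarith
        -- phase 2
        have hph2 := hpiece ρ ζ σ τ σ 0 (fun _ => c1) (fun s => C' * (c1 * s)) b1 hσT hτ.1 hσ.1
          le_rfl hρc hρpos hρd
          (by
            intro s
            have h2 := ((hasDerivAt_id s).const_mul c1).const_mul C'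
            refine h2.congr_deriv ?_
            show C' * (c1 * 1) = C' * c1
            ring)
          (fun s _ => hc1C)
          (by
            intro x y hxy
            dsimp only
            gcongr)
          (fun s hs r' hr' z' => ((hC s ⟨hτ.1.trans hs.1.le, hs.2.le.trans hσ1⟩ r' hr' z').2).trans
            hc1sq)
          (hX0b.trans hb01) hph1
        rw [hρt] at hph2
        -- conclusion
        have hrX : √(r ^ (m - 1)) ^ 2 = r ^ (m - 1) := Real.sq_sqrt (by positivity)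
        have hbX : b0 ^ 2 = (ρ 0) ^ (m - 1) := Real.sq_sqrt (by positivity)
        set Y := √(r ^ (m - 1)) with hY
        have hY0 : 0 ≤ Y := Real.sqrt_nonneg _
        have hweq : w σ r z = w 0 (ρ 0) (ζ 0) * (Y / b0) ^ 2 := by
          rw [div_pow, hrX, hbX]
          have hr' : r ^ (m - 1) ≠ 0 := by positivity
          rw [div_eq_iff hr'] at hρw
          rw [hρw]
          ring
        have hw0 : |w 0 (ρ 0) (ζ 0)| ≤ sW ^ 2 := by rw [hsWsq]; exact D.initW _ hρ0 _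
        have hYb : Y ≤ b0 + C' * (α * (Real.exp (β * σ) / β)) + C' * (c1 * (σ - τ)) := by
          have h1 : C' * (α * (Real.exp (β * τ) / β)) ≤ C' * (α * (Real.exp (β * σ) / β)) := by
            have : Real.exp (β * τ) ≤ Real.exp (β * σ) := Real.exp_le_exp.mpr (by
              have := hσ.1; gcongr)
            have hα0 : 0 ≤ α := by linarith
            gcongr
          have h2 : 0 ≤ C' * (α * (Real.exp (β * 0) / β)) := by
            have hα0 : 0 ≤ α := by linarith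
            positivity
          have h3 : C' * (c1 * σ) - C' * (c1 * τ) = C' * (c1 * (σ - τ)) := by ring
          simp only [hb1def] at hph2
          linarith
        have hratio : Y / b0 ≤ 1 + C' / X0 * (α * (Real.exp (β * σ) / β)) + 1 := by
          have hα0 : 0 ≤ α := by linarith
          have hστ : 0 ≤ σ - τ := by linarith [hσ.1]
          have h1 : Y / b0 ≤ (b0 + C' * (α * (Real.exp (β * σ) / β)) + C' * (c1 * (σ - τ))) / b0 := by
            gcongr
          have h2 : (b0 + C' * (α * (Real.exp (β * σ) / β)) + C' * (c1 * (σ - τ))) / b0 =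
              1 + C' / b0 * (α * (Real.exp (β * σ) / β)) + C' / b0 * (c1 * (σ - τ)) := by
            field_simp
          have h3 : C' / b0 ≤ C' / X0 := by gcongr
          have h4 : C' / b0 * (α * (Real.exp (β * σ) / β)) ≤
              C' / X0 * (α * (Real.exp (β * σ) / β)) := by gcongr
          have h5 : C' / b0 * (c1 * (σ - τ)) ≤ 1 := by
            have h6 : C' / b0 * (c1 * (σ - τ)) ≤ C' / X0 * (c1 * (1 / (C' / X0 * c1 + 1))) := by
              gcongr
            have h7 : C' / X0 * (c1 * (1 / (C' / X0 * c1 + 1))) ≤ 1 := by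
              have h8 : 0 ≤ C' / X0 * c1 := by positivity
              have h9 : C' / X0 * (c1 * (1 / (C' / X0 * c1 + 1))) =
                  (C' / X0 * c1) / (C' / X0 * c1 + 1) := by ring
              rw [h9, div_le_one (by positivity)]
              linarith
            exact h6.trans h7
          linarith
        have hfin : sW * (Y / b0) ≤ α * Real.exp (β * σ) := by
          have hα0 : 0 ≤ α := by linarith
          have h1 : sW * (Y / b0) ≤ sW * (1 + C' / X0 * (α * (Real.exp (β * σ) / β)) + 1) := by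
            gcongr
          have h2 : sW * (C' / X0 * (α * (Real.exp (β * σ) / β))) ≤ 1 / 2 * (α * Real.exp (β * σ)) := by
            have h3 : sW * (C' / X0) / β ≤ 1 / 2 := by
              rw [div_le_iff₀ hβ0]
              have : 0 ≤ C' / X0 * sW := by positivity
              simp only [hβ]
              nlinarith
            calc sW * (C' / X0 * (α * (Real.exp (β * σ) / β)))
                = (sW * (C' / X0) / β) * (α * Real.exp (β * σ)) := by ring
              _ ≤ 1 / 2 * (α * Real.exp (β * σ)) := by gcongr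
          have h4 : 2 * sW ≤ 1 / 2 * (α * Real.exp (β * σ)) := by linarith
          nlinarith
        rw [hweq, abs_mul, abs_of_nonneg (sq_nonneg (Y / b0))]
        calc |w 0 (ρ 0) (ζ 0)| * (Y / b0) ^ 2 ≤ sW ^ 2 * (Y / b0) ^ 2 := by gcongr
          _ = (sW * (Y / b0)) ^ 2 := by ring
          _ ≤ (α * Real.exp (β * σ)) ^ 2 := by
            have : 0 ≤ sW * (Y / b0) := by positivity
            gcongr
  refine ⟨(α * Real.exp (β * T)) ^ 2, fun t ht r hr z => (hboot t ht r hr z).trans ?_⟩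
  have hα0 : 0 ≤ α := by linarith
  have : Real.exp (β * t) ≤ Real.exp (β * T) := Real.exp_le_exp.mpr (by
    have := ht.2.le; gcongr)
  gcongr

end Pool.Agent.Lib.MP_c167ed_an
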