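import Pool.Agent.Lib.MP_c167ed_an.Abs

/-! Near-axis bootstrap, any dimension. -/

open MeasureTheory Set Filter Topology
open scoped ContDiff ENNReal NNReal

namespace Pool.Agent.Lib.MP_c167ed_an

variable {m : ℕ} {T : ℝ} {a w : ℝ → ℝ → ℝ → ℝ} {K W A0 C1 : ℝ}

/-- lower bound for the initial radius, from a rate bound before `τ` and after `τ`. -/
theorem init_lower {ε A A' B τ t : ℝ} {ρ a' : ℝ → ℝ} (hε : 0 < ε) (hA : 0 ≤ A) (hA' : 0 ≤ A')
    (hτ : 0 ≤ τ) (hτt : τ ≤ t)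
    (hc : ContinuousOn ρ (Icc 0 t)) (hpos : ∀ s ∈ Icc 0 t, 0 < ρ s)
    (hd : ∀ s ∈ Ioo 0 t, HasDerivAt ρ (a' s) s)
    (ha : ∀ s ∈ Ioo 0 τ, ρ s ≤ ε → a' s ≤ A * ρ s)
    (ha' : ∀ s ∈ Ioo τ t, ρ s ≤ ε → a' s ≤ A' * ρ s)
    (hB : A * τ + A' * (t - τ) ≤ B) :
    min (ρ t) ε / 2 ≤ ρ 0 * Real.exp B := by
  have ht : 0 ≤ t := hτ.trans hτt
  have h1 := barr_growth (s0 := 0) (s1 := τ) hε hA hτ (hc.mono (Icc_subset_Icc_right hτt))
    (fun s hs => hpos s ⟨hs.1, hs.2.trans hτt⟩) (fun s hs => hd s ⟨hs.1, hs.2.trans_le hτt⟩) ha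
  have h2 := barr_growth (s0 := τ) (s1 := t) hε hA' hτt (hc.mono (Icc_subset_Icc_left hτ))
    (fun s hs => hpos s ⟨hτ.trans hs.1, hs.2⟩) (fun s hs => hd s ⟨hτ.trans_lt hs.1, hs.2⟩) ha'
  have hpt := hpos t ⟨ht, le_rfl⟩
  have hp0 := hpos 0 ⟨le_rfl, ht⟩
  calc min (ρ t) ε / 2 ≤ barr ε (ρ t) := le_barr hε hpt.le
    _ ≤ barr ε (ρ τ) * Real.exp (A' * (t - τ)) := h2
    _ ≤ (barr ε (ρ 0) * Real.exp (A * (τ - 0))) * Real.exp (A' * (t - τ)) := by gcongr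
    _ = barr ε (ρ 0) * Real.exp (A * τ + A' * (t - τ)) := by
        rw [Real.exp_add, sub_zero]; ring
    _ ≤ ρ 0 * Real.exp B := by
        gcongr
        exact barr_le hε hp0.le

/-- Near-axis bootstrap: there are `ε ∈ (0,1/2]`, `η > 0` and `μ` such that for all `t < T`
(1) `|w| ≤ μ r` for `r ≤ 2ε`; (2) trajectories that are at `r ≥ ε` at time `t` start at
`ρ 0 ≥ η`. Proof: `μ = K 4^{m-2} e^{(m-2)(A0+1)T}`, `ε` with `C1 ε μ ≤ 1/2`; if (1) holds on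
`[0,τ)` then up to a time slightly after `τ` the rate `a/ρ` for `ρ ≤ ε` is at most `A0 + 1/2` on
`[0,τ)` and at most a constant from `loc` on `[τ,τ+h]`, so `barr_growth` (twice) gives
`ρ 0 ≥ barr(ρ 0) ≥ (min r ε / 2) e^{-(A0+1)T}` for the trajectory ending at `(t,r,z)`, and
`|w| = r^{m-1} |w 0 (ρ 0) _| / (ρ 0)^{m-1} ≤ K r^{m-1} (ρ 0)^{2-m} ≤ μ r` if `r ≤ 2ε`. -/
theorem abs_near (hm : 3 ≤ m) (D : AbsData m T a w K W A0 C1) :
    ∃ ε η μ : ℝ, 0 < ε ∧ ε ≤ 1 / 2 ∧ 0 < η ∧ 0 ≤ μ ∧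
      (∀ t ∈ Ico 0 T, ∀ r ∈ Ioc 0 (2 * ε), ∀ z, |w t r z| ≤ μ * r) ∧
      (∀ t ∈ Ioo 0 T, ∀ ρ ζ : ℝ → ℝ, ContinuousOn ρ (Icc 0 t) → (∀ s ∈ Icc 0 t, 0 < ρ s) →
        (∀ s ∈ Ioo 0 t, HasDerivAt ρ (a s (ρ s) (ζ s)) s) → ε ≤ ρ t → η ≤ ρ 0) := by
  have hT := D.hT
  have hK := D.hK
  have hA0 := D.hA0
  have hC1 := D.hC1
  set G : ℝ := Real.exp ((A0 + 1) * T) with hG
  have hG1 : 1 ≤ G := Real.one_le_exp (by positivity)
  set μ : ℝ := K * (4 * G) ^ (m - 2) with hμ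
  have hμ0 : 0 ≤ μ := by positivity
  have hKμ : K ≤ μ := by
    rw [hμ]
    exact le_mul_of_one_le_right hK (one_le_pow₀ (by linarith))
  set ε : ℝ := min (1 / 2) (1 / (2 * (C1 * μ + 1))) with hεdef
  have hε : 0 < ε := by positivity
  have hε2 : ε ≤ 1 / 2 := min_le_left _ _
  have hεC : C1 * (μ * ε) ≤ 1 / 2 := by
    have h1 : ε ≤ 1 / (2 * (C1 * μ + 1)) := min_le_right _ _
    calc C1 * (μ * ε) = (C1 * μ) * ε := by ring
      _ ≤ (C1 * μ) * (1 / (2 * (C1 * μ + 1))) := by gcongr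
      _ ≤ 1 / 2 := by
        rw [mul_one_div, div_le_div_iff₀ (by positivity) (by norm_num)]
        nlinarith [mul_nonneg hC1 hμ0]
  -- rate bound from the vorticity bound at the same time
  have hrate : ∀ s ∈ Ico 0 T, (∀ r ∈ Ioc 0 (2 * ε), ∀ z, |w s r z| ≤ μ * r) →
      ∀ r z, 0 < r → r ≤ ε → a s r z ≤ (A0 + 1 / 2) * r := by
    intro s hs hw r z hr hrε
    have h1 := D.near s hs r ⟨hr, by linarith⟩ z μ hμ0 (fun r' hr' z' =>
      hw r' ⟨hr'.1, hr'.2.trans (by linarith)⟩ z')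
    have h2 : C1 * (μ * r) ≤ 1 / 2 := by
      refine le_trans ?_ hεC
      gcongr
    calc a s r z ≤ r * (A0 + C1 * (μ * r)) := h1
      _ ≤ r * (A0 + 1 / 2) := by gcongr
      _ = _ := by ring
  -- bound for w from the lower bound of the initial radius
  have hwbd : ∀ t ∈ Ioo 0 T, ∀ r ∈ Ioc 0 (2 * ε), ∀ z (ρ ζ : ℝ → ℝ), 0 < ρ 0 →
      w t r z / r ^ (m - 1) = w 0 (ρ 0) (ζ 0) / (ρ 0) ^ (m - 1) →
      min r ε / 2 ≤ ρ 0 * G → |w t r z| ≤ μ * r := by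
    intro t ht r hr z ρ ζ hρ0 hw hlow
    have hr0 : 0 < r := hr.1
    have h1 : r / (4 * G) ≤ ρ 0 := by
      rw [div_le_iff₀ (by positivity)]
      have : r / 2 ≤ min r ε := le_min (by linarith) (by linarith [hr.2])
      linarith
    have h2 : w t r z = w 0 (ρ 0) (ζ 0) / (ρ 0) ^ (m - 1) * r ^ (m - 1) := by
      rw [← hw]; field_simp
    have hm1 : m - 1 = (m - 2) + 1 := by omega
    rw [h2, abs_mul, abs_div, abs_of_pos (pow_pos hρ0 _), abs_of_pos (pow_pos hr0 _)]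
    calc |w 0 (ρ 0) (ζ 0)| / (ρ 0) ^ (m - 1) * r ^ (m - 1)
        ≤ (K * ρ 0) / (ρ 0) ^ (m - 1) * r ^ (m - 1) := by
          gcongr
          exact D.init _ hρ0 _
      _ = K * (r / ρ 0) ^ (m - 2) * r := by
          rw [hm1, pow_succ, pow_succ, div_pow]
          field_simp
      _ ≤ K * (4 * G) ^ (m - 2) * r := by
          gcongr
          rw [div_le_iff₀ hρ0]
          rw [div_le_iff₀ (by positivity)] at h1
          linarith
      _ = μ * r := by rw [hμ]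
  -- the bootstrap
  have hP : ∀ t ∈ Ico 0 T, ∀ r ∈ Ioc 0 (2 * ε), ∀ z, |w t r z| ≤ μ * r := by
    refine bootstrap (P := fun t => ∀ r ∈ Ioc 0 (2 * ε), ∀ z, |w t r z| ≤ μ * r) ?_
    intro τ hτ hbefore
    obtain ⟨C, hC⟩ := D.loc ((τ + T) / 2) (by linarith [hτ.2])
    set C' : ℝ := max C 0 with hC'
    have hC'0 : 0 ≤ C' := le_max_right _ _
    set A' : ℝ := A0 + C1 * C' with hA'
    have hA'0 : 0 ≤ A' := by positivity
    set h : ℝ := min ((T - τ) / 2) (T / (2 * (A' + 1))) with hh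
    have hTτ : 0 < T - τ := by linarith [hτ.2]
    have hh0 : 0 < h := by positivity
    refine ⟨h, hh0, fun t ht htT r hr z => ?_⟩
    have ht0 : 0 ≤ t := hτ.1.trans ht.1
    rcases ht0.eq_or_lt with h0 | h0
    · rw [← h0]
      exact (D.init r hr.1 z).trans (by gcongr; exact hr.1.le)
    · obtain ⟨ρ, ζ, hc, hpos, hd, hρt, hw⟩ := D.traj t ⟨h0, htT⟩ r hr.1 z
      have hp0 := hpos 0 ⟨le_rfl, ht0⟩
      refine hwbd t ⟨h0, htT⟩ r hr z ρ ζ hp0 hw ?_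
      rw [← hρt]
      refine init_lower (A := A0 + 1 / 2) (A' := A') hε (by positivity) hA'0 hτ.1 ht.1 hc hpos hd
        ?_ ?_ ?_
      · intro s hs hsε
        exact hrate s ⟨hs.1.le, hs.2.trans hτ.2⟩ (hbefore s ⟨hs.1.le, hs.2⟩) _ _
          (hpos s ⟨hs.1.le, hs.2.le.trans ht.1⟩) hsε
      · intro s hs hsε
        have hs0 : 0 ≤ s := hτ.1.trans hs.1.le
        have hsT : s < T := hs.2.trans htT
        have hρs := hpos s ⟨hs0, hs.2.le⟩
        have hs2 : s ∈ Icc 0 ((τ + T) / 2) := by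
          refine ⟨hs0, ?_⟩
          have h3 : t ≤ τ + h := ht.2
          have h4 : h ≤ (T - τ) / 2 := min_le_left _ _
          linarith [hs.2]
        have h1 := D.near s ⟨hs0, hsT⟩ (ρ s) ⟨hρs, by linarith⟩ (ζ s) C' hC'0
          (fun r' hr' z' => ((hC s hs2 r' hr'.1 z').1).trans (by
            have := hr'.1
            gcongr
            exact le_max_left _ _))
        calc a s (ρ s) (ζ s) ≤ ρ s * (A0 + C1 * (C' * ρ s)) := h1
          _ ≤ ρ s * (A0 + C1 * (C' * 1)) := by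
              gcongr
              linarith
          _ = A' * ρ s := by rw [hA']; ring
      · have h3 : t - τ ≤ T / (2 * (A' + 1)) := by
          have := ht.2
          have h4 : h ≤ T / (2 * (A' + 1)) := min_le_right _ _
          linarith
        have h5 : A' * (t - τ) ≤ T / 2 := by
          calc A' * (t - τ) ≤ A' * (T / (2 * (A' + 1))) := by gcongr
            _ ≤ T / 2 := by
              rw [mul_div_assoc', div_le_div_iff₀ (by positivity) (by norm_num)]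
              nlinarith
        have h6 : (A0 + 1 / 2) * τ ≤ (A0 + 1 / 2) * T := by
          gcongr
          exact hτ.2.le
        linarith
  refine ⟨ε, ε / (2 * G), μ, hε, hε2, by positivity, hμ0, hP, ?_⟩
  intro t ht ρ ζ hc hpos hd hρt
  have h1 := init_lower (A := A0 + 1 / 2) (A' := 0) (B := (A0 + 1) * T) hε (by positivity) le_rfl
    ht.1.le le_rfl hc hpos hd (fun s hs hsε => hrate s ⟨hs.1.le, hs.2.trans ht.2⟩
      (hP s ⟨hs.1.le, hs.2.trans ht.2⟩) _ _ (hpos s ⟨hs.1.le, hs.2.le⟩) hsε)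
    (fun s hs => absurd (hs.1.trans hs.2) (lt_irrefl _)) (by
      have : (A0 + 1 / 2) * t ≤ (A0 + 1) * T := by
        have := ht.1
        have := ht.2
        gcongr
        linarith
      simpa using this)
  rw [min_eq_right hρt, ← hG] at h1
  rw [div_le_iff₀ (by positivity)]
  linarith

/-- any dimension: `w` is bounded on every cylinder `r ≤ R` up to time `T`
(`|w| = r^{m-1}|w 0|/(ρ 0)^{m-1} ≤ W (R/η)^{m-1}` for `r ≥ ε`). -/
theorem abs_cyl (hm : 3 ≤ m) (D : AbsData m T a w K W A0 C1) (R : ℝ) :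
    ∃ C, ∀ t ∈ Ico 0 T, ∀ r ∈ Ioc 0 R, ∀ z, |w t r z| ≤ C := by
  obtain ⟨ε, η, μ, hε, hε2, hη, hμ, h1, h2⟩ := abs_near hm D
  have hW := D.hW
  refine ⟨max W (max (μ * |R|) (W / η ^ (m - 1) * |R| ^ (m - 1))), fun t ht r hr z => ?_⟩
  have hr0 : 0 < r := hr.1
  have hrR : r ≤ |R| := hr.2.trans (le_abs_self R)
  rcases ht.1.eq_or_lt with h0 | h0
  · rw [← h0]
    exact (D.initW r hr0 z).trans (le_max_left _ _)
  · rcases le_total r ε with h3 | h3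
    · refine ((h1 t ht r ⟨hr0, by linarith⟩ z).trans ?_).trans
        ((le_max_left _ _).trans (le_max_right _ _))
      gcongr
    · obtain ⟨ρ, ζ, hc, hpos, hd, hρt, hw⟩ := D.traj t ⟨h0, ht.2⟩ r hr0 z
      have h4 := h2 t ⟨h0, ht.2⟩ ρ ζ hc hpos hd (by rw [hρt]; exact h3)
      have hp0 := hpos 0 ⟨le_rfl, h0.le⟩
      have h5 : w t r z = w 0 (ρ 0) (ζ 0) / (ρ 0) ^ (m - 1) * r ^ (m - 1) := by
        rw [← hw]; field_simp
      refine le_trans ?_ ((le_max_right _ _).trans (le_max_right _ _))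
      rw [h5, abs_mul, abs_div, abs_of_pos (pow_pos hp0 _), abs_of_pos (pow_pos hr0 _)]
      have := D.initW _ hp0 (ζ 0)
      gcongr

end Pool.Agent.Lib.MP_c167ed_an
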