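import Pool.Agent.Lib.MP_c167ed_an.AbsFar

/-! Conclusion in every dimension if the radial velocity is bounded away from the axis. -/

open MeasureTheory Set Filter Topology
open scoped ContDiff ENNReal NNReal

namespace Pool.Agent.Lib.MP_c167ed_an

variable {m : ℕ} {T : ℝ} {a w : ℝ → ℝ → ℝ → ℝ} {K W A0 C1 : ℝ}

/-- `ε, η, μ` from `abs_near`. For `r ≥ ε`, `|w t r z| = |w 0| (r/ρ 0)^{m-1} ≤ W (r/η)^{m-1}`, so the
hypothesis gives `a ≤ C` for `r ≥ 2ε`. For a trajectory ending at `r ≥ 2ε` let `σ` be the last time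
with `ρ σ ≤ 2ε` (or `σ = 0`): `r ≤ max (ρ 0) (2ε) + C T`, `r/ρ 0 ≤ 1 + (2ε + C T)/η`, so `|w|` is
bounded; for `r ≤ 2ε` use `|w| ≤ μ r`. -/
theorem abs_signed (hm : 3 ≤ m) (D : AbsData m T a w K W A0 C1)
    (far : ∀ ε, 0 < ε → ∀ N, 0 ≤ N → ∃ C, 0 ≤ C ∧ ∀ t ∈ Ico 0 T,
      (∀ r', ε ≤ r' → ∀ z', |w t r' z'| ≤ N * r' ^ (m - 1)) → ∀ r, 2 * ε ≤ r → ∀ z,
        a t r z ≤ C) :
    ∃ C, ∀ t ∈ Ico 0 T, ∀ r, 0 < r → ∀ z, |w t r z| ≤ C := by
  obtain ⟨ε, η, μ, hε, hε1, hη, hμ, hnear, htr⟩ := abs_near hm D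
  have hW : 0 ≤ W := D.hW
  have hT : 0 < T := D.hT
  set η0 := min η ε with hη0def
  have hη0 : 0 < η0 := lt_min hη hε
  set N := W / η0 ^ (m - 1) with hN
  have hN0 : 0 ≤ N := by positivity
  -- bound for `w` away from the axis
  have hw1 : ∀ t ∈ Ico 0 T, ∀ r', ε ≤ r' → ∀ z', |w t r' z'| ≤ N * r' ^ (m - 1) := by
    intro t ht r' hr' z'
    have hr0 : 0 < r' := hε.trans_le hr'
    rcases eq_or_lt_of_le ht.1 with h0 | h0
    · rw [← h0]
      refine (D.initW r' hr0 z').trans ?_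
      have h1 : η0 ^ (m - 1) ≤ r' ^ (m - 1) := by
        have : η0 ≤ r' := (min_le_right _ _).trans hr'
        gcongr
      rw [hN, div_mul_eq_mul_div, le_div_iff₀ (by positivity)]
      gcongr
    · obtain ⟨ρ, ζ, hρc, hρpos, hρd, hρt, hρw⟩ := D.traj t ⟨h0, ht.2⟩ r' hr0 z'
      have hρ0 : 0 < ρ 0 := hρpos 0 ⟨le_rfl, h0.le⟩
      have hη1 : η ≤ ρ 0 := htr t ⟨h0, ht.2⟩ ρ ζ hρc hρpos hρd (by rw [hρt]; exact hr')
      have hη2 : η0 ≤ ρ 0 := (min_le_left _ _).trans hη1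
      have hweq : w t r' z' = w 0 (ρ 0) (ζ 0) / (ρ 0) ^ (m - 1) * r' ^ (m - 1) := by
        rw [← hρw]; field_simp
      rw [hweq, abs_mul, abs_div, abs_of_pos (pow_pos hρ0 _), abs_of_pos (pow_pos hr0 _)]
      have h2 := D.initW _ hρ0 (ζ 0)
      rw [hN]
      gcongr
  obtain ⟨C, hC0, hC⟩ := far ε hε N hN0
  have haC : ∀ t ∈ Ico 0 T, ∀ r, 2 * ε ≤ r → ∀ z, a t r z ≤ C := fun t ht => hC t ht (hw1 t ht)
  set L := 1 + (2 * ε + C * T) / η with hL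
  have hL0 : 0 ≤ L := by positivity
  refine ⟨W + μ * (2 * ε) + W * L ^ (m - 1), fun t ht r hr z => ?_⟩
  have hP1 : 0 ≤ μ * (2 * ε) := by positivity
  have hP2 : 0 ≤ W * L ^ (m - 1) := by positivity
  rcases lt_or_ge r (2 * ε) with hrε | hrε
  · have h1 := hnear t ht r ⟨hr, hrε.le⟩ z
    have h2 : μ * r ≤ μ * (2 * ε) := by gcongr
    linarith
  rcases eq_or_lt_of_le ht.1 with h0 | h0
  · rw [← h0]
    have := D.initW r hr z
    linarith
  · obtain ⟨ρ, ζ, hρc, hρpos, hρd, hρt, hρw⟩ := D.traj t ⟨h0, ht.2⟩ r hr z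
    have hρ0 : 0 < ρ 0 := hρpos 0 ⟨le_rfl, h0.le⟩
    have hη1 : η ≤ ρ 0 := htr t ⟨h0, ht.2⟩ ρ ζ hρc hρpos hρd (by rw [hρt]; linarith)
    have hgrow := grow_aux (X := ρ) (G := fun s => C * s) (s0 := 0) (s1 := t) (c0 := 2 * ε)
      (b0 := max (ρ 0) (2 * ε)) h0.le hρc (by fun_prop)
      (fun x _ y _ hxy => by dsimp only; gcongr)
      (fun s hs hXs => ⟨_, C * 1, hρd s hs, (hasDerivAt_id s).const_mul C, by
        rw [mul_one]
        exact haC s ⟨hs.1.le, hs.2.trans ht.2⟩ _ hXs _⟩)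
      (le_max_right _ _) (le_max_left _ _)
    rw [hρt] at hgrow
    have hr1 : r ≤ ρ 0 + (2 * ε + C * T) := by
      have h1 : max (ρ 0) (2 * ε) ≤ ρ 0 + 2 * ε := max_le (by linarith) (by linarith)
      have h2 : C * t ≤ C * T := by have := ht.2.le; gcongr
      simp only [mul_zero, sub_zero] at hgrow
      linarith
    have hratio : r / ρ 0 ≤ L := by
      rw [div_le_iff₀ hρ0, hL]
      have h3 : (2 * ε + C * T) / η * ρ 0 ≥ 2 * ε + C * T := by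
        rw [ge_iff_le, div_mul_eq_mul_div, le_div_iff₀ hη]
        have : 0 ≤ 2 * ε + C * T := by positivity
        gcongr
      nlinarith
    have hweq : w t r z = w 0 (ρ 0) (ζ 0) * (r / ρ 0) ^ (m - 1) := by
      have hr' : r ^ (m - 1) ≠ 0 := by positivity
      rw [div_eq_iff hr'] at hρw
      rw [hρw, div_pow]
      ring
    rw [hweq, abs_mul, abs_of_nonneg (by positivity : 0 ≤ (r / ρ 0) ^ (m - 1))]
    have h4 : |w 0 (ρ 0) (ζ 0)| * (r / ρ 0) ^ (m - 1) ≤ W * L ^ (m - 1) := by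
      have := D.initW _ hρ0 (ζ 0)
      gcongr
    linarith

end Pool.Agent.Lib.MP_c167ed_an
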