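import Pool.Agent.Lib.MP_c167ed_an.BumpFacts

/-! The averaging formula for divergence free fields, replacing the Biot-Savart law. -/

open MeasureTheory Set Filter Topology
open scoped ContDiff ENNReal NNReal

namespace Pool.Agent.Lib.MP_c167ed_an

/-- outside the closed unit ball the bump vanishes -/
theorem integral_bump_smul {m : ℕ} {E : Type*} [NormedAddCommGroup E] [NormedSpace ℝ E]
    (g : V m → E) :
    ∫ y : V m, bump y • g y = ∫ y in Metric.closedBall (0 : V m) 1, bump y • g y := by
  symm
  apply setIntegral_eq_integral_of_forall_compl_eq_zero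
  intro y hy
  have h1 : 1 ≤ ‖y‖ := by
    simp only [Metric.mem_closedBall, dist_zero_right, not_le] at hy
    exact hy.le
  rw [bump_eq_zero h1, zero_smul]

theorem integrable_bump_smul {m : ℕ} {E : Type*} [NormedAddCommGroup E] [NormedSpace ℝ E]
    {g : V m → E} (hg : Continuous g) : Integrable (fun y : V m => bump y • g y) := by
  apply Continuous.integrable_of_hasCompactSupport
  · exact (bump_contDiff.continuous).smul hg
  · exact bump_hasCompactSupport.smul_right

/-- the coordinates of the derivative -/
theorem fderiv_apply_eq {m : ℕ} (v : V m → V m) (z y : V m) (j : Fin (m + 1)) :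
    (fderiv ℝ v z y) j = ∑ i, pd v i j z * y i := by
  have hy : y = ∑ i, y i • EuclideanSpace.single i (1 : ℝ) := by
    ext k
    simp [Finset.sum_apply, Pi.single_apply]
  conv_lhs => rw [hy]
  simp only [map_sum, map_smul, pd]
  simp [mul_comm]

theorem avg_continuous_pd {m : ℕ} {v : V m → V m} (hv : ContDiff ℝ ∞ v) (i j : Fin (m + 1)) :
    Continuous (pd v i j) := by
  have h1 : Continuous (fderiv ℝ v) := hv.continuous_fderiv (by simp)
  have h2 : Continuous fun z => fderiv ℝ v z (EuclideanSpace.single i 1) :=
    h1.clm_apply continuous_const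
  exact (EuclideanSpace.proj (𝕜 := ℝ) j).continuous.comp h2

/-- `Om` is jointly continuous. -/
theorem continuous_Om {m : ℕ} {v : V m → V m} (hv : ContDiff ℝ ∞ v) {X : Type*}
    [TopologicalSpace X] {a b : X → V m} (ha : Continuous a) (hb : Continuous b) :
    Continuous (fun q => Om v (a q) (b q)) := by
  unfold Om
  apply (PiLp.continuous_toLp 2 _).comp
  apply continuous_pi
  intro j
  apply continuous_finsetSum
  intro i _
  have hbi : Continuous fun q => b q i := (EuclideanSpace.proj (𝕜 := ℝ) i).continuous.comp hb
  exact (((avg_continuous_pd hv i j).comp ha).sub ((avg_continuous_pd hv j i).comp ha)).mul hbi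

/-- the transposed part -/
noncomputable def tra {m : ℕ} (v : V m → V m) (x y : V m) : V m :=
  WithLp.toLp 2 (fun j => ∑ i, pd v j i x * y i)

theorem continuous_tra {m : ℕ} {v : V m → V m} (hv : ContDiff ℝ ∞ v) {X : Type*}
    [TopologicalSpace X] {a b : X → V m} (ha : Continuous a) (hb : Continuous b) :
    Continuous (fun q => tra v (a q) (b q)) := by
  unfold tra
  apply (PiLp.continuous_toLp 2 _).comp
  apply continuous_pi
  intro j
  apply continuous_finsetSum
  intro i _
  have hbi : Continuous fun q => b q i := (EuclideanSpace.proj (𝕜 := ℝ) i).continuous.comp hb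
  exact ((avg_continuous_pd hv j i).comp ha).mul hbi

theorem fderiv_eq_Om_add {m : ℕ} (v : V m → V m) (z y : V m) :
    fderiv ℝ v z y = Om v z y + tra v z y := by
  ext j
  rw [fderiv_apply_eq]
  simp only [Om, tra, PiLp.add_apply]
  rw [← Finset.sum_add_distrib]
  apply Finset.sum_congr rfl
  intro i _
  ring

theorem fderiv_scaled {m : ℕ} {v : V m → V m} (hv : ContDiff ℝ ∞ v) (x : V m) (s : ℝ) (y : V m) :
    fderiv ℝ (fun y : V m => v (x + s • y)) y = s • fderiv ℝ v (x + s • y) := by
  have h1 : HasFDerivAt v (fderiv ℝ v (x + s • y)) (x + s • y) :=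
    (hv.differentiable (by simp) _).hasFDerivAt
  have h2 : HasFDerivAt (fun y : V m => x + s • y) (s • ContinuousLinearMap.id ℝ (V m)) y :=
    ((hasFDerivAt_id y).const_smul s).const_add x
  have h3 := (h1.comp y h2).fderiv
  have h4 : (v ∘ fun y : V m => x + s • y) = fun y : V m => v (x + s • y) := rfl
  rw [h4] at h3
  rw [h3]
  ext z : 1
  simp

theorem pd_scaled {m : ℕ} {v : V m → V m} (hv : ContDiff ℝ ∞ v) (x : V m) (s : ℝ) (y : V m)
    (i j : Fin (m + 1)) :
    pd (fun y : V m => v (x + s • y)) i j y = s * pd v i j (x + s • y) := by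
  unfold pd
  rw [fderiv_scaled hv]
  simp

theorem integral_tra_eq_zero {m : ℕ} {v : V m → V m} (hv : ContDiff ℝ ∞ v)
    (hdiv : ∀ x, dvg v x = 0) (x : V m) {s : ℝ} (hs : s ≠ 0) :
    ∫ y : V m, bump y • tra v (x + s • y) y = 0 := by
  have hc : Continuous fun y : V m => tra v (x + s • y) y :=
    continuous_tra hv (by fun_prop) continuous_id
  have hint := integrable_bump_smul hc
  ext j
  have h1 : (∫ y : V m, bump y • tra v (x + s • y) y) j =
      ∫ y : V m, (bump y • tra v (x + s • y) y) j := by
    have h := (EuclideanSpace.proj (𝕜 := ℝ) j : V m →L[ℝ] ℝ).integral_comp_comm hint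
    exact h.symm
  rw [h1]
  have hw : ContDiff ℝ ∞ (fun y : V m => v (x + s • y)) := by
    apply hv.comp
    exact contDiff_const.add (contDiff_id.const_smul s)
  have hdw : ∀ y, dvg (fun y : V m => v (x + s • y)) y = 0 := by
    intro y
    unfold dvg
    simp only [pd_scaled hv]
    rw [← Finset.mul_sum]
    have := hdiv (x + s • y)
    unfold dvg at this
    rw [this, mul_zero]
  have h2 := integral_transpose_eq_zero hw hdw j
  simp only [pd_scaled hv] at h2
  have h3 : (fun y : V m => bump y * ∑ i, s * pd v j i (x + s • y) * y i) =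
      fun y : V m => s * (bump y * ∑ i, pd v j i (x + s • y) * y i) := by
    funext y
    simp only [mul_assoc]
    rw [← Finset.mul_sum]
    ring
  rw [h3, integral_const_mul] at h2
  have h4 : ∫ y : V m, bump y * ∑ i, pd v j i (x + s • y) * y i = 0 := by
    rcases mul_eq_zero.mp h2 with h | h
    · exact absurd h hs
    · exact h
  simpa [tra] using h4

/-- regularity of the integrand in `s` -/
theorem continuous_avg_Om {m : ℕ} {v : V m → V m} (hv : ContDiff ℝ ∞ v) (x : V m) :
    Continuous (fun s : ℝ => ∫ y : V m, bump y • Om v (x + s • y) y) := by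
  simp_rw [integral_bump_smul]
  apply continuous_parametric_integral_of_continuous
  · have hb : Continuous (bump : V m → ℝ) := bump_contDiff.continuous
    have h : Continuous fun q : ℝ × V m => bump q.2 • Om v (x + q.1 • q.2) q.2 :=
      (hb.comp continuous_snd).smul (continuous_Om hv (by fun_prop) continuous_snd)
    exact h
  · exact isCompact_closedBall 0 1

/-- The averaging formula:
`c0 v(x) = ∫ bump(y) v(x+δy) dy - ∫_0^δ ∫ bump(y) Om v (x+sy) y dy ds`.
(`A(s) = ∫ bump(y) v(x+sy) dy`, `A'(s) = ∫ bump(y) Dv(x+sy) y dy`, and the transposed part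
vanishes by `integral_transpose_eq_zero` applied to `w(y) = v(x+sy)`, `s > 0`.) -/
theorem avg_formula {m : ℕ} {v : V m → V m} (hv : ContDiff ℝ ∞ v)
    (hdiv : ∀ x, dvg v x = 0) (x : V m) {δ : ℝ} (hδ : 0 < δ) :
    c0 m • v x = (∫ y : V m, bump y • v (x + δ • y))
      - ∫ s in (0 : ℝ)..δ, ∫ y : V m, bump y • Om v (x + s • y) y := by
  have hvc : Continuous v := hv.continuous
  have hb : Continuous (bump : V m → ℝ) := bump_contDiff.continuous
  -- pointwise fundamental theorem of calculus
  have hftc : ∀ y : V m, bump y • v (x + δ • y) - bump y • v x =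
      ∫ s in (0 : ℝ)..δ, bump y • fderiv ℝ v (x + s • y) y := by
    intro y
    have hder : ∀ s : ℝ, HasDerivAt (fun s : ℝ => bump y • v (x + s • y))
        (bump y • fderiv ℝ v (x + s • y) y) s := by
      intro s
      have h1 : HasFDerivAt v (fderiv ℝ v (x + s • y)) (x + s • y) :=
        (hv.differentiable (by simp) _).hasFDerivAt
      have h2 : HasDerivAt (fun s : ℝ => x + s • y) y s := by
        have := ((hasDerivAt_id s).smul_const y).const_add x
        simpa using this
      exact (h1.comp_hasDerivAt s h2).const_smul (bump y)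
    have hcont : Continuous fun s : ℝ => bump y • fderiv ℝ v (x + s • y) y := by
      have h1 : Continuous (fderiv ℝ v) := hv.continuous_fderiv (by simp)
      have h2 : Continuous fun s : ℝ => fderiv ℝ v (x + s • y) :=
        h1.comp (by fun_prop)
      exact (h2.clm_apply continuous_const).const_smul (bump y)
    have := intervalIntegral.integral_eq_sub_of_hasDerivAt (a := 0) (b := δ)
      (fun s _ => hder s) (hcont.intervalIntegrable 0 δ)
    rw [this]
    simp
  have hint1 : Integrable (fun y : V m => bump y • v (x + δ • y)) :=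
    integrable_bump_smul (by fun_prop)
  have hint0 : Integrable (fun y : V m => bump y • v x) :=
    integrable_bump_smul continuous_const
  have hc0 : c0 m • v x = ∫ y : V m, bump y • v x := by
    unfold c0
    rw [integral_smul_const]
  have hsub : (∫ y : V m, bump y • v (x + δ • y)) - c0 m • v x =
      ∫ y : V m, ∫ s in (0 : ℝ)..δ, bump y • fderiv ℝ v (x + s • y) y := by
    rw [hc0, ← integral_sub hint1 hint0]
    exact integral_congr_ae (Eventually.of_forall hftc)
  -- swap
  have hswap : (∫ y : V m, ∫ s in (0 : ℝ)..δ, bump y • fderiv ℝ v (x + s • y) y) =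
      ∫ s in (0 : ℝ)..δ, ∫ y : V m, bump y • fderiv ℝ v (x + s • y) y := by
    have h1 : (fun y : V m => ∫ s in (0 : ℝ)..δ, bump y • fderiv ℝ v (x + s • y) y) =
        fun y : V m => bump y • ∫ s in (0 : ℝ)..δ, fderiv ℝ v (x + s • y) y := by
      funext y
      rw [intervalIntegral.integral_smul]
    rw [h1, integral_bump_smul]
    simp_rw [integral_bump_smul]
    simp_rw [intervalIntegral.integral_of_le hδ.le]
    have h2 : (fun y : V m => bump y • ∫ s in Ioc (0 : ℝ) δ, fderiv ℝ v (x + s • y) y) =
        fun y : V m => ∫ s in Ioc (0 : ℝ) δ, bump y • fderiv ℝ v (x + s • y) y := by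
      funext y
      rw [integral_smul]
    rw [h2]
    apply integral_integral_swap
    have hcont : Continuous (fun q : V m × ℝ => bump q.1 • fderiv ℝ v (x + q.2 • q.1) q.1) := by
      have h3 : Continuous (fderiv ℝ v) := hv.continuous_fderiv (by simp)
      have h4 : Continuous fun q : V m × ℝ => fderiv ℝ v (x + q.2 • q.1) :=
        h3.comp (by fun_prop)
      exact (hb.comp continuous_fst).smul (h4.clm_apply continuous_fst)
    have h5 : IntegrableOn (fun q : V m × ℝ => bump q.1 • fderiv ℝ v (x + q.2 • q.1) q.1)
        (Metric.closedBall (0 : V m) 1 ×ˢ Icc 0 δ) (volume.prod volume) :=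
      hcont.continuousOn.integrableOn_compact ((isCompact_closedBall 0 1).prod isCompact_Icc)
    have h6 := h5.mono_set (prod_mono (Subset.refl (Metric.closedBall (0 : V m) 1))
      (Ioc_subset_Icc_self (a := (0 : ℝ)) (b := δ)))
    rw [IntegrableOn, ← Measure.prod_restrict] at h6
    exact h6
  -- replace the derivative by `Om`
  have hrep : (∫ s in (0 : ℝ)..δ, ∫ y : V m, bump y • fderiv ℝ v (x + s • y) y) =
      ∫ s in (0 : ℝ)..δ, ∫ y : V m, bump y • Om v (x + s • y) y := by
    apply intervalIntegral.integral_congr_ae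
    apply Eventually.of_forall
    intro s hs
    have hs0 : s ≠ 0 := by
      rw [uIoc_of_le hδ.le] at hs
      exact hs.1.ne'
    have h1 : (fun y : V m => bump y • fderiv ℝ v (x + s • y) y) =
        fun y : V m => bump y • Om v (x + s • y) y + bump y • tra v (x + s • y) y := by
      funext y
      rw [fderiv_eq_Om_add, smul_add]
    rw [h1, integral_add, integral_tra_eq_zero hv hdiv x hs0, add_zero]
    · exact integrable_bump_smul (continuous_Om hv (by fun_prop) continuous_id)
    · exact integrable_bump_smul (continuous_tra hv (by fun_prop) continuous_id)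
  rw [← hrep, ← hswap, ← hsub]
  abel

end Pool.Agent.Lib.MP_c167ed_an
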