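import Pool.Agent.Lib.MP_c167ed_an.Defs

/-! The bump `(1-|y|²)_+²` and the key identity for divergence free fields. -/

open MeasureTheory Set Filter Topology
open scoped ContDiff ENNReal NNReal

namespace Pool.Agent.Lib.MP_c167ed_an

/-- `∫ bump`. -/
noncomputable def c0 (m : ℕ) : ℝ := ∫ y : V m, bump y

theorem bump_nonneg {m : ℕ} (y : V m) : 0 ≤ bump y := sq_nonneg _

/-- The function `(1-|y|²)_+`. -/
noncomputable def cutf {m : ℕ} (y : V m) : ℝ := max (1 - ‖y‖ ^ 2) 0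

lemma cutf_nonneg {m : ℕ} (y : V m) : 0 ≤ cutf y := le_max_right _ _

lemma cutf_le_one {m : ℕ} (y : V m) : cutf y ≤ 1 :=
  max_le (by linarith [sq_nonneg ‖y‖]) zero_le_one

lemma cutf_eq_zero {m : ℕ} {y : V m} (hy : 1 ≤ ‖y‖) : cutf y = 0 := by
  unfold cutf
  rw [max_eq_right]
  nlinarith [norm_nonneg y]

lemma bump_eq {m : ℕ} (y : V m) : bump y = cutf y ^ 2 := rfl

theorem bump_le_one {m : ℕ} (y : V m) : bump y ≤ 1 := by
  rw [bump_eq]
  nlinarith [cutf_nonneg y, cutf_le_one y]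

theorem bump_eq_zero {m : ℕ} {y : V m} (hy : 1 ≤ ‖y‖) : bump y = 0 := by
  rw [bump_eq, cutf_eq_zero hy]
  norm_num

lemma hasDerivAt_max_pow (n : ℕ) (s : ℝ) :
    HasDerivAt (fun t : ℝ => (max t 0) ^ (n + 2)) ((n + 2 : ℕ) * (max s 0) ^ (n + 1)) s := by
  rcases lt_trichotomy s 0 with hs | hs | hs
  · have h1 : (fun t : ℝ => (max t 0) ^ (n + 2)) =ᶠ[𝓝 s] fun _ => 0 := by
      filter_upwards [Iio_mem_nhds hs] with t ht
      rw [max_eq_right (le_of_lt ht), zero_pow (by omega)]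
    rw [max_eq_right hs.le, zero_pow (by omega), mul_zero]
    exact (hasDerivAt_const s (0 : ℝ)).congr_of_eventuallyEq h1
  · subst hs
    rw [max_self, zero_pow (by omega), mul_zero]
    rw [hasDerivAt_iff_isLittleO_nhds_zero]
    simp only [zero_add, max_self, ne_eq, Nat.add_eq_zero_iff, OfNat.ofNat_ne_zero, and_false,
      not_false_eq_true, zero_pow, sub_zero, smul_eq_mul, mul_zero]
    have h1 : (fun h : ℝ => (max h 0) ^ (n + 2)) =O[𝓝 0] fun h : ℝ => h ^ (n + 2) := by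
      refine Asymptotics.isBigO_of_le _ fun h => ?_
      rw [norm_pow, norm_pow]
      refine pow_le_pow_left₀ (norm_nonneg _) ?_ _
      rw [Real.norm_eq_abs, Real.norm_eq_abs, abs_of_nonneg (le_max_right _ _)]
      exact max_le (le_abs_self _) (abs_nonneg _)
    refine h1.trans_isLittleO ?_
    have h2 := Asymptotics.isLittleO_pow_id (𝕜 := ℝ) (n := n + 2) (by omega)
    exact h2
  · have h1 : (fun t : ℝ => (max t 0) ^ (n + 2)) =ᶠ[𝓝 s] fun t => t ^ (n + 2) := by
      filter_upwards [Ioi_mem_nhds hs] with t ht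
      rw [max_eq_left (le_of_lt ht)]
    rw [max_eq_left hs.le]
    have h2 := hasDerivAt_pow (n + 2) s
    exact h2.congr_of_eventuallyEq h1

lemma contDiff_max_pow (n : ℕ) : ContDiff ℝ 1 (fun t : ℝ => (max t 0) ^ (n + 2)) := by
  rw [contDiff_one_iff_deriv]
  refine ⟨fun s => (hasDerivAt_max_pow n s).differentiableAt, ?_⟩
  have h1 : deriv (fun t : ℝ => (max t 0) ^ (n + 2)) =
      fun s => ((n + 2 : ℕ) : ℝ) * (max s 0) ^ (n + 1) := by
    funext s
    exact (hasDerivAt_max_pow n s).deriv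
  rw [h1]
  fun_prop

lemma contDiff_one_sub_normSq {m : ℕ} : ContDiff ℝ 1 (fun y : V m => 1 - ‖y‖ ^ 2) :=
  contDiff_const.sub (contDiff_norm_sq ℝ)

/-- `bump` is `C¹`. -/
theorem bump_contDiff {m : ℕ} : ContDiff ℝ 1 (bump : V m → ℝ) :=
  (contDiff_max_pow 0).comp contDiff_one_sub_normSq

lemma hasCompactSupport_of_cutf {m : ℕ} {f : V m → ℝ} (hf : ∀ y, 1 ≤ ‖y‖ → f y = 0) :
    HasCompactSupport f := by
  refine HasCompactSupport.intro (isCompact_closedBall (0 : V m) 1) fun y hy => hf y ?_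
  rw [mem_closedBall_zero_iff, not_le] at hy
  exact hy.le

theorem bump_hasCompactSupport {m : ℕ} : HasCompactSupport (bump : V m → ℝ) :=
  hasCompactSupport_of_cutf fun _ hy => bump_eq_zero hy

theorem c0_pos (m : ℕ) : 0 < c0 m := by
  refine bump_contDiff.continuous.integral_pos_of_hasCompactSupport_nonneg_nonzero
    bump_hasCompactSupport bump_nonneg (x := 0) ?_
  rw [bump_eq]
  unfold cutf
  norm_num

lemma cutf_eq_min {m : ℕ} (y : V m) : cutf y = 1 - (min ‖y‖ 1) ^ 2 := by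
  unfold cutf
  rcases le_total ‖y‖ 1 with h | h
  · rw [min_eq_left h, max_eq_left]
    nlinarith [norm_nonneg y]
  · rw [min_eq_right h, max_eq_right]
    · norm_num
    · nlinarith [norm_nonneg y]

lemma cutf_lip {m : ℕ} (x y : V m) : |cutf x - cutf y| ≤ 2 * ‖x - y‖ := by
  rw [cutf_eq_min, cutf_eq_min]
  have h1 : |min ‖x‖ 1 - min ‖y‖ 1| ≤ ‖x - y‖ := by
    refine (abs_min_sub_min_le_max _ _ _ _).trans ?_
    rw [sub_self, abs_zero]
    exact max_le (abs_norm_sub_norm_le x y) (norm_nonneg _)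
  have h2 : 0 ≤ min ‖x‖ 1 := le_min (norm_nonneg _) zero_le_one
  have h3 : 0 ≤ min ‖y‖ 1 := le_min (norm_nonneg _) zero_le_one
  have h4 : min ‖x‖ 1 ≤ 1 := min_le_right _ _
  have h5 : min ‖y‖ 1 ≤ 1 := min_le_right _ _
  have e : 1 - min ‖x‖ 1 ^ 2 - (1 - min ‖y‖ 1 ^ 2) =
      (min ‖y‖ 1 - min ‖x‖ 1) * (min ‖x‖ 1 + min ‖y‖ 1) := by ring
  rw [e, abs_mul, abs_sub_comm, abs_of_nonneg (add_nonneg h2 h3)]
  calc |min ‖x‖ 1 - min ‖y‖ 1| * (min ‖x‖ 1 + min ‖y‖ 1) ≤ ‖x - y‖ * 2 :=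
        mul_le_mul h1 (by linarith) (add_nonneg h2 h3) (norm_nonneg _)
    _ = 2 * ‖x - y‖ := by ring

/-- `bump` is Lipschitz. -/
theorem bump_lip {m : ℕ} (x y : V m) : |bump x - bump y| ≤ 4 * ‖x - y‖ := by
  rw [bump_eq, bump_eq]
  have e : cutf x ^ 2 - cutf y ^ 2 = (cutf x - cutf y) * (cutf x + cutf y) := by ring
  have h := cutf_nonneg x
  have h' := cutf_nonneg y
  rw [e, abs_mul, abs_of_nonneg (add_nonneg h h')]
  calc |cutf x - cutf y| * (cutf x + cutf y) ≤ (2 * ‖x - y‖) * 2 :=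
        mul_le_mul (cutf_lip x y) (by linarith [cutf_le_one x, cutf_le_one y])
          (add_nonneg h h') (by positivity)
    _ = 4 * ‖x - y‖ := by ring

lemma bump_smul_lip_aux {m : ℕ} (x y : V m) (hy : ‖y‖ ≤ 1) :
    ‖bump x • x - bump y • y‖ ≤ 5 * ‖x - y‖ := by
  have e : bump x • x - bump y • y = bump x • (x - y) + (bump x - bump y) • y := by module
  rw [e]
  refine (norm_add_le _ _).trans ?_
  rw [norm_smul, norm_smul, Real.norm_eq_abs, Real.norm_eq_abs, abs_of_nonneg (bump_nonneg x)]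
  have h1 : bump x * ‖x - y‖ ≤ 1 * ‖x - y‖ :=
    mul_le_mul_of_nonneg_right (bump_le_one x) (norm_nonneg _)
  have h2 : |bump x - bump y| * ‖y‖ ≤ (4 * ‖x - y‖) * 1 :=
    mul_le_mul (bump_lip x y) hy (norm_nonneg _) (by positivity)
  linarith

/-- `y ↦ bump y • y` is Lipschitz. -/
theorem bump_smul_lip {m : ℕ} (x y : V m) : ‖bump x • x - bump y • y‖ ≤ 5 * ‖x - y‖ := by
  rcases le_total ‖y‖ 1 with hy | hy
  · exact bump_smul_lip_aux x y hy
  rcases le_total ‖x‖ 1 with hx | hx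
  · rw [norm_sub_rev, norm_sub_rev x y]
    exact bump_smul_lip_aux y x hx
  · rw [bump_eq_zero hx, bump_eq_zero hy, zero_smul, zero_smul, sub_zero, norm_zero]
    positivity

theorem curl_nonneg {m : ℕ} (v : V m → V m) (x : V m) : 0 ≤ curl v x := Real.sqrt_nonneg _

/-- `‖Om v x y‖ ≤ 2 |curl v x| ‖y‖` (Cauchy-Schwarz). -/
theorem norm_Om_le {m : ℕ} (v : V m → V m) (x y : V m) : ‖Om v x y‖ ≤ 2 * curl v x * ‖y‖ := by
  set S : ℝ := ∑ i, ∑ j, (pd v i j x - pd v j i x) ^ 2 with hS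
  have hS0 : 0 ≤ S := Finset.sum_nonneg fun i _ => Finset.sum_nonneg fun j _ => sq_nonneg _
  have h1 : ‖Om v x y‖ ^ 2 ≤ S * ‖y‖ ^ 2 := by
    rw [EuclideanSpace.norm_sq_eq, EuclideanSpace.norm_sq_eq]
    have h2 : ∀ j, ‖(Om v x y) j‖ ^ 2 ≤
        (∑ i, (pd v i j x - pd v j i x) ^ 2) * ∑ i, ‖y i‖ ^ 2 := by
      intro j
      have h3 : (Om v x y) j = ∑ i, (pd v i j x - pd v j i x) * y i := rfl
      rw [h3, Real.norm_eq_abs, sq_abs]
      refine (Finset.sum_mul_sq_le_sq_mul_sq _ _ _).trans (le_of_eq ?_)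
      congr 1
      refine Finset.sum_congr rfl fun i _ => ?_
      rw [Real.norm_eq_abs, sq_abs]
    refine (Finset.sum_le_sum fun j _ => h2 j).trans (le_of_eq ?_)
    rw [← Finset.sum_mul, hS, Finset.sum_comm]
  have h4 : curl v x ^ 2 = S / 2 := by
    unfold curl
    rw [Real.sq_sqrt (by positivity)]
  have h5 : ‖Om v x y‖ ^ 2 ≤ (2 * curl v x * ‖y‖) ^ 2 := by
    have e : (2 * curl v x * ‖y‖) ^ 2 = 4 * curl v x ^ 2 * ‖y‖ ^ 2 := by ring
    rw [e, h4]
    refine h1.trans ?_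
    have := mul_nonneg hS0 (sq_nonneg ‖y‖)
    nlinarith
  exact le_of_sq_le_sq h5 (by have := curl_nonneg v x; positivity)

/-- The potential `(1-|y|^2)_+^3 / 6`. -/
noncomputable def Psi {m : ℕ} (y : V m) : ℝ := (max (1 - ‖y‖ ^ 2) 0) ^ 3 / 6

lemma Psi_hasFDerivAt {m : ℕ} (y : V m) :
    HasFDerivAt (Psi : V m → ℝ) (-(bump y) • innerSL ℝ y) y := by
  have h1 : HasFDerivAt (fun y : V m => 1 - ‖y‖ ^ 2) (-(2 • innerSL ℝ y)) y := by
    have h2 := (hasStrictFDerivAt_norm_sq y).hasFDerivAt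
    exact h2.const_sub 1
  have h3 := (hasDerivAt_max_pow 1 (1 - ‖y‖ ^ 2)).comp_hasFDerivAt y h1
  have h4 := h3.const_mul (1 / 6 : ℝ)
  have e1 : (fun y : V m => (1 / 6 : ℝ) * ((fun t : ℝ => (max t 0) ^ (1 + 2)) ∘
      fun y : V m => 1 - ‖y‖ ^ 2) y) = (Psi : V m → ℝ) := by
    funext z
    unfold Psi
    simp only [Function.comp_apply]
    ring
  rw [e1] at h4
  refine h4.congr_fderiv ?_
  unfold bump
  push_cast
  module

lemma Psi_contDiff {m : ℕ} : ContDiff ℝ 1 (Psi : V m → ℝ) :=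
  ((contDiff_max_pow 1).comp contDiff_one_sub_normSq).div_const 6

lemma Psi_hasCompactSupport {m : ℕ} : HasCompactSupport (Psi : V m → ℝ) := by
  refine hasCompactSupport_of_cutf fun y hy => ?_
  have h := cutf_eq_zero hy
  unfold cutf at h
  unfold Psi
  rw [h]
  norm_num

lemma fderiv_Psi {m : ℕ} (y : V m) (j : Fin (m + 1)) :
    fderiv ℝ (Psi : V m → ℝ) y (EuclideanSpace.single j 1) = -(bump y * y j) := by
  rw [(Psi_hasFDerivAt y).fderiv]
  simp [EuclideanSpace.inner_single_right]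

lemma pd_hasFDerivAt {m : ℕ} {w : V m → V m} (hw : ContDiff ℝ ∞ w) (i j : Fin (m + 1)) (y : V m) :
    HasFDerivAt (pd w i j) ((EuclideanSpace.proj j : V m →L[ℝ] ℝ).comp
      ((fderiv ℝ (fderiv ℝ w) y).flip (EuclideanSpace.single i 1))) y := by
  have h1 : ContDiff ℝ ∞ (fderiv ℝ w) := hw.fderiv_right (by simp)
  have h2 : HasFDerivAt (fderiv ℝ w) (fderiv ℝ (fderiv ℝ w) y) y :=
    (h1.differentiable (by simp) y).hasFDerivAt
  have h3 := h2.clm_apply (hasFDerivAt_const (EuclideanSpace.single i (1 : ℝ) : V m) y)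
  have h4 := (EuclideanSpace.proj j : V m →L[ℝ] ℝ).hasFDerivAt.comp y h3
  have e : ((fderiv ℝ w y).comp (0 : V m →L[ℝ] V m) +
      (fderiv ℝ (fderiv ℝ w) y).flip (EuclideanSpace.single i 1)) =
      (fderiv ℝ (fderiv ℝ w) y).flip (EuclideanSpace.single i 1) := by
    rw [ContinuousLinearMap.comp_zero, zero_add]
  rw [e] at h4
  exact h4

lemma pd_contDiff {m : ℕ} {w : V m → V m} (hw : ContDiff ℝ ∞ w) (i j : Fin (m + 1)) :
    ContDiff ℝ ∞ (pd w i j) := by
  have h1 : ContDiff ℝ ∞ (fderiv ℝ w) := hw.fderiv_right (by simp)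
  exact (EuclideanSpace.proj j : V m →L[ℝ] ℝ).contDiff.comp (h1.clm_apply contDiff_const)

lemma fderiv_pd_symm {m : ℕ} {w : V m → V m} (hw : ContDiff ℝ ∞ w) (i j : Fin (m + 1))
    (y : V m) :
    fderiv ℝ (pd w i j) y (EuclideanSpace.single j 1) =
      fderiv ℝ (pd w j j) y (EuclideanSpace.single i 1) := by
  rw [(pd_hasFDerivAt hw i j y).fderiv, (pd_hasFDerivAt hw j j y).fderiv]
  have h1 : IsSymmSndFDerivAt ℝ w y :=
    (hw.contDiffAt (x := y)).isSymmSndFDerivAt (by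
      rw [minSmoothness_of_isRCLikeNormedField]
      exact WithTop.coe_le_coe.mpr (le_top : (2 : ℕ∞) ≤ ⊤))
  have h2 := h1.eq (EuclideanSpace.single j (1 : ℝ)) (EuclideanSpace.single i (1 : ℝ))
  change (fderiv ℝ (fderiv ℝ w) y (EuclideanSpace.single j 1) (EuclideanSpace.single i 1)) j =
    (fderiv ℝ (fderiv ℝ w) y (EuclideanSpace.single i 1) (EuclideanSpace.single j 1)) j
  rw [h2]

/-- Key identity: `∫ bump(y) (Dw(y))ᵀ y dy = 0` for `w` smooth and divergence free: with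
`Ψ(y) = (1-|y|^2)_+^3 / 6`, `∂_j Ψ = - y_j bump`, and
`∑_j ∫ ∂_i w_j ∂_j Ψ = - ∫ Ψ ∂_i (div w) = 0` (symmetry of the second derivative). -/
theorem integral_transpose_eq_zero {m : ℕ} {w : V m → V m} (hw : ContDiff ℝ ∞ w)
    (hdiv : ∀ x, dvg w x = 0) (i : Fin (m + 1)) :
    ∫ y : V m, bump y * ∑ j, pd w i j y * y j = 0 := by
  have hc : ∀ j, Continuous (pd w i j) := fun j => (pd_contDiff hw i j).continuous
  have hc2 : ∀ j, Continuous (fun y => fderiv ℝ (pd w i j) y (EuclideanSpace.single j 1)) :=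
    fun j => ((pd_contDiff hw i j).continuous_fderiv (by simp)).clm_apply continuous_const
  have hPc : Continuous (Psi : V m → ℝ) := Psi_contDiff.continuous
  have hP2 : ∀ j, Continuous (fun y => fderiv ℝ (Psi : V m → ℝ) y (EuclideanSpace.single j 1)) :=
    fun j => (Psi_contDiff.continuous_fderiv (by simp)).clm_apply continuous_const
  have hPs : ∀ j, HasCompactSupport
      (fun y => fderiv ℝ (Psi : V m → ℝ) y (EuclideanSpace.single j 1)) := fun j =>
    (Psi_hasCompactSupport.fderiv ℝ).comp_left (g := fun L : V m →L[ℝ] ℝ =>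
      L (EuclideanSpace.single j 1)) rfl
  have hI1 : ∀ j, Integrable (fun y => fderiv ℝ (pd w i j) y (EuclideanSpace.single j 1) *
      (Psi y)) := fun j =>
    ((hc2 j).mul hPc).integrable_of_hasCompactSupport Psi_hasCompactSupport.mul_left
  have hI2 : ∀ j, Integrable (fun y => pd w i j y *
      fderiv ℝ (Psi : V m → ℝ) y (EuclideanSpace.single j 1)) := fun j =>
    ((hc j).mul (hP2 j)).integrable_of_hasCompactSupport (hPs j).mul_left
  have hI3 : ∀ j, Integrable (fun y => pd w i j y * Psi y) := fun j =>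
    ((hc j).mul hPc).integrable_of_hasCompactSupport Psi_hasCompactSupport.mul_left
  have h1 : ∀ j, ∫ y, pd w i j y * fderiv ℝ (Psi : V m → ℝ) y (EuclideanSpace.single j 1) =
      - ∫ y, fderiv ℝ (pd w i j) y (EuclideanSpace.single j 1) * Psi y := fun j =>
    integral_mul_fderiv_eq_neg_fderiv_mul_of_integrable (hI1 j) (hI2 j) (hI3 j)
      (fun x _ => (pd_contDiff hw i j).differentiable (by simp) x)
      (fun x _ => (Psi_hasFDerivAt x).differentiableAt)
  have e1 : (fun y : V m => bump y * ∑ j, pd w i j y * y j) =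
      fun y => -∑ j, pd w i j y * fderiv ℝ (Psi : V m → ℝ) y (EuclideanSpace.single j 1) := by
    funext y
    rw [Finset.mul_sum, ← Finset.sum_neg_distrib]
    refine Finset.sum_congr rfl fun j _ => ?_
    rw [fderiv_Psi]
    ring
  rw [e1, integral_neg, integral_finsetSum _ fun j _ => hI2 j]
  rw [Finset.sum_congr rfl fun j _ => h1 j, Finset.sum_neg_distrib,
    ← integral_finsetSum _ fun j _ => hI1 j, neg_neg]
  have e2 : (fun y : V m => ∑ j, fderiv ℝ (pd w i j) y (EuclideanSpace.single j 1) * Psi y) =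
      fun _ => 0 := by
    funext y
    rw [← Finset.sum_mul]
    have h2 : ∑ j, fderiv ℝ (pd w i j) y (EuclideanSpace.single j 1) = 0 := by
      rw [Finset.sum_congr rfl fun j _ => fderiv_pd_symm hw i j y]
      have h3 : fderiv ℝ (dvg w) y (EuclideanSpace.single i 1) =
          ∑ j, fderiv ℝ (pd w j j) y (EuclideanSpace.single i 1) := by
        have h4 : HasFDerivAt (dvg w) (∑ j, fderiv ℝ (pd w j j) y) y := by
          unfold dvg
          exact HasFDerivAt.fun_sum fun j _ =>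
            ((pd_contDiff hw j j).differentiable (by simp) y).hasFDerivAt
        rw [h4.fderiv, _root_.sum_apply]
      rw [← h3]
      have h5 : dvg w = fun _ => 0 := funext hdiv
      rw [h5]
      simp
    rw [h2, zero_mul]
  rw [e2, integral_zero]

end Pool.Agent.Lib.MP_c167ed_an
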