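import Pool.Agent.Lib.MP_c167ed_an.Defs

/-! Axisymmetric fields without swirl: elementary facts. -/

open MeasureTheory Set Filter Topology
open scoped ContDiff ENNReal NNReal

namespace Pool.Agent.Lib.MP_c167ed_an

theorem rad_nonneg {m : ℕ} (x : V m) : 0 ≤ rad x := Real.sqrt_nonneg _

theorem continuous_rad {m : ℕ} : Continuous (rad : V m → ℝ) := by
  unfold rad
  fun_prop

theorem continuous_ax {m : ℕ} : Continuous (ax : V m → ℝ) := by
  unfold ax
  fun_prop

theorem norm_sq_eq {m : ℕ} (x : V m) :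
    ‖x‖ ^ 2 = (∑ i : Fin m, (x i.castSucc) ^ 2) + (x (Fin.last m)) ^ 2 := by
  rw [EuclideanSpace.norm_sq_eq, Fin.sum_univ_castSucc]
  simp only [Real.norm_eq_abs, sq_abs]

theorem rad_sq {m : ℕ} (x : V m) : rad x ^ 2 = ∑ i : Fin m, (x i.castSucc) ^ 2 :=
  Real.sq_sqrt (Finset.sum_nonneg fun _ _ => sq_nonneg _)

theorem rad_le_norm {m : ℕ} (x : V m) : rad x ≤ ‖x‖ := by
  refine le_of_sq_le_sq ?_ (norm_nonneg x)
  rw [norm_sq_eq, rad_sq]
  exact le_add_of_nonneg_right (sq_nonneg _)

/-- projection to the axis -/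
noncomputable def axpt {m : ℕ} (x : V m) : V m := EuclideanSpace.single (Fin.last m) (ax x)

theorem axpt_castSucc {m : ℕ} (x : V m) (i : Fin m) : axpt x i.castSucc = 0 := by
  unfold axpt
  rw [PiLp.single_apply, if_neg (Fin.castSucc_ne_last i)]

theorem axpt_last {m : ℕ} (x : V m) : axpt x (Fin.last m) = ax x := by
  unfold axpt
  rw [PiLp.single_apply, if_pos rfl]

theorem norm_sub_axpt {m : ℕ} (x : V m) : ‖x - axpt x‖ = rad x := by
  have h : ‖x - axpt x‖ ^ 2 = rad x ^ 2 := by
    rw [norm_sq_eq, rad_sq]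
    simp only [PiLp.sub_apply, axpt_castSucc, axpt_last, sub_zero]
    unfold ax
    ring
  exact (sq_eq_sq₀ (norm_nonneg _) (rad_nonneg x)).mp h

/-- `rad` is 1-Lipschitz -/
theorem rad_sub_le {m : ℕ} (x y : V m) : |rad x - rad y| ≤ ‖x - y‖ := by
  rw [← norm_sub_axpt x, ← norm_sub_axpt y]
  refine (abs_norm_sub_norm_le _ _).trans ?_
  have h : x - axpt x - (y - axpt y) = (x - y) - axpt (x - y) := by
    have : axpt (x - y) = axpt x - axpt y := by
      unfold axpt ax
      rw [PiLp.sub_apply]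
      ext i
      rw [PiLp.sub_apply, PiLp.single_apply, PiLp.single_apply, PiLp.single_apply]
      split_ifs <;> simp
    rw [this]; abel
  rw [h, norm_sub_axpt]
  exact rad_le_norm _

theorem rad_axpt {m : ℕ} (x : V m) : rad (axpt x) = 0 := by
  unfold rad
  simp [axpt_castSucc]

theorem emb_castSucc {m : ℕ} (r z : ℝ) (i : Fin m) :
    (emb r z : V m) i.castSucc = if i.castSucc = 0 then r else 0 := by
  unfold emb
  rw [PiLp.add_apply, PiLp.single_apply, PiLp.single_apply,
    if_neg (Fin.castSucc_ne_last i), add_zero]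

theorem castSucc_zero' {m : ℕ} (hm : 1 ≤ m) :
    (Fin.castSucc (⟨0, hm⟩ : Fin m)) = (0 : Fin (m + 1)) := rfl

theorem castSucc_eq_zero' {m : ℕ} (hm : 1 ≤ m) (i : Fin m) :
    i.castSucc = (0 : Fin (m + 1)) ↔ i = ⟨0, hm⟩ := by
  rw [← castSucc_zero' hm]
  exact Fin.castSucc_inj

/-- `∑_i v_i(x) x_i = r v_0(x)` for `x = (r,0,…,0,z)` -/
theorem sum_emb {m : ℕ} (hm : 1 ≤ m) (y : V m) (r z : ℝ) :
    (∑ i : Fin m, y i.castSucc * (emb r z : V m) i.castSucc) = y 0 * r := by
  rw [Finset.sum_eq_single (⟨0, hm⟩ : Fin m)]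
  · rw [emb_castSucc, castSucc_zero' hm, if_pos rfl]
  · intro i _ hi
    rw [emb_castSucc, if_neg (fun h => hi ((castSucc_eq_zero' hm i).mp h)), mul_zero]
  · intro h; exact absurd (Finset.mem_univ _) h

theorem emb_zero {m : ℕ} (hm : 1 ≤ m) (r z : ℝ) : (emb r z : V m) 0 = r := by
  have := emb_castSucc r z (⟨0, hm⟩ : Fin m)
  rw [castSucc_zero' hm, if_pos rfl] at this
  exact this

theorem rad_emb {m : ℕ} (hm : 1 ≤ m) (r z : ℝ) : rad (emb r z : V m) = |r| := by
  have h := sum_emb hm (emb r z : V m) r z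
  rw [emb_zero hm] at h
  unfold rad
  simp only [sq]
  rw [h, ← sq, Real.sqrt_sq_eq_abs]

theorem ax_emb {m : ℕ} (hm : 1 ≤ m) (r z : ℝ) : ax (emb r z : V m) = z := by
  unfold ax emb
  have h0 : (Fin.last m) ≠ 0 := by
    intro h
    have := congrArg Fin.val h
    simp at this
    omega
  rw [PiLp.add_apply, PiLp.single_apply, PiLp.single_apply, if_neg h0, if_pos rfl, zero_add]

theorem axisym_apply {m : ℕ} (hm : 1 ≤ m) {v : V m → V m} (hv : AxisymNoSwirl v) {x : V m}
    (hx : 0 < rad x) :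
    (∀ i : Fin m, v x i.castSucc = v (emb (rad x) (ax x)) 0 * (x i.castSucc / rad x)) ∧
      v x (Fin.last m) = v (emb (rad x) (ax x)) (Fin.last m) := by
  obtain ⟨a, b, hab⟩ := hv
  have hre : rad (emb (rad x) (ax x) : V m) = rad x := by
    rw [rad_emb hm, abs_of_nonneg (rad_nonneg x)]
  have hae : ax (emb (rad x) (ax x) : V m) = ax x := ax_emb hm _ _
  have hA : v (emb (rad x) (ax x)) 0 = a (rad x) (ax x) := by
    have h := (hab (emb (rad x) (ax x)) (by rw [hre]; exact hx.ne')).1 ⟨0, hm⟩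
    rw [castSucc_zero' hm, hre, hae, emb_zero hm, div_self hx.ne', mul_one] at h
    exact h
  refine ⟨fun i => ?_, ?_⟩
  · rw [hA]; exact (hab x hx.ne').1 i
  · rw [(hab x hx.ne').2, (hab (emb (rad x) (ax x)) (by rw [hre]; exact hx.ne')).2, hre, hae]

theorem castSucc_eq_zero_of_rad {m : ℕ} {x : V m} (hx : rad x = 0) (i : Fin m) :
    x i.castSucc = 0 := by
  have h := rad_sq x
  rw [hx, zero_pow two_ne_zero] at h
  have h2 := (Finset.sum_eq_zero_iff_of_nonneg (fun i _ => sq_nonneg (x (Fin.castSucc i)))).mp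
    h.symm i (Finset.mem_univ i)
  exact pow_eq_zero_iff (two_ne_zero) |>.mp h2

/-- moving away from a point of the axis -/
theorem rad_add_single {m : ℕ} {x : V m} (hx : rad x = 0) (i : Fin m) (t : ℝ) :
    rad (x + EuclideanSpace.single i.castSucc t) = |t| := by
  have h : rad (x + EuclideanSpace.single i.castSucc t) ^ 2 = |t| ^ 2 := by
    rw [rad_sq, sq_abs, Finset.sum_eq_single i]
    · rw [PiLp.add_apply, castSucc_eq_zero_of_rad hx, PiLp.single_apply, if_pos rfl, zero_add]
    · intro j _ hj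
      rw [PiLp.add_apply, castSucc_eq_zero_of_rad hx, PiLp.single_apply,
        if_neg (fun h => hj (Fin.castSucc_injective m h)), zero_add,
        zero_pow two_ne_zero]
    · intro h; exact absurd (Finset.mem_univ _) h
  exact (sq_eq_sq₀ (rad_nonneg _) (abs_nonneg t)).mp h

/-- on the axis a continuous axisymmetric field without swirl is parallel to the axis -/
theorem axisym_axis {m : ℕ} (hm : 1 ≤ m) {v : V m → V m} (hc : Continuous v)
    (hv : AxisymNoSwirl v) {x : V m} (hx : rad x = 0) (i : Fin m) : v x i.castSucc = 0 := by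
  obtain ⟨a, b, hab⟩ := hv
  set f : ℝ → ℝ := fun t => v (x + EuclideanSpace.single i.castSucc t) i.castSucc +
    v (x + EuclideanSpace.single i.castSucc (-t)) i.castSucc with hf
  have hsing : Continuous fun t : ℝ => (EuclideanSpace.single i.castSucc t : V m) := by
    have : (fun t : ℝ => (EuclideanSpace.single i.castSucc t : V m)) =
        fun t : ℝ => t • (EuclideanSpace.single i.castSucc (1 : ℝ) : V m) := by
      funext t
      ext j
      rw [PiLp.smul_apply, PiLp.single_apply, PiLp.single_apply]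
      split_ifs <;> simp
    rw [this]
    fun_prop
  have hcoord : ∀ j : Fin (m + 1), Continuous fun y : V m => y j := fun j => by fun_prop
  have hfc : Continuous f := by
    refine Continuous.add ?_ ?_
    · exact (hcoord _).comp (hc.comp (continuous_const.add hsing))
    · exact (hcoord _).comp (hc.comp (continuous_const.add (hsing.comp continuous_neg)))
  have hax : ∀ t : ℝ, ax (x + EuclideanSpace.single i.castSucc t) = ax x := by
    intro t
    unfold ax
    rw [PiLp.add_apply, PiLp.single_apply, if_neg (Fin.castSucc_ne_last i).symm, add_zero]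
  have hco : ∀ t : ℝ, (x + EuclideanSpace.single i.castSucc t : V m) i.castSucc = t := by
    intro t
    rw [PiLp.add_apply, castSucc_eq_zero_of_rad hx, PiLp.single_apply, if_pos rfl, zero_add]
  have hf0 : ∀ t : ℝ, t ≠ 0 → f t = 0 := by
    intro t ht
    have h1 := (hab (x + EuclideanSpace.single i.castSucc t) (by
      rw [rad_add_single hx]; exact abs_ne_zero.mpr ht)).1 i
    have h2 := (hab (x + EuclideanSpace.single i.castSucc (-t)) (by
      rw [rad_add_single hx]; exact abs_ne_zero.mpr (neg_ne_zero.mpr ht))).1 i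
    simp only [hf]
    rw [h1, h2, rad_add_single hx, rad_add_single hx, hax, hax, hco, hco, abs_neg]
    ring
  have h0 : f 0 = 0 := by
    have hlim : Tendsto f (𝓝[≠] 0) (𝓝 (f 0)) := hfc.continuousAt.tendsto.mono_left
      nhdsWithin_le_nhds
    have hev : f =ᶠ[𝓝[≠] 0] fun _ => (0 : ℝ) := by
      filter_upwards [self_mem_nhdsWithin] with t ht
      exact hf0 t ht
    exact tendsto_nhds_unique (hlim.congr' hev) tendsto_const_nhds
  simp only [hf, neg_zero] at h0
  have hz : (x + EuclideanSpace.single i.castSucc (0 : ℝ) : V m) = x := by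
    rw [show (EuclideanSpace.single i.castSucc (0 : ℝ) : V m) = 0 by simp, add_zero]
  rw [hz] at h0
  linarith

theorem norm_sq_axisym {m : ℕ} (hm : 1 ≤ m) {v : V m → V m} (hv : AxisymNoSwirl v) {x : V m}
    (hx : 0 < rad x) : ‖v x‖ ^ 2 = (v (emb (rad x) (ax x)) 0) ^ 2 +
      (v (emb (rad x) (ax x)) (Fin.last m)) ^ 2 := by
  obtain ⟨h1, h2⟩ := axisym_apply hm hv hx
  rw [norm_sq_eq, h2]
  congr 1
  simp only [h1, mul_pow, div_pow]
  rw [← Finset.mul_sum, ← Finset.sum_div, ← rad_sq, div_self (pow_ne_zero 2 hx.ne'), mul_one]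

/-- `|v|` is a function of `(r,z)` -/
theorem norm_axisym {m : ℕ} (hm : 1 ≤ m) {v : V m → V m} (hv : AxisymNoSwirl v) {x : V m}
    (hx : 0 < rad x) : ‖v x‖ = ‖v (emb (rad x) (ax x))‖ := by
  have hre : rad (emb (rad x) (ax x) : V m) = rad x := by
    rw [rad_emb hm, abs_of_nonneg (rad_nonneg x)]
  have hae : ax (emb (rad x) (ax x) : V m) = ax x := ax_emb hm _ _
  have h1 := norm_sq_axisym hm hv hx
  have h2 := norm_sq_axisym hm hv (x := emb (rad x) (ax x)) (by rw [hre]; exact hx)
  rw [hre, hae] at h2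
  exact (sq_eq_sq₀ (norm_nonneg _) (norm_nonneg _)).mp (h1.trans h2.symm)

theorem abs_pd_le {m : ℕ} (v : V m → V m) (i j : Fin (m + 1)) (x : V m) :
    |pd v i j x| ≤ ‖iteratedFDeriv ℝ 1 v x‖ := by
  rw [norm_iteratedFDeriv_one]
  unfold pd
  have h1 : ‖(fderiv ℝ v x (EuclideanSpace.single i 1)) j‖ ≤
      ‖fderiv ℝ v x (EuclideanSpace.single i 1)‖ := PiLp.norm_apply_le _ j
  have h2 : ‖fderiv ℝ v x (EuclideanSpace.single i (1 : ℝ))‖ ≤ ‖fderiv ℝ v x‖ := by
    refine (ContinuousLinearMap.le_opNorm _ _).trans ?_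
    simp
  rw [← Real.norm_eq_abs]
  exact h1.trans h2

/-- crude bound of the vorticity by the gradient -/
theorem curl_le {m : ℕ} (v : V m → V m) (x : V m) :
    curl v x ≤ 2 * (m + 1) * ‖iteratedFDeriv ℝ 1 v x‖ := by
  set N := ‖iteratedFDeriv ℝ 1 v x‖ with hN
  have hN0 : 0 ≤ N := norm_nonneg _
  unfold curl
  refine Real.sqrt_le_iff.mpr ⟨by positivity, ?_⟩
  have h1 : ∀ i j : Fin (m + 1), (pd v i j x - pd v j i x) ^ 2 ≤ (2 * N) ^ 2 := by
    intro i j
    have ha := abs_pd_le v i j x
    have hb := abs_pd_le v j i x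
    rw [← sq_abs]
    refine pow_le_pow_left₀ (abs_nonneg _) ?_ 2
    calc |pd v i j x - pd v j i x| ≤ |pd v i j x| + |pd v j i x| := abs_sub _ _
      _ ≤ 2 * N := by rw [hN]; linarith
  have h2 : ∑ i : Fin (m + 1), ∑ j : Fin (m + 1), (pd v i j x - pd v j i x) ^ 2 ≤
      ∑ i : Fin (m + 1), ∑ j : Fin (m + 1), (2 * N) ^ 2 :=
    Finset.sum_le_sum fun i _ => Finset.sum_le_sum fun j _ => h1 i j
  simp only [Finset.sum_const, Finset.card_univ, Fintype.card_fin, nsmul_eq_mul] at h2
  push_cast at h2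
  nlinarith [sq_nonneg (((m : ℝ) + 1) * N)]

theorem continuous_pd {m : ℕ} {v : V m → V m} (hC : ContDiff ℝ ∞ v) (i j : Fin (m + 1)) :
    Continuous (pd v i j) := by
  unfold pd
  have h1 : Continuous (fderiv ℝ v) := hC.continuous_fderiv (by simp)
  have h2 : Continuous fun x => fderiv ℝ v x (EuclideanSpace.single i (1 : ℝ)) :=
    h1.clm_apply continuous_const
  have h3 : Continuous fun y : V m => y j := by fun_prop
  exact h3.comp h2

/-- continuity of `curl v` -/
theorem continuous_curl {m : ℕ} {v : V m → V m} (hC : ContDiff ℝ ∞ v) : Continuous (curl v) := by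
  unfold curl
  refine Real.continuous_sqrt.comp ?_
  refine Continuous.div_const ?_ 2
  refine continuous_finsetSum _ fun i _ => continuous_finsetSum _ fun j _ => ?_
  exact ((continuous_pd hC i j).sub (continuous_pd hC j i)).pow 2

/-- points off the axis are dense -/
theorem curl_le_of_off_axis {m : ℕ} (hm : 1 ≤ m) {v : V m → V m} (hC : ContDiff ℝ ∞ v) {C : ℝ}
    (h : ∀ x, 0 < rad x → curl v x ≤ C) (x : V m) : curl v x ≤ C := by
  rcases (rad_nonneg x).lt_or_eq with hx | hx
  · exact h x hx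
  · set i : Fin m := ⟨0, hm⟩
    have hsing : Continuous fun t : ℝ => (EuclideanSpace.single i.castSucc t : V m) := by
      have : (fun t : ℝ => (EuclideanSpace.single i.castSucc t : V m)) =
          fun t : ℝ => t • (EuclideanSpace.single i.castSucc (1 : ℝ) : V m) := by
        funext t
        ext j
        rw [PiLp.smul_apply, PiLp.single_apply, PiLp.single_apply]
        split_ifs <;> simp
      rw [this]
      fun_prop
    have hcont : Continuous fun t : ℝ =>
        curl v (x + EuclideanSpace.single i.castSucc t) :=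
      (continuous_curl hC).comp (continuous_const.add hsing)
    have hz : (x + EuclideanSpace.single i.castSucc (0 : ℝ) : V m) = x := by
      rw [show (EuclideanSpace.single i.castSucc (0 : ℝ) : V m) = 0 by simp, add_zero]
    have hlim : Tendsto (fun t : ℝ => curl v (x + EuclideanSpace.single i.castSucc t))
        (𝓝[≠] 0) (𝓝 (curl v x)) := by
      have := hcont.continuousAt (x := 0)
      unfold ContinuousAt at this
      simp only [hz] at this
      exact this.mono_left nhdsWithin_le_nhds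
    refine le_of_tendsto hlim ?_
    filter_upwards [self_mem_nhdsWithin] with t ht
    apply h
    rw [rad_add_single hx.symm]
    exact abs_pos.mpr ht

end Pool.Agent.Lib.MP_c167ed_an
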