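import Pool.Agent.Lib.MP_c167ed_an.Polar
import Pool.Agent.Lib.MP_c167ed_an.PlanarA

/-! Axisymmetric functions on small balls away from the axis. -/

open MeasureTheory Set Filter Topology
open scoped ContDiff ENNReal NNReal

namespace Pool.Agent.Lib.MP_c167ed_an

namespace Cap

theorem norm_sq {m : ℕ} (x : V m) : ‖x‖ ^ 2 = rad x ^ 2 + ax x ^ 2 := by
  rw [EuclideanSpace.real_norm_sq_eq, Fin.sum_univ_castSucc, rad, ax, Real.sq_sqrt]
  exact Finset.sum_nonneg fun i _ => sq_nonneg _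

theorem rad_nn {m : ℕ} (x : V m) : 0 ≤ rad x := Real.sqrt_nonneg _

theorem rad_eq_of {m : ℕ} {x y : V m} (h1 : ‖x‖ = ‖y‖) (h2 : ax x = ax y) : rad x = rad y := by
  have h3 := norm_sq x
  have h4 := norm_sq y
  rw [h1, h2] at h3
  have h5 : rad x ^ 2 = rad y ^ 2 := by linarith
  exact (pow_left_inj₀ (rad_nn x) (rad_nn y) two_ne_zero).1 h5

/-- a linear isometry which preserves the axis and maps `v` to `w` -/
theorem exists_isometry {m : ℕ} {v w : V m} (h1 : rad v = rad w) (h2 : ax v = ax w) :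
    ∃ U : V m ≃ₗᵢ[ℝ] V m, U v = w ∧ ∀ y, rad (U y) = rad y ∧ ax (U y) = ax y := by
  have h3 : ‖v‖ = ‖w‖ := by
    have h4 := norm_sq v
    have h5 := norm_sq w
    rw [h1, h2, ← h5] at h4
    exact (pow_left_inj₀ (norm_nonneg v) (norm_nonneg w) two_ne_zero).1 h4
  refine ⟨Submodule.reflection (ℝ ∙ (v - w))ᗮ, Submodule.reflection_sub h3, fun y => ?_⟩
  have h4 : ax (Submodule.reflection (ℝ ∙ (v - w))ᗮ y) = ax y := by
    rw [Submodule.reflection_orthogonal_apply, Submodule.reflection_singleton_apply]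
    have h5 : (v - w) (Fin.last m) = 0 := by
      have : v (Fin.last m) = w (Fin.last m) := h2
      simp [this]
    simp only [ax]
    simp [h5]
  exact ⟨rad_eq_of (LinearIsometryEquiv.norm_map _ _) h4, h4⟩

theorem measurable_fun {m : ℕ} {f : ℝ → ℝ → ℝ≥0∞} (hf : Measurable (Function.uncurry f)) :
    Measurable (fun y : V m => f (rad y) (ax y)) := by
  have h1 : Measurable (fun y : V m => rad y) := by
    unfold rad
    fun_prop
  have h2 : Measurable (fun y : V m => ax y) := by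
    unfold ax
    fun_prop
  exact hf.comp (h1.prodMk h2)

/-- the integral over a ball depends only on the distance of the center to the axis -/
theorem lintegral_ball_eq {m : ℕ} {f : ℝ → ℝ → ℝ≥0∞} (hf : Measurable (Function.uncurry f))
    {v w : V m} (h1 : rad v = rad w) (h2 : ax v = ax w) (δ : ℝ) :
    ∫⁻ y in Metric.closedBall w δ, f (rad y) (ax y) =
      ∫⁻ y in Metric.closedBall v δ, f (rad y) (ax y) := by
  obtain ⟨U, hU, hU2⟩ := exists_isometry h1 h2
  have h3 := U.measurePreserving.setLIntegral_comp_preimage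
    (Metric.isClosed_closedBall (x := w) (ε := δ)).measurableSet (measurable_fun hf)
  have h4 : U ⁻¹' Metric.closedBall w δ = Metric.closedBall v δ := by
    rw [LinearIsometryEquiv.preimage_closedBall, ← hU, LinearIsometryEquiv.symm_apply_apply]
  rw [h4] at h3
  rw [← h3]
  refine lintegral_congr fun y => ?_
  rw [(hU2 y).1, (hU2 y).2]

/-- points of the sphere around the axis -/
noncomputable def pt {n : ℕ} (R z δ : ℝ) {K : ℕ} (k : Fin n → Fin (K + 1)) : V (n + 1) :=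
  WithLp.toLp 2 (Fin.snoc (Fin.cons (Real.sqrt (R ^ 2 - ∑ i, (3 * δ * ((k i : ℕ) : ℝ)) ^ 2))
    fun i => 3 * δ * ((k i : ℕ) : ℝ)) z : Fin (n + 2) → ℝ)

theorem ax_pt {n : ℕ} (R z δ : ℝ) {K : ℕ} (k : Fin n → Fin (K + 1)) : ax (pt R z δ k) = z := by
  simp [ax, pt]

theorem pt_succ {n : ℕ} (R z δ : ℝ) {K : ℕ} (k : Fin n → Fin (K + 1)) (i : Fin n) :
    (pt R z δ k) i.succ.castSucc = 3 * δ * ((k i : ℕ) : ℝ) := by
  simp only [pt]
  rw [Fin.snoc_castSucc, Fin.cons_succ]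

theorem rad_pt {n : ℕ} {R z δ : ℝ} (hR : 0 ≤ R) {K : ℕ} (k : Fin n → Fin (K + 1))
    (h : ∑ i, (3 * δ * ((k i : ℕ) : ℝ)) ^ 2 ≤ R ^ 2) : rad (pt R z δ k) = R := by
  have h1 : (pt R z δ k) (0 : Fin (n + 1)).castSucc =
      Real.sqrt (R ^ 2 - ∑ i, (3 * δ * ((k i : ℕ) : ℝ)) ^ 2) := by
    simp only [pt]
    rw [Fin.snoc_castSucc, Fin.cons_zero]
  unfold rad
  rw [Fin.sum_univ_succ, h1, Real.sq_sqrt (by linarith)]
  simp only [pt_succ]
  rw [sub_add_cancel, Real.sqrt_sq hR]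

theorem dist_pt {n : ℕ} {R z δ : ℝ} (hδ : 0 < δ) {K : ℕ} {k l : Fin n → Fin (K + 1)}
    (h : k ≠ l) : 3 * δ ≤ dist (pt R z δ k) (pt R z δ l) := by
  obtain ⟨i, hi⟩ := Function.ne_iff.1 h
  rw [dist_eq_norm]
  refine le_trans ?_ (PiLp.norm_apply_le (pt R z δ k - pt R z δ l) i.succ.castSucc)
  rw [PiLp.sub_apply, pt_succ, pt_succ, ← mul_sub, norm_mul, Real.norm_eq_abs, Real.norm_eq_abs,
    abs_of_pos (by positivity)]
  have h1 : (1 : ℝ) ≤ |((k i : ℕ) : ℝ) - ((l i : ℕ) : ℝ)| := by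
    have h2 : ((k i : ℕ) : ℤ) - ((l i : ℕ) : ℤ) ≠ 0 := by
      intro h3
      apply hi
      ext
      omega
    have h3 := Int.one_le_abs h2
    exact_mod_cast h3
  nlinarith

end Cap

open Cap

/-- An axisymmetric function has at most the fraction `C (δ/R)^{m-1}` of its integral in a ball of
radius `δ` with center at distance `R ≥ 2δ` from the axis. The balls of radius `δ` around the points
with the same `(r,z)` have the same integral, and `((R / (3 δ m))^{m-1}` of them are disjoint. -/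
theorem lintegral_ball_le {m : ℕ} (hm : 1 ≤ m) : ∃ C : ℝ, 0 < C ∧ ∀ f : ℝ → ℝ → ℝ≥0∞,
    Measurable (Function.uncurry f) → ∀ (x : V m) (δ : ℝ), 0 < δ → δ ≤ rad x / 2 →
      ∫⁻ y in Metric.closedBall x δ, f (rad y) (ax y) ≤
        ENNReal.ofReal (C * (δ / rad x) ^ (m - 1)) * ∫⁻ y : V m, f (rad y) (ax y) := by
  obtain ⟨n, rfl⟩ : ∃ n, m = n + 1 := ⟨m - 1, by omega⟩
  refine ⟨(3 * (n + 1)) ^ n, by positivity, fun f hf x δ hδ hδR => ?_⟩
  have hR : 0 < rad x := by linarith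
  set R := rad x with hRdef
  set K := ⌊R / (3 * δ * (n + 1))⌋₊ with hK
  have hden : (0 : ℝ) < 3 * δ * (n + 1) := by positivity
  have hK1 : (K : ℝ) * (3 * δ * (n + 1)) ≤ R := by
    have := Nat.floor_le (div_nonneg hR.le hden.le)
    rwa [le_div_iff₀ hden] at this
  have hK2 : R / (3 * δ * (n + 1)) < K + 1 := Nat.lt_floor_add_one _
  have hsum : ∀ k : Fin n → Fin (K + 1), ∑ i, (3 * δ * ((k i : ℕ) : ℝ)) ^ 2 ≤ R ^ 2 := by
    intro k
    have h1 : ∀ i, (3 * δ * ((k i : ℕ) : ℝ)) ^ 2 ≤ (3 * δ * K) ^ 2 := by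
      intro i
      have h2 : ((k i : ℕ) : ℝ) ≤ K := by
        have := (k i).2
        exact_mod_cast Nat.lt_succ_iff.1 this
      gcongr
    calc ∑ i, (3 * δ * ((k i : ℕ) : ℝ)) ^ 2 ≤ ∑ _i : Fin n, (3 * δ * K) ^ 2 :=
          Finset.sum_le_sum fun i _ => h1 i
      _ = n * (3 * δ * K) ^ 2 := by simp
      _ ≤ (n + 1) ^ 2 * (3 * δ * K) ^ 2 := by
          have : (n : ℝ) ≤ (n + 1) ^ 2 := by nlinarith [(Nat.cast_nonneg n : (0 : ℝ) ≤ n)]
          gcongr
      _ = (K * (3 * δ * (n + 1))) ^ 2 := by ring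
      _ ≤ R ^ 2 := by gcongr
  set I := ∫⁻ y in Metric.closedBall x δ, f (rad y) (ax y) with hI
  -- the balls have the same integral
  have h1 : ∀ k : Fin n → Fin (K + 1),
      ∫⁻ y in Metric.closedBall (pt R (ax x) δ k) δ, f (rad y) (ax y) = I := by
    intro k
    exact lintegral_ball_eq hf (by rw [rad_pt hR.le k (hsum k)]) (by rw [ax_pt]) δ
  -- and they are disjoint
  have h2 : ((K + 1 : ℕ) : ℝ≥0∞) ^ n * I ≤ ∫⁻ y : V (n + 1), f (rad y) (ax y) := by
    have h3 := lintegral_iUnion (μ := (volume : Measure (V (n + 1))))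
      (s := fun k : Fin n → Fin (K + 1) => Metric.closedBall (pt R (ax x) δ k) δ)
      (fun k => Metric.isClosed_closedBall.measurableSet)
      (fun k l hkl => Metric.closedBall_disjoint_closedBall
        (lt_of_lt_of_le (by linarith) (dist_pt hδ hkl))) (fun y => f (rad y) (ax y))
    rw [tsum_fintype, Finset.sum_congr rfl fun k _ => h1 k, Finset.sum_const, Finset.card_univ,
      Fintype.card_fun, Fintype.card_fin, Fintype.card_fin, nsmul_eq_mul] at h3
    push_cast at h3 ⊢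
    rw [← h3]
    exact setLIntegral_le_lintegral _ _
  have h4 : 1 ≤ ENNReal.ofReal ((3 * (n + 1)) ^ n * (δ / R) ^ n) * ((K + 1 : ℕ) : ℝ≥0∞) ^ n := by
    have h5 : ((K + 1 : ℕ) : ℝ≥0∞) ^ n = ENNReal.ofReal (((K + 1 : ℕ) : ℝ) ^ n) := by
      rw [ENNReal.ofReal_pow (by positivity), ENNReal.ofReal_natCast]
    rw [h5, ← ENNReal.ofReal_mul (by positivity), ← mul_pow, ← mul_pow, ENNReal.one_le_ofReal]
    apply one_le_pow₀
    rw [div_lt_iff₀ hden] at hK2
    push_cast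
    rw [mul_div_assoc', div_mul_eq_mul_div, le_div_iff₀ hR]
    nlinarith
  calc I = 1 * I := (one_mul _).symm
    _ ≤ (ENNReal.ofReal ((3 * (n + 1)) ^ n * (δ / R) ^ n) * ((K + 1 : ℕ) : ℝ≥0∞) ^ n) * I := by
        gcongr
    _ = ENNReal.ofReal ((3 * (n + 1)) ^ n * (δ / R) ^ n) * (((K + 1 : ℕ) : ℝ≥0∞) ^ n * I) := by
        rw [mul_assoc]
    _ ≤ ENNReal.ofReal ((3 * (n + 1)) ^ n * (δ / R) ^ n) *
          ∫⁻ y : V (n + 1), f (rad y) (ax y) := by
        gcongr

end Pool.Agent.Lib.MP_c167ed_an
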