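import Mathlib

/-!
# MP_c167ed_an: axisymmetric Euler flows without swirl in `ℝ^{m+1}` : definitions

`d = m + 1`; the last coordinate is the axis direction, the first `m` coordinates are `x'`.
-/

open MeasureTheory Set Filter Topology
open scoped ContDiff ENNReal NNReal

namespace Pool.Agent.Lib.MP_c167ed_an

/-- The space `ℝ^{m+1}` (`d = m+1`). -/
abbrev V (m : ℕ) : Type := EuclideanSpace ℝ (Fin (m + 1))

/-- `r = |x'|`, the distance to the axis. -/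
noncomputable def rad {m : ℕ} (x : V m) : ℝ := Real.sqrt (∑ i : Fin m, (x i.castSucc) ^ 2)

/-- the axis coordinate `x_d`. -/
def ax {m : ℕ} (x : V m) : ℝ := x (Fin.last m)

/-- the partial derivative `∂_i v_j`. -/
noncomputable def pd {m : ℕ} (v : V m → V m) (i j : Fin (m + 1)) (x : V m) : ℝ :=
  fderiv ℝ v x (EuclideanSpace.single i 1) j

/-- divergence. -/
noncomputable def dvg {m : ℕ} (v : V m → V m) (x : V m) : ℝ := ∑ i, pd v i i x

/-- `|∇ × v|`: the length of the vorticity two-form `∑_{i<j} (∂_i v_j - ∂_j v_i) dx_i ∧ dx_j`. -/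
noncomputable def curl {m : ℕ} (v : V m → V m) (x : V m) : ℝ :=
  Real.sqrt ((∑ i, ∑ j, (pd v i j x - pd v j i x) ^ 2) / 2)

/-- `v = v^r(r,x_d) e_r + v^d(r,x_d) e_d` (off the axis). -/
def AxisymNoSwirl {m : ℕ} (v : V m → V m) : Prop :=
  ∃ a b : ℝ → ℝ → ℝ, ∀ x : V m, rad x ≠ 0 →
    (∀ i : Fin m, v x i.castSucc = a (rad x) (ax x) * (x i.castSucc / rad x)) ∧
      v x (Fin.last m) = b (rad x) (ax x)

/-- `u` is a smooth solution of the Euler equations on `[0,T) × ℝ^{m+1}` in the class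
`L^∞_loc([0,T); H^k)` for all `k`, with pressure `p` (normalised to be in `L^2`). -/
structure EulerSolution (m : ℕ) (T : ℝ) (u : ℝ → V m → V m) (p : ℝ → V m → ℝ) : Prop where
  smooth_u : ContDiffOn ℝ ∞ (fun q : ℝ × V m => u q.1 q.2) (Ico 0 T ×ˢ univ)
  smooth_p : ContDiffOn ℝ ∞ (fun q : ℝ × V m => p q.1 q.2) (Ico 0 T ×ˢ univ)
  momentum : ∀ t ∈ Ioo 0 T, ∀ x, ∀ j,
    deriv (fun s => u s x j) t + (∑ i, u t x i * pd (u t) i j x)
      + fderiv ℝ (p t) x (EuclideanSpace.single j 1) = 0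
  divfree : ∀ t ∈ Ico 0 T, ∀ x, dvg (u t) x = 0
  sobolev : ∀ k : ℕ, ∀ T' < T, ∃ C : ℝ≥0, ∀ t ∈ Icc 0 T',
    ∫⁻ x, ‖iteratedFDeriv ℝ k (u t) x‖ₑ ^ 2 ≤ C
  pressure : ∀ T' < T, ∃ C : ℝ≥0, ∀ t ∈ Icc 0 T', ∫⁻ x, ‖p t x‖ₑ ^ 2 ≤ C

/-- the point `(r,0,…,0,z)`. -/
noncomputable def emb {m : ℕ} (r z : ℝ) : V m :=
  EuclideanSpace.single 0 r + EuclideanSpace.single (Fin.last m) z

/-- scalar vorticity `∂_z v^r - ∂_r v^z` at the point `(r,0,…,0,z)`. -/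
noncomputable def om {m : ℕ} (v : V m → V m) (r z : ℝ) : ℝ :=
  pd v (Fin.last m) 0 (emb r z) - pd v 0 (Fin.last m) (emb r z)

/-- the exponent `p = 1 + 4/(2d-5)` between `d/(d-2)` and `(d-1)/(d-3)` (`d = m+1`). -/
noncomputable def pexp (m : ℕ) : ℝ := (2 * m + 1) / (2 * m - 3)

/-- a `C¹` version of `(|s|-1)_+^p`. -/
noncomputable def F (m : ℕ) (s : ℝ) : ℝ := (max (s ^ 2 - 1) 0) ^ 2 * (1 + s ^ 2) ^ (pexp m / 2 - 2)

/-- the radial bump `(1-|y|^2)_+^2`. -/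
noncomputable def bump {m : ℕ} (y : V m) : ℝ := (max (1 - ‖y‖ ^ 2) 0) ^ 2

/-- the antisymmetric part `Dv - Dvᵀ`, applied to a vector: `(Om v x y)_j = ∑_i (∂_i v_j - ∂_j v_i) y_i`. -/
noncomputable def Om {m : ℕ} (v : V m → V m) (x y : V m) : V m :=
  WithLp.toLp 2 (fun j => ∑ i, (pd v i j x - pd v j i x) * y i)

end Pool.Agent.Lib.MP_c167ed_an
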