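import Pool.Agent.Lib.MP_c167ed_an.SobolevA

/-! Consequences of the local Sobolev inequality; uniform bounds for `H^∞` solutions. -/

open MeasureTheory Set Filter Topology
open scoped ContDiff ENNReal NNReal

namespace Pool.Agent.Lib.MP_c167ed_an

private theorem abs_ax_le {m : ℕ} (y : V m) : |ax y| ≤ ‖y‖ :=
  (Real.norm_eq_abs (y (Fin.last m))).symm.le.trans (PiLp.norm_apply_le y (Fin.last m))

private theorem continuous_ax {m : ℕ} : Continuous (ax : V m → ℝ) := by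
  unfold ax
  fun_prop

private theorem slab_measurable (m : ℕ) {h : V m → ℝ≥0∞} (hh : Measurable h) :
    Measurable (fun q : ℝ × V m =>
      ({q : ℝ × V m | |ax q.2 - q.1| ≤ 1}).indicator (fun q => h q.2) q) := by
  refine Measurable.indicator (hh.comp measurable_snd) ?_
  refine (isClosed_le ?_ continuous_const).measurableSet
  exact ((continuous_ax.comp continuous_snd).sub continuous_fst).abs

/-- Slab version: for `g(z) = sup_{|x'| ≤ 1} ‖f(x',z)‖` we have `g² ∈ L¹(dz)`, in the form of a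
measurable majorant `G` (`G(z)² = C ∑_k ∫_{|y_d - z| ≤ 1} ‖D^k f‖²`, Tonelli). -/
theorem sobolev_slab (m : ℕ) (W : Type) [NormedAddCommGroup W] [NormedSpace ℝ W]
    (f : V m → W) (hf : ContDiff ℝ ∞ f)
    (hH : ∀ k : ℕ, ∫⁻ x, ‖iteratedFDeriv ℝ k f x‖ₑ ^ 2 < ⊤) :
    ∃ G : ℝ → ℝ≥0∞, Measurable G ∧ (∫⁻ z, G z ^ 2 < ⊤) ∧ (∃ B : ℝ≥0, ∀ z, G z ≤ B) ∧
      ∀ x : V m, ‖f x‖ₑ ≤ G (ax x) := by
  obtain ⟨C, hC⟩ := sobolev_local m W
  set h : ℕ → V m → ℝ≥0∞ := fun k y => ‖iteratedFDeriv ℝ k f y‖ₑ ^ 2 with hh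
  have hhm : ∀ k, Measurable (h k) := by
    intro k
    have h1 : Continuous (iteratedFDeriv ℝ k f) :=
      hf.continuous_iteratedFDeriv (by exact_mod_cast le_top)
    exact (h1.enorm.measurable).pow_const 2
  set I : ℕ → ℝ → ℝ≥0∞ := fun k z => ∫⁻ y : V m,
    ({q : ℝ × V m | |ax q.2 - q.1| ≤ 1}).indicator (fun q => h k q.2) (z, y) with hI
  have hIm : ∀ k, Measurable (I k) := fun k =>
    Measurable.lintegral_prod_right' (slab_measurable m (hhm k))
  have hIle : ∀ k z, I k z ≤ ∫⁻ y, h k y := by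
    intro k z
    refine lintegral_mono fun y => ?_
    exact indicator_le_self _ _ _
  have hIint : ∀ k, ∫⁻ z, I k z ≤ 2 * ∫⁻ y, h k y := by
    intro k
    rw [hI]
    simp only
    rw [lintegral_lintegral_swap (slab_measurable m (hhm k)).aemeasurable,
      ← lintegral_const_mul 2 (hhm k)]
    refine lintegral_mono fun y => ?_
    have h1 : ∀ z : ℝ, ({q : ℝ × V m | |ax q.2 - q.1| ≤ 1}).indicator (fun q => h k q.2) (z, y) =
        (Icc (ax y - 1) (ax y + 1)).indicator (fun _ => h k y) z := by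
      intro z
      by_cases hz : |ax y - z| ≤ 1
      · rw [indicator_of_mem (by exact hz), indicator_of_mem]
        rw [abs_le] at hz
        exact ⟨by linarith, by linarith⟩
      · rw [indicator_of_notMem (by exact hz), indicator_of_notMem]
        intro h2
        apply hz
        rw [abs_le]
        exact ⟨by linarith [h2.2], by linarith [h2.1]⟩
    rw [lintegral_congr h1, lintegral_indicator measurableSet_Icc, setLIntegral_const,
      Real.volume_Icc]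
    have h2 : ax y + 1 - (ax y - 1) = 2 := by ring
    rw [h2, mul_comm]
    norm_num
  set H : ℝ → ℝ≥0∞ := fun z => C * ∑ k ∈ Finset.range (m + 2), I k z with hH'
  have hHm : Measurable H :=
    (Finset.measurable_sum _ fun k _ => hIm k).const_mul _
  have hsq : ∀ z, (H z ^ (1 / 2 : ℝ)) ^ 2 = H z := by
    intro z
    rw [← ENNReal.rpow_natCast, ← ENNReal.rpow_mul]
    norm_num
  have hfin : (C : ℝ≥0∞) * ∑ k ∈ Finset.range (m + 2), ∫⁻ y, h k y < ⊤ :=
    ENNReal.mul_lt_top ENNReal.coe_lt_top (ENNReal.sum_lt_top.mpr fun k _ => hH k)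
  refine ⟨fun z => H z ^ (1 / 2 : ℝ), hHm.pow_const _, ?_, ?_, ?_⟩
  · rw [lintegral_congr hsq, hH', lintegral_const_mul _
      (Finset.measurable_sum _ fun k _ => hIm k), lintegral_finsetSum _ fun k _ => hIm k]
    refine ENNReal.mul_lt_top ENNReal.coe_lt_top (ENNReal.sum_lt_top.mpr fun k _ => ?_)
    exact (hIint k).trans_lt (ENNReal.mul_lt_top (by norm_num) (hH k))
  · refine ⟨(((C : ℝ≥0∞) * ∑ k ∈ Finset.range (m + 2), ∫⁻ y, h k y) ^ (1 / 2 : ℝ)).toNNReal,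
      fun z => ?_⟩
    rw [ENNReal.coe_toNNReal (ENNReal.rpow_lt_top_of_nonneg (by norm_num) hfin.ne).ne]
    refine ENNReal.rpow_le_rpow ?_ (by norm_num)
    exact mul_le_mul_right (Finset.sum_le_sum fun k _ => hIle k z) _
  · intro x
    have h1 : ‖f x‖ₑ ^ 2 ≤ H (ax x) := by
      refine (hC f hf x).trans (mul_le_mul_right (Finset.sum_le_sum fun k _ => ?_) _)
      rw [← lintegral_indicator Metric.isClosed_closedBall.measurableSet]
      refine lintegral_mono fun y => ?_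
      by_cases hy : y ∈ Metric.closedBall x 1
      · rw [indicator_of_mem hy, indicator_of_mem]
        change |ax y - ax x| ≤ 1
        have h2 : ax y - ax x = ax (y - x) := rfl
        rw [h2]
        refine (abs_ax_le _).trans ?_
        rwa [mem_closedBall_iff_norm] at hy
      · rw [indicator_of_notMem hy]
        exact zero_le
    rw [← hsq] at h1
    exact (ENNReal.pow_le_pow_left_iff (by norm_num)).mp h1

private theorem norm_iter_iter {m : ℕ} {W : Type} [NormedAddCommGroup W] [NormedSpace ℝ W]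
    (v : V m → W) (k : ℕ) : ∀ (j : ℕ) (x : V m),
    ‖iteratedFDeriv ℝ k (iteratedFDeriv ℝ j v) x‖ = ‖iteratedFDeriv ℝ (k + j) v x‖ := by
  induction k with
  | zero => intro j x; rw [norm_iteratedFDeriv_zero, zero_add]
  | succ k ih =>
    intro j x
    rw [← norm_iteratedFDeriv_fderiv, show k + 1 + j = k + (j + 1) by ring, ← ih (j + 1) x,
      iteratedFDeriv_succ_eq_comp_left]
    exact (LinearIsometryEquiv.norm_iteratedFDeriv_comp_left _ _ _ _).symm

/-- all derivatives of an `H^∞` function are bounded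
(`sobolev_local` for `iteratedFDeriv ℝ j v` or for repeated `fderiv`s). -/
theorem bounded_of_sobolev {m : ℕ} (j : ℕ) : ∃ C : ℝ≥0, ∀ v : V m → V m, ContDiff ℝ ∞ v →
    ∀ x, ‖iteratedFDeriv ℝ j v x‖ₑ ^ 2 ≤
      C * ∑ k ∈ Finset.range (m + 2), ∫⁻ y, ‖iteratedFDeriv ℝ (k + j) v y‖ₑ ^ 2 := by
  obtain ⟨C, hC⟩ := sobolev_local m (V m [×j]→L[ℝ] V m)
  refine ⟨C, fun v hv x => ?_⟩
  have hj : ((⊤ : ℕ∞) : WithTop ℕ∞) + (j : WithTop ℕ∞) ≤ ((⊤ : ℕ∞) : WithTop ℕ∞) := by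
    exact_mod_cast (le_top : (⊤ : ℕ∞) + (j : ℕ∞) ≤ ⊤)
  refine (hC _ (hv.iteratedFDeriv_right (i := j) hj) x).trans
    (mul_le_mul_right (Finset.sum_le_sum fun k _ => ?_) _)
  refine (setLIntegral_le_lintegral _ _).trans (lintegral_mono fun y => ?_)
  have h1 : ‖iteratedFDeriv ℝ k (iteratedFDeriv ℝ j v) y‖ₑ =
      ‖iteratedFDeriv ℝ (k + j) v y‖ₑ := by
    rw [← ofReal_norm, ← ofReal_norm, norm_iter_iter]
  rw [h1]

theorem EulerSolution.contDiff {m : ℕ} {T : ℝ} {u : ℝ → V m → V m} {p : ℝ → V m → ℝ}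
    (h : EulerSolution m T u p) {t : ℝ} (ht : t ∈ Ico 0 T) : ContDiff ℝ ∞ (u t) := by
  rw [← contDiffOn_univ]
  have h1 : ContDiffOn ℝ ∞ (fun x : V m => (t, x)) univ := by
    exact (contDiff_const.prodMk contDiff_id).contDiffOn
  exact h.smooth_u.comp h1 (fun x _ => ⟨ht, mem_univ _⟩)

theorem EulerSolution.bounds {m : ℕ} {T : ℝ} {u : ℝ → V m → V m} {p : ℝ → V m → ℝ}
    (h : EulerSolution m T u p) (j : ℕ) {T' : ℝ} (hT' : T' < T) :
    ∃ C : ℝ, 0 ≤ C ∧ ∀ t ∈ Icc 0 T', ∀ x, ‖iteratedFDeriv ℝ j (u t) x‖ ≤ C := by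
  obtain ⟨C, hC⟩ := bounded_of_sobolev (m := m) j
  choose B hB using fun k => h.sobolev k T' hT'
  set S : ℝ≥0 := C * ∑ k ∈ Finset.range (m + 2), B (k + j) with hS
  refine ⟨Real.sqrt S, Real.sqrt_nonneg _, fun t ht x => ?_⟩
  have ht' : t ∈ Ico 0 T := ⟨ht.1, ht.2.trans_lt hT'⟩
  have h1 : ‖iteratedFDeriv ℝ j (u t) x‖ₑ ^ 2 ≤ (S : ℝ≥0∞) := by
    refine (hC (u t) (h.contDiff ht') x).trans ?_
    rw [hS, ENNReal.coe_mul, ENNReal.ofNNReal_finsetSum]
    exact mul_le_mul_right (Finset.sum_le_sum fun k _ => hB (k + j) t ht) _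
  refine Real.le_sqrt_of_sq_le ?_
  have h2 : ENNReal.ofReal (‖iteratedFDeriv ℝ j (u t) x‖ ^ 2) ≤ (S : ℝ≥0∞) := by
    rw [ENNReal.ofReal_pow (norm_nonneg _), ofReal_norm]
    exact h1
  rw [← ENNReal.ofReal_coe_nnreal] at h2
  exact (ENNReal.ofReal_le_ofReal_iff S.coe_nonneg).mp h2

/-- the same for norms of `u` and `fderiv u` -/
theorem EulerSolution.bounds01 {m : ℕ} {T : ℝ} {u : ℝ → V m → V m} {p : ℝ → V m → ℝ}
    (h : EulerSolution m T u p) {T' : ℝ} (hT' : T' < T) :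
    ∃ C : ℝ, 0 ≤ C ∧ ∀ t ∈ Icc 0 T', ∀ x, ‖u t x‖ ≤ C ∧ ‖fderiv ℝ (u t) x‖ ≤ C := by
  obtain ⟨C0, h0, hC0⟩ := h.bounds 0 hT'
  obtain ⟨C1, h1, hC1⟩ := h.bounds 1 hT'
  refine ⟨max C0 C1, h0.trans (le_max_left _ _), fun t ht x => ⟨?_, ?_⟩⟩
  · have := hC0 t ht x
    rw [norm_iteratedFDeriv_zero] at this
    exact this.trans (le_max_left _ _)
  · have := hC1 t ht x
    rw [norm_iteratedFDeriv_one] at this
    exact this.trans (le_max_right _ _)

end Pool.Agent.Lib.MP_c167ed_an
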