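import Pool.Agent.Lib.MP_c167ed_an.Defs
import Pool.Agent.Lib.MP_c167ed_an.Sobolev

/-! Energy inequality and uniqueness. -/

open MeasureTheory Set Filter Topology
open scoped ContDiff ENNReal NNReal

namespace Pool.Agent.Lib.MP_c167ed_an

variable {m : ℕ} {T : ℝ} {u v : ℝ → V m → V m} {p q : ℝ → V m → ℝ}

theorem sum_single_V (y : V m) : ∑ i, y i • (EuclideanSpace.single i (1 : ℝ) : V m) = y := by
  ext j
  simp [Pi.single_apply]

theorem fderiv_apply_sum (f : V m → ℝ) (x y : V m) :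
    fderiv ℝ f x y = ∑ i, y i * fderiv ℝ f x (EuclideanSpace.single i 1) := by
  conv_lhs => rw [← sum_single_V y]
  simp [map_sum]

/-- the coordinate as a continuous linear map -/
noncomputable def eprj (m : ℕ) (j : Fin (m + 1)) : V m →L[ℝ] ℝ := EuclideanSpace.proj j

theorem eprj_apply (j : Fin (m + 1)) (x : V m) : eprj m j x = x j := rfl

theorem energy_pd_eq {w : V m → V m} {x : V m} (hw : DifferentiableAt ℝ w x) (i j : Fin (m + 1)) :
    pd w i j x = fderiv ℝ (fun y => w y j) x (EuclideanSpace.single i 1) := by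
  have h2 : HasFDerivAt (fun y => w y j) ((eprj m j).comp (fderiv ℝ w x)) x :=
    (eprj m j).hasFDerivAt.comp x hw.hasFDerivAt
  rw [h2.fderiv]
  rfl

theorem contDiff_coord {n : WithTop ℕ∞} {w : V m → V m} (hw : ContDiff ℝ n w) (j : Fin (m + 1)) :
    ContDiff ℝ n (fun y => w y j) :=
  (eprj m j).contDiff.comp hw

/-- integration by parts -/
theorem integral_mul_dvg {φ : V m → ℝ} {J : V m → V m} (hφ : ContDiff ℝ 1 φ)
    (hc : HasCompactSupport φ) (hJ : ContDiff ℝ 1 J) :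
    ∫ x, φ x * dvg J x = - ∫ x, fderiv ℝ φ x (J x) := by
  have hJi : ∀ i, ContDiff ℝ 1 (fun y => J y i) := fun i => contDiff_coord hJ i
  have h1 : ∀ x, φ x * dvg J x = ∑ i, φ x * fderiv ℝ (fun y => J y i) x (EuclideanSpace.single i 1) := by
    intro x
    rw [dvg, Finset.mul_sum]
    refine Finset.sum_congr rfl fun i _ => ?_
    rw [energy_pd_eq (hJ.differentiable one_ne_zero x)]
  have hcont : ∀ i, Continuous fun x => fderiv ℝ (fun y => J y i) x (EuclideanSpace.single i 1) :=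
    fun i => ((hJi i).continuous_fderiv one_ne_zero).clm_apply continuous_const
  have hcont' : ∀ i : Fin (m + 1), Continuous fun x => fderiv ℝ φ x (EuclideanSpace.single i 1) :=
    fun i => (hφ.continuous_fderiv one_ne_zero).clm_apply continuous_const
  have hcs : ∀ i : Fin (m + 1), HasCompactSupport fun x => fderiv ℝ φ x (EuclideanSpace.single i 1) :=
    fun i => hc.fderiv_apply (𝕜 := ℝ) _
  simp_rw [h1]
  rw [integral_finsetSum]
  · have h2 : ∀ i ∈ (Finset.univ : Finset (Fin (m + 1))),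
        ∫ x, φ x * fderiv ℝ (fun y => J y i) x (EuclideanSpace.single i 1) =
          - ∫ x, fderiv ℝ φ x (EuclideanSpace.single i 1) * J x i := by
      intro i _
      refine integral_mul_fderiv_eq_neg_fderiv_mul_of_integrable ?_ ?_ ?_ ?_ ?_
      · exact ((hcont' i).mul (hJi i).continuous).integrable_of_hasCompactSupport (hcs i).mul_right
      · exact (hφ.continuous.mul (hcont i)).integrable_of_hasCompactSupport hc.mul_right
      · exact (hφ.continuous.mul (hJi i).continuous).integrable_of_hasCompactSupport hc.mul_right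
      · exact fun x _ => hφ.differentiable one_ne_zero x
      · exact fun x _ => (hJi i).differentiable one_ne_zero x
    rw [Finset.sum_congr rfl h2, Finset.sum_neg_distrib, ← integral_finsetSum]
    · congr 1
      refine integral_congr_ae (Eventually.of_forall fun x => ?_)
      simp only
      rw [fderiv_apply_sum]
      exact Finset.sum_congr rfl fun i _ => mul_comm _ _
    · intro i _
      exact ((hcont' i).mul (hJi i).continuous).integrable_of_hasCompactSupport (hcs i).mul_right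
  · intro i _
    exact (hφ.continuous.mul (hcont i)).integrable_of_hasCompactSupport hc.mul_right

theorem exists_cutoff (m : ℕ) : ∃ φ : V m → ℝ, ContDiff ℝ ∞ φ ∧ HasCompactSupport φ ∧
    (∀ x, 0 ≤ φ x) ∧ (∀ x, φ x ≤ 1) ∧ (∀ x, ‖x‖ ≤ 1 → φ x = 1) ∧
    ∃ C : ℝ, 0 ≤ C ∧ ∀ x, ‖fderiv ℝ φ x‖ ≤ C := by
  let φ : ContDiffBump (0 : V m) := ⟨1, 2, one_pos, one_lt_two⟩
  refine ⟨φ, φ.contDiff, φ.hasCompactSupport, fun x => φ.nonneg, fun x => φ.le_one, ?_, ?_⟩
  · intro x hx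
    exact φ.one_of_mem_closedBall (by simpa [φ] using hx)
  · have h1 : ContDiff ℝ 1 (φ : V m → ℝ) := φ.contDiff
    obtain ⟨C, hC⟩ := (φ.hasCompactSupport.fderiv (𝕜 := ℝ)).exists_bound_of_continuous
      (h1.continuous_fderiv one_ne_zero)
    exact ⟨C, (norm_nonneg _).trans (hC 0), hC⟩

/-- derivative of the localized integral -/
theorem hasDerivAt_integral_cutoff {N : ℝ → V m → ℝ} {φ : V m → ℝ}
    (hN : ContDiffOn ℝ 1 (fun q : ℝ × V m => N q.1 q.2) (Ioo 0 T ×ˢ univ))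
    (hφ : Continuous φ) (hc : HasCompactSupport φ) {t : ℝ} (ht : t ∈ Ioo 0 T) :
    Integrable (fun x => φ x * deriv (fun s => N s x) t) ∧
    HasDerivAt (fun s => ∫ x, φ x * N s x) (∫ x, φ x * deriv (fun s => N s x) t) t := by
  set U : ℝ × V m → ℝ := fun q => N q.1 q.2 with hU
  have hopen : IsOpen (Ioo 0 T ×ˢ (univ : Set (V m))) := isOpen_Ioo.prod isOpen_univ
  have hdiff : ∀ s ∈ Ioo 0 T, ∀ x, HasDerivAt (fun s => N s x) (fderiv ℝ U (s, x) (1, 0)) s := by
    intro s hs x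
    have h1 : DifferentiableAt ℝ U (s, x) :=
      (hN.differentiableOn one_ne_zero).differentiableAt (hopen.mem_nhds ⟨hs, mem_univ _⟩)
    have h2 : HasDerivAt (fun s : ℝ => (s, x)) ((1 : ℝ), (0 : V m)) s :=
      (hasDerivAt_id s).prodMk (hasDerivAt_const s x)
    exact h1.hasFDerivAt.comp_hasDerivAt s h2
  have hfd : ContinuousOn (fun q : ℝ × V m => φ q.2 * fderiv ℝ U q (1, 0)) (Ioo 0 T ×ˢ univ) := by
    refine (hφ.comp continuous_snd).continuousOn.mul ?_
    exact (hN.continuousOn_fderiv_of_isOpen hopen le_rfl).clm_apply continuousOn_const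
  obtain ⟨ε, hε, hball⟩ := Metric.isOpen_iff.1 (isOpen_Ioo (a := (0 : ℝ)) (b := T)) t ht
  have hsub : Metric.closedBall t (ε / 2) ⊆ Ioo 0 T :=
    (Metric.closedBall_subset_ball (by linarith)).trans hball
  have hK : IsCompact (Metric.closedBall t (ε / 2) ×ˢ tsupport φ) :=
    (isCompact_closedBall t (ε / 2)).prod hc
  obtain ⟨B, hB⟩ := hK.exists_bound_of_continuousOn (hfd.mono (prod_mono hsub (subset_univ _)))
  have hNc : ∀ s ∈ Ioo 0 T, Continuous (N s) := by
    intro s hs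
    have : ContinuousOn U (Ioo 0 T ×ˢ univ) := hN.continuousOn
    have h2 : Continuous (fun x : V m => (s, x)) := by fun_prop
    exact this.comp_continuous h2 (fun x => ⟨hs, mem_univ _⟩)
  have hbd : ∀ s ∈ Metric.closedBall t (ε / 2), ∀ x, ‖φ x * fderiv ℝ U (s, x) (1, 0)‖ ≤
      (tsupport φ).indicator (fun _ => B) x := by
    intro s hs x
    by_cases hx : x ∈ tsupport φ
    · rw [indicator_of_mem hx]
      exact hB (s, x) ⟨hs, hx⟩
    · rw [indicator_of_notMem hx, image_eq_zero_of_notMem_tsupport hx]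
      simp
  have key := hasDerivAt_integral_of_dominated_loc_of_deriv_le (μ := (volume : Measure (V m)))
    (F := fun s x => φ x * N s x) (x₀ := t) (s := Metric.closedBall t (ε / 2))
    (F' := fun s x => φ x * fderiv ℝ U (s, x) (1, 0))
    (bound := (tsupport φ).indicator (fun _ => B))
    (Metric.closedBall_mem_nhds t (by linarith)) ?_ ?_ ?_ ?_ ?_ ?_
  · have heq : ∀ x, deriv (fun s => N s x) t = fderiv ℝ U (t, x) (1, 0) :=
      fun x => (hdiff t ht x).deriv
    simp_rw [heq]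
    exact key
  · filter_upwards [isOpen_Ioo.mem_nhds ht] with s hs
    exact (hφ.mul (hNc s hs)).aestronglyMeasurable
  · exact (hφ.mul (hNc t ht)).integrable_of_hasCompactSupport hc.mul_right
  · have : Continuous (fun x => φ x * fderiv ℝ U (t, x) (1, 0)) := by
      have h2 : Continuous (fun x : V m => (t, x)) := by fun_prop
      exact hfd.comp_continuous h2 (fun x => ⟨ht, mem_univ _⟩)
    exact this.aestronglyMeasurable
  · exact Eventually.of_forall fun x s hs => hbd s hs x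
  · exact (integrable_indicator_iff hc.measurableSet).2 (integrableOn_const hc.measure_ne_top)
  · exact Eventually.of_forall fun x s hs => (hdiff s (hsub hs) x).const_mul (φ x)


theorem core_R {N : ℝ → V m → ℝ} {J : ℝ → V m → V m} {K M C t₁ : ℝ} {φ : V m → ℝ}
    (hK : 0 ≤ K) (hM : 0 ≤ M) (hC : 0 ≤ C)
    (hN : ContDiffOn ℝ 1 (fun q : ℝ × V m => N q.1 q.2) (Ico 0 T ×ˢ univ))
    (ht₁ : t₁ ∈ Ico 0 T) (hJ : ∀ t ∈ Ioo 0 t₁, ContDiff ℝ 1 (J t))
    (hJM : ∀ t ∈ Ioo 0 t₁, Integrable (J t) ∧ ∫ x, ‖J t x‖ ≤ M)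
    (hder : ∀ t ∈ Ioo 0 t₁, ∀ x, deriv (fun s => N s x) t + dvg (J t) x ≤ K * N t x)
    (hφ : ContDiff ℝ 1 φ) (hc : HasCompactSupport φ) (hφ0 : ∀ x, 0 ≤ φ x)
    (hφC : ∀ x, ‖fderiv ℝ φ x‖ ≤ C) :
    Real.exp (-(K * t₁)) * (∫ x, φ x * N t₁ x) - C * M * t₁ ≤ ∫ x, φ x * N 0 x := by
  have hT : 0 < T := ht₁.1.trans_lt ht₁.2
  have hN' : ContDiffOn ℝ 1 (fun q : ℝ × V m => N q.1 q.2) (Ioo 0 T ×ˢ univ) :=
    hN.mono (prod_mono Ioo_subset_Ico_self (subset_univ _))
  have hsub : Ioo 0 t₁ ⊆ Ioo 0 T := Ioo_subset_Ioo_right ht₁.2.le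
  set I : ℝ → ℝ := fun t => ∫ x, φ x * N t x with hI
  have hIc : ContinuousOn I (Icc 0 t₁) := by
    have hsub2 : Icc 0 t₁ ⊆ Ico 0 T := fun s hs => ⟨hs.1, hs.2.trans_lt ht₁.2⟩
    refine continuousOn_integral_of_compact_support (f := fun t x => φ x * N t x) hc ?_ ?_
    · refine ((hφ.continuous.comp continuous_snd).continuousOn).mul ?_
      exact hN.continuousOn.mono (prod_mono hsub2 (subset_univ _))
    · intro s x _ hx
      rw [image_eq_zero_of_notMem_tsupport hx, zero_mul]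
  have hId : ∀ t ∈ Ioo 0 t₁, HasDerivAt I (∫ x, φ x * deriv (fun s => N s x) t) t := fun t ht =>
    (hasDerivAt_integral_cutoff hN' hφ.continuous hc (hsub ht)).2
  have hNc : ∀ s ∈ Ioo 0 T, Continuous (N s) := by
    intro s hs
    have h2 : Continuous (fun x : V m => (s, x)) := by fun_prop
    exact hN'.continuousOn.comp_continuous h2 (fun x => ⟨hs, mem_univ _⟩)
  have hIb : ∀ t ∈ Ioo 0 t₁, (∫ x, φ x * deriv (fun s => N s x) t) ≤ K * I t + C * M := by
    intro t ht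
    have hint : Integrable (fun x => φ x * N t x) :=
      (hφ.continuous.mul (hNc t (hsub ht))).integrable_of_hasCompactSupport hc.mul_right
    have hdv : Continuous (dvg (J t)) := by
      unfold dvg pd
      refine continuous_finsetSum _ fun i _ => ?_
      have h1 : Continuous fun x => fderiv ℝ (J t) x (EuclideanSpace.single i 1) :=
        ((hJ t ht).continuous_fderiv one_ne_zero).clm_apply continuous_const
      exact (eprj m i).continuous.comp h1
    have hint2 : Integrable (fun x => φ x * dvg (J t) x) :=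
      (hφ.continuous.mul hdv).integrable_of_hasCompactSupport hc.mul_right
    have h1 : (∫ x, φ x * deriv (fun s => N s x) t) ≤
        ∫ x, (K * (φ x * N t x) - φ x * dvg (J t) x) := by
      refine integral_mono (hasDerivAt_integral_cutoff hN' hφ.continuous hc (hsub ht)).1
        ((hint.const_mul K).sub hint2) fun x => ?_
      have := mul_le_mul_of_nonneg_left (hder t ht x) (hφ0 x)
      simp only
      nlinarith
    rw [integral_sub (hint.const_mul K) hint2, integral_const_mul,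
      integral_mul_dvg hφ hc (hJ t ht)] at h1
    have h2 : (∫ x, fderiv ℝ φ x (J t x)) ≤ C * M := by
      calc (∫ x, fderiv ℝ φ x (J t x)) ≤ ‖∫ x, fderiv ℝ φ x (J t x)‖ := le_abs_self _
        _ ≤ ∫ x, C * ‖J t x‖ := by
            refine norm_integral_le_of_norm_le ((hJM t ht).1.norm.const_mul C)
              (Eventually.of_forall fun x => ?_)
            exact (ContinuousLinearMap.le_opNorm _ _).trans
              (mul_le_mul_of_nonneg_right (hφC x) (norm_nonneg _))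
        _ = C * ∫ x, ‖J t x‖ := integral_const_mul _ _
        _ ≤ C * M := mul_le_mul_of_nonneg_left (hJM t ht).2 hC
    simp only [hI]
    linarith
  have hanti : AntitoneOn (fun t => Real.exp (-(K * t)) * I t - C * M * t) (Icc 0 t₁) := by
    refine antitoneOn_of_deriv_nonpos (convex_Icc 0 t₁) ?_ ?_ ?_
    · refine (ContinuousOn.mul ?_ hIc).sub ?_ <;> fun_prop
    · intro t ht
      rw [interior_Icc] at ht
      have := (hId t ht).differentiableAt
      refine (DifferentiableAt.sub (DifferentiableAt.mul (by fun_prop) this) (by fun_prop)).differentiableWithinAt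
    · intro t ht
      rw [interior_Icc] at ht
      have h1 : HasDerivAt (fun t => Real.exp (-(K * t))) (Real.exp (-(K * t)) * (-K)) t := by
        have h0 : HasDerivAt (fun t => (-K) * t) (-K) t := by
          simpa using (hasDerivAt_id t).const_mul (-K)
        have h3 : HasDerivAt (fun t => -(K * t)) (-K) t :=
          h0.congr_of_eventuallyEq (Eventually.of_forall fun s => by simp)
        exact h3.exp
      have h2 : HasDerivAt (fun t => C * M * t) (C * M) t := by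
        simpa using (hasDerivAt_id t).const_mul (C * M)
      have h3 := (h1.mul (hId t ht)).sub h2
      have h4 : deriv (fun t => Real.exp (-(K * t)) * I t - C * M * t) t =
          Real.exp (-(K * t)) * -K * I t +
            Real.exp (-(K * t)) * (∫ x, φ x * deriv (fun s => N s x) t) - C * M := h3.deriv
      rw [h4]
      have h5 : Real.exp (-(K * t)) ≤ 1 := by
        rw [Real.exp_le_one_iff]
        nlinarith [mul_nonneg hK ht.1.le]
      have h6 := mul_le_mul_of_nonneg_left (hIb t ht) (Real.exp_pos (-(K * t))).le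
      have h7 : Real.exp (-(K * t)) * (C * M) ≤ C * M :=
        mul_le_of_le_one_left (mul_nonneg hC hM) h5
      nlinarith
  have := hanti (left_mem_Icc.2 ht₁.1) (right_mem_Icc.2 ht₁.1) ht₁.1
  simpa [hI] using this

/-- Conservation law inequality. -/
theorem core_ineq {N : ℝ → V m → ℝ} {J : ℝ → V m → V m} {K M t₁ : ℝ}
    (hK : 0 ≤ K) (hM : 0 ≤ M)
    (hN : ContDiffOn ℝ 1 (fun q : ℝ × V m => N q.1 q.2) (Ico 0 T ×ˢ univ))
    (ht₁ : t₁ ∈ Ico 0 T) (hJ : ∀ t ∈ Ioo 0 t₁, ContDiff ℝ 1 (J t))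
    (hN0 : ∀ t x, 0 ≤ N t x) (hNi : ∀ t ∈ Icc 0 t₁, Integrable (N t))
    (hJM : ∀ t ∈ Ioo 0 t₁, Integrable (J t) ∧ ∫ x, ‖J t x‖ ≤ M)
    (hder : ∀ t ∈ Ioo 0 t₁, ∀ x, deriv (fun s => N s x) t + dvg (J t) x ≤ K * N t x) :
    (∫ x, N t₁ x) ≤ Real.exp (K * t₁) * ∫ x, N 0 x := by
  obtain ⟨φ, hφ, hc, hφ0, hφ1, hφ11, C, hC, hφC⟩ := exists_cutoff m
  have hφ' : ContDiff ℝ 1 φ := hφ.of_le (by exact_mod_cast le_top)
  -- scaled cutoffs
  let ψ : ℕ → V m → ℝ := fun n x => φ ((((n : ℝ) + 1)⁻¹) • x)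
  have hpos : ∀ n : ℕ, 0 < ((n : ℝ) + 1)⁻¹ := fun n => by positivity
  have hψ : ∀ n, ContDiff ℝ 1 (ψ n) := fun n => hφ'.comp (contDiff_const_smul _)
  have hψc : ∀ n, HasCompactSupport (ψ n) := fun n =>
    hc.comp_smul (hpos n).ne'
  have hψC : ∀ n x, ‖fderiv ℝ (ψ n) x‖ ≤ C * ((n : ℝ) + 1)⁻¹ := by
    intro n x
    have h1 : HasFDerivAt (fun x : V m => (((n : ℝ) + 1)⁻¹) • x)
        ((((n : ℝ) + 1)⁻¹) • ContinuousLinearMap.id ℝ (V m)) x :=
      ((((n : ℝ) + 1)⁻¹) • ContinuousLinearMap.id ℝ (V m)).hasFDerivAt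
    have h2 := ((hφ'.differentiable one_ne_zero _).hasFDerivAt).comp x h1
    have h3 : fderiv ℝ (ψ n) x = (fderiv ℝ φ ((((n : ℝ) + 1)⁻¹) • x)).comp
        ((((n : ℝ) + 1)⁻¹) • ContinuousLinearMap.id ℝ (V m)) := h2.fderiv
    rw [h3]
    refine (ContinuousLinearMap.opNorm_comp_le _ _).trans ?_
    refine mul_le_mul (hφC _) ?_ (norm_nonneg _) hC
    rw [norm_smul, Real.norm_of_nonneg (hpos n).le]
    exact mul_le_of_le_one_right (hpos n).le ContinuousLinearMap.norm_id_le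
  have hR : ∀ n : ℕ, Real.exp (-(K * t₁)) * (∫ x, ψ n x * N t₁ x) -
      (C * ((n : ℝ) + 1)⁻¹) * M * t₁ ≤ ∫ x, ψ n x * N 0 x := fun n =>
    core_R hK hM (mul_nonneg hC (hpos n).le) hN ht₁ hJ hJM hder (hψ n) (hψc n)
      (fun x => hφ0 _) (hψC n)
  have hlim : ∀ t ∈ Icc 0 t₁, Tendsto (fun n : ℕ => ∫ x, ψ n x * N t x) atTop (𝓝 (∫ x, N t x)) := by
    intro t ht
    refine tendsto_integral_of_dominated_convergence (N t) ?_ (hNi t ht) ?_ ?_
    · exact fun n => ((hψ n).continuous.aestronglyMeasurable).mul (hNi t ht).aestronglyMeasurable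
    · refine fun n => Eventually.of_forall fun x => ?_
      rw [norm_mul, Real.norm_of_nonneg (hφ0 _), Real.norm_of_nonneg (hN0 t x)]
      exact mul_le_of_le_one_left (hN0 t x) (hφ1 _)
    · refine Eventually.of_forall fun x => ?_
      refine tendsto_const_nhds.congr' ?_
      filter_upwards [eventually_ge_atTop ⌈‖x‖⌉₊] with n hn
      have h1 : ‖x‖ ≤ n := (Nat.le_ceil _).trans (by exact_mod_cast hn)
      have h2 : ‖(((n : ℝ) + 1)⁻¹) • x‖ ≤ 1 := by
        rw [norm_smul, Real.norm_of_nonneg (hpos n).le, inv_mul_le_iff₀ (by positivity)]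
        linarith
      show N t x = ψ n x * N t x
      simp only [ψ]
      rw [hφ11 _ h2, one_mul]
  have hinv : Tendsto (fun n : ℕ => (C * ((n : ℝ) + 1)⁻¹) * M * t₁) atTop (𝓝 0) := by
    have h1 : Tendsto (fun n : ℕ => ((n : ℝ) + 1)⁻¹) atTop (𝓝 0) := by
      simpa [one_div] using tendsto_one_div_add_atTop_nhds_zero_nat (𝕜 := ℝ)
    have h2 := ((h1.const_mul C).mul_const M).mul_const t₁
    simpa using h2
  have h1 : Tendsto (fun n : ℕ => Real.exp (-(K * t₁)) * (∫ x, ψ n x * N t₁ x) -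
      (C * ((n : ℝ) + 1)⁻¹) * M * t₁) atTop (𝓝 (Real.exp (-(K * t₁)) * (∫ x, N t₁ x) - 0)) :=
    ((hlim t₁ (right_mem_Icc.2 ht₁.1)).const_mul _).sub hinv
  have h2 := le_of_tendsto_of_tendsto' h1 (hlim 0 (left_mem_Icc.2 ht₁.1)) hR
  rw [sub_zero] at h2
  have h3 := mul_le_mul_of_nonneg_left h2 (Real.exp_pos (K * t₁)).le
  rwa [← mul_assoc, ← Real.exp_add, add_neg_cancel, Real.exp_zero, one_mul] at h3


theorem energy_hasFDerivAt_coord {w : V m → V m} {x : V m} (hw : DifferentiableAt ℝ w x)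
    (j : Fin (m + 1)) : HasFDerivAt (fun y => w y j) ((eprj m j).comp (fderiv ℝ w x)) x :=
  (eprj m j).hasFDerivAt.comp x hw.hasFDerivAt

theorem hasFDerivAt_normSq {w : V m → V m} {x : V m} (hw : DifferentiableAt ℝ w x) :
    HasFDerivAt (fun y => ‖w y‖ ^ 2)
      (∑ j, (2 * w x j) • (eprj m j).comp (fderiv ℝ w x)) x := by
  have h1 : (fun y => ‖w y‖ ^ 2) = fun y => ∑ j, (w y j) ^ 2 := by
    funext y
    rw [EuclideanSpace.norm_sq_eq]
    exact Finset.sum_congr rfl fun j _ => by rw [Real.norm_eq_abs, sq_abs]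
  rw [h1]
  refine HasFDerivAt.fun_sum fun j _ => ?_
  have h2 := (energy_hasFDerivAt_coord hw j).pow 2
  refine h2.congr_fderiv ?_
  simp

/-- divergence of the energy flux -/
theorem dvg_flux {w b : V m → V m} {π : V m → ℝ} {x : V m} (hw : DifferentiableAt ℝ w x)
    (hb : DifferentiableAt ℝ b x) (hπ : DifferentiableAt ℝ π x) (hdw : dvg w x = 0)
    (hdb : dvg b x = 0) :
    dvg (fun y => ‖w y‖ ^ 2 • b y + (2 * π y) • w y) x =
      ∑ j, 2 * w x j * ((∑ i, b x i * pd w i j x) + fderiv ℝ π x (EuclideanSpace.single j 1)) := by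
  have hN := hasFDerivAt_normSq hw
  have hdiff : DifferentiableAt ℝ (fun y => ‖w y‖ ^ 2 • b y + (2 * π y) • w y) x :=
    (hN.differentiableAt.smul hb).add ((hπ.const_mul 2).smul hw)
  have h1 : ∀ i, pd (fun y => ‖w y‖ ^ 2 • b y + (2 * π y) • w y) i i x =
      ‖w x‖ ^ 2 * pd b i i x + b x i * (∑ j, 2 * w x j * pd w i j x) +
        (2 * π x * pd w i i x + w x i * (2 * fderiv ℝ π x (EuclideanSpace.single i 1))) := by
    intro i
    rw [energy_pd_eq hdiff]
    have h2 := (hN.mul (energy_hasFDerivAt_coord hb i)).add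
      ((hπ.hasFDerivAt.const_mul 2).mul (energy_hasFDerivAt_coord hw i))
    have h3 : HasFDerivAt (fun y => (‖w y‖ ^ 2 • b y + (2 * π y) • w y) i) _ x := h2
    rw [h3.fderiv]
    simp [eprj_apply, pd, Finset.mul_sum, mul_assoc, mul_comm, mul_left_comm]
  rw [dvg, Finset.sum_congr rfl fun i _ => h1 i]
  simp only [Finset.sum_add_distrib, ← Finset.mul_sum]
  have h4 : ∑ i, pd b i i x = 0 := hdb
  have h5 : ∑ i, pd w i i x = 0 := hdw
  rw [h4, h5]
  simp only [Finset.mul_sum, mul_add, Finset.sum_add_distrib, mul_zero, zero_add]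
  rw [Finset.sum_comm]
  congr 1
  · exact Finset.sum_congr rfl fun i _ => Finset.sum_congr rfl fun j _ => by ring
  · exact Finset.sum_congr rfl fun i _ => by ring


theorem slice_contDiff {E : Type*} [NormedAddCommGroup E] [NormedSpace ℝ E] {w : ℝ → V m → E}
    {n : WithTop ℕ∞}
    (hw : ContDiffOn ℝ n (fun q : ℝ × V m => w q.1 q.2) (Ico 0 T ×ˢ univ)) {t : ℝ}
    (ht : t ∈ Ico 0 T) : ContDiff ℝ n (w t) := by
  rw [← contDiffOn_univ]
  have h1 : ContDiff ℝ n (fun x : V m => (t, x)) := contDiff_prodMk_right t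
  exact hw.comp h1.contDiffOn (fun x _ => ⟨ht, mem_univ _⟩)

/-- General energy inequality for a linear transport equation with pressure. -/
theorem energy_general {w b : ℝ → V m → V m} {π : ℝ → V m → ℝ} {G : ℝ → V m → Fin (m + 1) → ℝ}
    {K t₁ B : ℝ} {Cw Cπ : ℝ≥0} (hK : 0 ≤ K)
    (hw : ContDiffOn ℝ ∞ (fun q : ℝ × V m => w q.1 q.2) (Ico 0 T ×ˢ univ))
    (hb : ContDiffOn ℝ ∞ (fun q : ℝ × V m => b q.1 q.2) (Ico 0 T ×ˢ univ))
    (hπ : ContDiffOn ℝ ∞ (fun q : ℝ × V m => π q.1 q.2) (Ico 0 T ×ˢ univ))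
    (ht₁ : t₁ ∈ Ico 0 T)
    (hdw : ∀ t ∈ Ioo 0 t₁, ∀ x, dvg (w t) x = 0)
    (hdb : ∀ t ∈ Ioo 0 t₁, ∀ x, dvg (b t) x = 0)
    (heq : ∀ t ∈ Ioo 0 t₁, ∀ x, ∀ j, deriv (fun s => w s x j) t + (∑ i, b t x i * pd (w t) i j x)
      + G t x j + fderiv ℝ (π t) x (EuclideanSpace.single j 1) = 0)
    (hG : ∀ t ∈ Ioo 0 t₁, ∀ x, -(∑ j, 2 * w t x j * G t x j) ≤ K * ‖w t x‖ ^ 2)
    (hB : ∀ t ∈ Icc 0 t₁, ∀ x, ‖b t x‖ ≤ B)
    (hw2 : ∀ t ∈ Icc 0 t₁, ∫⁻ x, ‖w t x‖ₑ ^ 2 ≤ Cw)
    (hπ2 : ∀ t ∈ Icc 0 t₁, ∫⁻ x, ‖π t x‖ₑ ^ 2 ≤ Cπ) :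
    ∫⁻ x, ‖w t₁ x‖ₑ ^ 2 ≤ ENNReal.ofReal (Real.exp (K * t₁)) * ∫⁻ x, ‖w 0 x‖ₑ ^ 2 := by
  have hsub : Icc 0 t₁ ⊆ Ico 0 T := fun s hs => ⟨hs.1, hs.2.trans_lt ht₁.2⟩
  have hsub' : Ioo 0 t₁ ⊆ Icc 0 t₁ := Ioo_subset_Icc_self
  have hwc : ∀ t ∈ Icc 0 t₁, Continuous (w t) := fun t ht => (slice_contDiff hw (hsub ht)).continuous
  have hbc : ∀ t ∈ Icc 0 t₁, Continuous (b t) := fun t ht => (slice_contDiff hb (hsub ht)).continuous
  have hπc : ∀ t ∈ Icc 0 t₁, Continuous (π t) := fun t ht => (slice_contDiff hπ (hsub ht)).continuous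
  have henn : ∀ a : ℝ, ENNReal.ofReal (a ^ 2) = ‖a‖ₑ ^ 2 := fun a => by
    rw [← sq_abs, ENNReal.ofReal_pow (abs_nonneg _), Real.enorm_eq_ofReal_abs]
  have henn' : ∀ y : V m, ENNReal.ofReal (‖y‖ ^ 2) = ‖y‖ₑ ^ 2 := fun y => by
    rw [ENNReal.ofReal_pow (norm_nonneg _), ofReal_norm]
  have hwi : ∀ t ∈ Icc 0 t₁, Integrable (fun x => ‖w t x‖ ^ 2) := by
    intro t ht
    refine ⟨((hwc t ht).norm.pow 2).aestronglyMeasurable, ?_⟩
    rw [hasFiniteIntegral_iff_ofReal (Eventually.of_forall fun x => by positivity)]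
    simp_rw [henn']
    exact (hw2 t ht).trans_lt ENNReal.coe_lt_top
  have hπi : ∀ t ∈ Icc 0 t₁, Integrable (fun x => π t x ^ 2) := by
    intro t ht
    refine ⟨((hπc t ht).pow 2).aestronglyMeasurable, ?_⟩
    rw [hasFiniteIntegral_iff_ofReal (Eventually.of_forall fun x => by positivity)]
    simp_rw [henn]
    exact (hπ2 t ht).trans_lt ENNReal.coe_lt_top
  have hwI : ∀ t ∈ Icc 0 t₁, ENNReal.ofReal (∫ x, ‖w t x‖ ^ 2) = ∫⁻ x, ‖w t x‖ₑ ^ 2 := by
    intro t ht
    rw [ofReal_integral_eq_lintegral_ofReal (hwi t ht) (Eventually.of_forall fun x => by positivity)]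
    simp_rw [henn']
  have hwI2 : ∀ t ∈ Icc 0 t₁, ∫ x, ‖w t x‖ ^ 2 ≤ Cw := by
    intro t ht
    have h1 := hw2 t ht
    rw [← hwI t ht, ← ENNReal.ofReal_coe_nnreal, ENNReal.ofReal_le_ofReal_iff (NNReal.coe_nonneg _)] at h1
    exact h1
  have hπI2 : ∀ t ∈ Icc 0 t₁, ∫ x, π t x ^ 2 ≤ Cπ := by
    intro t ht
    have h1 := hπ2 t ht
    have h2 : ENNReal.ofReal (∫ x, π t x ^ 2) = ∫⁻ x, ‖π t x‖ₑ ^ 2 := by
      rw [ofReal_integral_eq_lintegral_ofReal (hπi t ht) (Eventually.of_forall fun x => by positivity)]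
      simp_rw [henn]
    rw [← h2, ← ENNReal.ofReal_coe_nnreal, ENNReal.ofReal_le_ofReal_iff (NNReal.coe_nonneg _)] at h1
    exact h1
  have hB0 : 0 ≤ B := (norm_nonneg _).trans (hB 0 (left_mem_Icc.2 ht₁.1) 0)
  set J : ℝ → V m → V m := fun t y => ‖w t y‖ ^ 2 • b t y + (2 * π t y) • w t y with hJdef
  have hJc : ∀ t ∈ Icc 0 t₁, Continuous (J t) := fun t ht =>
    (((hwc t ht).norm.pow 2).smul (hbc t ht)).add ((continuous_const.mul (hπc t ht)).smul (hwc t ht))
  have hJb : ∀ t ∈ Icc 0 t₁, ∀ x, ‖J t x‖ ≤ (B + 1) * ‖w t x‖ ^ 2 + π t x ^ 2 := by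
    intro t ht x
    refine (norm_add_le _ _).trans ?_
    rw [norm_smul, norm_smul, Real.norm_of_nonneg (by positivity), norm_mul, Real.norm_two,
      Real.norm_eq_abs]
    have h1 := mul_le_mul_of_nonneg_left (hB t ht x) (sq_nonneg ‖w t x‖)
    nlinarith [sq_nonneg (|π t x| - ‖w t x‖), sq_abs (π t x)]
  have hmain : (∫ x, ‖w t₁ x‖ ^ 2) ≤ Real.exp (K * t₁) * ∫ x, ‖w 0 x‖ ^ 2 := by
    refine core_ineq (N := fun t x => ‖w t x‖ ^ 2) (J := J) (M := (B + 1) * Cw + Cπ) hK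
      (by positivity) ?_ ht₁ ?_ (fun t x => by positivity) hwi ?_ ?_
    · exact (hw.norm_sq ℝ).of_le (by exact_mod_cast le_top)
    · intro t ht
      have h1 := slice_contDiff hw (hsub (hsub' ht))
      have h2 := slice_contDiff hb (hsub (hsub' ht))
      have h3 := slice_contDiff hπ (hsub (hsub' ht))
      have h4 : ContDiff ℝ ∞ (J t) := ((h1.norm_sq ℝ).smul h2).add ((contDiff_const.mul h3).smul h1)
      exact h4.of_le (by exact_mod_cast le_top)
    · intro t ht
      have ht' := hsub' ht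
      have hi : Integrable (fun x => (B + 1) * ‖w t x‖ ^ 2 + π t x ^ 2) :=
        ((hwi t ht').const_mul _).add (hπi t ht')
      have hi2 : Integrable (J t) :=
        hi.mono' (hJc t ht').aestronglyMeasurable (Eventually.of_forall (hJb t ht'))
      refine ⟨hi2, (integral_mono hi2.norm hi (hJb t ht')).trans ?_⟩
      rw [integral_add ((hwi t ht').const_mul _) (hπi t ht'), integral_const_mul]
      have := mul_le_mul_of_nonneg_left (hwI2 t ht') (by linarith : 0 ≤ B + 1)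
      linarith [hπI2 t ht']
    · intro t ht x
      have ht' := hsub' ht
      have hd : DifferentiableAt ℝ (fun s => w s x) t := by
        have hopen : (Ico 0 T ×ˢ (univ : Set (V m))) ∈ 𝓝 (t, x) :=
          prod_mem_nhds (Ico_mem_nhds ht.1 (ht.2.trans ht₁.2)) univ_mem
        have h1 : DifferentiableAt ℝ (fun q : ℝ × V m => w q.1 q.2) (t, x) :=
          ((hw.contDiffAt hopen).differentiableAt (by simp))
        have h2 : DifferentiableAt ℝ (fun s : ℝ => (s, x)) t := by fun_prop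
        exact h1.comp t h2
      have hdj : ∀ j, HasDerivAt (fun s => w s x j) (deriv (fun s => w s x j) t) t := by
        intro j
        have h1 : DifferentiableAt ℝ (fun s => w s x j) t :=
          (eprj m j).differentiableAt.comp t hd
        exact h1.hasDerivAt
      have hN : HasDerivAt (fun s => ‖w s x‖ ^ 2)
          (∑ j, 2 * w t x j * deriv (fun s => w s x j) t) t := by
        have h1 : (fun s => ‖w s x‖ ^ 2) = fun s => ∑ j, (w s x j) ^ 2 := by
          funext y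
          rw [EuclideanSpace.norm_sq_eq]
          exact Finset.sum_congr rfl fun j _ => by rw [Real.norm_eq_abs, sq_abs]
        rw [h1]
        refine HasDerivAt.fun_sum fun j _ => ?_
        have h5 : HasDerivAt (fun s => (w s x j) ^ 2)
          (((2 : ℕ) : ℝ) * w t x j ^ (2 - 1) * deriv (fun s => w s x j) t) t := (hdj j).pow 2
        exact h5.congr_deriv (by simp)
      have h1 := (slice_contDiff hw (hsub ht')).differentiable (by simp) x
      have h2 := (slice_contDiff hb (hsub ht')).differentiable (by simp) x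
      have h3 := (slice_contDiff hπ (hsub ht')).differentiable (by simp) x
      show deriv (fun s => ‖w s x‖ ^ 2) t + dvg (J t) x ≤ K * ‖w t x‖ ^ 2
      rw [hN.deriv, hJdef]
      simp only
      rw [dvg_flux h1 h2 h3 (hdw t ht x) (hdb t ht x), ← Finset.sum_add_distrib]
      refine le_trans (le_of_eq ?_) (hG t ht x)
      rw [← Finset.sum_neg_distrib]
      refine Finset.sum_congr rfl fun j _ => ?_
      have := heq t ht x j
      linear_combination (2 * w t x j) * this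
  have h0 := hwI 0 (left_mem_Icc.2 ht₁.1)
  have h1 := hwI t₁ (right_mem_Icc.2 ht₁.1)
  rw [← h0, ← h1, ← ENNReal.ofReal_mul (Real.exp_pos _).le]
  exact ENNReal.ofReal_le_ofReal hmain


theorem EulerSolution.L2 (h : EulerSolution m T u p) {T' : ℝ} (hT' : T' < T) :
    ∃ C : ℝ≥0, ∀ t ∈ Icc 0 T', ∫⁻ x, ‖u t x‖ₑ ^ 2 ≤ C := by
  obtain ⟨C, hC⟩ := h.sobolev 0 T' hT'
  refine ⟨C, fun t ht => ?_⟩
  have h1 := hC t ht
  have h2 : ∀ x, ‖iteratedFDeriv ℝ 0 (u t) x‖ₑ = ‖u t x‖ₑ := fun x => by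
    rw [← ofReal_norm, norm_iteratedFDeriv_zero, ofReal_norm]
  simp_rw [h2] at h1
  exact h1

/-- `‖u(t)‖_2 ≤ ‖u(0)‖_2` (cutoff `χ(x/R)`, `d/dt ∫ χ|u|² = ∫ (|u|²+2p) u·∇χ = O(1/R)`). -/
theorem energy_le (h : EulerSolution m T u p) {t : ℝ} (ht : t ∈ Ico 0 T) :
    ∫⁻ x : V m, ‖u t x‖ₑ ^ 2 ≤ ∫⁻ x : V m, ‖u 0 x‖ₑ ^ 2 := by
  obtain ⟨B, hB, hBu⟩ := h.bounds01 ht.2
  obtain ⟨Cu, hCu⟩ := h.L2 ht.2
  obtain ⟨Cp, hCp⟩ := h.pressure t ht.2
  have hsub : Ioo 0 t ⊆ Ioo 0 T := Ioo_subset_Ioo_right ht.2.le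
  have key := energy_general (K := 0) (G := fun _ _ _ => 0) le_rfl h.smooth_u h.smooth_u h.smooth_p
    ht (fun s hs => h.divfree s (Ioo_subset_Ico_self (hsub hs)))
    (fun s hs => h.divfree s (Ioo_subset_Ico_self (hsub hs)))
    (fun s hs x j => by simpa using h.momentum s (hsub hs) x j)
    (fun s hs x => by simp) (fun s hs x => (hBu s hs x).1) hCu hCp
  simpa using key

/-- uniqueness in the class (energy estimate for `w = u - v`:
`∂_t w + u·∇w + w·∇v + ∇(p-q) = 0`, Gronwall). -/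
theorem unique (h : EulerSolution m T u p) (h' : EulerSolution m T v q) (h0 : u 0 = v 0)
    {t : ℝ} (ht : t ∈ Ico 0 T) : u t = v t := by
  obtain ⟨B, hB, hBu⟩ := h.bounds01 ht.2
  obtain ⟨B', hB', hBv⟩ := h'.bounds01 ht.2
  obtain ⟨Cu, hCu⟩ := h.L2 ht.2
  obtain ⟨Cv, hCv⟩ := h'.L2 ht.2
  obtain ⟨Cp, hCp⟩ := h.pressure t ht.2
  obtain ⟨Cq, hCq⟩ := h'.pressure t ht.2
  have hsub : Ioo 0 t ⊆ Ioo 0 T := Ioo_subset_Ioo_right ht.2.le
  have hsub2 : Icc 0 t ⊆ Ico 0 T := fun s hs => ⟨hs.1, hs.2.trans_lt ht.2⟩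
  have hu : ∀ s ∈ Ico 0 T, ContDiff ℝ ∞ (u s) := fun s hs => slice_contDiff h.smooth_u hs
  have hv : ∀ s ∈ Ico 0 T, ContDiff ℝ ∞ (v s) := fun s hs => slice_contDiff h'.smooth_u hs
  have hp : ∀ s ∈ Ico 0 T, ContDiff ℝ ∞ (p s) := fun s hs => slice_contDiff h.smooth_p hs
  have hq : ∀ s ∈ Ico 0 T, ContDiff ℝ ∞ (q s) := fun s hs => slice_contDiff h'.smooth_p hs
  have hsq : ∀ {E : Type} [NormedAddCommGroup E] (a b : E),
      ‖a - b‖ₑ ^ 2 ≤ 2 * ‖a‖ₑ ^ 2 + 2 * ‖b‖ₑ ^ 2 := by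
    intro E _ a b
    have h2 : (2 : ℝ≥0∞) = ENNReal.ofReal 2 := by simp
    rw [← ofReal_norm, ← ofReal_norm, ← ofReal_norm, ← ENNReal.ofReal_pow (norm_nonneg _),
      ← ENNReal.ofReal_pow (norm_nonneg _), ← ENNReal.ofReal_pow (norm_nonneg _), h2,
      ← ENNReal.ofReal_mul (by norm_num), ← ENNReal.ofReal_mul (by norm_num),
      ← ENNReal.ofReal_add (by positivity) (by positivity)]
    refine ENNReal.ofReal_le_ofReal ?_
    have h1 := norm_sub_le a b
    have h3 : ‖a - b‖ ^ 2 ≤ (‖a‖ + ‖b‖) ^ 2 := pow_le_pow_left₀ (norm_nonneg _) h1 2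
    nlinarith [sq_nonneg (‖a‖ - ‖b‖)]
  have hw2 : ∀ s ∈ Icc 0 t, ∫⁻ x, ‖(u s - v s) x‖ₑ ^ 2 ≤ ((2 * Cu + 2 * Cv : ℝ≥0) : ℝ≥0∞) := by
    intro s hs
    calc ∫⁻ x, ‖(u s - v s) x‖ₑ ^ 2 ≤ ∫⁻ x, (2 * ‖u s x‖ₑ ^ 2 + 2 * ‖v s x‖ₑ ^ 2) :=
          lintegral_mono fun x => hsq _ _
      _ = 2 * (∫⁻ x, ‖u s x‖ₑ ^ 2) + 2 * ∫⁻ x, ‖v s x‖ₑ ^ 2 := by
          have hm1 : Measurable fun x => ‖u s x‖ₑ ^ 2 :=
            ((hu s (hsub2 hs)).continuous.enorm.measurable.pow_const 2)
          have hm2 : Measurable fun x => ‖v s x‖ₑ ^ 2 :=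
            ((hv s (hsub2 hs)).continuous.enorm.measurable.pow_const 2)
          rw [lintegral_add_left (hm1.const_mul 2), lintegral_const_mul _ hm1,
            lintegral_const_mul _ hm2]
      _ ≤ 2 * Cu + 2 * Cv := by gcongr; exacts [hCu s hs, hCv s hs]
      _ = _ := by push_cast; rfl
  have hπ2 : ∀ s ∈ Icc 0 t, ∫⁻ x, ‖(p s - q s) x‖ₑ ^ 2 ≤ ((2 * Cp + 2 * Cq : ℝ≥0) : ℝ≥0∞) := by
    intro s hs
    calc ∫⁻ x, ‖(p s - q s) x‖ₑ ^ 2 ≤ ∫⁻ x, (2 * ‖p s x‖ₑ ^ 2 + 2 * ‖q s x‖ₑ ^ 2) :=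
          lintegral_mono fun x => hsq _ _
      _ = 2 * (∫⁻ x, ‖p s x‖ₑ ^ 2) + 2 * ∫⁻ x, ‖q s x‖ₑ ^ 2 := by
          have hm1 : Measurable fun x => ‖p s x‖ₑ ^ 2 :=
            ((hp s (hsub2 hs)).continuous.enorm.measurable.pow_const 2)
          have hm2 : Measurable fun x => ‖q s x‖ₑ ^ 2 :=
            ((hq s (hsub2 hs)).continuous.enorm.measurable.pow_const 2)
          rw [lintegral_add_left (hm1.const_mul 2), lintegral_const_mul _ hm1,
            lintegral_const_mul _ hm2]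
      _ ≤ 2 * Cp + 2 * Cq := by gcongr; exacts [hCp s hs, hCq s hs]
      _ = _ := by push_cast; rfl
  have hdc : ∀ (x : V m) (j : Fin (m + 1)) {w : ℝ → V m → V m},
      ContDiffOn ℝ ∞ (fun q : ℝ × V m => w q.1 q.2) (Ico 0 T ×ˢ univ) → ∀ s ∈ Ioo 0 T,
      DifferentiableAt ℝ (fun s => w s x j) s := by
    intro x j w hw s hs
    have hopen : (Ico 0 T ×ˢ (univ : Set (V m))) ∈ 𝓝 (s, x) :=
      prod_mem_nhds (Ico_mem_nhds hs.1 hs.2) univ_mem
    have h1 : DifferentiableAt ℝ (fun q : ℝ × V m => w q.1 q.2) (s, x) :=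
      ((hw.contDiffAt hopen).differentiableAt (by simp))
    have h2 : DifferentiableAt ℝ (fun s : ℝ => (s, x)) s := by fun_prop
    have h3 : DifferentiableAt ℝ (fun s => w s x) s :=
      DifferentiableAt.comp (g := fun q : ℝ × V m => w q.1 q.2) s h1 h2
    exact (eprj m j).differentiableAt.comp s h3
  have hpd : ∀ s ∈ Ico 0 T, ∀ x i j, pd (u s - v s) i j x = pd (u s) i j x - pd (v s) i j x := by
    intro s hs x i j
    unfold pd
    rw [fderiv_sub ((hu s hs).differentiable (by simp) x) ((hv s hs).differentiable (by simp) x)]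
    rfl
  have key := energy_general (w := fun s => u s - v s) (b := u) (π := fun s => p s - q s)
    (G := fun s x j => ∑ i, (u s - v s) x i * pd (v s) i j x) (K := 2 * B') (by linarith)
    (h.smooth_u.sub h'.smooth_u) h.smooth_u (h.smooth_p.sub h'.smooth_p) ht
    ?_ (fun s hs => h.divfree s (Ioo_subset_Ico_self (hsub hs))) ?_ ?_
    (fun s hs x => (hBu s hs x).1) hw2 hπ2
  · have h00 : ∀ x, (u 0 - v 0) x = 0 := fun x => by rw [h0]; simp
    simp only [h00] at key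
    simp only [enorm_zero, ne_eq, OfNat.ofNat_ne_zero, not_false_eq_true, zero_pow,
      lintegral_const, zero_mul, mul_zero, nonpos_iff_eq_zero] at key
    have hcont : Continuous (u t - v t) := (hu t ht).continuous.sub (hv t ht).continuous
    rw [lintegral_eq_zero_iff (hcont.enorm.measurable.pow_const 2)] at key
    have h1 : (u t - v t) =ᵐ[volume] (fun _ => (0 : V m)) := by
      filter_upwards [key] with x hx
      simpa using hx
    have h2 := (hcont.ae_eq_iff_eq volume continuous_const).1 h1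
    funext x
    have := congrFun h2 x
    simpa [sub_eq_zero] using this
  · intro s hs x
    have hs' := Ioo_subset_Ico_self (hsub hs)
    show (∑ i, pd (u s - v s) i i x) = 0
    simp_rw [hpd s hs' x]
    rw [Finset.sum_sub_distrib]
    have h1 : ∑ i, pd (u s) i i x = 0 := h.divfree s hs' x
    have h2 : ∑ i, pd (v s) i i x = 0 := h'.divfree s hs' x
    rw [h1, h2, sub_zero]
  · intro s hs x j
    have hs' := Ioo_subset_Ico_self (hsub hs)
    have e1 : deriv (fun s => (u s - v s) x j) s =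
        deriv (fun s => u s x j) s - deriv (fun s => v s x j) s := by
      have := ((hdc x j h.smooth_u s (hsub hs)).hasDerivAt.sub
        (hdc x j h'.smooth_u s (hsub hs)).hasDerivAt).deriv
      exact this
    have e2 : fderiv ℝ (p s - q s) x (EuclideanSpace.single j 1) =
        fderiv ℝ (p s) x (EuclideanSpace.single j 1) -
          fderiv ℝ (q s) x (EuclideanSpace.single j 1) := by
      rw [fderiv_sub ((hp s hs').differentiable (by simp) x) ((hq s hs').differentiable (by simp) x)]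
      rfl
    rw [e1, e2]
    simp_rw [hpd s hs' x]
    have e3 : (∑ i, u s x i * (pd (u s) i j x - pd (v s) i j x)) +
        (∑ i, (u s - v s) x i * pd (v s) i j x) =
        (∑ i, u s x i * pd (u s) i j x) - ∑ i, v s x i * pd (v s) i j x := by
      rw [← Finset.sum_add_distrib, ← Finset.sum_sub_distrib]
      refine Finset.sum_congr rfl fun i _ => ?_
      simp only [Pi.sub_apply, PiLp.sub_apply]
      ring
    have e4 := h.momentum s (hsub hs) x j
    have e5 := h'.momentum s (hsub hs) x j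
    linear_combination e3 + e4 - e5
  · intro s hs x
    set w := (u s - v s) x with hw
    have e1 : ∀ j, ∑ i, w i * pd (v s) i j x = (fderiv ℝ (v s) x w) j := by
      intro j
      conv_rhs => rw [← sum_single_V w]
      simp [pd, map_sum, Finset.sum_apply]
    simp_rw [e1]
    have e2 : ∑ j, 2 * w j * (fderiv ℝ (v s) x w) j = 2 * inner ℝ w (fderiv ℝ (v s) x w) := by
      rw [PiLp.inner_apply, Finset.mul_sum]
      refine Finset.sum_congr rfl fun j _ => ?_
      simp [mul_comm]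
      ring
    rw [e2]
    have e3 := abs_real_inner_le_norm w (fderiv ℝ (v s) x w)
    have e4 := (fderiv ℝ (v s) x).le_opNorm w
    have e5 := (hBv s (Ioo_subset_Icc_self hs) x).2
    have e6 : ‖fderiv ℝ (v s) x w‖ ≤ B' * ‖w‖ :=
      e4.trans (mul_le_mul_of_nonneg_right e5 (norm_nonneg _))
    have e7 : ‖w‖ * ‖fderiv ℝ (v s) x w‖ ≤ B' * ‖w‖ ^ 2 := by
      nlinarith [mul_le_mul_of_nonneg_left e6 (norm_nonneg w)]
    have e8 := neg_abs_le (inner ℝ w (fderiv ℝ (v s) x w))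
    linarith

end Pool.Agent.Lib.MP_c167ed_an
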