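import Pool.Agent.Lib.MP_c167ed_an.PlanarA

/-! Axisymmetric fields without swirl: the scalar vorticity. -/

open MeasureTheory Set Filter Topology
open scoped ContDiff ENNReal NNReal

namespace Pool.Agent.Lib.MP_c167ed_an

/-- coordinate functions -/
noncomputable def prj {m : ℕ} (i : Fin (m + 1)) : V m →L[ℝ] ℝ := EuclideanSpace.proj i

theorem prj_apply {m : ℕ} (i : Fin (m + 1)) (y : V m) : prj i y = y i := rfl

/-- basis vectors -/
noncomputable def bv {m : ℕ} (i : Fin (m + 1)) : V m := EuclideanSpace.single i 1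

theorem bv_apply {m : ℕ} (i j : Fin (m + 1)) : (bv i : V m) j = if j = i then 1 else 0 :=
  PiLp.single_apply ..

theorem emb_eq {m : ℕ} (r z : ℝ) : (emb r z : V m) = r • bv 0 + z • bv (Fin.last m) := by
  unfold emb
  congr 1
  · ext j
    rw [PiLp.smul_apply, bv_apply, PiLp.single_apply]
    split_ifs <;> simp
  · ext j
    rw [PiLp.smul_apply, bv_apply, PiLp.single_apply]
    split_ifs <;> simp

/-- the derivative of `rad` -/
noncomputable def dRad {m : ℕ} (x : V m) : V m →L[ℝ] ℝ :=
  ∑ i : Fin m, (x i.castSucc / rad x) • prj i.castSucc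

theorem hasFDerivAt_rad {m : ℕ} {x : V m} (hx : 0 < rad x) : HasFDerivAt rad (dRad x) x := by
  have h1 : HasFDerivAt (fun y : V m => ∑ i : Fin m, (y i.castSucc) ^ 2)
      (∑ i : Fin m, (2 * x i.castSucc) • prj i.castSucc) x := by
    refine HasFDerivAt.fun_sum fun i _ => ?_
    have h := (prj i.castSucc : V m →L[ℝ] ℝ).hasFDerivAt (x := x)
    have h2 := h.pow 2
    have e : (2 * x i.castSucc) • (prj i.castSucc : V m →L[ℝ] ℝ) =
        ((2 : ℕ) • (prj i.castSucc x) ^ (2 - 1)) • (prj i.castSucc : V m →L[ℝ] ℝ) := by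
      rw [prj_apply]; simp
    rw [e]
    exact h2
  have h3 : ∑ i : Fin m, (x i.castSucc) ^ 2 ≠ 0 := by
    rw [← rad_sq]; exact pow_ne_zero 2 hx.ne'
  have h4 := h1.sqrt h3
  have e : dRad x = (1 / (2 * √(∑ i : Fin m, (x i.castSucc) ^ 2))) •
      (∑ i : Fin m, (2 * x i.castSucc) • (prj i.castSucc : V m →L[ℝ] ℝ)) := by
    unfold dRad
    rw [Finset.smul_sum]
    refine Finset.sum_congr rfl fun i _ => ?_
    rw [smul_smul]
    congr 1
    change x i.castSucc / rad x = 1 / (2 * rad x) * (2 * x i.castSucc)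
    field_simp
  rw [e]
  exact h4

theorem dRad_castSucc {m : ℕ} (x : V m) (j : Fin m) :
    dRad x (bv j.castSucc) = x j.castSucc / rad x := by
  unfold dRad
  rw [_root_.sum_apply, Finset.sum_eq_single j]
  · rw [_root_.smul_apply, prj_apply, bv_apply, if_pos rfl, smul_eq_mul, mul_one]
  · intro i _ hi
    rw [_root_.smul_apply, prj_apply, bv_apply,
      if_neg (fun h => hi (Fin.castSucc_injective m h)), smul_zero]
  · intro h; exact absurd (Finset.mem_univ _) h

theorem dRad_last {m : ℕ} (x : V m) : dRad x (bv (Fin.last m)) = 0 := by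
  unfold dRad
  rw [_root_.sum_apply]
  refine Finset.sum_eq_zero fun i _ => ?_
  rw [_root_.smul_apply, prj_apply, bv_apply, if_neg (Fin.castSucc_ne_last i),
    smul_zero]

/-- the derivative of `y ↦ emb (rad y) (ax y)` -/
noncomputable def dEmb {m : ℕ} (x : V m) : V m →L[ℝ] V m :=
  (dRad x).smulRight (bv 0) + (prj (Fin.last m)).smulRight (bv (Fin.last m))

theorem hasFDerivAt_emb {m : ℕ} {x : V m} (hx : 0 < rad x) :
    HasFDerivAt (fun y : V m => (emb (rad y) (ax y) : V m)) (dEmb x) x := by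
  have h1 : HasFDerivAt (fun y : V m => rad y • (bv 0 : V m)) ((dRad x).smulRight (bv 0)) x :=
    (hasFDerivAt_rad hx).smul_const (bv 0)
  have h2 : HasFDerivAt (fun y : V m => ax y • (bv (Fin.last m) : V m))
      ((prj (Fin.last m)).smulRight (bv (Fin.last m))) x :=
    ((prj (Fin.last m) : V m →L[ℝ] ℝ).hasFDerivAt (x := x)).smul_const (bv (Fin.last m))
  have h3 := h1.add h2
  have e : (fun y : V m => (emb (rad y) (ax y) : V m)) =
      (fun y : V m => rad y • (bv 0 : V m)) + fun y : V m => ax y • (bv (Fin.last m) : V m) := by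
    funext y
    rw [emb_eq]; rfl
  rw [e]
  exact h3

theorem pd_eq {m : ℕ} (v : V m → V m) (i j : Fin (m + 1)) (x : V m) :
    pd v i j x = fderiv ℝ v x (bv i) j := rfl

theorem hasFDerivAt_coord {m : ℕ} {v : V m → V m} (hC : ContDiff ℝ ∞ v) (x : V m)
    (j : Fin (m + 1)) : HasFDerivAt (fun y => v y j) ((prj j).comp (fderiv ℝ v x)) x := by
  have h1 : HasFDerivAt v (fderiv ℝ v x) x :=
    (hC.differentiable (by simp) x).hasFDerivAt
  exact (prj j : V m →L[ℝ] ℝ).hasFDerivAt.comp x h1

theorem hasFDerivAt_profile {m : ℕ} {v : V m → V m} (hC : ContDiff ℝ ∞ v) {x : V m}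
    (hx : 0 < rad x) (j : Fin (m + 1)) :
    HasFDerivAt (fun y => v (emb (rad y) (ax y)) j)
      (((prj j).comp (fderiv ℝ v (emb (rad x) (ax x)))).comp (dEmb x)) x := by
  have h1 := hasFDerivAt_coord hC (emb (rad x) (ax x)) j
  exact HasFDerivAt.comp x h1 (hasFDerivAt_emb hx)

theorem profile_apply {m : ℕ} (v : V m → V m) (x w : V m) (j : Fin (m + 1)) :
    (((prj j).comp (fderiv ℝ v (emb (rad x) (ax x)))).comp (dEmb x)) w =
      dRad x w * pd v 0 j (emb (rad x) (ax x)) +
        w (Fin.last m) * pd v (Fin.last m) j (emb (rad x) (ax x)) := by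
  unfold dEmb
  rw [ContinuousLinearMap.comp_apply, ContinuousLinearMap.comp_apply,
    _root_.add_apply, ContinuousLinearMap.smulRight_apply,
    ContinuousLinearMap.smulRight_apply, map_add, map_smul, map_smul, prj_apply, prj_apply,
    PiLp.add_apply, PiLp.smul_apply, PiLp.smul_apply, ← pd_eq, ← pd_eq, smul_eq_mul, smul_eq_mul]

theorem eventually_rad_pos {m : ℕ} {x : V m} (hx : 0 < rad x) : ∀ᶠ y in 𝓝 x, 0 < rad y :=
  continuous_rad.continuousAt.eventually (lt_mem_nhds hx)

/-- the derivative of the last component -/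
theorem pd_last {m : ℕ} (hm : 1 ≤ m) {v : V m → V m} (hC : ContDiff ℝ ∞ v)
    (hv : AxisymNoSwirl v) {x : V m} (hx : 0 < rad x) (i : Fin m) :
    pd v i.castSucc (Fin.last m) x =
      (x i.castSucc / rad x) * pd v 0 (Fin.last m) (emb (rad x) (ax x)) := by
  have h1 := hasFDerivAt_coord hC x (Fin.last m)
  have h2 := hasFDerivAt_profile hC hx (Fin.last m)
  have h3 : (fun y => v y (Fin.last m)) =ᶠ[𝓝 x]
      fun y => v (emb (rad y) (ax y)) (Fin.last m) := by
    filter_upwards [eventually_rad_pos hx] with y hy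
    exact (axisym_apply hm hv hy).2
  have h4 := h1.unique (h2.congr_of_eventuallyEq h3)
  have h5 := congrArg (fun f : V m →L[ℝ] ℝ => f (bv i.castSucc)) h4
  simp only [profile_apply] at h5
  rw [ContinuousLinearMap.comp_apply, prj_apply, ← pd_eq, dRad_castSucc, bv_apply,
    if_neg (Fin.castSucc_ne_last i).symm, zero_mul, add_zero] at h5
  exact h5

/-- the derivatives of the other components -/
theorem rad_mul_deriv {m : ℕ} (hm : 1 ≤ m) {v : V m → V m} (hC : ContDiff ℝ ∞ v)
    (hv : AxisymNoSwirl v) {x : V m} (hx : 0 < rad x) (i : Fin m) (k : Fin (m + 1)) :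
    rad x * pd v k i.castSucc x + v x i.castSucc * dRad x (bv k) =
      v (emb (rad x) (ax x)) 0 * (bv k : V m) i.castSucc +
      x i.castSucc * (dRad x (bv k) * pd v 0 0 (emb (rad x) (ax x)) +
        (bv k : V m) (Fin.last m) * pd v (Fin.last m) 0 (emb (rad x) (ax x))) := by
  have h1 := (hasFDerivAt_rad hx).mul (hasFDerivAt_coord hC x i.castSucc)
  have h2 := (hasFDerivAt_profile hC hx 0).mul
    ((prj i.castSucc : V m →L[ℝ] ℝ).hasFDerivAt (x := x))
  have h3 : (fun y => rad y * v y i.castSucc) =ᶠ[𝓝 x]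
      fun y => v (emb (rad y) (ax y)) 0 * prj i.castSucc y := by
    filter_upwards [eventually_rad_pos hx] with y hy
    rw [(axisym_apply hm hv hy).1 i, prj_apply]
    field_simp
  have h4 := h1.unique (h2.congr_of_eventuallyEq h3)
  have h5 := congrArg (fun f : V m →L[ℝ] ℝ => f (bv k)) h4
  simp only [_root_.add_apply, _root_.smul_apply, profile_apply] at h5
  rw [ContinuousLinearMap.comp_apply, prj_apply, prj_apply, prj_apply, ← pd_eq] at h5
  simpa only [smul_eq_mul] using h5

/-- Near `x`, `v(y) = (a(rad y, ax y) y_i / rad y, b(rad y, ax y))` with `a, b` smooth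
(`a(r,z) = v_0(r,0,…,0,z)`), so `∂_i v_j - ∂_j v_i = 0` for `i,j < m` and
`∂_m v_i - ∂_i v_m = (x_i/r) (∂_z a - ∂_r b)`. -/
theorem curl_eq_abs_om {m : ℕ} (hm : 1 ≤ m) {v : V m → V m} (hC : ContDiff ℝ ∞ v)
    (hv : AxisymNoSwirl v) {x : V m} (hx : 0 < rad x) : curl v x = |om v (rad x) (ax x)| := by
  have hne : rad x ≠ 0 := hx.ne'
  have hsym : ∀ i j : Fin m, pd v i.castSucc j.castSucc x - pd v j.castSucc i.castSucc x = 0 := by
    intro i j
    have h1 := rad_mul_deriv hm hC hv hx i j.castSucc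
    have h2 := rad_mul_deriv hm hC hv hx j i.castSucc
    rw [dRad_castSucc, (axisym_apply hm hv hx).1 i, bv_apply, bv_apply,
      if_neg (Fin.castSucc_ne_last j).symm] at h1
    rw [dRad_castSucc, (axisym_apply hm hv hx).1 j, bv_apply, bv_apply,
      if_neg (Fin.castSucc_ne_last i).symm] at h2
    have h3 : (if i.castSucc = j.castSucc then (1 : ℝ) else 0) =
        if j.castSucc = i.castSucc then (1 : ℝ) else 0 := by
      simp only [eq_comm]
    rw [h3] at h1
    have h4 : rad x * (pd v i.castSucc j.castSucc x - pd v j.castSucc i.castSucc x) = 0 := by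
      linear_combination h2 - h1
    rcases mul_eq_zero.mp h4 with h | h
    · exact absurd h hne
    · exact h
  have hlast : ∀ i : Fin m, pd v (Fin.last m) i.castSucc x - pd v i.castSucc (Fin.last m) x =
      (x i.castSucc / rad x) * om v (rad x) (ax x) := by
    intro i
    have h1 := rad_mul_deriv hm hC hv hx i (Fin.last m)
    rw [dRad_last, bv_apply, bv_apply, if_neg (Fin.castSucc_ne_last i), if_pos rfl] at h1
    rw [pd_last hm hC hv hx i]
    unfold om
    have h2 : pd v (Fin.last m) i.castSucc x =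
        x i.castSucc / rad x * pd v (Fin.last m) 0 (emb (rad x) (ax x)) := by
      field_simp
      linear_combination h1
    rw [h2]; ring
  have hsum : ∑ i, ∑ j, (pd v i j x - pd v j i x) ^ 2 = 2 * (om v (rad x) (ax x)) ^ 2 := by
    rw [Fin.sum_univ_castSucc]
    simp only [Fin.sum_univ_castSucc]
    have e1 : ∀ i j : Fin m, (pd v i.castSucc j.castSucc x - pd v j.castSucc i.castSucc x) ^ 2 =
        0 := fun i j => by rw [hsym i j]; ring
    have e2 : ∀ i : Fin m, (pd v i.castSucc (Fin.last m) x - pd v (Fin.last m) i.castSucc x) ^ 2 =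
        (x i.castSucc) ^ 2 * ((om v (rad x) (ax x)) ^ 2 / rad x ^ 2) := fun i => by
      have := hlast i
      have h : pd v i.castSucc (Fin.last m) x - pd v (Fin.last m) i.castSucc x =
        -((x i.castSucc / rad x) * om v (rad x) (ax x)) := by rw [← this]; ring
      rw [h]; field_simp
    have e3 : ∀ i : Fin m, (pd v (Fin.last m) i.castSucc x - pd v i.castSucc (Fin.last m) x) ^ 2 =
        (x i.castSucc) ^ 2 * ((om v (rad x) (ax x)) ^ 2 / rad x ^ 2) := fun i => by
      rw [hlast i]; field_simp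
    simp only [e1, e2, e3, Finset.sum_const_zero, zero_add, sub_self]
    rw [← Finset.sum_mul, ← rad_sq]
    field_simp
    ring
  unfold curl
  rw [hsum, mul_div_cancel_left₀ _ two_ne_zero, Real.sqrt_sq_eq_abs]

theorem hasDerivAt_emb_left {m : ℕ} (r z : ℝ) :
    HasDerivAt (fun s : ℝ => (emb s z : V m)) (bv 0) r := by
  have e : (fun s : ℝ => (emb s z : V m)) = fun s => s • bv 0 + z • bv (Fin.last m) := by
    funext s; exact emb_eq s z
  rw [e]
  have h := ((hasDerivAt_id r).smul_const (bv 0 : V m)).add_const (z • bv (Fin.last m))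
  simpa using h

theorem hasDerivAt_emb_right {m : ℕ} (r z : ℝ) :
    HasDerivAt (fun s : ℝ => (emb r s : V m)) (bv (Fin.last m)) z := by
  have e : (fun s : ℝ => (emb r s : V m)) = fun s => r • bv 0 + s • bv (Fin.last m) := by
    funext s; exact emb_eq r s
  rw [e]
  have h := ((hasDerivAt_id z).smul_const (bv (Fin.last m) : V m)).const_add (r • bv 0)
  simpa using h

theorem hasDerivAt_left {m : ℕ} {v : V m → V m} (hC : ContDiff ℝ ∞ v) (j : Fin (m + 1))
    (r z : ℝ) : HasDerivAt (fun s : ℝ => v (emb s z) j) (pd v 0 j (emb r z)) r :=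
  HasFDerivAt.comp_hasDerivAt (f := fun s : ℝ => (emb s z : V m)) (l := fun y : V m => v y j) r
    (hasFDerivAt_coord hC (emb r z) j) (hasDerivAt_emb_left r z)

theorem hasDerivAt_right {m : ℕ} {v : V m → V m} (hC : ContDiff ℝ ∞ v) (j : Fin (m + 1))
    (r z : ℝ) : HasDerivAt (fun s : ℝ => v (emb r s) j) (pd v (Fin.last m) j (emb r z)) z :=
  HasFDerivAt.comp_hasDerivAt (f := fun s : ℝ => (emb r s : V m)) (l := fun y : V m => v y j) z
    (hasFDerivAt_coord hC (emb r z) j) (hasDerivAt_emb_right r z)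

/-- the scalar vorticity vanishes on the axis (`a` is odd, `b` is even in `r`) -/
theorem om_axis {m : ℕ} (hm : 1 ≤ m) {v : V m → V m} (hC : ContDiff ℝ ∞ v)
    (hv : AxisymNoSwirl v) (z : ℝ) : om v 0 z = 0 := by
  have h1 : pd v (Fin.last m) 0 (emb 0 z) = 0 := by
    have ha := hasDerivAt_right hC 0 0 z
    have hz : (fun s : ℝ => v (emb 0 s) 0) = fun _ => (0 : ℝ) := by
      funext s
      have := axisym_axis hm hC.continuous hv (x := emb 0 s) (by rw [rad_emb hm, abs_zero])
        ⟨0, hm⟩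
      rwa [castSucc_zero' hm] at this
    rw [hz] at ha
    exact ha.unique (hasDerivAt_const z (0 : ℝ))
  have h2 : pd v 0 (Fin.last m) (emb 0 z) = 0 := by
    have ha := hasDerivAt_left hC (Fin.last m) 0 z
    have hev : (fun s : ℝ => v (emb (-s) z) (Fin.last m)) = fun s => v (emb s z) (Fin.last m) := by
      obtain ⟨a, b, hab⟩ := hv
      funext s
      rcases eq_or_ne s 0 with h0 | h0
      · rw [h0, neg_zero]
      · rw [(hab (emb (-s) z) (by rw [rad_emb hm, abs_neg]; exact abs_ne_zero.mpr h0)).2,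
          (hab (emb s z) (by rw [rad_emb hm]; exact abs_ne_zero.mpr h0)).2, rad_emb hm,
          rad_emb hm, ax_emb hm, ax_emb hm, abs_neg]
    have hb : HasDerivAt (fun s : ℝ => v (emb (-s) z) (Fin.last m))
        (pd v 0 (Fin.last m) (emb 0 z) * (-1)) 0 := by
      have h3 : HasDerivAt (fun s : ℝ => v (emb s z) (Fin.last m))
          (pd v 0 (Fin.last m) (emb 0 z)) (-0) := by rw [neg_zero]; exact ha
      exact HasDerivAt.comp (0 : ℝ) h3 (hasDerivAt_neg (0 : ℝ))
    rw [hev] at hb
    have := ha.unique hb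
    linarith
  unfold om
  rw [h1, h2, sub_zero]

/-- `|ω| ≤ 2 S r` -/
theorem abs_om_le {m : ℕ} (hm : 1 ≤ m) {v : V m → V m} (hC : ContDiff ℝ ∞ v)
    (hv : AxisymNoSwirl v) {r z S : ℝ} (hr : 0 ≤ r)
    (hS : ∀ r' ∈ Icc 0 r, ‖iteratedFDeriv ℝ 2 v (emb r' z)‖ ≤ S) : |om v r z| ≤ 2 * S * r := by
  have hC2 : ContDiff ℝ 1 (fderiv ℝ v) := hC.fderiv_right (by
    rw [show (1 : WithTop ℕ∞) + 1 = ((2 : ℕ) : WithTop ℕ∞) by norm_num]
    exact ENat.LEInfty.out)
  have hd : ∀ s ∈ Icc 0 r, HasDerivWithinAt (fun s : ℝ => fderiv ℝ v (emb s z))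
      (fderiv ℝ (fderiv ℝ v) (emb s z) (bv 0)) (Icc 0 r) s := by
    intro s _
    have h1 : HasFDerivAt (fderiv ℝ v) (fderiv ℝ (fderiv ℝ v) (emb s z)) (emb s z : V m) :=
      (hC2.differentiable (by simp) _).hasFDerivAt
    exact (h1.comp_hasDerivAt s (hasDerivAt_emb_left s z)).hasDerivWithinAt
  have hnb : ‖(bv 0 : V m)‖ = 1 := by unfold bv; simp
  have hb : ∀ s ∈ Ico 0 r, ‖fderiv ℝ (fderiv ℝ v) (emb s z : V m) (bv 0)‖ ≤ S := by
    intro s hs
    refine (ContinuousLinearMap.le_opNorm _ _).trans ?_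
    rw [hnb, mul_one]
    have h1 := hS s ⟨hs.1, hs.2.le⟩
    rw [show (2 : ℕ) = 1 + 1 from rfl, ← norm_iteratedFDeriv_fderiv,
      norm_iteratedFDeriv_one] at h1
    exact h1
  have hmv := norm_image_sub_le_of_norm_deriv_le_segment' hd hb r ⟨hr, le_rfl⟩
  rw [sub_zero] at hmv
  have hpd : ∀ i j : Fin (m + 1), |pd v i j (emb r z) - pd v i j (emb 0 z)| ≤ S * r := by
    intro i j
    rw [pd_eq, pd_eq, ← PiLp.sub_apply, ← _root_.sub_apply, ← Real.norm_eq_abs]
    refine (PiLp.norm_apply_le _ j).trans ?_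
    refine (ContinuousLinearMap.le_opNorm _ _).trans ?_
    have : ‖(bv i : V m)‖ = 1 := by unfold bv; simp
    rw [this, mul_one]
    exact hmv
  have h0 := om_axis hm hC hv z
  have e : om v r z = (pd v (Fin.last m) 0 (emb r z) - pd v (Fin.last m) 0 (emb 0 z)) -
      (pd v 0 (Fin.last m) (emb r z) - pd v 0 (Fin.last m) (emb 0 z)) := by
    have : om v r z = om v r z - om v 0 z := by rw [h0, sub_zero]
    rw [this]
    unfold om
    ring
  rw [e]
  refine (abs_sub _ _).trans ?_
  have := hpd (Fin.last m) 0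
  have := hpd 0 (Fin.last m)
  linarith

/-- continuity of `(r,z) ↦ om v r z` -/
theorem continuous_om {m : ℕ} {v : V m → V m} (hC : ContDiff ℝ ∞ v) :
    Continuous (fun q : ℝ × ℝ => om v q.1 q.2) := by
  have he : Continuous fun q : ℝ × ℝ => (emb q.1 q.2 : V m) := by
    have e : (fun q : ℝ × ℝ => (emb q.1 q.2 : V m)) =
        fun q => q.1 • bv 0 + q.2 • bv (Fin.last m) := by
      funext q; exact emb_eq _ _
    rw [e]
    fun_prop
  unfold om
  exact ((continuous_pd hC _ _).comp he).sub ((continuous_pd hC _ _).comp he)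

/-- the vorticity vanishes on the axis (continuity) -/
theorem curl_axis {m : ℕ} (hm : 1 ≤ m) {v : V m → V m} (hC : ContDiff ℝ ∞ v)
    (hv : AxisymNoSwirl v) {x : V m} (hx : rad x = 0) : curl v x = 0 := by
  set i : Fin m := ⟨0, hm⟩
  have hsing : Continuous fun t : ℝ => (EuclideanSpace.single i.castSucc t : V m) := by
    have : (fun t : ℝ => (EuclideanSpace.single i.castSucc t : V m)) =
        fun t : ℝ => t • (EuclideanSpace.single i.castSucc (1 : ℝ) : V m) := by
      funext t
      ext j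
      rw [PiLp.smul_apply, PiLp.single_apply, PiLp.single_apply]
      split_ifs <;> simp
    rw [this]
    fun_prop
  have hax : ∀ t : ℝ, ax (x + EuclideanSpace.single i.castSucc t) = ax x := by
    intro t
    unfold ax
    rw [PiLp.add_apply, PiLp.single_apply, if_neg (Fin.castSucc_ne_last i).symm, add_zero]
  have hcont : Continuous fun t : ℝ => curl v (x + EuclideanSpace.single i.castSucc t) :=
    (continuous_curl hC).comp (continuous_const.add hsing)
  have hz : (x + EuclideanSpace.single i.castSucc (0 : ℝ) : V m) = x := by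
    rw [show (EuclideanSpace.single i.castSucc (0 : ℝ) : V m) = 0 by simp, add_zero]
  have hlim : Tendsto (fun t : ℝ => curl v (x + EuclideanSpace.single i.castSucc t))
      (𝓝[≠] 0) (𝓝 (curl v x)) := by
    have := hcont.continuousAt (x := 0)
    unfold ContinuousAt at this
    simp only [hz] at this
    exact this.mono_left nhdsWithin_le_nhds
  have hcont2 : Continuous fun t : ℝ => |om v |t| (ax x)| :=
    ((continuous_om hC).comp (continuous_abs.prodMk continuous_const)).abs
  have hlim2 : Tendsto (fun t : ℝ => |om v |t| (ax x)|) (𝓝[≠] 0) (𝓝 0) := by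
    have := hcont2.continuousAt (x := 0)
    unfold ContinuousAt at this
    simp only [abs_zero, om_axis hm hC hv] at this
    exact this.mono_left nhdsWithin_le_nhds
  refine tendsto_nhds_unique (hlim.congr' ?_) hlim2
  filter_upwards [self_mem_nhdsWithin] with t ht
  have hr := rad_add_single hx i t
  rw [curl_eq_abs_om hm hC hv (by rw [hr]; exact abs_pos.mpr ht), hr, hax]

end Pool.Agent.Lib.MP_c167ed_an
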