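import Pool.Agent.Lib.MP_c167ed_an.Defs
import Pool.Agent.Lib.MP_c167ed_an.Avg
import Pool.Agent.Lib.MP_c167ed_an.Cap
import Pool.Agent.Lib.MP_c167ed_an.Planar

/-! Velocity estimate away from the axis. -/

open MeasureTheory Set Filter Topology
open scoped ContDiff ENNReal NNReal Pointwise

namespace Pool.Agent.Lib.MP_c167ed_an

theorem Far_continuous_emb {m : ℕ} : Continuous (fun q : ℝ × ℝ => (emb q.1 q.2 : V m)) := by
  have h : ∀ i : Fin (m + 1), Continuous (fun t : ℝ => (EuclideanSpace.single i t : V m)) := by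
    intro i
    have h1 : (fun t : ℝ => (EuclideanSpace.single i t : V m)) =
        fun t : ℝ => t • (EuclideanSpace.single i (1 : ℝ) : V m) := by
      funext t
      ext j
      by_cases hij : j = i <;> simp [hij]
    rw [h1]
    exact continuous_id.smul continuous_const
  unfold emb
  exact ((h 0).comp continuous_fst).add ((h (Fin.last m)).comp continuous_snd)

/-- energy in a small ball -/
theorem Far_energy {m : ℕ} (hm : 1 ≤ m) {C1 : ℝ} (hC1 : 0 < C1)
    (hcap : ∀ f : ℝ → ℝ → ℝ≥0∞,
    Measurable (Function.uncurry f) → ∀ (x : V m) (δ : ℝ), 0 < δ → δ ≤ rad x / 2 →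
      ∫⁻ y in Metric.closedBall x δ, f (rad y) (ax y) ≤
        ENNReal.ofReal (C1 * (δ / rad x) ^ (m - 1)) * ∫⁻ y : V m, f (rad y) (ax y))
    {v : V m → V m} (hv : Continuous v) (ha : AxisymNoSwirl v) {E : ℝ}
    (hE : ∫⁻ x, ‖v x‖ₑ ^ 2 ≤ ENNReal.ofReal (E ^ 2)) {x : V m} {δ : ℝ} (hδ : 0 < δ)
    (hδx : δ ≤ rad x / 2) :
    ∫ y in Metric.closedBall x δ, ‖v y‖ ^ 2 ≤ C1 * (δ / rad x) ^ (m - 1) * E ^ 2 := by
  have hR : 0 < rad x := by linarith
  set f : ℝ → ℝ → ℝ≥0∞ := fun r z => ‖v (emb r z)‖ₑ ^ 2 with hf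
  have hfm : Measurable (Function.uncurry f) := by
    have : Continuous (fun q : ℝ × ℝ => v (emb q.1 q.2)) := hv.comp Far_continuous_emb
    exact (this.enorm.measurable).pow_const 2
  have h1 := hcap f hfm x δ hδ hδx
  have hint : IntegrableOn (fun y => ‖v y‖ ^ 2) (Metric.closedBall x δ) :=
    ((hv.norm.pow 2).continuousOn).integrableOn_compact (isCompact_closedBall x δ)
  have hnn : 0 ≤ C1 * (δ / rad x) ^ (m - 1) := by positivity
  have h2 : ENNReal.ofReal (∫ y in Metric.closedBall x δ, ‖v y‖ ^ 2) ≤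
      ENNReal.ofReal (C1 * (δ / rad x) ^ (m - 1) * E ^ 2) := by
    rw [ofReal_integral_eq_lintegral_ofReal hint (Eventually.of_forall fun y => by positivity),
      ENNReal.ofReal_mul hnn]
    calc ∫⁻ y in Metric.closedBall x δ, ENNReal.ofReal (‖v y‖ ^ 2)
        = ∫⁻ y in Metric.closedBall x δ, f (rad y) (ax y) := by
          refine setLIntegral_congr_fun measurableSet_closedBall ?_
          intro y hy
          have hy' : ‖x - y‖ ≤ δ := by
            rw [Metric.mem_closedBall, dist_comm, dist_eq_norm] at hy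
            exact hy
          have h3 := rad_sub_le x y
          have h4 : 0 < rad y := by
            have := (abs_le.1 h3).2
            linarith
          simp only [hf]
          rw [← ofReal_norm, ← norm_axisym hm ha h4, ENNReal.ofReal_pow (norm_nonneg _)]
      _ ≤ ENNReal.ofReal (C1 * (δ / rad x) ^ (m - 1)) * ∫⁻ y : V m, f (rad y) (ax y) := h1
      _ ≤ ENNReal.ofReal (C1 * (δ / rad x) ^ (m - 1)) * ENNReal.ofReal (E ^ 2) := by
          refine mul_le_mul_right (le_trans (le_of_eq ?_) hE) _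
          refine lintegral_congr_ae ?_
          filter_upwards [ae_rad_pos (m := m) hm] with y hy
          simp only [hf]
          rw [← ofReal_norm, ← norm_axisym hm ha hy, ofReal_norm]
  exact (ENNReal.ofReal_le_ofReal_iff (by positivity)).1 h2

/-- the rescaled energy -/
theorem Far_rescale {m : ℕ} {v : V m → V m} (x : V m) {δ : ℝ} (hδ : 0 < δ) :
    ∫ y in Metric.closedBall (0 : V m) 1, ‖v (x + δ • y)‖ ^ 2 =
      (δ ^ (m + 1))⁻¹ * ∫ y in Metric.closedBall x δ, ‖v y‖ ^ 2 := by
  have h1 := Measure.setIntegral_comp_smul_of_pos (μ := (volume : Measure (V m)))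
    (fun z : V m => ‖v (x + z)‖ ^ 2) (Metric.closedBall (0 : V m) 1) hδ
  rw [h1]
  have h2 : δ • Metric.closedBall (0 : V m) 1 = Metric.closedBall (0 : V m) δ := by
    rw [smul_closedBall _ _ (by norm_num), smul_zero, Real.norm_of_nonneg hδ.le, mul_one]
  have h3 : Module.finrank ℝ (V m) = m + 1 := by simp
  rw [h2, h3, smul_eq_mul]
  congr 1
  rw [← integral_indicator measurableSet_closedBall, ← integral_indicator measurableSet_closedBall,
    ← integral_add_left_eq_self (μ := (volume : Measure (V m)))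
      ((Metric.closedBall x δ).indicator fun y : V m => ‖v y‖ ^ 2) x]
  congr 1
  funext z
  by_cases hz : z ∈ Metric.closedBall (0 : V m) δ
  · have hz' : x + z ∈ Metric.closedBall x δ := by
      rw [Metric.mem_closedBall, dist_eq_norm] at hz ⊢
      simpa using hz
    rw [indicator_of_mem hz, indicator_of_mem hz']
  · have hz' : x + z ∉ Metric.closedBall x δ := by
      rw [Metric.mem_closedBall, dist_eq_norm] at hz ⊢
      simpa using hz
    rw [indicator_of_notMem hz, indicator_of_notMem hz']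

/-- `|v(x)| ≤ C (E / (δ r^{(m-1)/2}) + δ sup_{B(x,δ)} |curl v|)` for `δ ≤ r/2`. Proof: averaging
formula; the first term is at most `∫ bump(y) |v(x+δy)| dy ≤ C δ^{-(m+1)/2} ‖v‖_{L²(B(x,δ))}` and
`‖v‖²_{L²(B(x,δ))} ≤ C (δ/r)^{m-1} E²` by `lintegral_ball_le` (`|v|` is axisymmetric), the second one
at most `C δ sup |curl v|` (`norm_Om_le`). -/
theorem far_axis {m : ℕ} (hm : 1 ≤ m) : ∃ C : ℝ, 0 < C ∧ ∀ v : V m → V m, ContDiff ℝ ∞ v →
    (∀ x, dvg v x = 0) → AxisymNoSwirl v → ∀ E : ℝ, 0 ≤ E →
    (∫⁻ x, ‖v x‖ₑ ^ 2 ≤ ENNReal.ofReal (E ^ 2)) → ∀ (x : V m) (δ M : ℝ), 0 < δ → δ ≤ rad x / 2 →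
    0 ≤ M → (∀ y ∈ Metric.closedBall x δ, curl v y ≤ M) →
    ‖v x‖ ≤ C * (E / (δ * √(rad x ^ (m - 1))) + δ * M) := by
  obtain ⟨C1, hC1, hcap⟩ := lintegral_ball_le (m := m) hm
  set b : ℝ := (volume : Measure (V m)).real (Metric.closedBall (0 : V m) 1) with hb
  have hb0 : 0 ≤ b := measureReal_nonneg
  have hc := c0_pos m
  refine ⟨((b + C1) / 2 + 2 * b) / c0 m, by positivity, ?_⟩
  intro v hv hdiv ha E hE0 hE x δ M hδ hδx hM hcurl
  have hR : 0 < rad x := by linarith
  have hvc : Continuous v := hv.continuous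
  have havg := avg_formula hv hdiv x hδ
  set L : ℝ := E / (δ * √(rad x ^ (m - 1))) with hL
  have hRm : 0 < rad x ^ (m - 1) := pow_pos hR _
  have hsq : 0 < √(rad x ^ (m - 1)) := Real.sqrt_pos.2 hRm
  have hL0 : 0 ≤ L := by positivity
  -- the energy
  have hW : ∫ y in Metric.closedBall (0 : V m) 1, ‖v (x + δ • y)‖ ^ 2 ≤ C1 * L ^ 2 := by
    rw [Far_rescale x hδ]
    have h1 := Far_energy hm hC1 hcap hvc ha hE hδ hδx
    calc (δ ^ (m + 1))⁻¹ * ∫ y in Metric.closedBall x δ, ‖v y‖ ^ 2
        ≤ (δ ^ (m + 1))⁻¹ * (C1 * (δ / rad x) ^ (m - 1) * E ^ 2) :=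
          mul_le_mul_of_nonneg_left h1 (by positivity)
      _ = C1 * L ^ 2 := by
          rw [hL, div_pow, div_pow, mul_pow, Real.sq_sqrt hRm.le]
          have h2 : δ ^ (m + 1) = δ ^ 2 * δ ^ (m - 1) := by
            rw [← pow_add]
            congr 1
            omega
          rw [h2]
          field_simp
  have hWint : IntegrableOn (fun y : V m => ‖v (x + δ • y)‖ ^ 2) (Metric.closedBall (0 : V m) 1) := by
    refine ContinuousOn.integrableOn_compact (isCompact_closedBall _ _) ?_
    fun_prop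
  -- the first term
  have hI1 : ∀ l : ℝ, 0 < l → ‖∫ y : V m, bump y • v (x + δ • y)‖ ≤
      b * (l / 2) + C1 * L ^ 2 / (2 * l) := by
    intro l hl
    set g : V m → ℝ := fun y => l / 2 + ‖v (x + δ • y)‖ ^ 2 * (1 / (2 * l)) with hg
    have hgint : IntegrableOn g (Metric.closedBall (0 : V m) 1) := by
      refine ContinuousOn.integrableOn_compact (isCompact_closedBall _ _) ?_
      fun_prop
    have h1 : ‖∫ y : V m, bump y • v (x + δ • y)‖ ≤
        ∫ y, (Metric.closedBall (0 : V m) 1).indicator g y := by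
      refine norm_integral_le_of_norm_le
        ((integrable_indicator_iff measurableSet_closedBall).2 hgint)
        (Eventually.of_forall fun y => ?_)
      by_cases hy : y ∈ Metric.closedBall (0 : V m) 1
      · rw [indicator_of_mem hy, norm_smul, Real.norm_of_nonneg (bump_nonneg y)]
        have h2 : bump y * ‖v (x + δ • y)‖ ≤ 1 * ‖v (x + δ • y)‖ :=
          mul_le_mul_of_nonneg_right (bump_le_one y) (norm_nonneg _)
        refine h2.trans ?_
        rw [one_mul, hg]
        simp only
        have h3 : l / 2 + ‖v (x + δ • y)‖ ^ 2 * (1 / (2 * l)) - ‖v (x + δ • y)‖ =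
            (‖v (x + δ • y)‖ - l) ^ 2 / (2 * l) := by
          field_simp
          ring
        have h4 : 0 ≤ (‖v (x + δ • y)‖ - l) ^ 2 / (2 * l) := by positivity
        linarith
      · rw [indicator_of_notMem hy]
        have h5 : 1 ≤ ‖y‖ := by
          rw [mem_closedBall_zero_iff, not_le] at hy
          exact hy.le
        rw [bump_eq_zero h5]
        simp
    refine h1.trans ?_
    rw [integral_indicator measurableSet_closedBall, hg]
    have hcint : IntegrableOn (fun _ : V m => l / 2) (Metric.closedBall (0 : V m) 1) :=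
      integrableOn_const (measure_closedBall_lt_top.ne)
    rw [integral_add hcint (hWint.mul_const _), integral_mul_const]
    have h6 : ∫ _ in Metric.closedBall (0 : V m) 1, l / 2 = b * (l / 2) := by
      rw [setIntegral_const, hb, smul_eq_mul]
    rw [h6]
    have h7 : (∫ y in Metric.closedBall (0 : V m) 1, ‖v (x + δ • y)‖ ^ 2) * (1 / (2 * l)) ≤
        C1 * L ^ 2 * (1 / (2 * l)) := mul_le_mul_of_nonneg_right hW (by positivity)
    have h8 : C1 * L ^ 2 * (1 / (2 * l)) = C1 * L ^ 2 / (2 * l) := by ring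
    linarith
  -- the second term
  have hI2 : ‖∫ s in (0 : ℝ)..δ, ∫ y : V m, bump y • Om v (x + s • y) y‖ ≤ 2 * M * b * δ := by
    have h1 : ∀ s ∈ Set.uIoc (0 : ℝ) δ, ‖∫ y : V m, bump y • Om v (x + s • y) y‖ ≤ 2 * M * b := by
      intro s hs
      rw [uIoc_of_le hδ.le] at hs
      have h2 : ‖∫ y : V m, bump y • Om v (x + s • y) y‖ ≤
          ∫ y, (Metric.closedBall (0 : V m) 1).indicator (fun _ => 2 * M) y := by
        refine norm_integral_le_of_norm_le
          ((integrable_indicator_iff measurableSet_closedBall).2 ?_)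
          (Eventually.of_forall fun y => ?_)
        · exact integrableOn_const (measure_closedBall_lt_top.ne)
        · by_cases hy : y ∈ Metric.closedBall (0 : V m) 1
          · rw [indicator_of_mem hy, norm_smul, Real.norm_of_nonneg (bump_nonneg y)]
            have hy1 : ‖y‖ ≤ 1 := by rwa [mem_closedBall_zero_iff] at hy
            have h3 : x + s • y ∈ Metric.closedBall x δ := by
              rw [Metric.mem_closedBall, dist_eq_norm, add_sub_cancel_left, norm_smul,
                Real.norm_of_nonneg hs.1.le]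
              nlinarith [norm_nonneg y, hs.1, hs.2]
            have h4 := hcurl _ h3
            have h5 := norm_Om_le v (x + s • y) y
            have h6 := curl_nonneg v (x + s • y)
            calc bump y * ‖Om v (x + s • y) y‖ ≤ 1 * (2 * M * 1) := by
                  refine mul_le_mul (bump_le_one y) (h5.trans ?_) (norm_nonneg _) zero_le_one
                  refine mul_le_mul (by linarith) hy1 (norm_nonneg _) (by linarith)
              _ = 2 * M := by ring
          · rw [indicator_of_notMem hy]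
            have h5 : 1 ≤ ‖y‖ := by
              rw [mem_closedBall_zero_iff, not_le] at hy
              exact hy.le
            rw [bump_eq_zero h5]
            simp
      refine h2.trans (le_of_eq ?_)
      rw [integral_indicator measurableSet_closedBall, setIntegral_const, hb, smul_eq_mul]
      ring
    have h3 := intervalIntegral.norm_integral_le_of_norm_le_const h1
    rwa [sub_zero, abs_of_pos hδ] at h3
  have hmain : ∀ l : ℝ, 0 < l → c0 m * ‖v x‖ ≤
      (b * (l / 2) + C1 * L ^ 2 / (2 * l)) + 2 * M * b * δ := by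
    intro l hl
    calc c0 m * ‖v x‖ = ‖c0 m • v x‖ := by rw [norm_smul, Real.norm_of_nonneg hc.le]
      _ = ‖(∫ y : V m, bump y • v (x + δ • y))
          - ∫ s in (0 : ℝ)..δ, ∫ y : V m, bump y • Om v (x + s • y) y‖ := by rw [havg]
      _ ≤ _ := (norm_sub_le _ _).trans (add_le_add (hI1 l hl) hI2)
  have hfin : c0 m * ‖v x‖ ≤ (b + C1) / 2 * L + 2 * M * b * δ := by
    rcases eq_or_lt_of_le hL0 with h | h
    · rw [← h]
      refine le_of_forall_pos_le_add fun ε hε => ?_
      have h1 := hmain (ε / (b + 1)) (by positivity)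
      rw [← h] at h1
      have h2 : b * (ε / (b + 1) / 2) ≤ ε := by
        rw [div_div, ← mul_div_assoc, div_le_iff₀ (by positivity)]
        nlinarith
      have h3 : C1 * (0 : ℝ) ^ 2 / (2 * (ε / (b + 1))) = 0 := by simp
      rw [h3] at h1
      linarith
    · have h1 := hmain L h
      have h2 : C1 * L ^ 2 / (2 * L) = C1 / 2 * L := by field_simp
      rw [h2] at h1
      linarith
  have h9 : c0 m * ‖v x‖ ≤ ((b + C1) / 2 + 2 * b) * (L + δ * M) := by
    have h10 : 0 ≤ (b + C1) / 2 := by positivity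
    have h11 : 0 ≤ δ * M := by positivity
    nlinarith [mul_nonneg hb0 hL0, mul_nonneg h10 h11]
  rw [div_mul_eq_mul_div, le_div_iff₀ hc]
  linarith

end Pool.Agent.Lib.MP_c167ed_an
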