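import Pool.Agent.Lib.MP_c167ed_an.Defs

/-! Elementary properties of the function `F m` (`F m s = (s²-1)_+² (1+s²)^{p/2-2}`, `p = pexp m`). -/

open MeasureTheory Set Filter Topology
open scoped ContDiff ENNReal NNReal

namespace Pool.Agent.Lib.MP_c167ed_an

theorem F_nonneg (m : ℕ) (s : ℝ) : 0 ≤ F m s :=
  mul_nonneg (sq_nonneg _) (Real.rpow_nonneg (by positivity) _)

theorem F_even (m : ℕ) (s : ℝ) : F m |s| = F m s := by
  rw [F, F, sq_abs]

private theorem contDiff_max_sq : ContDiff ℝ 1 (fun x : ℝ => (max x 0) ^ 2) := by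
  have hd : ∀ x : ℝ, HasDerivAt (fun x : ℝ => (max x 0) ^ 2) (2 * max x 0) x := by
    intro x
    rcases lt_trichotomy x 0 with hx | hx | hx
    · have h1 : HasDerivAt (fun _ : ℝ => (0 : ℝ)) 0 x := hasDerivAt_const x 0
      have h2 : (2 * max x 0 : ℝ) = 0 := by rw [max_eq_right hx.le, mul_zero]
      rw [h2]
      refine h1.congr_of_eventuallyEq ?_
      filter_upwards [gt_mem_nhds hx] with y hy
      have : max y 0 = 0 := max_eq_right (le_of_lt hy)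
      rw [this]
      norm_num
    · subst hx
      have h2 : (2 * max (0 : ℝ) 0 : ℝ) = 0 := by rw [max_self, mul_zero]
      rw [h2, hasDerivAt_iff_isLittleO]
      have h3 : (fun x' : ℝ => (max x' 0) ^ 2 - (max (0 : ℝ) 0) ^ 2 - (x' - 0) • (0 : ℝ)) =O[𝓝 0]
          (fun x' : ℝ => x' ^ 2) := by
        refine Asymptotics.IsBigO.of_bound 1 (Filter.Eventually.of_forall fun y => ?_)
        rw [max_self, smul_zero]
        have h4 : (max y 0) ^ 2 ≤ y ^ 2 := by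
          rcases le_total y 0 with h | h
          · rw [max_eq_right h]
            nlinarith [sq_nonneg y]
          · rw [max_eq_left h]
        have h5 : (max y 0) ^ 2 - (0 : ℝ) ^ 2 - 0 = (max y 0) ^ 2 := by ring
        rw [h5, Real.norm_eq_abs, Real.norm_eq_abs, abs_of_nonneg (sq_nonneg _),
          abs_of_nonneg (sq_nonneg _)]
        linarith
      refine h3.trans_isLittleO ?_
      have h5 : (fun x' : ℝ => x' ^ 2) = fun x' : ℝ => x' * (x' - 0) := by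
        funext y; ring
      rw [h5]
      have h6 : (fun x' : ℝ => x') =o[𝓝 0] (fun _ : ℝ => (1 : ℝ)) := by
        rw [Asymptotics.isLittleO_one_iff]
        exact tendsto_id
      have h7 := h6.mul_isBigO (Asymptotics.isBigO_refl (fun x' : ℝ => x' - 0) (𝓝 0))
      simpa using h7
    · have h1 : HasDerivAt (fun y : ℝ => y ^ 2) (2 * x) x := by
        simpa using hasDerivAt_pow 2 x
      have h2 : (2 * max x 0 : ℝ) = 2 * x := by rw [max_eq_left hx.le]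
      rw [h2]
      refine h1.congr_of_eventuallyEq ?_
      filter_upwards [lt_mem_nhds hx] with y hy
      have : max y 0 = y := max_eq_left (le_of_lt hy)
      rw [this]
  rw [contDiff_one_iff_deriv]
  refine ⟨fun x => (hd x).differentiableAt, ?_⟩
  have h1 : deriv (fun x : ℝ => (max x 0) ^ 2) = fun x => 2 * max x 0 := by
    funext x
    exact (hd x).deriv
  rw [h1]
  fun_prop

/-- `F` is `C¹`. -/
theorem F_contDiff (m : ℕ) : ContDiff ℝ 1 (F m) := by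
  have h1 : ContDiff ℝ 1 (fun s : ℝ => (max (s ^ 2 - 1) 0) ^ 2) :=
    contDiff_max_sq.comp (g := fun x : ℝ => (max x 0) ^ 2) (f := fun s : ℝ => s ^ 2 - 1)
      (by fun_prop)
  have h2 : ContDiff ℝ 1 (fun s : ℝ => (1 + s ^ 2) ^ (pexp m / 2 - 2)) := by
    refine ContDiff.rpow_const_of_ne (by fun_prop) fun s => ?_
    positivity
  exact h1.mul h2

theorem F_zero (m : ℕ) {s : ℝ} (hs : |s| ≤ 1) : F m s = 0 := by
  have h1 : s ^ 2 - 1 ≤ 0 := by
    have := sq_le_one_iff_abs_le_one s |>.mpr hs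
    linarith
  rw [F, max_eq_right h1]
  norm_num

private theorem pexp_bounds {m : ℕ} (hm : 3 ≤ m) : 1 < pexp m ∧ pexp m / 2 - 2 < 0 := by
  have h3 : (3 : ℝ) ≤ m := by exact_mod_cast hm
  have h4 : (0 : ℝ) < 2 * m - 3 := by linarith
  rw [pexp]
  constructor
  · rw [lt_div_iff₀ h4]
    linarith
  · have : (2 * (m : ℝ) + 1) / (2 * m - 3) < 4 := by
      rw [div_lt_iff₀ h4]
      linarith
    linarith

private theorem abs_rpow_split {s : ℝ} (hs : 0 < |s|) (e : ℝ) :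
    (s ^ 2) ^ e = |s| ^ (2 * e) := by
  rw [← sq_abs, ← Real.rpow_natCast (|s|) 2, ← Real.rpow_mul hs.le]
  norm_num

private theorem pow_four_eq (s : ℝ) : s ^ 4 = |s| ^ (4 : ℝ) := by
  have h1 : |s| ^ (4 : ℝ) = |s| ^ (4 : ℕ) := by
    rw [← Real.rpow_natCast]; norm_num
  rw [h1]
  calc s ^ 4 = (s ^ 2) ^ 2 := by ring
    _ = (|s| ^ 2) ^ 2 := by rw [sq_abs]
    _ = |s| ^ 4 := by ring

/-- `|s| ≤ 2 + λ + C λ^{1-p} F(s)`: trivial if `|s| ≤ 2` or `|s| ≤ λ`, otherwise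
`|s| = |s|^p |s|^{1-p} ≤ |s|^p λ^{1-p}` and `|s|^p ≤ C F(s)`. -/
theorem F_lower {m : ℕ} (hm : 3 ≤ m) : ∃ C : ℝ, 0 < C ∧ ∀ l : ℝ, 0 < l → ∀ s : ℝ,
    |s| ≤ 2 + l + C * l ^ (1 - pexp m) * F m s := by
  obtain ⟨hp1, he⟩ := pexp_bounds hm
  set p := pexp m with hp
  set e := p / 2 - 2 with hedef
  refine ⟨16 / 9 * 2 ^ (-e), by positivity, fun l hl s => ?_⟩
  have hnn : 0 ≤ 16 / 9 * 2 ^ (-e) * l ^ (1 - p) * F m s := by
    have := F_nonneg m s
    positivity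
  by_cases h2 : |s| ≤ 2
  · linarith
  by_cases hls : |s| ≤ l
  · linarith
  push Not at h2 hls
  have hs0 : 0 < |s| := by linarith
  have hs4 : 4 ≤ s ^ 2 := by
    rw [← sq_abs]
    nlinarith
  -- lower bound for F
  have hF : |s| ^ p ≤ 16 / 9 * 2 ^ (-e) * F m s := by
    have hFe : F m s = (s ^ 2 - 1) ^ 2 * (1 + s ^ 2) ^ e := by
      rw [F, max_eq_left (by linarith)]
    have h3 : (9 / 16 : ℝ) * s ^ 4 ≤ (s ^ 2 - 1) ^ 2 := by nlinarith
    have h4 : (2 * s ^ 2) ^ e ≤ (1 + s ^ 2) ^ e :=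
      Real.rpow_le_rpow_of_nonpos (by positivity) (by linarith) he.le
    have h5 : (2 * s ^ 2) ^ e = 2 ^ e * |s| ^ (2 * e) := by
      rw [Real.mul_rpow (by norm_num) (by positivity), abs_rpow_split hs0]
    have h6 : s ^ 4 * |s| ^ (2 * e) = |s| ^ p := by
      have h7 : s ^ 4 = |s| ^ (4 : ℝ) := by
        exact pow_four_eq s
      rw [h7, ← Real.rpow_add hs0]
      congr 1
      rw [hedef]; ring
    have h9 : (9 / 16 : ℝ) * s ^ 4 * (2 ^ e * |s| ^ (2 * e)) ≤ F m s := by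
      rw [hFe, ← h5]
      exact mul_le_mul h3 h4 (by positivity) (by positivity)
    have h10 : (9 / 16 : ℝ) * s ^ 4 * (2 ^ e * |s| ^ (2 * e)) = 9 / 16 * 2 ^ e * |s| ^ p := by
      rw [← h6]; ring
    rw [h10] at h9
    have h11 : (2 : ℝ) ^ (-e) * 2 ^ e = 1 := by
      rw [← Real.rpow_add (by norm_num)]; simp
    calc |s| ^ p = 16 / 9 * (2 ^ (-e) * 2 ^ e) * (9 / 16 * |s| ^ p) := by rw [h11]; ring
      _ = 16 / 9 * 2 ^ (-e) * (9 / 16 * 2 ^ e * |s| ^ p) := by ring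
      _ ≤ 16 / 9 * 2 ^ (-e) * F m s := mul_le_mul_of_nonneg_left h9 (by positivity)
  have h12 : |s| ^ (1 - p) ≤ l ^ (1 - p) :=
    Real.rpow_le_rpow_of_nonpos hl hls.le (by linarith)
  have h13 : |s| = |s| ^ p * |s| ^ (1 - p) := by
    rw [← Real.rpow_add hs0]
    simp
  calc |s| = |s| ^ p * |s| ^ (1 - p) := h13
    _ ≤ (16 / 9 * 2 ^ (-e) * F m s) * l ^ (1 - p) :=
        mul_le_mul hF h12 (by positivity) (by have := F_nonneg m s; positivity)
    _ = 16 / 9 * 2 ^ (-e) * l ^ (1 - p) * F m s := by ring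
    _ ≤ 2 + l + 16 / 9 * 2 ^ (-e) * l ^ (1 - p) * F m s := by linarith

/-- `F(s) ≤ C |s|^p`. -/
theorem F_upper {m : ℕ} (hm : 3 ≤ m) : ∃ C : ℝ, 0 < C ∧ ∀ s : ℝ,
    F m s ≤ C * |s| ^ (pexp m) := by
  obtain ⟨hp1, he⟩ := pexp_bounds hm
  refine ⟨1, one_pos, fun s => ?_⟩
  rw [one_mul]
  by_cases h1 : |s| ≤ 1
  · rw [F_zero m h1]
    positivity
  push Not at h1
  have hs0 : 0 < |s| := by linarith
  have hs1 : 1 ≤ s ^ 2 := by
    rw [← sq_abs]
    nlinarith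
  have h2 : (1 + s ^ 2) ^ (pexp m / 2 - 2) ≤ (s ^ 2) ^ (pexp m / 2 - 2) :=
    Real.rpow_le_rpow_of_nonpos (by positivity) (by linarith) he.le
  have h3 : (s ^ 2 - 1) ^ 2 ≤ s ^ 4 := by nlinarith
  have h6 : s ^ 4 * |s| ^ (2 * (pexp m / 2 - 2)) = |s| ^ pexp m := by
    have h7 : s ^ 4 = |s| ^ (4 : ℝ) := by
      exact pow_four_eq s
    rw [h7, ← Real.rpow_add hs0]
    congr 1
    ring
  rw [abs_rpow_split hs0] at h2
  calc F m s = (s ^ 2 - 1) ^ 2 * (1 + s ^ 2) ^ (pexp m / 2 - 2) := by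
        rw [F, max_eq_left (by linarith)]
    _ ≤ s ^ 4 * |s| ^ (2 * (pexp m / 2 - 2)) := mul_le_mul h3 h2 (by positivity) (by positivity)
    _ = |s| ^ pexp m := h6

/-- `F(s) ≤ C s²` for bounded `s`. -/
theorem F_sq {m : ℕ} (hm : 3 ≤ m) (S : ℝ) : ∃ C : ℝ, 0 < C ∧ ∀ s : ℝ, |s| ≤ S →
    F m s ≤ C * s ^ 2 := by
  obtain ⟨hp1, he⟩ := pexp_bounds hm
  refine ⟨S ^ 2 + 1, by positivity, fun s hs => ?_⟩
  by_cases h1 : |s| ≤ 1
  · rw [F_zero m h1]
    positivity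
  push Not at h1
  have hs1 : 1 ≤ s ^ 2 := by
    rw [← sq_abs]
    nlinarith
  have hS : s ^ 2 ≤ S ^ 2 := by
    rw [← sq_abs]
    exact pow_le_pow_left₀ (abs_nonneg s) hs 2
  have h2 : (1 + s ^ 2) ^ (pexp m / 2 - 2) ≤ 1 :=
    Real.rpow_le_one_of_one_le_of_nonpos (by linarith) he.le
  have h3 : (s ^ 2 - 1) ^ 2 ≤ s ^ 2 * s ^ 2 := by nlinarith
  calc F m s = (s ^ 2 - 1) ^ 2 * (1 + s ^ 2) ^ (pexp m / 2 - 2) := by
        rw [F, max_eq_left (by linarith)]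
    _ ≤ (s ^ 2 * s ^ 2) * 1 := mul_le_mul h3 h2 (by positivity) (by positivity)
    _ ≤ (S ^ 2 + 1) * s ^ 2 := by nlinarith

end Pool.Agent.Lib.MP_c167ed_an
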