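import Pool.Agent.Lib.MP_c167ed_an.Defs

/-! Cylindrical coordinates. -/

open MeasureTheory Set Filter Topology
open scoped ContDiff ENNReal NNReal

namespace Pool.Agent.Lib.MP_c167ed_an

/-- Polar coordinates for functions of the norm. -/
lemma polar_norm {m : ℕ} (hm : 1 ≤ m) {g : ℝ → ℝ≥0∞} (hg : Measurable g) :
    ∫⁻ y : EuclideanSpace ℝ (Fin m), g ‖y‖ =
      (volume : Measure (EuclideanSpace ℝ (Fin m))).toSphere univ *
        ∫⁻ r in Ioi (0 : ℝ), g r * ENNReal.ofReal (r ^ (m - 1)) := by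
  have hnt : Nontrivial (EuclideanSpace ℝ (Fin m)) := by
    have : Nonempty (Fin m) := ⟨⟨0, hm⟩⟩
    infer_instance
  have hdim : Module.finrank ℝ (EuclideanSpace ℝ (Fin m)) = m := by simp
  have h1 : ∫⁻ y : EuclideanSpace ℝ (Fin m), g ‖y‖
      = ∫⁻ x : ({(0)}ᶜ : Set (EuclideanSpace ℝ (Fin m))), g ‖x.1‖
        ∂((volume : Measure (EuclideanSpace ℝ (Fin m))).comap (↑)) := by
    rw [lintegral_subtype_comap (measurableSet_singleton _).compl fun x => g ‖x‖,
      restrict_compl_singleton]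
  have h2 := (volume : Measure (EuclideanSpace ℝ (Fin m))).measurePreserving_homeomorphUnitSphereProd.lintegral_comp_emb
    (Homeomorph.measurableEmbedding _) (g ∘ Subtype.val ∘ Prod.snd)
  simp only [Function.comp_apply, homeomorphUnitSphereProd_apply_snd_coe] at h2
  rw [h1, h2, lintegral_prod _ (by fun_prop)]
  simp only
  rw [lintegral_const, mul_comm]
  congr 1
  rw [Measure.volumeIoiPow, lintegral_withDensity_eq_lintegral_mul _ (by fun_prop) (by fun_prop),
    hdim, ← lintegral_subtype_comap measurableSet_Ioi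
      fun r : ℝ => g r * ENNReal.ofReal (r ^ (m - 1))]
  refine lintegral_congr fun r => ?_
  rw [Pi.mul_apply, mul_comm]

lemma polar_eucl_norm {m : ℕ} (y : EuclideanSpace ℝ (Fin m)) :
    ‖y‖ = Real.sqrt (∑ i : Fin m, (y i) ^ 2) := by
  rw [EuclideanSpace.norm_eq]
  simp

/-- Cylindrical coordinates for functions of `(r,z)` (Mathlib: `HaarToSphere`,
`measurePreserving_homeomorphUnitSphereProd`). -/
theorem lintegral_axisym {m : ℕ} (hm : 1 ≤ m) : ∃ c : ℝ≥0, 0 < c ∧ ∀ f : ℝ → ℝ → ℝ≥0∞,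
    Measurable (Function.uncurry f) →
      ∫⁻ x : V m, f (rad x) (ax x) =
        c * ∫⁻ z : ℝ, ∫⁻ r in Ioi (0 : ℝ), f r z * ENNReal.ofReal (r ^ (m - 1)) := by
  have hnt : Nontrivial (EuclideanSpace ℝ (Fin m)) := by
    have : Nonempty (Fin m) := ⟨⟨0, hm⟩⟩
    infer_instance
  have hne : (volume : Measure (EuclideanSpace ℝ (Fin m))).toSphere univ ≠ 0 :=
    Measure.measure_univ_ne_zero.2 (Measure.toSphere_ne_zero _)
  have hlt : (volume : Measure (EuclideanSpace ℝ (Fin m))).toSphere univ ≠ ⊤ :=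
    measure_ne_top _ _
  refine ⟨((volume : Measure (EuclideanSpace ℝ (Fin m))).toSphere univ).toNNReal,
    ENNReal.toNNReal_pos hne hlt, ?_⟩
  intro f hf
  rw [ENNReal.coe_toNNReal hlt]
  have hF : Measurable (fun y : Fin (m + 1) → ℝ =>
      f (Real.sqrt (∑ i : Fin m, (y i.castSucc) ^ 2)) (y (Fin.last m))) := by
    have h := hf.comp (g := Function.uncurry f)
      (f := fun y : Fin (m + 1) → ℝ => (Real.sqrt (∑ i : Fin m, (y i.castSucc) ^ 2),
        y (Fin.last m))) (by fun_prop)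
    exact h
  have hG : Measurable (fun p : ℝ × (Fin m → ℝ) =>
      f (Real.sqrt (∑ i : Fin m, (p.2 i) ^ 2)) p.1) := by
    have h := hf.comp (g := Function.uncurry f)
      (f := fun p : ℝ × (Fin m → ℝ) => (Real.sqrt (∑ i : Fin m, (p.2 i) ^ 2), p.1))
      (by fun_prop)
    exact h
  have h1 : ∫⁻ x : V m, f (rad x) (ax x)
      = ∫⁻ y : Fin (m + 1) → ℝ, f (Real.sqrt (∑ i : Fin m, (y i.castSucc) ^ 2))
        (y (Fin.last m)) :=
    (PiLp.volume_preserving_ofLp (Fin (m + 1))).lintegral_comp hF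
  have h2 : ∫⁻ y : Fin (m + 1) → ℝ, f (Real.sqrt (∑ i : Fin m, (y i.castSucc) ^ 2))
        (y (Fin.last m))
      = ∫⁻ p : ℝ × (Fin m → ℝ), f (Real.sqrt (∑ i : Fin m, (p.2 i) ^ 2)) p.1 := by
    rw [← (volume_preserving_piFinSuccAbove (fun _ : Fin (m + 1) => ℝ)
      (Fin.last m)).lintegral_comp hG]
    refine lintegral_congr fun y => ?_
    simp [MeasurableEquiv.piFinSuccAbove, Fin.insertNthEquiv, Fin.init]
  rw [h1, h2, Measure.volume_eq_prod, lintegral_prod _ hG.aemeasurable]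
  have h3 : ∀ z : ℝ, ∫⁻ w : Fin m → ℝ, f (Real.sqrt (∑ i : Fin m, (w i) ^ 2)) z
      = (volume : Measure (EuclideanSpace ℝ (Fin m))).toSphere univ *
        ∫⁻ r in Ioi (0 : ℝ), f r z * ENNReal.ofReal (r ^ (m - 1)) := by
    intro z
    have hfz : Measurable (fun r => f r z) := hf.comp (by fun_prop : Measurable fun r : ℝ => (r, z))
    rw [← polar_norm hm hfz]
    have hH : Measurable (fun w : Fin m → ℝ => f (Real.sqrt (∑ i : Fin m, (w i) ^ 2)) z) :=
      hfz.comp (by fun_prop)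
    rw [← (PiLp.volume_preserving_ofLp (Fin m)).lintegral_comp hH]
    refine lintegral_congr fun y => ?_
    rw [polar_eucl_norm]
  simp only [h3]
  rw [lintegral_const_mul]
  refine Measurable.lintegral_prod_right' (f := fun p : ℝ × ℝ =>
    f p.2 p.1 * ENNReal.ofReal (p.2 ^ (m - 1))) ?_
  exact (hf.comp (by fun_prop : Measurable fun p : ℝ × ℝ => (p.2, p.1))).mul (by fun_prop)

/-- the axis has measure zero -/
theorem ae_rad_pos {m : ℕ} (hm : 1 ≤ m) : ∀ᵐ x : V m, 0 < rad x := by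
  classical
  obtain ⟨c, -, hc⟩ := lintegral_axisym hm
  have hm2 : Measurable (Function.uncurry
      (fun r _ : ℝ => (Iic (0 : ℝ)).indicator (fun _ => (1 : ℝ≥0∞)) r)) := by
    have h := (measurable_const.indicator measurableSet_Iic :
      Measurable ((Iic (0 : ℝ)).indicator (fun _ => (1 : ℝ≥0∞))))
    exact h.comp measurable_fst
  have h1 := hc _ hm2
  have h2 : ∀ z : ℝ, ∫⁻ r in Ioi (0 : ℝ), (Iic (0 : ℝ)).indicator (fun _ => (1 : ℝ≥0∞)) r *
      ENNReal.ofReal (r ^ (m - 1)) = 0 := by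
    intro z
    rw [setLIntegral_congr_fun (g := fun _ => (0 : ℝ≥0∞)) measurableSet_Ioi, lintegral_zero]
    intro r hr
    show (Iic (0 : ℝ)).indicator (fun _ => (1 : ℝ≥0∞)) r * ENNReal.ofReal (r ^ (m - 1)) = 0
    rw [indicator_of_notMem, zero_mul]
    rw [mem_Iic, not_le]
    exact hr
  have h3 : ∫⁻ x : V m, (Iic (0 : ℝ)).indicator (fun _ => (1 : ℝ≥0∞)) (rad x) = 0 := by
    rw [h1, lintegral_congr h2, lintegral_zero, mul_zero]
  have hrm : Measurable (rad : V m → ℝ) := by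
    unfold rad
    fun_prop
  have h4 : Measurable (fun x : V m => (Iic (0 : ℝ)).indicator (fun _ => (1 : ℝ≥0∞)) (rad x)) :=
    (measurable_const.indicator measurableSet_Iic).comp hrm
  rw [lintegral_eq_zero_iff h4] at h3
  filter_upwards [h3] with x hx
  by_contra hcon
  have h5 : rad x ∈ Iic (0 : ℝ) := not_lt.1 hcon
  rw [indicator_of_mem h5] at hx
  exact one_ne_zero hx

end Pool.Agent.Lib.MP_c167ed_an
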