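import Pool.Agent.Lib.MP_c167ed_an.NearA
import Pool.Agent.Lib.MP_c167ed_an.Fun
import Pool.Agent.Lib.MP_c167ed_an.Polar

/-! Radial velocity near the axis. -/

open MeasureTheory Set Filter Topology
open scoped ContDiff ENNReal NNReal

namespace Pool.Agent.Lib.MP_c167ed_an

/-- the pointwise/integral estimate of the vorticity in a ball centred on the axis. -/
theorem integral_curl_ball_le {m : ℕ} (hm : 3 ≤ m) {CF : ℝ} (hCF0 : 0 < CF)
    (hCF : ∀ l : ℝ, 0 < l → ∀ s : ℝ, |s| ≤ 2 + l + CF * l ^ (1 - pexp m) * F m s)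
    {v : V m → V m} (hv : ContDiff ℝ ∞ v) (hax : AxisymNoSwirl v) {Q : ℝ} (hQ0 : 0 ≤ Q)
    (hQ : ∫⁻ x : V m, ENNReal.ofReal (F m (curl v x / rad x ^ (m - 1))) ≤ ENNReal.ofReal Q)
    (x0 : V m) (hx0 : rad x0 = 0) {s : ℝ} (hs : 0 < s) {l : ℝ} (hl : 0 < l) :
    ∫ y in Metric.closedBall x0 (2 * s), curl v y ≤
      (2 * s) ^ (m - 1) * ((2 + l) * ((2 * s) ^ (m + 1) *
        (volume (Metric.ball (0 : V m) 1)).toReal) + CF * l ^ (1 - pexp m) * Q) := by
  have hm1 : 1 ≤ m := by omega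
  set B := Metric.closedBall x0 (2 * s) with hB
  set cV : ℝ := (volume (Metric.ball (0 : V m) 1)).toReal with hcV
  have hcV0 : 0 ≤ cV := ENNReal.toReal_nonneg
  have hvol : volume B = ENNReal.ofReal ((2 * s) ^ (m + 1) * cV) := by
    rw [hB, Measure.addHaar_closedBall _ _ (by positivity)]
    rw [ENNReal.ofReal_mul (by positivity), hcV, ENNReal.ofReal_toReal measure_ball_lt_top.ne]
    simp
  have hlp : 0 < l ^ (1 - pexp m) := Real.rpow_pos_of_pos hl _
  have hpt : ∀ y ∈ B, ENNReal.ofReal (curl v y) ≤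
      ENNReal.ofReal ((2 * s) ^ (m - 1) * (2 + l)) +
      ENNReal.ofReal ((2 * s) ^ (m - 1) * (CF * l ^ (1 - pexp m))) *
        ENNReal.ofReal (F m (curl v y / rad y ^ (m - 1))) := by
    intro y hy
    rw [← ENNReal.ofReal_mul (by positivity), ← ENNReal.ofReal_add (by positivity)
      (mul_nonneg (by positivity) (F_nonneg _ _))]
    apply ENNReal.ofReal_le_ofReal
    rcases (rad_nonneg y).eq_or_lt with h0 | h0
    · rw [curl_axis hm1 hv hax h0.symm]
      have := F_nonneg m (0 / rad y ^ (m - 1))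
      positivity
    · have hrad : rad y ≤ 2 * s := by
        have h1 := rad_sub_le y x0
        rw [hx0, sub_zero, abs_of_pos h0] at h1
        refine h1.trans ?_
        rw [← dist_eq_norm]
        exact hy
      set ξ : ℝ := curl v y / rad y ^ (m - 1) with hξ
      have hξ0 : 0 ≤ ξ := div_nonneg (curl_nonneg v y) (by positivity)
      have h2 : curl v y = rad y ^ (m - 1) * ξ := by
        rw [hξ]; field_simp
      have h3 := hCF l hl ξ
      rw [abs_of_nonneg hξ0] at h3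
      calc curl v y = rad y ^ (m - 1) * ξ := h2
        _ ≤ (2 * s) ^ (m - 1) * ξ := by gcongr
        _ ≤ (2 * s) ^ (m - 1) * (2 + l + CF * l ^ (1 - pexp m) * F m ξ) := by gcongr
        _ = _ := by ring
  have hlin : ∫⁻ y in B, ENNReal.ofReal (curl v y) ≤
      ENNReal.ofReal ((2 * s) ^ (m - 1) * ((2 + l) * ((2 * s) ^ (m + 1) * cV)
        + CF * l ^ (1 - pexp m) * Q)) := by
    calc ∫⁻ y in B, ENNReal.ofReal (curl v y)
        ≤ ∫⁻ y in B, (ENNReal.ofReal ((2 * s) ^ (m - 1) * (2 + l)) +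
          ENNReal.ofReal ((2 * s) ^ (m - 1) * (CF * l ^ (1 - pexp m))) *
            ENNReal.ofReal (F m (curl v y / rad y ^ (m - 1)))) :=
          setLIntegral_mono' Metric.isClosed_closedBall.measurableSet hpt
      _ = ENNReal.ofReal ((2 * s) ^ (m - 1) * (2 + l)) * volume B +
          ENNReal.ofReal ((2 * s) ^ (m - 1) * (CF * l ^ (1 - pexp m))) *
            ∫⁻ y in B, ENNReal.ofReal (F m (curl v y / rad y ^ (m - 1))) := by
          rw [lintegral_add_left measurable_const, setLIntegral_const,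
            lintegral_const_mul' _ _ ENNReal.ofReal_ne_top]
      _ ≤ ENNReal.ofReal ((2 * s) ^ (m - 1) * (2 + l)) * ENNReal.ofReal ((2 * s) ^ (m + 1) * cV) +
          ENNReal.ofReal ((2 * s) ^ (m - 1) * (CF * l ^ (1 - pexp m))) * ENNReal.ofReal Q := by
          rw [hvol]
          gcongr
          exact (setLIntegral_le_lintegral _ _).trans hQ
      _ = _ := by
          rw [← ENNReal.ofReal_mul (by positivity), ← ENNReal.ofReal_mul (by positivity),
            ← ENNReal.ofReal_add (by positivity) (by positivity)]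
          congr 1
          ring
  have hint : ∫ y in B, curl v y = (∫⁻ y in B, ENNReal.ofReal (curl v y)).toReal := by
    rw [integral_eq_lintegral_of_nonneg_ae (Eventually.of_forall fun y => curl_nonneg v y)
      (continuous_curl hv).aestronglyMeasurable]
  rw [hint]
  exact ENNReal.toReal_le_of_le_ofReal (by positivity) hlin

theorem pexp_sub_one {m : ℕ} (hm : 3 ≤ m) : pexp m - 1 = 4 / (2 * m - 3) := by
  have h : (2 * (m : ℝ) - 3) ≠ 0 := by
    have : (3 : ℝ) ≤ m := by exact_mod_cast hm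
    linarith
  rw [pexp]
  field_simp
  ring

/-- Step 2: `curl v y ≤ (2s)^{m-1} |ξ(y)|`, `ξ = curl v / rad^{m-1}`, on `B(axpt x, 2s)`, and
`|ξ| ≤ 2 + λ + C λ^{1-p} F(ξ)` with `λ = s^{-θ}`, `θ = m - 5/4`:
`s^{-(m+2)} ∫_{B(axpt x,2s)} curl v ≤ C s^{-3} ((2 + s^{-θ}) s^{m+1} + s^{θ(p-1)} Q)
 ≤ C (1 + s^{-3/4} + s^{-1+1/(2m-3)} Q)`, integrable on `(0,1)`. -/
theorem near_axis {m : ℕ} (hm : 3 ≤ m) : ∃ C : ℝ, 0 < C ∧ ∀ v : V m → V m, ContDiff ℝ ∞ v →
    (∀ x, dvg v x = 0) → AxisymNoSwirl v → ∀ E Q : ℝ, 0 ≤ E → 0 ≤ Q →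
    (∫⁻ x, ‖v x‖ₑ ^ 2 ≤ ENNReal.ofReal (E ^ 2)) →
    (∫⁻ x : V m, ENNReal.ofReal (F m (curl v x / rad x ^ (m - 1))) ≤ ENNReal.ofReal Q) →
    ∀ (x : V m) (μ : ℝ), 0 < rad x → rad x ≤ 1 → 0 ≤ μ →
    (∀ y, rad y ≤ 2 * rad x → curl v y ≤ μ * rad y) →
    (∑ i : Fin m, v x i.castSucc * x i.castSucc) ≤
      rad x ^ 2 * (C * (1 + E + Q + μ * rad x)) := by
  obtain ⟨CA, hCA, haux⟩ := near_axis_aux (m := m) (by omega)
  obtain ⟨CF, hCF0, hCF⟩ := F_lower hm
  set cV : ℝ := (volume (Metric.ball (0 : V m) 1)).toReal with hcV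
  have hcV0 : 0 ≤ cV := ENNReal.toReal_nonneg
  have hm' : (3 : ℝ) ≤ m := by exact_mod_cast hm
  set κ : ℝ := 1 / (2 * m - 3) with hκ
  have hden : 0 < (2 * (m : ℝ) - 3) := by linarith
  have hκ0 : 0 < κ := by positivity
  set P : ℝ := 2 ^ (m - 1) * (cV * 2 ^ (m + 1) * 6) with hP
  set R : ℝ := 2 ^ (m - 1) * (CF / κ) with hR
  have hP0 : 0 ≤ P := by positivity
  have hR0 : 0 ≤ R := by positivity
  refine ⟨CA * (1 + P + R), by positivity, ?_⟩
  intro v hv hdiv hax E Q hE hQ0 hE2 hQ x μ hx0 hx1 hμ hcurl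
  set g : ℝ → ℝ := fun s => 2 ^ (m - 1) * (cV * 2 ^ (m + 1) * (2 + s ^ (-(3 / 4) : ℝ))
    + CF * Q * s ^ (κ - 1)) with hg
  have hgc : ContinuousOn g (Icc (rad x) 1) := by
    have h1 : ContinuousOn (fun s : ℝ => s ^ (-(3 / 4) : ℝ)) (Icc (rad x) 1) :=
      continuousOn_id.rpow_const fun s hs => Or.inl (hx0.trans_le hs.1).ne'
    have h2 : ContinuousOn (fun s : ℝ => s ^ (κ - 1)) (Icc (rad x) 1) :=
      continuousOn_id.rpow_const fun s hs => Or.inl (hx0.trans_le hs.1).ne'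
    exact continuousOn_const.mul ((continuousOn_const.mul (continuousOn_const.add h1)).add
      (continuousOn_const.mul h2))
  have key := haux v hv hdiv hax E hE hE2 x μ hx0 hx1 hμ hcurl g hgc ?_
  · refine key.trans ?_
    have hI1 : ∫ s in (rad x)..1, s ^ (-(3 / 4) : ℝ) ≤ 4 := by
      rw [integral_rpow (Or.inl (by norm_num))]
      have : 0 ≤ rad x ^ (-(3 / 4) + 1 : ℝ) := Real.rpow_nonneg hx0.le _
      rw [Real.one_rpow]
      rw [div_le_iff₀ (by norm_num)]
      norm_num at this ⊢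
      linarith
    have hI2 : ∫ s in (rad x)..1, s ^ (κ - 1) ≤ 1 / κ := by
      rw [integral_rpow (Or.inl (by linarith))]
      have : 0 ≤ rad x ^ (κ - 1 + 1 : ℝ) := Real.rpow_nonneg hx0.le _
      rw [Real.one_rpow]
      have h3 : κ - 1 + 1 = κ := by ring
      rw [h3] at this ⊢
      gcongr
      linarith
    have hint1 : IntervalIntegrable (fun s : ℝ => s ^ (-(3 / 4) : ℝ)) volume (rad x) 1 :=
      intervalIntegral.intervalIntegrable_rpow' (by norm_num)
    have hint2 : IntervalIntegrable (fun s : ℝ => s ^ (κ - 1)) volume (rad x) 1 :=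
      intervalIntegral.intervalIntegrable_rpow' (by linarith)
    have hI : ∫ s in (rad x)..1, g s ≤ P + R * Q := by
      have h4 : ∫ s in (rad x)..1, g s = 2 ^ (m - 1) * (cV * 2 ^ (m + 1) *
          (2 * (1 - rad x) + ∫ s in (rad x)..1, s ^ (-(3 / 4) : ℝ))
          + CF * Q * ∫ s in (rad x)..1, s ^ (κ - 1)) := by
        rw [hg, intervalIntegral.integral_const_mul, intervalIntegral.integral_add
          ((intervalIntegrable_const.add hint1).const_mul _) (hint2.const_mul _),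
          intervalIntegral.integral_const_mul, intervalIntegral.integral_const_mul,
          intervalIntegral.integral_add intervalIntegrable_const hint1,
          intervalIntegral.integral_const]
        simp only [smul_eq_mul]
        ring
      rw [h4, hP, hR]
      have h5 : 2 * (1 - rad x) + ∫ s in (rad x)..1, s ^ (-(3 / 4) : ℝ) ≤ 6 := by linarith
      have h6 : CF * Q * ∫ s in (rad x)..1, s ^ (κ - 1) ≤ CF * Q * (1 / κ) := by gcongr
      calc _ ≤ 2 ^ (m - 1) * (cV * 2 ^ (m + 1) * 6 + CF * Q * (1 / κ)) := by gcongr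
        _ = _ := by ring
    have h7 : E + μ * rad x + ∫ s in (rad x)..1, g s ≤ (1 + P + R) * (1 + E + Q + μ * rad x) := by
      have : 0 ≤ μ * rad x := by positivity
      nlinarith [mul_nonneg hP0 hE, mul_nonneg hP0 hQ0, mul_nonneg hP0 this, mul_nonneg hR0 hE,
        mul_nonneg hR0 this]
    calc rad x ^ 2 * (CA * (E + μ * rad x + ∫ s in (rad x)..1, g s))
        ≤ rad x ^ 2 * (CA * ((1 + P + R) * (1 + E + Q + μ * rad x))) := by gcongr
      _ = _ := by ring
  · intro s hs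
    have hs0 : 0 < s := hx0.trans_le hs.1
    have hs1 : s ≤ 1 := hs.2
    have h1 := integral_curl_ball_le hm hCF0 hCF hv hax hQ0 hQ (axpt x) (rad_axpt x) hs0
      (l := s ^ (-((m : ℝ) - 5 / 4))) (Real.rpow_pos_of_pos hs0 _)
    refine h1.trans ?_
    rw [← hcV]
    -- exponents
    have e1 : s ^ (m - 1) * s ^ (m + 1) ≤ s ^ (m + 2) := by
      rw [← pow_add]
      exact pow_le_pow_of_le_one hs0.le hs1 (by omega)
    have e2 : s ^ (-((m : ℝ) - 5 / 4)) * (s ^ (m - 1) * s ^ (m + 1))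
        = s ^ (m + 2) * s ^ (-(3 / 4) : ℝ) := by
      rw [← pow_add, ← Real.rpow_natCast s (m - 1 + (m + 1)), ← Real.rpow_natCast s (m + 2),
        ← Real.rpow_add hs0, ← Real.rpow_add hs0]
      congr 1
      have : ((m - 1 + (m + 1) : ℕ) : ℝ) = 2 * m := by
        have : m - 1 + (m + 1) = 2 * m := by omega
        rw [this]; push_cast; ring
      rw [this]
      push_cast
      ring
    have e3 : s ^ (m - 1) * (s ^ (-((m : ℝ) - 5 / 4))) ^ (1 - pexp m)
        = s ^ (m + 2) * s ^ (κ - 1) := by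
      rw [← Real.rpow_natCast s (m - 1), ← Real.rpow_natCast s (m + 2), ← Real.rpow_mul hs0.le,
        ← Real.rpow_add hs0, ← Real.rpow_add hs0]
      congr 1
      have h2 : (1 - pexp m) = -(4 / (2 * (m : ℝ) - 3)) := by
        rw [← pexp_sub_one hm]; ring
      have h3 : ((m - 1 : ℕ) : ℝ) = m - 1 := by
        rw [Nat.cast_sub (by omega)]; simp
      have hne : (2 * (m : ℝ) - 3) ≠ 0 := hden.ne'
      have h5 : ((m + 2 : ℕ) : ℝ) = m + 2 := by push_cast; ring
      have h6 : (4 / (2 * (m : ℝ) - 3)) * (m - 5 / 4) = 2 + 1 / (2 * (m : ℝ) - 3) := by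
        rw [div_mul_eq_mul_div, eq_comm, eq_div_iff hne, add_mul, div_mul_cancel₀ _ hne]
        ring
      rw [h2, h3, h5, hκ]
      linear_combination h6
    have h4 : (2 * s) ^ (m - 1) * ((2 + s ^ (-((m : ℝ) - 5 / 4))) * ((2 * s) ^ (m + 1) * cV)
          + CF * (s ^ (-((m : ℝ) - 5 / 4))) ^ (1 - pexp m) * Q)
        = 2 ^ (m - 1) * (cV * 2 ^ (m + 1) * (2 * (s ^ (m - 1) * s ^ (m + 1))
          + s ^ (-((m : ℝ) - 5 / 4)) * (s ^ (m - 1) * s ^ (m + 1)))
          + CF * Q * (s ^ (m - 1) * (s ^ (-((m : ℝ) - 5 / 4))) ^ (1 - pexp m))) := by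
      rw [mul_pow, mul_pow]
      ring
    rw [h4, e2, e3, hg]
    calc _ ≤ 2 ^ (m - 1) * (cV * 2 ^ (m + 1) * (2 * s ^ (m + 2)
          + s ^ (m + 2) * s ^ (-(3 / 4) : ℝ)) + CF * Q * (s ^ (m + 2) * s ^ (κ - 1))) := by
          gcongr
      _ = _ := by ring

end Pool.Agent.Lib.MP_c167ed_an
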