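import Pool.Agent.Lib.MP_c167ed_an.Defs
import Pool.Agent.Lib.MP_c167ed_an.Planar

/-! The vorticity equation in the meridian plane. -/

open MeasureTheory Set Filter Topology
open scoped ContDiff ENNReal NNReal

namespace Pool.Agent.Lib.MP_c167ed_an

variable {m : ℕ} {T : ℝ} {u : ℝ → V m → V m} {p : ℝ → V m → ℝ}

/-- the linear map `(t,r,z) ↦ (t,(r,0,…,0,z))` -/
noncomputable def transportIota (m : ℕ) : ℝ × ℝ × ℝ →L[ℝ] ℝ × V m :=
  (ContinuousLinearMap.fst ℝ ℝ (ℝ × ℝ)).prod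
    (((ContinuousLinearMap.fst ℝ ℝ ℝ).comp (ContinuousLinearMap.snd ℝ ℝ (ℝ × ℝ))).smulRight
        (EuclideanSpace.single (0 : Fin (m + 1)) (1 : ℝ)) +
      ((ContinuousLinearMap.snd ℝ ℝ ℝ).comp (ContinuousLinearMap.snd ℝ ℝ (ℝ × ℝ))).smulRight
        (EuclideanSpace.single (Fin.last m) (1 : ℝ)))

theorem transport_emb_eq (r z : ℝ) :
    (emb r z : V m) = r • EuclideanSpace.single (0 : Fin (m + 1)) (1 : ℝ) +
      z • EuclideanSpace.single (Fin.last m) (1 : ℝ) := by
  unfold emb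
  congr 1
  · ext i
    simp [PiLp.single_apply]
  · ext i
    simp [PiLp.single_apply]

theorem transportIota_apply (q : ℝ × ℝ × ℝ) :
    transportIota m q = (q.1, (emb q.2.1 q.2.2 : V m)) := by
  rw [transport_emb_eq]
  simp [transportIota]

theorem transport_uniqueDiffOn (T : ℝ) :
    UniqueDiffOn ℝ (Ico 0 T ×ˢ (univ : Set (V m))) :=
  (uniqueDiffOn_Ico 0 T).prod uniqueDiffOn_univ

/-- spatial derivative = derivative of the space-time function -/
theorem transport_hasFDerivAt (h : EulerSolution m T u p) {t : ℝ} (ht : t ∈ Ico 0 T) (x : V m) :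
    HasFDerivAt (u t) ((fderivWithin ℝ (fun q : ℝ × V m => u q.1 q.2) (Ico 0 T ×ˢ univ)
      (t, x)).comp (ContinuousLinearMap.inr ℝ ℝ (V m))) x := by
  have h1 : HasFDerivWithinAt (fun q : ℝ × V m => u q.1 q.2)
      (fderivWithin ℝ (fun q : ℝ × V m => u q.1 q.2) (Ico 0 T ×ˢ univ) (t, x))
      (Ico 0 T ×ˢ univ) (t, x) :=
    ((h.smooth_u.differentiableOn (by simp)) (t, x) ⟨ht, mem_univ _⟩).hasFDerivWithinAt
  have h2 : HasFDerivWithinAt (fun y : V m => (t, y)) (ContinuousLinearMap.inr ℝ ℝ (V m))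
      univ x := (hasFDerivAt_prodMk_right t x).hasFDerivWithinAt
  have h3 := HasFDerivWithinAt.comp (g := fun q : ℝ × V m => u q.1 q.2) x h1 h2
    (fun y _ => ⟨ht, mem_univ _⟩)
  exact hasFDerivWithinAt_univ.mp h3

theorem transport_pd_eq (h : EulerSolution m T u p) {t : ℝ} (ht : t ∈ Ico 0 T) (x : V m)
    (i j : Fin (m + 1)) :
    pd (u t) i j x = (fderivWithin ℝ (fun q : ℝ × V m => u q.1 q.2) (Ico 0 T ×ˢ univ)
      (t, x)) (0, EuclideanSpace.single i 1) j := by
  unfold pd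
  rw [(transport_hasFDerivAt h ht x).fderiv]
  simp

theorem transport_pd_contDiffOn (h : EulerSolution m T u p) (i j : Fin (m + 1)) :
    ContDiffOn ℝ ∞ (fun q : ℝ × V m => pd (u q.1) i j q.2) (Ico 0 T ×ˢ univ) := by
  have h1 : ContDiffOn ℝ ∞ (fun q : ℝ × V m =>
      fderivWithin ℝ (fun q : ℝ × V m => u q.1 q.2) (Ico 0 T ×ˢ univ) q) (Ico 0 T ×ˢ univ) :=
    h.smooth_u.fderivWithin (transport_uniqueDiffOn T) (by simp)
  have h2 : ContDiffOn ℝ ∞ (fun q : ℝ × V m =>
      (EuclideanSpace.proj j : V m →L[ℝ] ℝ) ((fderivWithin ℝ (fun q : ℝ × V m => u q.1 q.2)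
        (Ico 0 T ×ˢ univ) q) ((0 : ℝ), EuclideanSpace.single i 1))) (Ico 0 T ×ˢ univ) :=
    (EuclideanSpace.proj j : V m →L[ℝ] ℝ).contDiff.comp_contDiffOn
      (h1.clm_apply contDiffOn_const)
  refine h2.congr ?_
  intro q hq
  exact transport_pd_eq h hq.1 q.2 i j

theorem transport_om_contDiffOn (h : EulerSolution m T u p) :
    ContDiffOn ℝ ∞ (fun q : ℝ × ℝ × ℝ => om (u q.1) q.2.1 q.2.2) (Ico 0 T ×ˢ univ) := by
  have h1 : ∀ i j : Fin (m + 1), ContDiffOn ℝ ∞
      (fun q : ℝ × ℝ × ℝ => pd (u q.1) i j (emb q.2.1 q.2.2)) (Ico 0 T ×ˢ univ) := by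
    intro i j
    have h2 := (transport_pd_contDiffOn h i j).comp
      ((transportIota m).contDiff.contDiffOn (s := Ico 0 T ×ˢ univ))
      (by
        intro q hq
        rw [transportIota_apply]
        exact ⟨hq.1, mem_univ _⟩)
    refine h2.congr ?_
    intro q hq
    simp only [Function.comp, transportIota_apply]
  exact (h1 (Fin.last m) 0).sub (h1 0 (Fin.last m))

theorem om_continuousOn (h : EulerSolution m T u p) :
    ContinuousOn (fun q : ℝ × ℝ × ℝ => om (u q.1) q.2.1 q.2.2) (Ico 0 T ×ˢ univ) :=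
  (transport_om_contDiffOn h).continuousOn

theorem om_contDiffOn (h : EulerSolution m T u p) :
    ContDiffOn ℝ ∞ (fun q : ℝ × ℝ × ℝ => om (u q.1) q.2.1 q.2.2) (Ioo 0 T ×ˢ univ) :=
  (transport_om_contDiffOn h).mono (prod_mono Ioo_subset_Ico_self subset_rfl)

section abstract

variable {E : Type*} [NormedAddCommGroup E] [NormedSpace ℝ E]

theorem transport_hasFDerivAt_fderiv {f : E → ℝ} {q : E} (hf : ContDiffAt ℝ 2 f q) (v : E) :
    HasFDerivAt (fun y => fderiv ℝ f y v)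
      ((ContinuousLinearMap.apply ℝ ℝ v : (E →L[ℝ] ℝ) →L[ℝ] ℝ).comp (fderiv ℝ (fderiv ℝ f) q)) q := by
  have h1 : DifferentiableAt ℝ (fderiv ℝ f) q :=
    (hf.fderiv_right (m := 1) (by norm_num)).differentiableAt (by norm_num)
  exact (ContinuousLinearMap.apply ℝ ℝ v : (E →L[ℝ] ℝ) →L[ℝ] ℝ).hasFDerivAt.comp q h1.hasFDerivAt

theorem transport_symm {f : E → ℝ} {q : E} (hf : ContDiffAt ℝ 2 f q) (v w : E) :
    fderiv ℝ (fderiv ℝ f) q v w = fderiv ℝ (fderiv ℝ f) q w v :=
  (hf.isSymmSndFDerivAt (by simp)) v w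

theorem transport_planar {a b P : E → ℝ} {q : E} (ha : ContDiffAt ℝ 2 a q)
    (hb : ContDiffAt ℝ 2 b q) (hP : ContDiffAt ℝ 2 P q) (e0 e1 e2 : E)
    (h1 : ∀ᶠ y in 𝓝 q, fderiv ℝ a y e0 + (a y * fderiv ℝ a y e1 + b y * fderiv ℝ a y e2)
      + fderiv ℝ P y e1 = 0)
    (h2 : ∀ᶠ y in 𝓝 q, fderiv ℝ b y e0 + (a y * fderiv ℝ b y e1 + b y * fderiv ℝ b y e2)
      + fderiv ℝ P y e2 = 0) :
    fderiv ℝ (fun y => fderiv ℝ a y e2 - fderiv ℝ b y e1) q (e0 + a q • e1 + b q • e2)
      = - (fderiv ℝ a q e1 + fderiv ℝ b q e2) * (fderiv ℝ a q e2 - fderiv ℝ b q e1) := by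
  have ha1 : HasFDerivAt a (fderiv ℝ a q) q := (ha.differentiableAt (by norm_num)).hasFDerivAt
  have hb1 : HasFDerivAt b (fderiv ℝ b q) q := (hb.differentiableAt (by norm_num)).hasFDerivAt
  have k1 :=
    ((transport_hasFDerivAt_fderiv ha e0).add
      ((ha1.mul (transport_hasFDerivAt_fderiv ha e1)).add
        (hb1.mul (transport_hasFDerivAt_fderiv ha e2)))).add
      (transport_hasFDerivAt_fderiv hP e1)
  have k2 :=
    ((transport_hasFDerivAt_fderiv hb e0).add
      ((ha1.mul (transport_hasFDerivAt_fderiv hb e1)).add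
        (hb1.mul (transport_hasFDerivAt_fderiv hb e2)))).add
      (transport_hasFDerivAt_fderiv hP e2)
  have k1' := (hasFDerivAt_const (𝕜 := ℝ) (0 : ℝ) q).congr_of_eventuallyEq h1
  have k2' := (hasFDerivAt_const (𝕜 := ℝ) (0 : ℝ) q).congr_of_eventuallyEq h2
  have l1 := congrArg (fun L : E →L[ℝ] ℝ => L e2) (k1.unique k1')
  have l2 := congrArg (fun L : E →L[ℝ] ℝ => L e1) (k2.unique k2')
  simp only [add_apply, smul_apply,
    ContinuousLinearMap.comp_apply, ContinuousLinearMap.apply_apply, smul_eq_mul,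
    zero_apply] at l1 l2
  have k3 : fderiv ℝ (fun y => fderiv ℝ a y e2 - fderiv ℝ b y e1) q = _ :=
    ((transport_hasFDerivAt_fderiv ha e2).sub (transport_hasFDerivAt_fderiv hb e1)).fderiv
  rw [k3]
  simp only [sub_apply,
    ContinuousLinearMap.comp_apply, ContinuousLinearMap.apply_apply, map_add, map_smul,
    smul_eq_mul]
  have s1 := transport_symm ha e0 e2
  have s2 := transport_symm ha e1 e2
  have s3 := transport_symm hb e0 e1
  have s4 := transport_symm hb e1 e2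
  have s5 := transport_symm hP e1 e2
  rw [s1, s2, s3]
  rw [s5] at l2
  rw [s4] at l2
  linear_combination l1 - l2

end abstract

theorem transport_emb_succ {k : ℕ} (r z : ℝ) (i : Fin k) :
    (emb r z : V (k + 1)) i.succ.castSucc = 0 := by
  have h1 : i.succ.castSucc ≠ (0 : Fin (k + 1 + 1)) := by
    rw [← Fin.succ_castSucc]
    exact Fin.succ_ne_zero _
  have h2 : i.succ.castSucc ≠ Fin.last (k + 1) := Fin.castSucc_ne_last _
  simp [emb]

theorem transport_emb_zero {k : ℕ} (r z : ℝ) : (emb r z : V (k + 1)) 0 = r := by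
  have h2 : (0 : Fin (k + 1 + 1)) ≠ Fin.last (k + 1) := by
    exact (Fin.last_pos).ne
  simp [emb, h2]

theorem transport_vel_succ {k : ℕ} {v : V (k + 1) → V (k + 1)} (hv : AxisymNoSwirl v) {r z : ℝ}
    (hr : 0 < r) (i : Fin k) : v (emb r z) i.succ.castSucc = 0 := by
  have h0 : 0 < rad (emb r z : V (k + 1)) := by
    rw [rad_emb (by omega)]
    exact abs_pos.mpr hr.ne'
  rw [(axisym_apply (by omega) hv h0).1 i.succ, transport_emb_succ]
  simp

theorem transport_pd_succ {k : ℕ} {v : V (k + 1) → V (k + 1)} (hC : ContDiff ℝ ∞ v)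
    (hv : AxisymNoSwirl v) {r z : ℝ} (hr : 0 < r) (i : Fin k) :
    pd v i.succ.castSucc i.succ.castSucc (emb r z) = v (emb r z) 0 / r := by
  set I : Fin (k + 1 + 1) := i.succ.castSucc with hI
  set x : V (k + 1) := emb r z with hx
  have hrad : rad x = r := by rw [hx, rad_emb (by omega), abs_of_pos hr]
  have hax : ax x = z := by rw [hx, ax_emb (by omega)]
  have hxI : x I = 0 := transport_emb_succ r z i
  have hvI : v x I = 0 := transport_vel_succ hv hr i
  -- the line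
  have hline : HasDerivAt (fun h : ℝ => x + h • (EuclideanSpace.single I (1 : ℝ) : V (k + 1)))
      (EuclideanSpace.single I (1 : ℝ)) 0 := by
    have := ((hasDerivAt_id (0 : ℝ)).smul_const
      (EuclideanSpace.single I (1 : ℝ) : V (k + 1))).const_add x
    simpa using this
  have hvd : HasFDerivAt v (fderiv ℝ v x) (x + (0 : ℝ) • (EuclideanSpace.single I (1 : ℝ))) := by
    rw [zero_smul, add_zero]
    exact (hC.differentiable (by simp) x).hasFDerivAt
  have h1 : HasDerivAt (fun h : ℝ => v (x + h • (EuclideanSpace.single I (1 : ℝ))) I)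
      (pd v I I x) 0 := by
    have h2 := hvd.comp_hasDerivAt (0 : ℝ) hline
    have h3 := (EuclideanSpace.proj I : V (k + 1) →L[ℝ] ℝ).hasFDerivAt.comp_hasDerivAt (0 : ℝ) h2
    exact h3
  have h2 := hasDerivAt_iff_tendsto_slope_zero.mp h1
  have hline0 : Tendsto (fun h : ℝ => x + h • (EuclideanSpace.single I (1 : ℝ) : V (k + 1)))
      (𝓝[≠] 0) (𝓝 x) := by
    have h4 : Continuous (fun h : ℝ => x + h • (EuclideanSpace.single I (1 : ℝ) : V (k + 1))) := by
      fun_prop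
    have h5 := h4.tendsto 0
    simp only [zero_smul, add_zero] at h5
    exact h5.mono_left nhdsWithin_le_nhds
  have h3 : Tendsto (fun h : ℝ => v (emb (rad (x + h • (EuclideanSpace.single I (1 : ℝ) :
      V (k + 1)))) (ax (x + h • (EuclideanSpace.single I (1 : ℝ) : V (k + 1))))) 0 /
      rad (x + h • (EuclideanSpace.single I (1 : ℝ) : V (k + 1)))) (𝓝[≠] 0)
      (𝓝 (v (emb r z) 0 / r)) := by
    have h6 : Tendsto (fun y : V (k + 1) => v (emb (rad y) (ax y)) 0 / rad y) (𝓝 x)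
        (𝓝 (v (emb (rad x) (ax x)) 0 / rad x)) := by
      have c1 : Continuous (fun y : V (k + 1) => v (emb (rad y) (ax y)) 0) := by
        have c2 : Continuous (fun y : V (k + 1) => (emb (rad y) (ax y) : V (k + 1))) := by
          simp only [transport_emb_eq]
          exact (continuous_rad.smul continuous_const).add (continuous_ax.smul continuous_const)
        exact (EuclideanSpace.proj (0 : Fin (k + 1 + 1)) : V (k + 1) →L[ℝ] ℝ).continuous.comp
          (hC.continuous.comp c2)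
      exact c1.continuousAt.div continuous_rad.continuousAt (by rw [hrad]; exact hr.ne')
    rw [hrad, hax] at h6
    exact h6.comp hline0
  refine tendsto_nhds_unique (h2.congr' ?_) h3
  have hpos : ∀ᶠ h : ℝ in 𝓝[≠] 0,
      0 < rad (x + h • (EuclideanSpace.single I (1 : ℝ) : V (k + 1))) := by
    have h7 : Tendsto (fun h : ℝ => rad (x + h • (EuclideanSpace.single I (1 : ℝ) : V (k + 1))))
        (𝓝[≠] 0) (𝓝 r) := by
      have := (continuous_rad.tendsto x).comp hline0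
      rw [hrad] at this
      exact this
    exact h7.eventually (lt_mem_nhds hr)
  filter_upwards [hpos, self_mem_nhdsWithin] with h hh hne
  have hne' : h ≠ 0 := hne
  have h8 := (axisym_apply (by omega) hv hh).1 i.succ
  rw [← hI] at h8
  have h9 : (x + h • (EuclideanSpace.single I (1 : ℝ) : V (k + 1))) I = h := by
    simp [hxI]
  rw [h9] at h8
  simp only [zero_add, zero_smul, add_zero, smul_eq_mul]
  rw [h8, hvI]
  field_simp
  ring

theorem transport_contDiffAt {W : Type*} [NormedAddCommGroup W] [NormedSpace ℝ W]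
    {f : ℝ → V m → W} (hf : ContDiffOn ℝ ∞ (fun q : ℝ × V m => f q.1 q.2) (Ico 0 T ×ˢ univ))
    {t : ℝ} (ht : t ∈ Ioo 0 T) (x : V m) :
    ContDiffAt ℝ ∞ (fun q : ℝ × V m => f q.1 q.2) (t, x) :=
  hf.contDiffAt (prod_mem_nhds (Ico_mem_nhds ht.1 ht.2) univ_mem)

/-- restriction of a space-time function to the meridian plane -/
theorem transport_restrict {W : Type*} [NormedAddCommGroup W] [NormedSpace ℝ W]
    {f : ℝ → V m → W} (hf : ContDiffOn ℝ ∞ (fun q : ℝ × V m => f q.1 q.2) (Ico 0 T ×ˢ univ))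
    {t : ℝ} (ht : t ∈ Ioo 0 T) (r z : ℝ) :
    HasFDerivAt (fun q : ℝ × ℝ × ℝ => f q.1 (emb q.2.1 q.2.2))
      ((fderiv ℝ (fun q : ℝ × V m => f q.1 q.2) (t, emb r z)).comp (transportIota m)) (t, r, z) := by
  have h1 : HasFDerivAt (fun q : ℝ × V m => f q.1 q.2)
      (fderiv ℝ (fun q : ℝ × V m => f q.1 q.2) (t, emb r z)) (transportIota m (t, r, z)) := by
    rw [transportIota_apply]
    exact ((transport_contDiffAt hf ht (emb r z)).differentiableAt (by simp)).hasFDerivAt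
  have h2 := h1.comp (t, r, z) (transportIota m).hasFDerivAt
  refine h2.congr_of_eventuallyEq (Eventually.of_forall ?_)
  intro q
  simp only [Function.comp, transportIota_apply]

theorem transport_restrict_contDiffAt {W : Type*} [NormedAddCommGroup W] [NormedSpace ℝ W]
    {f : ℝ → V m → W} (hf : ContDiffOn ℝ ∞ (fun q : ℝ × V m => f q.1 q.2) (Ico 0 T ×ˢ univ))
    {t : ℝ} (ht : t ∈ Ioo 0 T) (r z : ℝ) :
    ContDiffAt ℝ ∞ (fun q : ℝ × ℝ × ℝ => f q.1 (emb q.2.1 q.2.2)) (t, r, z) := by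
  have h1 : ContDiffAt ℝ ∞ (fun q : ℝ × V m => f q.1 q.2) (transportIota m (t, r, z)) := by
    rw [transportIota_apply]
    exact transport_contDiffAt hf ht (emb r z)
  have h2 := h1.comp (t, r, z) (transportIota m).contDiff.contDiffAt
  refine h2.congr_of_eventuallyEq (Eventually.of_forall ?_)
  intro q
  simp only [Function.comp, transportIota_apply]

theorem transport_fderiv_space {W : Type*} [NormedAddCommGroup W] [NormedSpace ℝ W]
    {f : ℝ → V m → W} (hf : ContDiffOn ℝ ∞ (fun q : ℝ × V m => f q.1 q.2) (Ico 0 T ×ˢ univ))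
    {t : ℝ} (ht : t ∈ Ioo 0 T) (x y : V m) :
    fderiv ℝ (fun q : ℝ × V m => f q.1 q.2) (t, x) (0, y) = fderiv ℝ (f t) x y := by
  have h1 : HasFDerivAt (fun q : ℝ × V m => f q.1 q.2)
      (fderiv ℝ (fun q : ℝ × V m => f q.1 q.2) (t, x)) (t, x) :=
    ((transport_contDiffAt hf ht x).differentiableAt (by simp)).hasFDerivAt
  have h2 := h1.comp x (hasFDerivAt_prodMk_right t x)
  have h3 : fderiv ℝ (f t) x = _ := h2.fderiv
  rw [h3]
  simp

theorem transport_fderiv_time {W : Type*} [NormedAddCommGroup W] [NormedSpace ℝ W]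
    {f : ℝ → V m → W} (hf : ContDiffOn ℝ ∞ (fun q : ℝ × V m => f q.1 q.2) (Ico 0 T ×ˢ univ))
    {t : ℝ} (ht : t ∈ Ioo 0 T) (x : V m) :
    HasDerivAt (fun s => f s x) (fderiv ℝ (fun q : ℝ × V m => f q.1 q.2) (t, x) (1, 0)) t := by
  have h1 : HasFDerivAt (fun q : ℝ × V m => f q.1 q.2)
      (fderiv ℝ (fun q : ℝ × V m => f q.1 q.2) (t, x)) (t, x) :=
    ((transport_contDiffAt hf ht x).differentiableAt (by simp)).hasFDerivAt
  have h2 := h1.comp_hasDerivAt t ((hasDerivAt_id t).prodMk (hasDerivAt_const t x))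
  exact h2

/-- the components of `u` in the meridian plane: derivatives -/
theorem transport_comp_fderiv (h : EulerSolution m T u p) {t : ℝ} (ht : t ∈ Ioo 0 T) (r z : ℝ)
    (j : Fin (m + 1)) :
    fderiv ℝ (fun q : ℝ × ℝ × ℝ => u q.1 (emb q.2.1 q.2.2) j) (t, r, z) (1, 0, 0)
        = deriv (fun s => u s (emb r z) j) t ∧
      fderiv ℝ (fun q : ℝ × ℝ × ℝ => u q.1 (emb q.2.1 q.2.2) j) (t, r, z) (0, 1, 0)
        = pd (u t) 0 j (emb r z) ∧
      fderiv ℝ (fun q : ℝ × ℝ × ℝ => u q.1 (emb q.2.1 q.2.2) j) (t, r, z) (0, 0, 1)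
        = pd (u t) (Fin.last m) j (emb r z) := by
  have h1 := (EuclideanSpace.proj j : V m →L[ℝ] ℝ).hasFDerivAt.comp (t, r, z)
    (transport_restrict h.smooth_u ht r z)
  have h2 : fderiv ℝ (fun q : ℝ × ℝ × ℝ => u q.1 (emb q.2.1 q.2.2) j) (t, r, z) = _ := h1.fderiv
  rw [h2]
  refine ⟨?_, ?_, ?_⟩
  · have h3 := (EuclideanSpace.proj j : V m →L[ℝ] ℝ).hasFDerivAt.comp_hasDerivAt t
      (transport_fderiv_time h.smooth_u ht (emb r z))
    have h4 : deriv (fun s => u s (emb r z) j) t = _ := h3.deriv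
    rw [h4]
    simp only [ContinuousLinearMap.comp_apply, transportIota_apply]
    simp [transport_emb_eq]
  · simp only [ContinuousLinearMap.comp_apply, transportIota_apply]
    have h5 : (emb (1 : ℝ) 0 : V m) = EuclideanSpace.single 0 1 := by
      simp [transport_emb_eq]
    rw [h5, transport_fderiv_space h.smooth_u ht]
    rfl
  · simp only [ContinuousLinearMap.comp_apply, transportIota_apply]
    have h5 : (emb (0 : ℝ) 1 : V m) = EuclideanSpace.single (Fin.last m) 1 := by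
      simp [transport_emb_eq]
    rw [h5, transport_fderiv_space h.smooth_u ht]
    rfl

theorem transport_press_fderiv (h : EulerSolution m T u p) {t : ℝ} (ht : t ∈ Ioo 0 T) (r z : ℝ) :
      fderiv ℝ (fun q : ℝ × ℝ × ℝ => p q.1 (emb q.2.1 q.2.2)) (t, r, z) (0, 1, 0)
        = fderiv ℝ (p t) (emb r z) (EuclideanSpace.single 0 1) ∧
      fderiv ℝ (fun q : ℝ × ℝ × ℝ => p q.1 (emb q.2.1 q.2.2)) (t, r, z) (0, 0, 1)
        = fderiv ℝ (p t) (emb r z) (EuclideanSpace.single (Fin.last m) 1) := by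
  rw [(transport_restrict h.smooth_p ht r z).fderiv]
  refine ⟨?_, ?_⟩
  · simp only [ContinuousLinearMap.comp_apply, transportIota_apply]
    have h5 : (emb (1 : ℝ) 0 : V m) = EuclideanSpace.single 0 1 := by
      simp [transport_emb_eq]
    rw [h5, transport_fderiv_space h.smooth_p ht]
  · simp only [ContinuousLinearMap.comp_apply, transportIota_apply]
    have h5 : (emb (0 : ℝ) 1 : V m) = EuclideanSpace.single (Fin.last m) 1 := by
      simp [transport_emb_eq]
    rw [h5, transport_fderiv_space h.smooth_p ht]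

/-- the Euler equation in the meridian plane -/
theorem transport_momentum (hm : 1 ≤ m) (h : EulerSolution m T u p)
    (hax : ∀ t ∈ Ico 0 T, AxisymNoSwirl (u t)) {t : ℝ} (ht : t ∈ Ioo 0 T) {r z : ℝ} (hr : 0 < r)
    (j : Fin (m + 1)) :
    deriv (fun s => u s (emb r z) j) t + (u t (emb r z) 0 * pd (u t) 0 j (emb r z) +
      u t (emb r z) (Fin.last m) * pd (u t) (Fin.last m) j (emb r z)) +
      fderiv ℝ (p t) (emb r z) (EuclideanSpace.single j 1) = 0 := by
  obtain ⟨k, rfl⟩ : ∃ k, m = k + 1 := ⟨m - 1, by omega⟩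
  have h1 := h.momentum t ht (emb r z) j
  rw [Fin.sum_univ_castSucc, Fin.sum_univ_succ] at h1
  have h2 : ∀ i : Fin k, u t (emb r z) i.succ.castSucc * pd (u t) i.succ.castSucc j (emb r z)
      = 0 := by
    intro i
    rw [transport_vel_succ (hax t ⟨ht.1.le, ht.2⟩) hr i, zero_mul]
  simp only [h2, Finset.sum_const_zero, add_zero, Fin.castSucc_zero] at h1
  exact h1

theorem transport_div (hm : 1 ≤ m) (h : EulerSolution m T u p)
    (hax : ∀ t ∈ Ico 0 T, AxisymNoSwirl (u t)) {t : ℝ} (ht : t ∈ Ioo 0 T) {r z : ℝ} (hr : 0 < r) :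
    pd (u t) 0 0 (emb r z) + pd (u t) (Fin.last m) (Fin.last m) (emb r z)
      = - ((m - 1) * (u t (emb r z) 0 / r)) := by
  obtain ⟨k, rfl⟩ : ∃ k, m = k + 1 := ⟨m - 1, by omega⟩
  have ht' : t ∈ Ico 0 T := ⟨ht.1.le, ht.2⟩
  have h1 := h.divfree t ht' (emb r z)
  unfold dvg at h1
  rw [Fin.sum_univ_castSucc, Fin.sum_univ_succ] at h1
  have hC : ContDiff ℝ ∞ (u t) := by
    rw [contDiff_iff_contDiffAt]
    intro x
    exact (transport_contDiffAt h.smooth_u ht x).comp x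
      (contDiff_prodMk_right t).contDiffAt
  have h2 : ∀ i : Fin k, pd (u t) i.succ.castSucc i.succ.castSucc (emb r z)
      = u t (emb r z) 0 / r := fun i => transport_pd_succ hC (hax t ht') hr i
  simp only [h2, Finset.sum_const, Finset.card_univ, Fintype.card_fin, nsmul_eq_mul,
    Fin.castSucc_zero] at h1
  push_cast
  linear_combination h1

/-- `∂_t ω + a ∂_r ω + b ∂_z ω = (m-1) (a/r) ω` at `(t,r,z)`, `r > 0`, where
`a = u_0(t, r e_0 + z e_m)`, `b = u_m(t, r e_0 + z e_m)`.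
Proof: at the points `(r,0,…,0,z)` the field is tangent to the plane, so the components `0` and
`last` of the Euler equation are `∂_t a + a ∂_r a + b ∂_z a = - ∂_r P`,
`∂_t b + a ∂_r b + b ∂_z b = -∂_z P`; take the curl; the divergence gives
`∂_r a + ∂_z b = - (m-1) a / r` (`∂_i u_i = a/r` for the `m-1` remaining directions). -/
theorem om_transport (hm : 2 ≤ m) (h : EulerSolution m T u p)
    (hax : ∀ t ∈ Ico 0 T, AxisymNoSwirl (u t)) {t : ℝ} (ht : t ∈ Ioo 0 T) {r z : ℝ} (hr : 0 < r) :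
    fderiv ℝ (fun q : ℝ × ℝ × ℝ => om (u q.1) q.2.1 q.2.2) (t, r, z)
        (1, u t (emb r z) 0, u t (emb r z) (Fin.last m))
      = (m - 1) * (u t (emb r z) 0 / r) * om (u t) r z := by
  have hev : ∀ᶠ q : ℝ × ℝ × ℝ in 𝓝 (t, r, z), q.1 ∈ Ioo 0 T ∧ 0 < q.2.1 := by
    refine Filter.Eventually.and ?_ ?_
    · exact (continuous_fst.tendsto (t, r, z)).eventually (Ioo_mem_nhds ht.1 ht.2)
    · exact ((continuous_fst.comp continuous_snd).tendsto (t, r, z)).eventually (lt_mem_nhds hr)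
  have hcd : ∀ j : Fin (m + 1), ContDiffAt ℝ 2
      (fun q : ℝ × ℝ × ℝ => u q.1 (emb q.2.1 q.2.2) j) (t, r, z) := by
    intro j
    have := (EuclideanSpace.proj j : V m →L[ℝ] ℝ).contDiff.contDiffAt.comp (t, r, z)
      (transport_restrict_contDiffAt h.smooth_u ht r z)
    exact this.of_le (WithTop.coe_le_coe.mpr (le_top : (2 : ℕ∞) ≤ ⊤))
  have hcp : ContDiffAt ℝ 2 (fun q : ℝ × ℝ × ℝ => p q.1 (emb q.2.1 q.2.2)) (t, r, z) :=
    (transport_restrict_contDiffAt h.smooth_p ht r z).of_le (WithTop.coe_le_coe.mpr (le_top : (2 : ℕ∞) ≤ ⊤))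
  have key := transport_planar (hcd 0) (hcd (Fin.last m)) hcp ((1 : ℝ), (0 : ℝ), (0 : ℝ))
    ((0 : ℝ), (1 : ℝ), (0 : ℝ)) ((0 : ℝ), (0 : ℝ), (1 : ℝ)) ?_ ?_
  · have e1 : (fun q : ℝ × ℝ × ℝ => om (u q.1) q.2.1 q.2.2) =ᶠ[𝓝 (t, r, z)]
        (fun y => fderiv ℝ (fun q : ℝ × ℝ × ℝ => u q.1 (emb q.2.1 q.2.2) 0) y
            ((0 : ℝ), (0 : ℝ), (1 : ℝ)) -
          fderiv ℝ (fun q : ℝ × ℝ × ℝ => u q.1 (emb q.2.1 q.2.2) (Fin.last m)) y
            ((0 : ℝ), (1 : ℝ), (0 : ℝ))) := by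
      filter_upwards [hev] with q hq
      obtain ⟨s, ρ, ζ⟩ := q
      rw [(transport_comp_fderiv h hq.1 ρ ζ 0).2.2, (transport_comp_fderiv h hq.1 ρ ζ _).2.1]
      rfl
    rw [e1.fderiv_eq]
    have e2 : ((1 : ℝ), u t (emb r z) 0, u t (emb r z) (Fin.last m)) =
        ((1 : ℝ), (0 : ℝ), (0 : ℝ)) + u t (emb r z) 0 • ((0 : ℝ), (1 : ℝ), (0 : ℝ)) +
          u t (emb r z) (Fin.last m) • ((0 : ℝ), (0 : ℝ), (1 : ℝ)) := by
      simp
    rw [e2]
    refine key.trans ?_
    rw [(transport_comp_fderiv h ht r z 0).2.1, (transport_comp_fderiv h ht r z 0).2.2,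
      (transport_comp_fderiv h ht r z (Fin.last m)).2.1,
      (transport_comp_fderiv h ht r z (Fin.last m)).2.2,
      transport_div (by omega) h hax ht hr]
    unfold om
    ring
  · filter_upwards [hev] with q hq
    obtain ⟨s, ρ, ζ⟩ := q
    rw [(transport_comp_fderiv h hq.1 ρ ζ 0).1, (transport_comp_fderiv h hq.1 ρ ζ 0).2.1,
      (transport_comp_fderiv h hq.1 ρ ζ 0).2.2, (transport_press_fderiv h hq.1 ρ ζ).1]
    exact transport_momentum (by omega) h hax hq.1 hq.2 0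
  · filter_upwards [hev] with q hq
    obtain ⟨s, ρ, ζ⟩ := q
    rw [(transport_comp_fderiv h hq.1 ρ ζ (Fin.last m)).1,
      (transport_comp_fderiv h hq.1 ρ ζ (Fin.last m)).2.1,
      (transport_comp_fderiv h hq.1 ρ ζ (Fin.last m)).2.2, (transport_press_fderiv h hq.1 ρ ζ).2]
    exact transport_momentum (by omega) h hax hq.1 hq.2 (Fin.last m)

end Pool.Agent.Lib.MP_c167ed_an
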