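import Pool.Agent.Lib.MP_c167ed_an.Defs
import Pool.Agent.Lib.MP_c167ed_an.Planar
import Pool.Agent.Lib.MP_c167ed_an.Transport
import Pool.Agent.Lib.MP_c167ed_an.Sobolev
import Pool.Agent.Lib.MP_c167ed_an.Fun
import Pool.Agent.Lib.MP_c167ed_an.Polar

/-! `∫ F(ω/r^{m-1}) dx` does not increase. -/

open MeasureTheory Set Filter Topology
open scoped ContDiff ENNReal NNReal

namespace Pool.Agent.Lib.MP_c167ed_an

/-! ### the cutoff profile -/

/-- cutoff profile: `0` for `s ≤ 0`, nondecreasing, tends to `1`. -/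
noncomputable def hh (s : ℝ) : ℝ := (max s 0) ^ 2 / (1 + (max s 0) ^ 2)

theorem hasDerivAt_max_sq (s : ℝ) : HasDerivAt (fun s : ℝ => (max s 0) ^ 2) (2 * max s 0) s := by
  rcases lt_trichotomy s 0 with hs | hs | hs
  · have h1 : (fun s : ℝ => (max s 0) ^ 2) =ᶠ[𝓝 s] fun _ => 0 := by
      filter_upwards [Iio_mem_nhds hs] with y hy
      rw [max_eq_right (le_of_lt hy)]; ring
    rw [max_eq_right hs.le, mul_zero]
    exact (hasDerivAt_const s (0 : ℝ)).congr_of_eventuallyEq h1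
  · subst hs
    rw [max_self, mul_zero]
    rw [hasDerivAt_iff_isLittleO_nhds_zero]
    have : (fun h : ℝ => max (0 + h) 0 ^ 2 - max (0 : ℝ) 0 ^ 2 - h • (0 : ℝ)) =O[𝓝 0]
        fun h : ℝ => h ^ 2 := by
      refine Asymptotics.IsBigO.of_bound 1 (Eventually.of_forall fun h => ?_)
      simp only [Real.norm_eq_abs, one_mul, zero_add, max_self, smul_zero, sub_zero]
      rw [zero_pow (by norm_num), sub_zero, abs_pow, abs_pow]
      refine pow_le_pow_left₀ (abs_nonneg _) ?_ 2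
      rcases le_total h 0 with h0 | h0
      · rw [max_eq_right h0, abs_zero]; exact abs_nonneg _
      · rw [max_eq_left h0]
    refine this.trans_isLittleO ?_
    simpa using (Asymptotics.isLittleO_pow_id (n := 2) (by norm_num) : (fun x : ℝ => x ^ 2) =o[𝓝 0] id)
  · have h1 : (fun s : ℝ => (max s 0) ^ 2) =ᶠ[𝓝 s] fun s => s ^ 2 := by
      filter_upwards [Ioi_mem_nhds hs] with y hy
      rw [max_eq_left (le_of_lt hy)]
    rw [max_eq_left hs.le]
    exact (by simpa using hasDerivAt_pow 2 s : HasDerivAt (fun s : ℝ => s ^ 2) (2 * s) s).congr_of_eventuallyEq h1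

theorem hasDerivAt_hh (s : ℝ) :
    HasDerivAt hh (2 * max s 0 / (1 + (max s 0) ^ 2) ^ 2) s := by
  have h1 := hasDerivAt_max_sq s
  have h2 := h1.fun_div (h1.const_add 1) (by positivity)
  exact h2.congr_deriv (by ring)

theorem hh_contDiff : ContDiff ℝ 1 hh := by
  rw [contDiff_one_iff_deriv]
  refine ⟨fun s => (hasDerivAt_hh s).differentiableAt, ?_⟩
  have : deriv hh = fun s => 2 * max s 0 / (1 + (max s 0) ^ 2) ^ 2 :=
    funext fun s => (hasDerivAt_hh s).deriv
  rw [this]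
  refine Continuous.div (by fun_prop) (by fun_prop) fun s => by positivity

theorem hh_nonneg (s : ℝ) : 0 ≤ hh s := by unfold hh; positivity

theorem hh_le_one (s : ℝ) : hh s ≤ 1 := by
  unfold hh
  rw [div_le_one (by positivity)]
  linarith

theorem hh_zero {s : ℝ} (hs : s ≤ 0) : hh s = 0 := by
  unfold hh; rw [max_eq_right hs]; simp

theorem hh_tendsto : Tendsto hh atTop (𝓝 1) := by
  have h1 : hh =ᶠ[atTop] fun s => 1 - (1 + s ^ 2)⁻¹ := by
    filter_upwards [eventually_ge_atTop 0] with s hs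
    unfold hh
    rw [max_eq_left hs]
    have : (1 + s ^ 2) ≠ 0 := by positivity
    field_simp
    ring
  rw [tendsto_congr' h1]
  have h2 : Tendsto (fun s : ℝ => (1 + s ^ 2)⁻¹) atTop (𝓝 0) :=
    (tendsto_atTop_add_const_left _ 1 (tendsto_pow_atTop (by norm_num))).inv_tendsto_atTop
  simpa using h2.const_sub 1

/-- composition with a function whose derivative is nonpositive -/
theorem hh_comp {f : ℝ → ℝ} {f' s : ℝ} (hf : HasDerivAt f f' s) (hf' : f' ≤ 0) :
    ∃ D ≤ 0, HasDerivAt (fun s => hh (f s)) D s := by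
  refine ⟨_, ?_, (hasDerivAt_hh (f s)).comp s hf⟩
  exact mul_nonpos_of_nonneg_of_nonpos (by positivity) hf'

/-- the moving cutoff -/
noncomputable def chi {m : ℕ} (U L : ℝ) (n : ℕ) (q : ℝ × V m) : ℝ :=
  hh (n - U * q.1 - √(1 + ‖q.2‖ ^ 2)) *
    hh (n * ((∑ i : Fin m, (q.2 i.castSucc) ^ 2) * Real.exp (-2 * L * q.1)) - 1)

theorem chi_contDiff {m : ℕ} (U L : ℝ) (n : ℕ) : ContDiff ℝ 1 (chi (m := m) U L n) := by
  unfold chi
  refine ContDiff.mul (hh_contDiff.comp ?_) (hh_contDiff.comp ?_)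
  · refine ContDiff.sub (by fun_prop) (ContDiff.sqrt ?_ fun x => by positivity)
    exact contDiff_const.add (contDiff_snd.norm_sq ℝ)
  · refine ContDiff.sub (ContDiff.mul contDiff_const (ContDiff.mul ?_ (by fun_prop))) contDiff_const
    refine ContDiff.sum fun i _ => ContDiff.pow ?_ 2
    exact (EuclideanSpace.proj (𝕜 := ℝ) i.castSucc : V m →L[ℝ] ℝ).contDiff.comp contDiff_snd

theorem chi_nonneg {m : ℕ} (U L : ℝ) (n : ℕ) (q : ℝ × V m) : 0 ≤ chi U L n q :=
  mul_nonneg (hh_nonneg _) (hh_nonneg _)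

theorem chi_le_one {m : ℕ} (U L : ℝ) (n : ℕ) (q : ℝ × V m) : chi U L n q ≤ 1 :=
  mul_le_one₀ (hh_le_one _) (hh_nonneg _) (hh_le_one _)

/-- the cutoff vanishes near the axis -/
theorem chi_near_axis {m : ℕ} (U L : ℝ) (n : ℕ) {q : ℝ × V m} (hq : rad q.2 = 0) :
    ∀ᶠ q' in 𝓝 q, chi U L n q' = 0 := by
  have hc : Continuous fun q : ℝ × V m =>
      (n : ℝ) * ((∑ i : Fin m, (q.2 i.castSucc) ^ 2) * Real.exp (-2 * L * q.1)) - 1 := by
    fun_prop
  have h0 : ∑ i : Fin m, (q.2 i.castSucc) ^ 2 = 0 := by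
    have := (Real.sqrt_eq_zero (Finset.sum_nonneg fun i _ => sq_nonneg _)).1 hq
    exact this
  have h1 : (n : ℝ) * ((∑ i : Fin m, (q.2 i.castSucc) ^ 2) * Real.exp (-2 * L * q.1)) - 1 < 0 := by
    rw [h0]; norm_num
  filter_upwards [hc.continuousAt.eventually (Iio_mem_nhds h1)] with q' hq'
  unfold chi
  rw [hh_zero (s := (n : ℝ) * _ - 1) (le_of_lt hq'), mul_zero]

/-- compact support -/
theorem chi_compact {m : ℕ} {U : ℝ} (hU : 0 ≤ U) (L : ℝ) (n : ℕ) {q : ℝ × V m} (hq : 0 ≤ q.1)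
    (hx : q.2 ∉ Metric.closedBall (0 : V m) n) : chi U L n q = 0 := by
  unfold chi
  rw [hh_zero, zero_mul]
  have h1 : (n : ℝ) < ‖q.2‖ := by simpa using hx
  have h2 : ‖q.2‖ ≤ √(1 + ‖q.2‖ ^ 2) := by
    apply Real.le_sqrt_of_sq_le; linarith
  have := mul_nonneg hU hq
  linarith

/-- `χ → 1` off the axis -/
theorem chi_tendsto {m : ℕ} (U L : ℝ) {q : ℝ × V m} (hq : 0 < rad q.2) :
    Tendsto (fun n : ℕ => chi U L n q) atTop (𝓝 1) := by
  unfold chi
  have h0 : 0 < ∑ i : Fin m, (q.2 i.castSucc) ^ 2 := Real.sqrt_pos.1 hq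
  have h1 : Tendsto (fun n : ℕ => (n : ℝ) - U * q.1 - √(1 + ‖q.2‖ ^ 2)) atTop atTop := by
    simp only [sub_eq_add_neg]
    exact tendsto_atTop_add_const_right _ _ (tendsto_atTop_add_const_right _ _
      tendsto_natCast_atTop_atTop)
  have h2 : Tendsto (fun n : ℕ => (n : ℝ) * ((∑ i : Fin m, (q.2 i.castSucc) ^ 2)
      * Real.exp (-2 * L * q.1)) - 1) atTop atTop := by
    simp only [sub_eq_add_neg]
    refine tendsto_atTop_add_const_right _ _ (Tendsto.atTop_mul_const ?_
      tendsto_natCast_atTop_atTop)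
    positivity
  simpa using (hh_tendsto.comp h1).mul (hh_tendsto.comp h2)

/-- the cutoff is nonincreasing along the flow -/
theorem chi_deriv {m : ℕ} {U L : ℝ} (n : ℕ) {t : ℝ} {x w : V m} (hU : ‖w‖ ≤ U)
    (hL : ∑ i : Fin m, x i.castSucc * w i.castSucc ≤ L * ∑ i : Fin m, (x i.castSucc) ^ 2) :
    ∃ D ≤ 0, HasDerivAt (fun s : ℝ => chi U L n (t + s, x + s • w)) D 0 := by
  have hl : HasDerivAt (fun s : ℝ => x + s • w) w 0 := by
    simpa using ((hasDerivAt_id (0 : ℝ)).smul_const w).const_add x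
  have h1 : HasDerivAt (fun s : ℝ => (n : ℝ) - U * (t + s) - √(1 + ‖x + s • w‖ ^ 2))
      (-U - (2 * inner ℝ x w) / (2 * √(1 + ‖x‖ ^ 2))) 0 := by
    have a1 : HasDerivAt (fun s : ℝ => (n : ℝ) - U * (t + s)) (-U) 0 := by
      simpa using (((hasDerivAt_id (0 : ℝ)).const_add t).const_mul U).const_sub (n : ℝ)
    have a2 : HasDerivAt (fun s : ℝ => 1 + ‖x + s • w‖ ^ 2) (2 * inner ℝ x w) 0 := by
      simpa using hl.norm_sq.const_add 1
    have a3 := a2.sqrt (by positivity)
    simpa using a1.fun_sub a3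
  have h2 : HasDerivAt (fun s : ℝ => (n : ℝ) * ((∑ i : Fin m, ((x + s • w) i.castSucc) ^ 2)
      * Real.exp (-2 * L * (t + s))) - 1)
      ((n : ℝ) * ((∑ i : Fin m, 2 * x i.castSucc * w i.castSucc) * Real.exp (-2 * L * t)
        + (∑ i : Fin m, (x i.castSucc) ^ 2) * (Real.exp (-2 * L * t) * (-2 * L)))) 0 := by
    have b1 : HasDerivAt (fun s : ℝ => ∑ i : Fin m, ((x + s • w) i.castSucc) ^ 2)
        (∑ i : Fin m, 2 * x i.castSucc * w i.castSucc) 0 := by
      refine HasDerivAt.fun_sum fun i _ => ?_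
      have c1 : HasDerivAt (fun s : ℝ => (x + s • w) i.castSucc) (w i.castSucc) 0 := by
        have := (EuclideanSpace.proj (𝕜 := ℝ) i.castSucc : V m →L[ℝ] ℝ).hasFDerivAt.comp_hasDerivAt 0 hl
        exact this
      have := c1.fun_pow 2
      simp only [zero_smul, add_zero] at this
      exact this.congr_deriv (by norm_num)
    have b2 : HasDerivAt (fun s : ℝ => Real.exp (-2 * L * (t + s)))
        (Real.exp (-2 * L * t) * (-2 * L)) 0 := by
      have := (((hasDerivAt_id (0 : ℝ)).const_add t).const_mul (-2 * L)).exp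
      simpa using this
    simpa using ((b1.mul b2).const_mul (n : ℝ)).sub_const 1
  obtain ⟨D1, hD1, g1⟩ := hh_comp h1 (by
    have e1 : |inner ℝ x w| ≤ ‖x‖ * ‖w‖ := abs_real_inner_le_norm x w
    have e2 : ‖x‖ ≤ √(1 + ‖x‖ ^ 2) := by apply Real.le_sqrt_of_sq_le; linarith
    have e3 : 0 < √(1 + ‖x‖ ^ 2) := by positivity
    rw [mul_div_mul_left _ _ (by norm_num : (2 : ℝ) ≠ 0)]
    have e4 : -inner ℝ x w / √(1 + ‖x‖ ^ 2) ≤ U := by
      rw [div_le_iff₀ e3]
      calc -inner ℝ x w ≤ |inner ℝ x w| := neg_le_abs _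
        _ ≤ ‖x‖ * ‖w‖ := e1
        _ ≤ √(1 + ‖x‖ ^ 2) * U := by gcongr
        _ = _ := by ring
    rw [neg_div] at e4
    linarith)
  obtain ⟨D2, hD2, g2⟩ := hh_comp h2 (by
    have e0 : (0 : ℝ) ≤ n := Nat.cast_nonneg _
    have e1 : 0 < Real.exp (-2 * L * t) := Real.exp_pos _
    have e2 : (∑ i : Fin m, 2 * x i.castSucc * w i.castSucc) =
        2 * ∑ i : Fin m, x i.castSucc * w i.castSucc := by
      rw [Finset.mul_sum]; exact Finset.sum_congr rfl fun i _ => by ring
    rw [e2]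
    have e3 : (2 * ∑ i : Fin m, x i.castSucc * w i.castSucc) * Real.exp (-2 * L * t)
        + (∑ i : Fin m, (x i.castSucc) ^ 2) * (Real.exp (-2 * L * t) * (-2 * L)) =
        2 * Real.exp (-2 * L * t) * ((∑ i : Fin m, x i.castSucc * w i.castSucc)
          - L * ∑ i : Fin m, (x i.castSucc) ^ 2) := by ring
    rw [e3]
    exact mul_nonpos_of_nonneg_of_nonpos e0
      (mul_nonpos_of_nonneg_of_nonpos (by positivity) (by linarith)))
  refine ⟨_, ?_, g1.mul g2⟩
  simp only [add_zero, zero_smul]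
  exact add_nonpos (mul_nonpos_of_nonpos_of_nonneg hD1 (hh_nonneg _))
    (mul_nonpos_of_nonneg_of_nonpos (hh_nonneg _) hD2)


theorem sum_coord_single {m : ℕ} (y : V m) :
    y = ∑ i, y i • (EuclideanSpace.single i (1 : ℝ) : V m) := by
  ext j
  simp [Finset.sum_apply, Pi.single_apply]

theorem integral_drift_zero {m : ℕ} {g : V m → ℝ} (hg : ContDiff ℝ 1 g)
    (hc : HasCompactSupport g) {w : V m → V m} (hw : ContDiff ℝ 1 w)
    (hdiv : ∀ x, dvg w x = 0) :
    Integrable (fun x => fderiv ℝ g x (w x)) ∧ ∫ x, fderiv ℝ g x (w x) = 0 := by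
  have hgd : Differentiable ℝ g := hg.differentiable (by norm_num)
  have hwd : Differentiable ℝ w := hw.differentiable (by norm_num)
  have hgc : Continuous (fderiv ℝ g) := hg.continuous_fderiv (by norm_num)
  have hwc : Continuous (fderiv ℝ w) := hw.continuous_fderiv (by norm_num)
  have hcf : HasCompactSupport (fderiv ℝ g) := hc.fderiv ℝ
  have hwi : ∀ i, Continuous fun x => w x i := fun i =>
    (EuclideanSpace.proj (𝕜 := ℝ) i : V m →L[ℝ] ℝ).continuous.comp hw.continuous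
  have hfw : ∀ i x, HasFDerivAt (fun x => w x i)
      ((EuclideanSpace.proj (𝕜 := ℝ) i : V m →L[ℝ] ℝ).comp (fderiv ℝ w x)) x := fun i x =>
    (EuclideanSpace.proj (𝕜 := ℝ) i : V m →L[ℝ] ℝ).hasFDerivAt.comp x (hwd x).hasFDerivAt
  have hpd : ∀ i x, fderiv ℝ (fun x => w x i) x (EuclideanSpace.single i 1) = pd w i i x :=
    fun i x => by rw [(hfw i x).fderiv]; rfl
  have hpdc : ∀ i, Continuous fun x => pd w i i x := fun i =>
    (EuclideanSpace.proj (𝕜 := ℝ) i : V m →L[ℝ] ℝ).continuous.comp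
      (hwc.clm_apply continuous_const)
  have hexp : ∀ x, fderiv ℝ g x (w x) =
      ∑ i, w x i * fderiv ℝ g x (EuclideanSpace.single i 1) := fun x => by
    conv_lhs => rw [sum_coord_single (w x)]
    simp
  have hI1 : ∀ i, Integrable fun x => w x i * fderiv ℝ g x (EuclideanSpace.single i 1) := by
    intro i
    refine ((hwi i).mul (hgc.clm_apply continuous_const)).integrable_of_hasCompactSupport ?_
    refine HasCompactSupport.mul_left ?_
    exact hcf.comp_left (g := fun L : V m →L[ℝ] ℝ => L (EuclideanSpace.single i 1)) (by simp)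
  have hI2 : ∀ i, Integrable fun x => pd w i i x * g x := fun i =>
    ((hpdc i).mul hg.continuous).integrable_of_hasCompactSupport hc.mul_left
  have hI3 : ∀ i, Integrable fun x => w x i * g x := fun i =>
    ((hwi i).mul hg.continuous).integrable_of_hasCompactSupport hc.mul_left
  have hparts : ∀ i, ∫ x, w x i * fderiv ℝ g x (EuclideanSpace.single i 1)
      = - ∫ x, pd w i i x * g x := by
    intro i
    have := integral_mul_fderiv_eq_neg_fderiv_mul_of_integrable (μ := volume)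
      (f := fun x => w x i) (g := g) (v := EuclideanSpace.single i 1)
      (by simpa only [hpd] using hI2 i) (hI1 i) (hI3 i)
      (fun x _ => (hfw i x).differentiableAt) (fun x _ => hgd x)
    rw [this]
    simp only [hpd]
  constructor
  · simp only [hexp]
    exact integrable_finsetSum _ fun i _ => hI1 i
  · simp only [hexp]
    rw [integral_finsetSum _ fun i _ => hI1 i]
    simp only [hparts]
    rw [Finset.sum_neg_distrib, ← integral_finsetSum _ fun i _ => hI2 i]
    have : ∀ x, ∑ i, pd w i i x * g x = 0 := fun x => by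
      rw [← Finset.sum_mul]
      have := hdiv x
      unfold dvg at this
      rw [this, zero_mul]
    simp only [this, integral_zero, neg_zero]

/-- derivative of `∫ Θ(t,x) dx` for a compactly supported `C¹` density and a divergence free
drift -/
theorem hasDerivAt_integral_drift {m : ℕ} {a b : ℝ} {Θ : ℝ × V m → ℝ} {K : Set (V m)}
    (hK : IsCompact K) (hΘ : ContDiffOn ℝ 1 Θ (Ioo a b ×ˢ univ))
    (h0 : ∀ t ∈ Ioo a b, ∀ x, x ∉ K → Θ (t, x) = 0) {t : ℝ} (ht : t ∈ Ioo a b)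
    {w : V m → V m} (hw : ContDiff ℝ 1 w) (hdiv : ∀ x, dvg w x = 0) :
    HasDerivAt (fun s => ∫ x, Θ (s, x)) (∫ x, fderiv ℝ Θ (t, x) (1, w x)) t := by
  have hS : IsOpen (Ioo a b ×ˢ (univ : Set (V m))) := isOpen_Ioo.prod isOpen_univ
  have hdiff : ∀ s ∈ Ioo a b, ∀ x, HasFDerivAt Θ (fderiv ℝ Θ (s, x)) (s, x) := fun s hs x =>
    ((hΘ.differentiableOn (by norm_num)).differentiableAt (hS.mem_nhds ⟨hs, mem_univ x⟩)).hasFDerivAt
  have hfc : ContinuousOn (fderiv ℝ Θ) (Ioo a b ×ˢ univ) :=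
    hΘ.continuousOn_fderiv_of_isOpen hS le_rfl
  have hz : ∀ s ∈ Ioo a b, ∀ x, x ∉ K → fderiv ℝ Θ (s, x) = 0 := by
    intro s hs x hx
    have : Θ =ᶠ[𝓝 (s, x)] fun _ => 0 := by
      filter_upwards [(isOpen_Ioo.prod hK.isClosed.isOpen_compl).mem_nhds ⟨hs, hx⟩] with q hq
      exact h0 q.1 hq.1 q.2 hq.2
    rw [this.fderiv_eq]
    simp
  -- slices
  have hline : ∀ s ∈ Ioo a b, ∀ x, HasDerivAt (fun s => Θ (s, x)) (fderiv ℝ Θ (s, x) (1, 0)) s := by
    intro s hs x
    have h1 : HasDerivAt (fun s : ℝ => (s, x)) (1, 0) s :=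
      (hasDerivAt_id s).prodMk (hasDerivAt_const s x)
    exact (hdiff s hs x).comp_hasDerivAt s h1
  have hslice : ∀ s ∈ Ioo a b, Continuous fun x => Θ (s, x) := by
    intro s hs
    rw [← continuousOn_univ]
    refine hΘ.continuousOn.comp (by fun_prop) fun x _ => ⟨hs, mem_univ _⟩
  have hfslice : ∀ s ∈ Ioo a b, Continuous fun x => fderiv ℝ Θ (s, x) := by
    intro s hs
    rw [← continuousOn_univ]
    refine hfc.comp (by fun_prop) fun x _ => ⟨hs, mem_univ _⟩
  have hcs : ∀ s ∈ Ioo a b, HasCompactSupport fun x => Θ (s, x) := fun s hs =>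
    HasCompactSupport.intro hK fun x hx => h0 s hs x hx
  have hcfs : ∀ s ∈ Ioo a b, HasCompactSupport fun x => fderiv ℝ Θ (s, x) := fun s hs =>
    HasCompactSupport.intro hK fun x hx => hz s hs x hx
  -- domination
  obtain ⟨ε, hε, hεs⟩ : ∃ ε > 0, Metric.closedBall t ε ⊆ Ioo a b :=
    Metric.nhds_basis_closedBall.mem_iff.1 (Ioo_mem_nhds ht.1 ht.2)
  obtain ⟨B, hB⟩ := ((isCompact_closedBall t ε).prod hK).exists_bound_of_continuousOn
    (hfc.mono fun q hq => ⟨hεs hq.1, mem_univ _⟩)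
  have hnorm10 : ‖((1 : ℝ), (0 : V m))‖ = 1 := by simp [Prod.norm_def]
  have key := hasDerivAt_integral_of_dominated_loc_of_deriv_le (μ := (volume : Measure (V m)))
    (F := fun s x => Θ (s, x)) (F' := fun s x => fderiv ℝ Θ (s, x) (1, 0))
    (s := Metric.closedBall t ε) (x₀ := t) (bound := K.indicator fun _ => B)
    (Metric.closedBall_mem_nhds t hε)
    (by
      filter_upwards [Metric.closedBall_mem_nhds t hε] with s hs
      exact (hslice s (hεs hs)).aestronglyMeasurable)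
    ((hslice t ht).integrable_of_hasCompactSupport (hcs t ht))
    ((hfslice t ht).clm_apply continuous_const).aestronglyMeasurable
    (Eventually.of_forall fun x s hs => by
      by_cases hx : x ∈ K
      · rw [indicator_of_mem hx]
        calc ‖fderiv ℝ Θ (s, x) (1, 0)‖ ≤ ‖fderiv ℝ Θ (s, x)‖ * ‖((1 : ℝ), (0 : V m))‖ :=
              ContinuousLinearMap.le_opNorm _ _
          _ ≤ B := by rw [hnorm10, mul_one]; exact hB (s, x) ⟨hs, hx⟩
      · rw [indicator_of_notMem hx, hz s (hεs hs) x hx]; simp)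
    ((integrable_indicator_iff hK.measurableSet).2 (integrableOn_const hK.measure_lt_top.ne))
    (Eventually.of_forall fun x s hs => hline s (hεs hs) x)
  refine key.2.congr_deriv ?_
  -- the drift term
  have hg : ContDiff ℝ 1 fun x => Θ (t, x) := by
    rw [← contDiffOn_univ]
    exact hΘ.comp (by fun_prop) fun x _ => ⟨ht, mem_univ _⟩
  obtain ⟨hi, hzero⟩ := integral_drift_zero hg (hcs t ht) hw hdiv
  have hgf : ∀ x, fderiv ℝ (fun x => Θ (t, x)) x (w x) = fderiv ℝ Θ (t, x) (0, w x) := by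
    intro x
    have h1 : HasFDerivAt (fun x : V m => (t, x)) (ContinuousLinearMap.inr ℝ ℝ (V m)) x :=
      hasFDerivAt_prodMk_right t x
    have h2 : HasFDerivAt (fun x => Θ (t, x))
      ((fderiv ℝ Θ (t, x)).comp (ContinuousLinearMap.inr ℝ ℝ (V m))) x := (hdiff t ht x).comp x h1
    rw [h2.fderiv]
    simp
  simp only [hgf] at hi hzero
  have hsum : ∀ x, fderiv ℝ Θ (t, x) (1, w x) =
      fderiv ℝ Θ (t, x) (1, 0) + fderiv ℝ Θ (t, x) (0, w x) := by
    intro x
    rw [← map_add]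
    simp
  simp only [hsum]
  rw [integral_add key.1 hi, hzero, add_zero]


/-! ### the transported quantity -/

section main

variable {m : ℕ} {T : ℝ} {u : ℝ → V m → V m} {p : ℝ → V m → ℝ}

/-- `ξ = ω / r^{m-1}` -/
noncomputable def xi (u : ℝ → V m → V m) (q : ℝ × V m) : ℝ :=
  om (u q.1) (rad q.2) (ax q.2) / rad q.2 ^ (m - 1)

/-- the density `F(ξ) χ` -/
noncomputable def dens (u : ℝ → V m → V m) (U L : ℝ) (n : ℕ) (q : ℝ × V m) : ℝ :=
  F m (xi u q) * chi U L n q

theorem dens_nonneg (u : ℝ → V m → V m) (U L : ℝ) (n : ℕ) (q : ℝ × V m) :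
    0 ≤ dens u U L n q := mul_nonneg (F_nonneg _ _) (chi_nonneg _ _ _ _)

theorem rad_contDiffAt {x : V m} (hx : 0 < rad x) : ContDiffAt ℝ ∞ (rad : V m → ℝ) x := by
  unfold rad
  refine ContDiffAt.sqrt ?_ (Real.sqrt_pos.1 hx).ne'
  refine ContDiff.contDiffAt (ContDiff.sum fun i _ => ContDiff.pow ?_ 2)
  exact (EuclideanSpace.proj (𝕜 := ℝ) i.castSucc : V m →L[ℝ] ℝ).contDiff

theorem ax_contDiff : ContDiff ℝ ∞ (ax : V m → ℝ) :=
  (EuclideanSpace.proj (𝕜 := ℝ) (Fin.last m) : V m →L[ℝ] ℝ).contDiff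

theorem xi_contDiffAt (h : EulerSolution m T u p) {q : ℝ × V m} (hq : q.1 ∈ Ioo 0 T)
    (hr : 0 < rad q.2) : ContDiffAt ℝ 1 (xi u) q := by
  have h1 : ContDiffAt ℝ ∞ (fun q : ℝ × ℝ × ℝ => om (u q.1) q.2.1 q.2.2)
      (q.1, rad q.2, ax q.2) :=
    (om_contDiffOn h).contDiffAt ((isOpen_Ioo.prod isOpen_univ).mem_nhds ⟨hq, mem_univ _⟩)
  have h2 : ContDiffAt ℝ ∞ (fun q : ℝ × V m => rad q.2) q :=
    (rad_contDiffAt hr).comp q contDiffAt_snd
  have h3 : ContDiffAt ℝ ∞ (fun q : ℝ × V m => ax q.2) q :=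
    (ax_contDiff.contDiffAt).comp q contDiffAt_snd
  have h4 : ContDiffAt ℝ ∞ (fun q : ℝ × V m => (q.1, rad q.2, ax q.2)) q :=
    contDiffAt_fst.prodMk (h2.prodMk h3)
  have h5 : ContDiffAt ℝ ∞ (fun q : ℝ × V m => om (u q.1) (rad q.2) (ax q.2)) q :=
    ContDiffAt.comp (g := fun q : ℝ × ℝ × ℝ => om (u q.1) q.2.1 q.2.2) q h1 h4
  have h6 : ContDiffAt ℝ ∞ (xi u) q := h5.div (h2.pow (m - 1)) (pow_pos hr _).ne'
  exact h6.of_le (by exact_mod_cast le_top)

theorem dens_contDiffOn (h : EulerSolution m T u p) (U L : ℝ) (n : ℕ) :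
    ContDiffOn ℝ 1 (dens u U L n) (Ioo 0 T ×ˢ univ) := by
  intro q hq
  rcases (rad_nonneg q.2).eq_or_lt with hr | hr
  · have h1 : dens u U L n =ᶠ[𝓝 q] fun _ => 0 := by
      filter_upwards [chi_near_axis U L n hr.symm] with q' hq'
      unfold dens; rw [hq', mul_zero]
    exact (contDiffAt_const.congr_of_eventuallyEq h1).contDiffWithinAt
  · exact (((F_contDiff m).contDiffAt.comp q (xi_contDiffAt h hq.1 hr)).mul
      (chi_contDiff U L n).contDiffAt).contDiffWithinAt

theorem dens_continuousOn (h : EulerSolution m T u p) (U L : ℝ) (n : ℕ) :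
    ContinuousOn (dens u U L n) (Ico 0 T ×ˢ univ) := by
  intro q hq
  rcases (rad_nonneg q.2).eq_or_lt with hr | hr
  · have h1 : dens u U L n =ᶠ[𝓝 q] fun _ => 0 := by
      filter_upwards [chi_near_axis U L n hr.symm] with q' hq'
      unfold dens; rw [hq', mul_zero]
    exact (continuousAt_const.congr h1.symm).continuousWithinAt
  · have h2 : Continuous fun q : ℝ × V m => rad q.2 := continuous_rad.comp continuous_snd
    have h3 : Continuous fun q : ℝ × V m => ax q.2 := continuous_ax.comp continuous_snd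
    have h5 : ContinuousWithinAt (fun q : ℝ × V m => om (u q.1) (rad q.2) (ax q.2))
        (Ico 0 T ×ˢ univ) q :=
      ContinuousWithinAt.comp (g := fun q : ℝ × ℝ × ℝ => om (u q.1) q.2.1 q.2.2)
        (f := fun q : ℝ × V m => (q.1, rad q.2, ax q.2)) (t := Ico 0 T ×ˢ univ)
        (om_continuousOn h (q.1, rad q.2, ax q.2) ⟨hq.1, mem_univ _⟩)
        (by fun_prop) (fun q' hq' => ⟨hq'.1, mem_univ _⟩)
    have h6 : ContinuousWithinAt (xi u) (Ico 0 T ×ˢ univ) q :=
      h5.div (h2.pow (m - 1)).continuousWithinAt (pow_pos hr _).ne'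
    exact ((F_contDiff m).continuous.continuousAt.comp_continuousWithinAt h6).mul
      (chi_contDiff U L n).continuous.continuousWithinAt

/-- `⟨x', u'⟩ ≤ L r²` -/
theorem radial_le (hm : 1 ≤ m) {v : V m → V m} (hC : ContDiff ℝ ∞ v) (hv : AxisymNoSwirl v)
    {L : ℝ} (hL : ∀ x, ‖fderiv ℝ v x‖ ≤ L) (x : V m) :
    ∑ i : Fin m, x i.castSucc * v x i.castSucc ≤ L * ∑ i : Fin m, (x i.castSucc) ^ 2 := by
  have h1 : inner ℝ (x - axpt x) (v x - v (axpt x)) =
      ∑ i : Fin m, x i.castSucc * v x i.castSucc := by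
    rw [PiLp.inner_apply, Fin.sum_univ_castSucc]
    have hl : (x - axpt x) (Fin.last m) = 0 := by simp [axpt, ax]
    have hi : ∀ i : Fin m, (x - axpt x) i.castSucc = x i.castSucc := by
      intro i; simp [axpt, Fin.castSucc_ne_last]
    have hv0 : ∀ i : Fin m, v (axpt x) i.castSucc = 0 := fun i =>
      axisym_axis hm hC.continuous hv (rad_axpt x) i
    rw [hl]
    simp only [RCLike.inner_apply, conj_trivial, mul_zero, add_zero]
    refine Finset.sum_congr rfl fun i _ => ?_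
    rw [hi, PiLp.sub_apply, hv0, sub_zero, mul_comm]
  have h2 : ‖v x - v (axpt x)‖ ≤ L * ‖x - axpt x‖ :=
    Convex.norm_image_sub_le_of_norm_fderiv_le (𝕜 := ℝ) (s := univ)
      (fun y _ => hC.differentiable (by simp) y) (fun y _ => hL y) convex_univ
      (mem_univ _) (mem_univ _)
  have h3 : ∑ i : Fin m, (x i.castSucc) ^ 2 = rad x ^ 2 :=
    (Real.sq_sqrt (Finset.sum_nonneg fun i _ => sq_nonneg _)).symm
  rw [← h1, h3]
  calc inner ℝ (x - axpt x) (v x - v (axpt x)) ≤ ‖x - axpt x‖ * ‖v x - v (axpt x)‖ :=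
        real_inner_le_norm _ _
    _ ≤ ‖x - axpt x‖ * (L * ‖x - axpt x‖) := by gcongr
    _ = L * rad x ^ 2 := by rw [norm_sub_axpt]; ring

/-- `ξ` is constant along the flow: derivative along the line `(t+s, x+s u)` -/
theorem xi_line (hm : 2 ≤ m) (h : EulerSolution m T u p)
    (hax : ∀ t ∈ Ico 0 T, AxisymNoSwirl (u t)) {t : ℝ} (ht : t ∈ Ioo 0 T) {x : V m}
    (hx : 0 < rad x) :
    HasDerivAt (fun s : ℝ => xi u (t + s, x + s • u t x)) 0 0 := by
  have hm1 : 1 ≤ m := by omega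
  set w := u t x with hw
  set r := rad x with hr
  set z := ax x with hz
  set a := u t (emb r z) 0 with ha
  obtain ⟨hwi, hwl⟩ := axisym_apply hm1 (hax t ⟨ht.1.le, ht.2⟩) hx
  have hl : HasDerivAt (fun s : ℝ => x + s • w) w 0 := by
    simpa using ((hasDerivAt_id (0 : ℝ)).smul_const w).const_add x
  have hsq : ∑ i : Fin m, (x i.castSucc) ^ 2 = r ^ 2 :=
    (Real.sq_sqrt (Finset.sum_nonneg fun i _ => sq_nonneg _)).symm
  have hsum : ∑ i : Fin m, 2 * x i.castSucc * w i.castSucc = 2 * (a * r) := by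
    have : ∀ i : Fin m, 2 * x i.castSucc * w i.castSucc = 2 * (a / r) * (x i.castSucc) ^ 2 := by
      intro i
      rw [hw, hwi i, ← hr, ← hz, ← ha]
      field_simp
    simp only [this]
    rw [← Finset.mul_sum, hsq]
    field_simp
  have hrad : HasDerivAt (fun s : ℝ => rad (x + s • w)) a 0 := by
    have b1 : HasDerivAt (fun s : ℝ => ∑ i : Fin m, ((x + s • w) i.castSucc) ^ 2)
        (∑ i : Fin m, 2 * x i.castSucc * w i.castSucc) 0 := by
      refine HasDerivAt.fun_sum fun i _ => ?_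
      have c1 : HasDerivAt (fun s : ℝ => (x + s • w) i.castSucc) (w i.castSucc) 0 := by
        have := (EuclideanSpace.proj (𝕜 := ℝ) i.castSucc : V m →L[ℝ] ℝ).hasFDerivAt.comp_hasDerivAt 0 hl
        exact this
      have := c1.fun_pow 2
      simp only [zero_smul, add_zero] at this
      exact this.congr_deriv (by norm_num)
    have b2 := b1.sqrt (by simp only [zero_smul, add_zero]; rw [hsq]; positivity)
    refine b2.congr_deriv ?_
    simp only [zero_smul, add_zero]
    rw [hsum, hsq, Real.sqrt_sq hx.le]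
    field_simp
  have hax' : HasDerivAt (fun s : ℝ => ax (x + s • w)) (w (Fin.last m)) 0 := by
    have := (EuclideanSpace.proj (𝕜 := ℝ) (Fin.last m) : V m →L[ℝ] ℝ).hasFDerivAt.comp_hasDerivAt 0 hl
    exact this
  have ht' : HasDerivAt (fun s : ℝ => t + s) 1 0 := (hasDerivAt_id (0 : ℝ)).const_add t
  have hcurve : HasDerivAt (fun s : ℝ => (t + s, rad (x + s • w), ax (x + s • w)))
      (1, a, w (Fin.last m)) 0 := ht'.prodMk (hrad.prodMk hax')
  have hom : HasFDerivAt (fun q : ℝ × ℝ × ℝ => om (u q.1) q.2.1 q.2.2)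
      (fderiv ℝ (fun q : ℝ × ℝ × ℝ => om (u q.1) q.2.1 q.2.2) (t, r, z)) (t, r, z) :=
    (((om_contDiffOn h).contDiffAt ((isOpen_Ioo.prod isOpen_univ).mem_nhds
      ⟨ht, mem_univ _⟩)).differentiableAt (by simp)).hasFDerivAt
  have hN : HasDerivAt (fun s : ℝ => om (u (t + s)) (rad (x + s • w)) (ax (x + s • w)))
      ((m - 1) * (a / r) * om (u t) r z) 0 := by
    have := hom.comp_hasDerivAt_of_eq 0 hcurve (by simp [hr, hz])
    refine this.congr_deriv ?_
    have h2 : w (Fin.last m) = u t (emb r z) (Fin.last m) := hwl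
    rw [h2]
    exact om_transport hm h hax ht hx
  have hD : HasDerivAt (fun s : ℝ => rad (x + s • w) ^ (m - 1))
      (((m - 1 : ℕ) : ℝ) * r ^ (m - 1 - 1) * a) 0 := by
    have := hrad.fun_pow (m - 1)
    simpa only [zero_smul, add_zero] using this
  have hdiv := hN.fun_div hD (by simp only [zero_smul, add_zero]; exact (pow_pos hx _).ne')
  refine hdiv.congr_deriv ?_
  simp only [zero_smul, add_zero]
  have e1 : (((m - 1 : ℕ) : ℝ)) = (m : ℝ) - 1 := by
    rw [Nat.cast_sub hm1, Nat.cast_one]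
  have e2 : r ^ (m - 1) = r ^ (m - 1 - 1) * r := by
    rw [← pow_succ]; congr 1; omega
  have hr0 : r ≠ 0 := hx.ne'
  rw [e1, div_eq_zero_iff]
  left
  rw [← hr, ← hz, e2]
  field_simp
  ring

theorem dens_line (hm : 2 ≤ m) (h : EulerSolution m T u p)
    (hax : ∀ t ∈ Ico 0 T, AxisymNoSwirl (u t)) {U : ℝ} (n : ℕ) {t : ℝ} (ht : t ∈ Ioo 0 T)
    (hU : ∀ x, ‖u t x‖ ≤ U) (hL : ∀ x, ‖fderiv ℝ (u t) x‖ ≤ U) (x : V m) :
    fderiv ℝ (dens u U U n) (t, x) (1, u t x) ≤ 0 := by
  rcases (rad_nonneg x).eq_or_lt with hr | hr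
  · have h1 : dens u U U n =ᶠ[𝓝 (t, x)] fun _ => 0 := by
      filter_upwards [chi_near_axis U U n (q := (t, x)) hr.symm] with q' hq'
      unfold dens; rw [hq', mul_zero]
    rw [h1.fderiv_eq]
    simp
  · have hC : ContDiff ℝ ∞ (u t) := h.contDiff ⟨ht.1.le, ht.2⟩
    obtain ⟨D, hD, h2⟩ := chi_deriv (U := U) (L := U) n (t := t) (x := x) (w := u t x) (hU x)
      (radial_le (by omega) hC (hax t ⟨ht.1.le, ht.2⟩) hL x)
    have h1 := xi_line hm h hax ht hr
    have hF : HasDerivAt (F m) (deriv (F m) (xi u (t, x))) (xi u (t, x)) :=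
      ((F_contDiff m).differentiable (by norm_num) _).hasDerivAt
    have h3 : HasDerivAt (fun s : ℝ => F m (xi u (t + s, x + s • u t x)))
        (deriv (F m) (xi u (t, x)) * 0) 0 := by
      have := hF.comp_of_eq 0 h1 (by simp)
      exact this
    have h4 := h3.fun_mul h2
    have h5 : HasFDerivAt (dens u U U n) (fderiv ℝ (dens u U U n) (t, x)) (t, x) :=
      (((dens_contDiffOn h U U n).contDiffAt ((isOpen_Ioo.prod isOpen_univ).mem_nhds
        ⟨ht, mem_univ _⟩)).differentiableAt (by norm_num)).hasFDerivAt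
    have hl : HasDerivAt (fun s : ℝ => (t + s, x + s • u t x)) (1, u t x) 0 := by
      refine ((hasDerivAt_id (0 : ℝ)).const_add t).prodMk ?_
      simpa using ((hasDerivAt_id (0 : ℝ)).smul_const (u t x)).const_add x
    have h6 := h5.comp_hasDerivAt_of_eq 0 hl (by simp)
    have h7 := h6.unique h4
    rw [h7]
    simp only [mul_zero, zero_mul, zero_add, add_zero, zero_smul]
    exact mul_nonpos_of_nonneg_of_nonpos (F_nonneg _ _) hD

/-- Proof: fix `t₁ ∈ (0,T)`, `U ≥ sup |u|`, `L ≥ sup |u^r|/r` on `[0,t₁]`; with the cutoff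
`χ(t,x)` `(∂_t + u·∇)χ ≤ 0`, so `∫ F(ξ) χ` is nonincreasing
(`ξ(t,x) = om (u t) (rad x) (ax x) / (rad x)^{m-1}`, `(∂_t+u·∇) ξ = 0`, `div u = 0`). -/
theorem Q_le (hm : 2 ≤ m) (h : EulerSolution m T u p)
    (hax : ∀ t ∈ Ico 0 T, AxisymNoSwirl (u t)) {t : ℝ} (ht : t ∈ Ico 0 T) :
    ∫⁻ x : V m, ENNReal.ofReal (F m (curl (u t) x / rad x ^ (m - 1))) ≤
      ∫⁻ x : V m, ENNReal.ofReal (F m (curl (u 0) x / rad x ^ (m - 1))) := by
  rcases ht.1.eq_or_lt with h0 | h0
  · rw [← h0]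
  have hm1 : 1 ≤ m := by omega
  obtain ⟨C, hC0, hC⟩ := h.bounds01 ht.2
  have hT : 0 < T := h0.trans ht.2
  -- the integrand
  have hG : ∀ s ∈ Ico 0 T, ∀ x : V m, 0 < rad x →
      F m (curl (u s) x / rad x ^ (m - 1)) = F m (xi u (s, x)) := by
    intro s hs x hx
    rw [curl_eq_abs_om hm1 (h.contDiff hs) (hax s hs) hx, ← F_even m (xi u (s, x))]
    congr 1
    unfold xi
    rw [abs_div, abs_of_pos (pow_pos hx (m - 1))]
  have hG0 : ∀ s ∈ Ico 0 T, ∀ x : V m, rad x = 0 →
      F m (curl (u s) x / rad x ^ (m - 1)) = 0 := by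
    intro s hs x hx
    rw [curl_axis hm1 (h.contDiff hs) (hax s hs) hx, zero_div]
    exact F_zero m (by simp)
  -- integrals
  have hcs : ∀ n : ℕ, ∀ s, 0 ≤ s → ∀ x : V m, x ∉ Metric.closedBall (0 : V m) n →
      dens u C C n (s, x) = 0 := by
    intro n s hs x hx
    unfold dens
    rw [chi_compact hC0 C n (q := (s, x)) hs hx, mul_zero]
  have hcont : ∀ n : ℕ, ContinuousOn (fun s => ∫ x, dens u C C n (s, x)) (Icc 0 t) := by
    intro n
    refine continuousOn_integral_of_compact_support (isCompact_closedBall (0 : V m) n)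
      (f := fun s x => dens u C C n (s, x)) ?_ fun s x hs hx => hcs n s hs.1 x hx
    refine (dens_continuousOn h C C n).mono fun q hq => ⟨⟨hq.1.1, hq.1.2.trans_lt ht.2⟩, hq.2⟩
  have hder : ∀ n : ℕ, ∀ s ∈ Ioo 0 t, HasDerivAt (fun s => ∫ x, dens u C C n (s, x))
      (∫ x, fderiv ℝ (dens u C C n) (s, x) (1, u s x)) s := by
    intro n s hs
    have hs' : s ∈ Ico 0 T := ⟨hs.1.le, hs.2.trans ht.2⟩
    exact hasDerivAt_integral_drift (isCompact_closedBall (0 : V m) n) (dens_contDiffOn h C C n)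
      (fun s' hs' x hx => hcs n s' hs'.1.le x hx) ⟨hs.1, hs.2.trans ht.2⟩
      ((h.contDiff hs').of_le (by exact_mod_cast le_top)) (fun x => h.divfree s hs' x)
  have hanti : ∀ n : ℕ, ∫ x, dens u C C n (t, x) ≤ ∫ x, dens u C C n (0, x) := by
    intro n
    have := antitoneOn_of_deriv_nonpos (convex_Icc 0 t) (hcont n)
      (by
        rw [interior_Icc]
        exact fun s hs => (hder n s hs).differentiableAt.differentiableWithinAt)
      (by
        rw [interior_Icc]
        intro s hs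
        rw [(hder n s hs).deriv]
        refine integral_nonpos fun x => ?_
        have hs2 : s ∈ Icc 0 t := ⟨hs.1.le, hs.2.le⟩
        exact dens_line hm h hax n ⟨hs.1, hs.2.trans ht.2⟩ (fun x => (hC s hs2 x).1)
          (fun x => (hC s hs2 x).2) x)
    exact this ⟨le_rfl, h0.le⟩ ⟨h0.le, le_rfl⟩ h0.le
  have hint : ∀ n : ℕ, ∀ s ∈ Ico 0 T, Integrable fun x => dens u C C n (s, x) := by
    intro n s hs
    refine Continuous.integrable_of_hasCompactSupport ?_
      (HasCompactSupport.intro (isCompact_closedBall (0 : V m) n) fun x hx => hcs n s hs.1 x hx)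
    rw [← continuousOn_univ]
    exact (dens_continuousOn h C C n).comp (by fun_prop) fun x _ => ⟨hs, mem_univ _⟩
  have hlint : ∀ n : ℕ, ∀ s ∈ Ico 0 T, ∫⁻ x, ENNReal.ofReal (dens u C C n (s, x)) =
      ENNReal.ofReal (∫ x, dens u C C n (s, x)) := fun n s hs =>
    (ofReal_integral_eq_lintegral_ofReal (hint n s hs)
      (Eventually.of_forall fun x => dens_nonneg u C C n (s, x))).symm
  calc ∫⁻ x : V m, ENNReal.ofReal (F m (curl (u t) x / rad x ^ (m - 1)))
      ≤ ∫⁻ x : V m, liminf (fun n : ℕ => ENNReal.ofReal (dens u C C n (t, x))) atTop := by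
        refine lintegral_mono fun x => ?_
        rcases (rad_nonneg x).eq_or_lt with hr | hr
        · rw [hG0 t ht x hr.symm]; simp
        · rw [hG t ht x hr]
          have h1 : Tendsto (fun n : ℕ => ENNReal.ofReal (dens u C C n (t, x))) atTop
              (𝓝 (ENNReal.ofReal (F m (xi u (t, x))))) := by
            refine (ENNReal.continuous_ofReal.tendsto _).comp ?_
            unfold dens
            simpa using (chi_tendsto C C (q := (t, x)) hr).const_mul (F m (xi u (t, x)))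
          exact h1.liminf_eq.ge
    _ ≤ liminf (fun n : ℕ => ∫⁻ x : V m, ENNReal.ofReal (dens u C C n (t, x))) atTop := by
        refine lintegral_liminf_le' fun n => ?_
        exact (hint n t ht).aestronglyMeasurable.aemeasurable.ennreal_ofReal
    _ ≤ liminf (fun _ : ℕ => ∫⁻ x : V m, ENNReal.ofReal
          (F m (curl (u 0) x / rad x ^ (m - 1)))) atTop := by
        refine liminf_le_liminf (Eventually.of_forall fun n => ?_)
        rw [hlint n t ht]
        refine (ENNReal.ofReal_le_ofReal (hanti n)).trans ?_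
        rw [← hlint n 0 ⟨le_rfl, hT⟩]
        refine lintegral_mono fun x => ENNReal.ofReal_le_ofReal ?_
        rcases (rad_nonneg x).eq_or_lt with hr | hr
        · have : chi C C n ((0 : ℝ), x) = 0 := (chi_near_axis C C n (q := (0, x)) hr.symm).self_of_nhds
          unfold dens
          rw [this, mul_zero]
          exact F_nonneg _ _
        · rw [hG 0 ⟨le_rfl, hT⟩ x hr]
          unfold dens
          exact mul_le_of_le_one_right (F_nonneg _ _) (chi_le_one _ _ _ _)
    _ = _ := by simp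

end main

end Pool.Agent.Lib.MP_c167ed_an
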