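import Pool.Agent.Lib.MP_c167ed_an.Planar
import Pool.Agent.Lib.MP_c167ed_an.Fun
import Pool.Agent.Lib.MP_c167ed_an.Polar
import Pool.Agent.Lib.MP_c167ed_an.Sobolev

/-! Finiteness of `∫ F(ω₀/r^{m-1})`: `H^∞` data. -/

open MeasureTheory Set Filter Topology
open scoped ContDiff ENNReal NNReal

namespace Pool.Agent.Lib.MP_c167ed_an

theorem qinit_inner {κ μ : ℕ} (hκ : 0 < κ) {p : ℝ} (hp : κ * p < μ + 1) {A : ℝ}
    (hA : 0 ≤ A) :
    ∫⁻ r in Ioi (0 : ℝ), (if r ^ κ < A then ENNReal.ofReal ((A / r ^ κ) ^ p) else 0) *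
      ENNReal.ofReal (r ^ μ) ≤
      ENNReal.ofReal (A ^ (((μ : ℝ) + 1) / κ) / (μ + 1 - κ * p)) := by
  rcases hA.eq_or_lt with rfl | hA
  · have h0 : ∫⁻ r in Ioi (0 : ℝ), (if r ^ κ < 0 then ENNReal.ofReal ((0 / r ^ κ) ^ p) else 0) *
      ENNReal.ofReal (r ^ μ) = ∫⁻ _ in Ioi (0 : ℝ), 0 := by
      apply setLIntegral_congr_fun measurableSet_Ioi
      intro r hr
      have hr0 : (0 : ℝ) < r := hr
      have h2 : ¬ r ^ κ < 0 := not_lt.2 (by positivity)
      simp only [if_neg h2, zero_mul]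
    rw [h0, lintegral_zero]
    exact zero_le
  · set a : ℝ := A ^ ((κ : ℝ)⁻¹) with ha
    have ha0 : 0 < a := by positivity
    have hκr : (0 : ℝ) < κ := by exact_mod_cast hκ
    have hak : a ^ κ = A := Real.rpow_inv_natCast_pow hA.le hκ.ne'
    set e : ℝ := μ - κ * p with he
    have he1 : 0 < e + 1 := by rw [he]; linarith
    have h1 : ∫⁻ r in Ioi (0 : ℝ), (if r ^ κ < A then ENNReal.ofReal ((A / r ^ κ) ^ p) else 0) *
      ENNReal.ofReal (r ^ μ) =
      ∫⁻ r in Ioi (0 : ℝ), (Iio a).indicator (fun r => ENNReal.ofReal (A ^ p * r ^ e)) r := by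
      apply setLIntegral_congr_fun measurableSet_Ioi
      intro r hr
      have hr0 : (0 : ℝ) < r := hr
      by_cases h : r < a
      · have h2 : r ^ κ < A := by
          rw [← hak]; exact pow_lt_pow_left₀ h hr0.le hκ.ne'
        simp only [if_pos h2, indicator_of_mem (show r ∈ Iio a from h)]
        rw [← ENNReal.ofReal_mul (by positivity)]
        congr 1
        rw [Real.div_rpow hA.le (by positivity), ← Real.rpow_natCast r κ, ← Real.rpow_mul hr0.le,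
          ← Real.rpow_natCast r μ, he, Real.rpow_sub hr0]
        field_simp
      · have h2 : ¬ r ^ κ < A := by
          rw [← hak, not_lt]; exact pow_le_pow_left₀ ha0.le (not_lt.1 h) _
        simp only [if_neg h2, indicator_of_notMem (show r ∉ Iio a from h), zero_mul]
    rw [h1, lintegral_indicator measurableSet_Iio, Measure.restrict_restrict measurableSet_Iio]
    have hset : Iio a ∩ Ioi (0 : ℝ) = Ioo 0 a := by
      ext r; simp [and_comm]
    rw [hset]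
    have hint : IntervalIntegrable (fun r : ℝ => A ^ p * r ^ e) volume 0 a :=
      (intervalIntegral.intervalIntegrable_rpow' (by linarith)).const_mul _
    have hI : IntegrableOn (fun r : ℝ => A ^ p * r ^ e) (Ioo 0 a) := by
      rw [intervalIntegrable_iff_integrableOn_Ioo_of_le ha0.le] at hint
      exact hint
    rw [← ofReal_integral_eq_lintegral_ofReal hI ?_]
    · apply ENNReal.ofReal_le_ofReal
      rw [← integral_Ioc_eq_integral_Ioo, ← intervalIntegral.integral_of_le ha0.le,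
        intervalIntegral.integral_const_mul, integral_rpow (Or.inl (by linarith))]
      rw [Real.zero_rpow (by linarith), sub_zero]
      have h3 : A ^ p * (a ^ (e + 1) / (e + 1)) = A ^ (((μ : ℝ) + 1) / κ) / (μ + 1 - κ * p) := by
        have h4 : a ^ (e + 1) = A ^ ((κ : ℝ)⁻¹ * (e + 1)) := by
          rw [ha, ← Real.rpow_mul hA.le]
        rw [h4, ← mul_div_assoc, ← Real.rpow_add hA]
        congr 1
        · congr 1
          rw [he]; field_simp; ring
        · rw [he]; ring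
      exact h3.le
    · refine (ae_restrict_iff' measurableSet_Ioo).2 (ae_of_all _ fun r hr => ?_)
      have : 0 < r := hr.1
      positivity


theorem qinit_second {m : ℕ} {v : V m → V m} (hv : ContDiff ℝ ∞ v)
    (hH : ∀ k : ℕ, ∫⁻ x, ‖iteratedFDeriv ℝ k v x‖ₑ ^ 2 < ⊤) :
    ∃ G : ℝ → ℝ≥0∞, Measurable G ∧ (∫⁻ z, G z ^ 2 < ⊤) ∧ (∃ B : ℝ≥0, ∀ z, G z ≤ B) ∧
      ∀ x : V m, ‖iteratedFDeriv ℝ 2 v x‖ₑ ≤ G (ax x) := by
  have h1 : ContDiff ℝ ∞ (fderiv ℝ v) := hv.fderiv_right (by simp)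
  have h2 : ContDiff ℝ ∞ (fderiv ℝ (fderiv ℝ v)) := h1.fderiv_right (by simp)
  have hn : ∀ (k : ℕ) (x : V m), ‖iteratedFDeriv ℝ k (fderiv ℝ (fderiv ℝ v)) x‖ =
      ‖iteratedFDeriv ℝ (k + 2) v x‖ := by
    intro k x
    rw [norm_iteratedFDeriv_fderiv, norm_iteratedFDeriv_fderiv]
  have hne : ∀ (k : ℕ) (x : V m), ‖iteratedFDeriv ℝ k (fderiv ℝ (fderiv ℝ v)) x‖ₑ =
      ‖iteratedFDeriv ℝ (k + 2) v x‖ₑ := by
    intro k x
    rw [← ofReal_norm, ← ofReal_norm, hn]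
  obtain ⟨G, hG1, hG2, hG3, hG4⟩ := sobolev_slab m _ (fderiv ℝ (fderiv ℝ v)) h2
    (fun k => by simp only [hne]; exact hH (k + 2))
  refine ⟨G, hG1, hG2, hG3, fun x => ?_⟩
  refine le_trans (le_of_eq ?_) (hG4 x)
  rw [← ofReal_norm, ← ofReal_norm]
  have := hn 0 x
  rw [norm_iteratedFDeriv_zero] at this
  rw [this]


theorem qinit_curl {m : ℕ} (hm : 1 ≤ m) {v : V m → V m} (hv : ContDiff ℝ ∞ v)
    (hax : AxisymNoSwirl v) {G : ℝ → ℝ≥0∞} {B : ℝ≥0} (hB : ∀ z, G z ≤ B)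
    (hG : ∀ x : V m, ‖iteratedFDeriv ℝ 2 v x‖ₑ ≤ G (ax x)) {x : V m} (hx : 0 < rad x) :
    curl v x ≤ 2 * (G (ax x)).toReal * rad x := by
  rw [curl_eq_abs_om hm hv hax hx]
  refine abs_om_le hm hv hax hx.le fun r' hr' => ?_
  have h1 := hG (emb r' (ax x))
  rw [ax_emb hm] at h1
  have h2 : G (ax x) ≠ ⊤ := ne_top_of_le_ne_top ENNReal.coe_ne_top (hB _)
  rw [← ofReal_norm] at h1
  exact (ENNReal.ofReal_le_iff_le_toReal h2).1 h1

theorem qinit_gen {m : ℕ} (hm : 3 ≤ m)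
    (hp : ((m - 2 : ℕ) : ℝ) * pexp m < ((m - 1 : ℕ) : ℝ) + 1)
    (hp0 : 0 ≤ pexp m)
    (hpow : ∀ B : ℝ, ∃ K : ℝ, 0 ≤ K ∧ ∀ A : ℝ, 0 ≤ A → A ≤ B →
      A ^ ((((m - 1 : ℕ) : ℝ) + 1) / ((m - 2 : ℕ) : ℝ)) ≤ K * A ^ 2)
    {v : V m → V m} (hv : ContDiff ℝ ∞ v)
    (hax : AxisymNoSwirl v) (hH : ∀ k : ℕ, ∫⁻ x, ‖iteratedFDeriv ℝ k v x‖ₑ ^ 2 < ⊤) :
    ∫⁻ x : V m, ENNReal.ofReal (F m (curl v x / rad x ^ (m - 1))) < ⊤ := by
  obtain ⟨G, hGm, hG2, ⟨B, hB⟩, hG⟩ := qinit_second hv hH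
  obtain ⟨c, -, hc⟩ := lintegral_axisym (m := m) (by omega)
  obtain ⟨C, hC0, hC⟩ := F_upper hm
  obtain ⟨K, hK0, hK⟩ := hpow (2 * B)
  set A : ℝ → ℝ := fun z => 2 * (G z).toReal with hA
  have hAm : Measurable A := (hGm.ennreal_toReal).const_mul 2
  have hA0 : ∀ z, 0 ≤ A z := fun z => by positivity
  have hGtop : ∀ z, G z ≠ ⊤ := fun z => ne_top_of_le_ne_top ENNReal.coe_ne_top (hB _)
  have hAB : ∀ z, A z ≤ 2 * B := by
    intro z
    have : (G z).toReal ≤ B := by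
      have := ENNReal.toReal_mono ENNReal.coe_ne_top (hB z)
      simpa using this
    simp only [hA]
    linarith
  set f : ℝ → ℝ → ℝ≥0∞ := fun r z =>
    if r ^ (m - 2) < A z then ENNReal.ofReal ((A z / r ^ (m - 2)) ^ pexp m) else 0 with hf
  have hfm : Measurable (Function.uncurry f) := by
    have h1 : Measurable (fun q : ℝ × ℝ => q.1 ^ (m - 2)) := measurable_fst.pow_const _
    have h2 : Measurable (fun q : ℝ × ℝ => A q.2) := hAm.comp measurable_snd
    exact Measurable.ite (measurableSet_lt h1 h2)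
      (((h2.div h1).pow_const _).ennreal_ofReal) measurable_const
  have hpt : ∀ᵐ x : V m, ENNReal.ofReal (F m (curl v x / rad x ^ (m - 1))) ≤
      ENNReal.ofReal C * f (rad x) (ax x) := by
    filter_upwards [ae_rad_pos (m := m) (by omega)] with x hx
    have hcurl := qinit_curl (by omega) hv hax hB hG hx
    have hcurl0 : 0 ≤ curl v x := Real.sqrt_nonneg _
    set s := curl v x / rad x ^ (m - 1) with hs
    have hs0 : 0 ≤ s := by positivity
    have hsle : s ≤ A (ax x) / rad x ^ (m - 2) := by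
      rw [hs, div_le_div_iff₀ (by positivity) (by positivity)]
      have e1 : rad x ^ (m - 1) = rad x * rad x ^ (m - 2) := by
        rw [← pow_succ']; congr 1; omega
      rw [e1]
      calc curl v x * rad x ^ (m - 2) ≤ (2 * (G (ax x)).toReal * rad x) * rad x ^ (m - 2) := by
            gcongr
        _ = A (ax x) * (rad x * rad x ^ (m - 2)) := by simp only [hA]; ring
    by_cases h : rad x ^ (m - 2) < A (ax x)
    · simp only [hf, if_pos h]
      rw [← ENNReal.ofReal_mul hC0.le]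
      apply ENNReal.ofReal_le_ofReal
      refine (hC s).trans ?_
      rw [abs_of_nonneg hs0]
      gcongr
    · simp only [hf, if_neg h, mul_zero]
      have h1 : s ≤ 1 := by
        refine hsle.trans ?_
        rw [div_le_one (by positivity)]
        exact not_lt.1 h
      rw [F_zero m (by rwa [abs_of_nonneg hs0]), ENNReal.ofReal_zero]
  have hE0 : 0 < ((m - 1 : ℕ) : ℝ) + 1 - ((m - 2 : ℕ) : ℝ) * pexp m := by linarith
  set E := ((m - 1 : ℕ) : ℝ) + 1 - ((m - 2 : ℕ) : ℝ) * pexp m with hE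
  have hinner : ∀ z, ∫⁻ r in Ioi (0 : ℝ), f r z * ENNReal.ofReal (r ^ (m - 1)) ≤
      ENNReal.ofReal (4 * K / E) * G z ^ 2 := by
    intro z
    refine (qinit_inner (κ := m - 2) (μ := m - 1) (by omega) hp (hA0 z)).trans ?_
    have h1 : G z ^ 2 = ENNReal.ofReal ((G z).toReal ^ 2) := by
      rw [ENNReal.ofReal_pow ENNReal.toReal_nonneg, ENNReal.ofReal_toReal (hGtop z)]
    rw [h1, ← ENNReal.ofReal_mul (by positivity)]
    apply ENNReal.ofReal_le_ofReal
    have h2 := hK (A z) (hA0 z) (hAB z)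
    rw [← hE, div_le_iff₀ hE0]
    refine h2.trans (le_of_eq ?_)
    simp only [hA]
    field_simp
    ring
  calc ∫⁻ x : V m, ENNReal.ofReal (F m (curl v x / rad x ^ (m - 1)))
      ≤ ∫⁻ x : V m, ENNReal.ofReal C * f (rad x) (ax x) := lintegral_mono_ae hpt
    _ = ENNReal.ofReal C * ∫⁻ x : V m, f (rad x) (ax x) :=
        lintegral_const_mul' _ _ ENNReal.ofReal_ne_top
    _ = ENNReal.ofReal C * (c * ∫⁻ z, ∫⁻ r in Ioi (0 : ℝ), f r z * ENNReal.ofReal (r ^ (m - 1))) := by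
        rw [hc f hfm]
    _ ≤ ENNReal.ofReal C * (c * ∫⁻ z, ENNReal.ofReal (4 * K / E) * G z ^ 2) := by
        gcongr with z
        exact hinner z
    _ = ENNReal.ofReal C * (c * (ENNReal.ofReal (4 * K / E) * ∫⁻ z, G z ^ 2)) := by
        rw [lintegral_const_mul' _ _ ENNReal.ofReal_ne_top]
    _ < ⊤ := by
        refine ENNReal.mul_lt_top ENNReal.ofReal_lt_top ?_
        refine ENNReal.mul_lt_top ENNReal.coe_lt_top ?_
        exact ENNReal.mul_lt_top ENNReal.ofReal_lt_top hG2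

/-- `d = 4, 5`, `H^∞` data. For `rad x ≥ 1` use `F_sq` and `curl v ∈ L²` (`curl_le`); for
`rad x < 1`, `curl v x ≤ 2 rad x G(ax x)` with `G` from `sobolev_slab` (second derivatives,
`abs_om_le`), so with `ξ ≤ 2 G r^{2-m}`, `F(ξ) ≤ C ξ^p 1_{ξ>1}` (`F_zero`, `F_upper`), and
`∫_0^1 (G r^{2-m})^p 1_{G r^{2-m} > 1} r^{m-1} dr ≤ C G^{m/(m-2)} ≤ C' G²`
(`m/(m-2) = 3, 2`; `G` is bounded). -/
theorem Q_init_sobolev {m : ℕ} (hm : m = 3 ∨ m = 4) {v : V m → V m} (hv : ContDiff ℝ ∞ v)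
    (hax : AxisymNoSwirl v) (hH : ∀ k : ℕ, ∫⁻ x, ‖iteratedFDeriv ℝ k v x‖ₑ ^ 2 < ⊤) :
    ∫⁻ x : V m, ENNReal.ofReal (F m (curl v x / rad x ^ (m - 1))) < ⊤ := by
  rcases hm with rfl | rfl
  · refine qinit_gen le_rfl (by unfold pexp; norm_num) (by unfold pexp; norm_num) ?_ hv hax hH
    intro B
    refine ⟨|B|, abs_nonneg _, fun A hA hAB => ?_⟩
    have e : (((3 - 1 : ℕ) : ℝ) + 1) / ((3 - 2 : ℕ) : ℝ) = ((3 : ℕ) : ℝ) := by norm_num
    rw [e, Real.rpow_natCast]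
    calc A ^ 3 = A * A ^ 2 := by ring
      _ ≤ |B| * A ^ 2 := by
        gcongr
        exact hAB.trans (le_abs_self B)
  · refine qinit_gen (by norm_num) (by unfold pexp; norm_num) (by unfold pexp; norm_num) ?_ hv hax hH
    intro B
    refine ⟨1, zero_le_one, fun A hA hAB => ?_⟩
    have e : (((4 - 1 : ℕ) : ℝ) + 1) / ((4 - 2 : ℕ) : ℝ) = ((2 : ℕ) : ℝ) := by norm_num
    rw [e, Real.rpow_natCast, one_mul]

end Pool.Agent.Lib.MP_c167ed_an
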