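import Pool.Agent.Lib.MP_c167ed_an.Planar
import Pool.Agent.Lib.MP_c167ed_an.Fun
import Pool.Agent.Lib.MP_c167ed_an.Polar

/-! Finiteness of `∫ F(ω₀/r^{m-1})`: compactly supported vorticity. -/

open MeasureTheory Set Filter Topology
open scoped ContDiff ENNReal NNReal

namespace Pool.Agent.Lib.MP_c167ed_an

/-- the exponent is admissible: `(m-2) p < m`. -/
theorem qinita_exponent {m : ℕ} (hm : 3 ≤ m) :
    ((m : ℝ) - 2) * pexp m < m := by
  have h3 : (3 : ℝ) ≤ m := by exact_mod_cast hm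
  unfold pexp
  rw [mul_div_assoc', div_lt_iff₀ (by linarith)]
  nlinarith

theorem qinita_pexp_pos {m : ℕ} (hm : 3 ≤ m) : 0 < pexp m := by
  have h3 : (3 : ℝ) ≤ m := by exact_mod_cast hm
  unfold pexp
  apply div_pos <;> linarith

/-- the radial integral is finite. -/
theorem qinita_radial {m : ℕ} (hm : 3 ≤ m) {K R : ℝ} (hK : 0 ≤ K) (hR : 0 < R) :
    ∫⁻ r in Ioc (0 : ℝ) R, ENNReal.ofReal (K * r ^ (-(((m : ℝ) - 2) * pexp m))) *
      ENNReal.ofReal (r ^ (m - 1)) < ⊤ := by
  have hint : IntegrableOn (fun r : ℝ => r ^ (((m : ℝ) - 1) - ((m : ℝ) - 2) * pexp m))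
      (Ioc 0 R) volume := by
    have h := intervalIntegral.intervalIntegrable_rpow' (a := 0) (b := R)
      (r := ((m : ℝ) - 1) - ((m : ℝ) - 2) * pexp m)
      (by have := qinita_exponent hm; linarith)
    rwa [intervalIntegrable_iff_integrableOn_Ioc_of_le hR.le] at h
  have hint2 := (hint.const_mul K).lintegral_lt_top
  refine lt_of_le_of_lt (le_of_eq ?_) hint2
  refine setLIntegral_congr_fun measurableSet_Ioc fun r hr => ?_
  have hr0 : 0 < r := hr.1
  rw [← ENNReal.ofReal_mul (by positivity)]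
  congr 1
  rw [mul_assoc, ← Real.rpow_natCast, ← Real.rpow_add hr0]
  congr 2
  rw [Nat.cast_sub (by omega)]
  push_cast
  ring

theorem qinita_norm_emb {m : ℕ} (r z : ℝ) : ‖(emb r z : V m)‖ ≤ |r| + |z| := by
  unfold emb
  refine (norm_add_le _ _).trans (le_of_eq ?_)
  rw [PiLp.norm_single, PiLp.norm_single, Real.norm_eq_abs, Real.norm_eq_abs]

/-- pointwise bound of the integrand. -/
theorem qinita_pointwise {m : ℕ} (hm : 3 ≤ m) {v : V m → V m} (hv : ContDiff ℝ ∞ v)
    (hax : AxisymNoSwirl v) {R : ℝ} (hR : ∀ x, R < ‖x‖ → curl v x = 0) (hRpos : 0 < R) :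
    ∃ K : ℝ, 0 ≤ K ∧ ∀ x : V m, 0 < rad x →
      ENNReal.ofReal (F m (curl v x / rad x ^ (m - 1))) ≤
        (Icc (-R) R).indicator 1 (ax x) * (Ioc (0 : ℝ) R).indicator
          (fun r => ENNReal.ofReal (K * r ^ (-(((m : ℝ) - 2) * pexp m)))) (rad x) := by
  obtain ⟨C, hC, hF⟩ := F_upper hm
  obtain ⟨S, hS⟩ := (isCompact_closedBall (0 : V m) (R + R)).exists_bound_of_continuousOn
    (hv.continuous_iteratedFDeriv (m := 2)
      (WithTop.coe_le_coe.2 le_top)).continuousOn
  have hS0 : 0 ≤ S := (norm_nonneg _).trans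
    (hS 0 (by rw [Metric.mem_closedBall, dist_self]; linarith))
  refine ⟨C * (2 * S) ^ (pexp m), by positivity, fun x hx => ?_⟩
  by_cases hxR : R < ‖x‖
  · rw [hR x hxR, zero_div, F_zero m (by simp), ENNReal.ofReal_zero]
    exact zero_le
  · have hxR' : ‖x‖ ≤ R := not_lt.1 hxR
    have haxR : |ax x| ≤ R := (by
      have h := PiLp.norm_apply_le x (Fin.last m)
      rw [Real.norm_eq_abs] at h
      exact h : |ax x| ≤ ‖x‖).trans hxR'
    have hradR : rad x ≤ R := (rad_le_norm x).trans hxR'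
    rw [indicator_of_mem (mem_Icc.2 (abs_le.1 haxR)), indicator_of_mem (mem_Ioc.2 ⟨hx, hradR⟩),
      Pi.one_apply, one_mul]
    apply ENNReal.ofReal_le_ofReal
    have h1 : curl v x ≤ 2 * S * rad x := by
      rw [curl_eq_abs_om (by omega) hv hax hx]
      refine abs_om_le (by omega) hv hax hx.le fun r' hr' => ?_
      apply hS
      rw [Metric.mem_closedBall, dist_zero_right]
      refine (qinita_norm_emb r' (ax x)).trans (add_le_add ?_ haxR)
      rw [abs_of_nonneg hr'.1]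
      exact hr'.2.trans hradR
    have hc0 : 0 ≤ curl v x := Real.sqrt_nonneg _
    refine (hF _).trans ?_
    have h2 : |curl v x / rad x ^ (m - 1)| ≤ 2 * S * rad x ^ (-((m : ℝ) - 2)) := by
      rw [abs_of_nonneg (by positivity), div_le_iff₀ (by positivity), mul_assoc,
        ← Real.rpow_natCast, ← Real.rpow_add hx]
      have e : -((m : ℝ) - 2) + ((m - 1 : ℕ) : ℝ) = 1 := by
        rw [Nat.cast_sub (by omega)]
        push_cast
        ring
      rw [e, Real.rpow_one]
      exact h1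
    have h3 : |curl v x / rad x ^ (m - 1)| ^ (pexp m) ≤
        (2 * S * rad x ^ (-((m : ℝ) - 2))) ^ (pexp m) :=
      Real.rpow_le_rpow (abs_nonneg _) h2 (qinita_pexp_pos hm).le
    have h4 : (2 * S * rad x ^ (-((m : ℝ) - 2))) ^ (pexp m) =
        (2 * S) ^ (pexp m) * rad x ^ (-(((m : ℝ) - 2) * pexp m)) := by
      rw [Real.mul_rpow (by positivity) (by positivity), ← Real.rpow_mul hx.le, neg_mul]
    rw [h4] at h3
    calc C * |curl v x / rad x ^ (m - 1)| ^ (pexp m)
        ≤ C * ((2 * S) ^ (pexp m) * rad x ^ (-(((m : ℝ) - 2) * pexp m))) :=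
          mul_le_mul_of_nonneg_left h3 hC.le
      _ = _ := by ring

/-- any `d ≥ 4`, compactly supported vorticity: `F(ξ) ≤ C (K r^{2-m})^p` on a bounded set,
`(m-2) p < m` (`abs_om_le`, `F_upper`, `lintegral_axisym`). -/
theorem Q_init_compact {m : ℕ} (hm : 3 ≤ m) {v : V m → V m} (hv : ContDiff ℝ ∞ v)
    (hax : AxisymNoSwirl v) {R : ℝ} (hR : ∀ x, R < ‖x‖ → curl v x = 0) :
    ∫⁻ x : V m, ENNReal.ofReal (F m (curl v x / rad x ^ (m - 1))) < ⊤ := by
  set R1 : ℝ := max R 1 with hR1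
  have hR1pos : 0 < R1 := lt_of_lt_of_le one_pos (le_max_right _ _)
  have hR' : ∀ x, R1 < ‖x‖ → curl v x = 0 := fun x hx => hR x (lt_of_le_of_lt (le_max_left _ _) hx)
  obtain ⟨K, hK, hpt⟩ := qinita_pointwise hm hv hax hR' hR1pos
  obtain ⟨c, hc, hcyl⟩ := lintegral_axisym (m := m) (by omega)
  set f : ℝ → ℝ → ℝ≥0∞ := fun r z => (Icc (-R1) R1).indicator 1 z * (Ioc (0 : ℝ) R1).indicator
    (fun r => ENNReal.ofReal (K * r ^ (-(((m : ℝ) - 2) * pexp m)))) r with hf
  have hg : Measurable (fun r : ℝ => ENNReal.ofReal (K * r ^ (-(((m : ℝ) - 2) * pexp m)))) := by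
    fun_prop
  have hfm : Measurable (Function.uncurry f) := by
    have h1 : Measurable ((Icc (-R1) R1).indicator (1 : ℝ → ℝ≥0∞)) :=
      measurable_one.indicator measurableSet_Icc
    have h2 : Measurable ((Ioc (0 : ℝ) R1).indicator
        (fun r => ENNReal.ofReal (K * r ^ (-(((m : ℝ) - 2) * pexp m))))) :=
      hg.indicator measurableSet_Ioc
    exact (h1.comp measurable_snd).mul (h2.comp measurable_fst)
  have hle : ∫⁻ x : V m, ENNReal.ofReal (F m (curl v x / rad x ^ (m - 1))) ≤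
      ∫⁻ x : V m, f (rad x) (ax x) := by
    refine lintegral_mono_ae ?_
    filter_upwards [ae_rad_pos (m := m) (by omega)] with x hx
    exact hpt x hx
  refine lt_of_le_of_lt hle ?_
  rw [hcyl f hfm]
  have hinner : ∀ z : ℝ, ∫⁻ r in Ioi (0 : ℝ), f r z * ENNReal.ofReal (r ^ (m - 1)) =
      (Icc (-R1) R1).indicator 1 z * ∫⁻ r in Ioc (0 : ℝ) R1,
        ENNReal.ofReal (K * r ^ (-(((m : ℝ) - 2) * pexp m))) * ENNReal.ofReal (r ^ (m - 1)) := by
    intro z
    have h1 : ∫⁻ r in Ioi (0 : ℝ), f r z * ENNReal.ofReal (r ^ (m - 1)) =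
        ∫⁻ r in Ioi (0 : ℝ), (Icc (-R1) R1).indicator 1 z * (Ioc (0 : ℝ) R1).indicator
          (fun r => ENNReal.ofReal (K * r ^ (-(((m : ℝ) - 2) * pexp m))) *
            ENNReal.ofReal (r ^ (m - 1))) r := by
      refine lintegral_congr fun r => ?_
      by_cases hr : r ∈ Ioc (0 : ℝ) R1
      · simp only [hf, indicator_of_mem hr, mul_assoc]
      · simp only [hf, indicator_of_notMem hr, mul_zero, zero_mul]
    rw [h1, lintegral_const_mul _ (by
      refine Measurable.indicator ?_ measurableSet_Ioc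
      exact hg.mul (by fun_prop)), setLIntegral_indicator measurableSet_Ioc,
      inter_eq_left.2 Ioc_subset_Ioi_self]
  simp_rw [hinner]
  rw [lintegral_mul_const _ (measurable_one.indicator measurableSet_Icc),
    lintegral_indicator_one measurableSet_Icc, Real.volume_Icc]
  exact ENNReal.mul_lt_top ENNReal.coe_lt_top
    (ENNReal.mul_lt_top ENNReal.ofReal_lt_top (qinita_radial hm hK hR1pos))

end Pool.Agent.Lib.MP_c167ed_an
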