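import Pool.Agent.Lib.MP_c167ed_an.Energy
import Pool.Agent.Lib.MP_c167ed_an.Planar

/-! The class of axisymmetric fields without swirl is preserved. -/

open MeasureTheory Set Filter Topology
open scoped ContDiff ENNReal NNReal RealInnerProductSpace

namespace Pool.Agent.Lib.MP_c167ed_an

variable {m : ℕ} {T : ℝ} {u v : ℝ → V m → V m} {p q : ℝ → V m → ℝ}

namespace SymAux

/-- the standard basis vectors -/
noncomputable abbrev e (i : Fin (m + 1)) : V m := EuclideanSpace.single i 1

theorem inner_e (i : Fin (m + 1)) (w : V m) : ⟪e i, w⟫ = w i := by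
  rw [EuclideanSpace.inner_single_left, map_one, one_mul]

theorem sum_e (w : V m) : ∑ i, w i • e i = w := by
  have h := (EuclideanSpace.basisFun (Fin (m + 1)) ℝ).sum_repr w
  simpa using h

theorem map_eq_sum {E : Type*} [AddCommGroup E] [Module ℝ E] (φ : V m →ₗ[ℝ] E) (w : V m) :
    φ w = ∑ i, w i • φ (e i) := by
  conv_lhs => rw [← sum_e w]
  rw [map_sum]
  exact Finset.sum_congr rfl fun i _ => map_smul φ _ _

theorem sum_pd (v : V m → V m) (w x : V m) (j : Fin (m + 1)) :
    ∑ i, w i * pd v i j x = fderiv ℝ v x w j := by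
  have h := map_eq_sum (((EuclideanSpace.proj j : V m →L[ℝ] ℝ).comp
    (fderiv ℝ v x)).toLinearMap) w
  exact h.symm

theorem comp_right_fderiv {E : Type*} [NormedAddCommGroup E] [NormedSpace ℝ E]
    (L : V m ≃ₗᵢ[ℝ] V m) (f : V m → E) (x w : V m) :
    fderiv ℝ (f ∘ L) x w = fderiv ℝ f (L x) (L w) := by
  have h := L.toContinuousLinearEquiv.comp_right_fderiv (f := f) (x := x)
  exact congrArg (fun φ => φ w) h

theorem fderiv_rot (L : V m ≃ₗᵢ[ℝ] V m) (f : V m → V m) (x w : V m) :
    fderiv ℝ (fun y => L.symm (f (L y))) x w = L.symm (fderiv ℝ f (L x) (L w)) := by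
  have h1 : (fun y => L.symm (f (L y))) = L.symm ∘ (f ∘ L) := rfl
  rw [h1, LinearIsometryEquiv.comp_fderiv, ← comp_right_fderiv]
  rfl

theorem dvg_eq_trace (v : V m → V m) (x : V m) :
    dvg v x = LinearMap.trace ℝ (V m) (fderiv ℝ v x).toLinearMap := by
  rw [LinearMap.trace_eq_sum_inner _ (EuclideanSpace.basisFun (Fin (m + 1)) ℝ)]
  unfold dvg
  refine Finset.sum_congr rfl fun i _ => ?_
  rw [EuclideanSpace.basisFun_apply]
  exact (inner_e i _).symm

theorem dvg_rot (L : V m ≃ₗᵢ[ℝ] V m) (f : V m → V m) (x : V m) :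
    dvg (fun y => L.symm (f (L y))) x = dvg f (L x) := by
  rw [dvg_eq_trace, dvg_eq_trace,
    LinearMap.trace_eq_sum_inner _ (EuclideanSpace.basisFun (Fin (m + 1)) ℝ),
    LinearMap.trace_eq_sum_inner _ ((EuclideanSpace.basisFun (Fin (m + 1)) ℝ).map L)]
  refine Finset.sum_congr rfl fun i _ => ?_
  rw [OrthonormalBasis.map_apply]
  change ⟪_, fderiv ℝ (fun y => L.symm (f (L y))) x _⟫ = ⟪_, fderiv ℝ f (L x) _⟫
  rw [fderiv_rot, ← LinearIsometryEquiv.inner_map_map L, LinearIsometryEquiv.apply_symm_apply]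

theorem lintegral_rot (L : V m ≃ₗᵢ[ℝ] V m) (f : V m → ℝ≥0∞) :
    ∫⁻ x, f (L x) = ∫⁻ x, f x :=
  L.measurePreserving.lintegral_comp_emb L.toHomeomorph.measurableEmbedding f

theorem contDiffAt (h : EulerSolution m T u p) {t : ℝ} (ht : t ∈ Ioo 0 T) (x : V m) :
    ContDiffAt ℝ ∞ (fun q : ℝ × V m => u q.1 q.2) (t, x) :=
  h.smooth_u.contDiffAt (prod_mem_nhds (Ico_mem_nhds ht.1 ht.2) univ_mem)

theorem hasDerivAt_time (h : EulerSolution m T u p) {t : ℝ} (ht : t ∈ Ioo 0 T) (x : V m) :
    HasDerivAt (fun s => u s x) (deriv (fun s => u s x) t) t := by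
  have h1 : DifferentiableAt ℝ (fun s => u s x) t := by
    have h2 : DifferentiableAt ℝ (fun q : ℝ × V m => u q.1 q.2) ((fun s => (s, x)) t) :=
      (contDiffAt h ht x).differentiableAt (by simp)
    have h3 : DifferentiableAt ℝ (fun s : ℝ => (s, x)) t := by fun_prop
    exact h2.comp t h3
  exact h1.hasDerivAt

theorem continuous_space (h : EulerSolution m T u p) {t : ℝ} (ht : t ∈ Ico 0 T) :
    Continuous (u t) := by
  have h1 : ContinuousOn (fun q : ℝ × V m => u q.1 q.2) (Ico 0 T ×ˢ univ) :=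
    h.smooth_u.continuousOn
  have h2 : ContinuousOn (fun x : V m => (t, x)) univ := by fun_prop
  have h3 := h1.comp h2 (fun x _ => ⟨ht, mem_univ _⟩)
  exact continuousOn_univ.mp h3

end SymAux

open SymAux

/-- a rotated solution is a solution -/
theorem EulerSolution.rotate (h : EulerSolution m T u p) (L : V m ≃ₗᵢ[ℝ] V m) :
    EulerSolution m T (fun t x => L.symm (u t (L x))) (fun t x => p t (L x)) := by
  have hmap : MapsTo (fun q : ℝ × V m => (q.1, L q.2)) (Ico 0 T ×ˢ univ) (Ico 0 T ×ˢ univ) :=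
    fun q hq => ⟨hq.1, mem_univ _⟩
  have hL : ContDiff ℝ ∞ (fun q : ℝ × V m => (q.1, L q.2)) :=
    contDiff_fst.prodMk (L.contDiff.comp contDiff_snd)
  refine ⟨?_, ?_, ?_, ?_, ?_, ?_⟩
  · exact L.symm.contDiff.comp_contDiffOn (h.smooth_u.comp hL.contDiffOn hmap)
  · exact h.smooth_p.comp hL.contDiffOn hmap
  · intro t ht x j
    set y := L x with hy
    set g' := deriv (fun s => u s y) t with hg'
    have hg : HasDerivAt (fun s => u s y) g' t := hasDerivAt_time h ht y
    set A := g' + fderiv ℝ (u t) y (u t y) with hA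
    have h1 : ∀ i, A i + fderiv ℝ (p t) y (e i) = 0 := by
      intro i
      have h2 := h.momentum t ht y i
      have h3 : deriv (fun s => u s y i) t = g' i :=
        ((EuclideanSpace.proj i : V m →L[ℝ] ℝ).hasFDerivAt.comp_hasDerivAt t hg).deriv
      rw [h3, sum_pd] at h2
      exact h2
    have h4 : ∀ w : V m, ⟪A, w⟫ + fderiv ℝ (p t) y w = 0 := by
      intro w
      have h5 := map_eq_sum ((innerSL ℝ A).toLinearMap) w
      have h6 := map_eq_sum ((fderiv ℝ (p t) y).toLinearMap) w
      have h5' : ⟪A, w⟫ = ∑ i, w i • ⟪A, e i⟫ := h5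
      have h6' : fderiv ℝ (p t) y w = ∑ i, w i • fderiv ℝ (p t) y (e i) := h6
      rw [h5', h6', ← Finset.sum_add_distrib]
      refine Finset.sum_eq_zero fun i _ => ?_
      rw [← smul_add, real_inner_comm, inner_e, h1 i, smul_zero]
    have h7 : deriv (fun s => (L.symm (u s (L x))) j) t = (L.symm g') j := by
      let φ : V m →L[ℝ] ℝ := (EuclideanSpace.proj j : V m →L[ℝ] ℝ).comp
        (L.symm.toContinuousLinearEquiv : V m →L[ℝ] V m)
      exact (φ.hasFDerivAt.comp_hasDerivAt t hg).deriv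
    have h8 : ∑ i, (L.symm (u t (L x))) i * pd (fun x => L.symm (u t (L x))) i j x =
        (L.symm (fderiv ℝ (u t) y (u t y))) j := by
      rw [sum_pd, fderiv_rot, LinearIsometryEquiv.apply_symm_apply]
    have h9 : fderiv ℝ (fun x => p t (L x)) x (EuclideanSpace.single j 1) =
        fderiv ℝ (p t) y (L (e j)) := by
      have h10 : (fun x => p t (L x)) = p t ∘ L := rfl
      rw [h10, comp_right_fderiv]
    change deriv (fun s => (L.symm (u s (L x))) j) t +
      ∑ i, (L.symm (u t (L x))) i * pd (fun x => L.symm (u t (L x))) i j x +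
      fderiv ℝ (fun x => p t (L x)) x (EuclideanSpace.single j 1) = 0
    rw [h7, h8, h9]
    have h11 : (L.symm g') j + (L.symm (fderiv ℝ (u t) y (u t y))) j = ⟪A, L (e j)⟫ := by
      rw [real_inner_comm, LinearIsometryEquiv.inner_map_eq_flip, inner_e, hA, map_add]
      rfl
    rw [h11]
    exact h4 _
  · intro t ht x
    exact (dvg_rot L (u t) x).trans (h.divfree t ht (L x))
  · intro k T' hT'
    obtain ⟨C, hC⟩ := h.sobolev k T' hT'
    refine ⟨C, fun t ht => ?_⟩
    refine le_trans (le_of_eq ?_) (hC t ht)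
    rw [← lintegral_rot L (fun x => ‖iteratedFDeriv ℝ k (u t) x‖ₑ ^ 2)]
    refine lintegral_congr fun x => ?_
    have h1 : (fun y => L.symm (u t (L y))) = L.symm ∘ (u t ∘ L) := rfl
    have h2 : ‖iteratedFDeriv ℝ k (fun y => L.symm (u t (L y))) x‖ =
        ‖iteratedFDeriv ℝ k (u t) (L x)‖ := by
      rw [h1, LinearIsometryEquiv.norm_iteratedFDeriv_comp_left,
        LinearIsometryEquiv.norm_iteratedFDeriv_comp_right]
    change ‖iteratedFDeriv ℝ k (fun y => L.symm (u t (L y))) x‖ₑ ^ 2 = _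
    rw [← ofReal_norm_eq_enorm, h2, ofReal_norm_eq_enorm]
  · intro T' hT'
    obtain ⟨C, hC⟩ := h.pressure T' hT'
    refine ⟨C, fun t ht => ?_⟩
    refine le_trans (le_of_eq ?_) (hC t ht)
    exact lintegral_rot L (fun x => ‖p t x‖ₑ ^ 2)

namespace SymAux

theorem ax_eq_inner (x : V m) : ax x = ⟪e (Fin.last m), x⟫ := (inner_e _ _).symm

theorem sym_norm_sq_eq (x : V m) : ‖x‖ ^ 2 = rad x ^ 2 + ax x ^ 2 := by
  rw [EuclideanSpace.norm_sq_eq, Fin.sum_univ_castSucc, rad,
    Real.sq_sqrt (Finset.sum_nonneg fun i _ => sq_nonneg _)]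
  simp [ax]

/-- isometries fixing the axis -/
def FixAx (L : V m ≃ₗᵢ[ℝ] V m) : Prop := L (e (Fin.last m)) = e (Fin.last m)

theorem FixAx.ax {L : V m ≃ₗᵢ[ℝ] V m} (hL : FixAx L) (x : V m) :
    MP_c167ed_an.ax (L x) = MP_c167ed_an.ax x := by
  rw [ax_eq_inner, ax_eq_inner, ← LinearIsometryEquiv.inner_map_map L (e (Fin.last m)) x, hL]

theorem FixAx.rad {L : V m ≃ₗᵢ[ℝ] V m} (hL : FixAx L) (x : V m) :
    MP_c167ed_an.rad (L x) = MP_c167ed_an.rad x := by
  have h1 := sym_norm_sq_eq (L x)
  rw [hL.ax, LinearIsometryEquiv.norm_map, sym_norm_sq_eq x] at h1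
  have h2 : MP_c167ed_an.rad (L x) ^ 2 = MP_c167ed_an.rad x ^ 2 := by linarith
  exact (pow_left_inj₀ (rad_nonneg _) (rad_nonneg _) two_ne_zero).mp h2

/-- the vector form of the condition -/
theorem axisym_vec {w : V m → V m} {a b : ℝ → ℝ → ℝ} {x : V m} (hx : rad x ≠ 0)
    (h1 : ∀ i : Fin m, w x i.castSucc = a (rad x) (ax x) * (x i.castSucc / rad x))
    (h2 : w x (Fin.last m) = b (rad x) (ax x)) :
    w x = (a (rad x) (ax x) / rad x) • (x - ax x • e (Fin.last m)) +
      b (rad x) (ax x) • e (Fin.last m) := by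
  ext i
  induction i using Fin.lastCases with
  | last =>
    rw [h2]
    simp [ax]
  | cast i =>
    rw [h1]
    have h3 : (i.castSucc : Fin (m + 1)) ≠ Fin.last m := (Fin.castSucc_lt_last i).ne
    simp [h3]
    ring

theorem FixAx.axisym {L : V m ≃ₗᵢ[ℝ] V m} (hL : FixAx L) (hm : 1 ≤ m) {w : V m → V m}
    (hc : Continuous w) (hw : AxisymNoSwirl w) (x : V m) : L.symm (w (L x)) = w x := by
  rw [LinearIsometryEquiv.symm_apply_eq]
  by_cases hx : MP_c167ed_an.rad x = 0
  · have h1 : ∀ y : V m, MP_c167ed_an.rad y = 0 →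
        w y = (w y (Fin.last m)) • e (Fin.last m) ∧ y = MP_c167ed_an.ax y • e (Fin.last m) := by
      intro y hy
      constructor
      · ext i
        induction i using Fin.lastCases with
        | last => simp
        | cast i =>
          have h3 : (i.castSucc : Fin (m + 1)) ≠ Fin.last m := (Fin.castSucc_lt_last i).ne
          rw [axisym_axis hm hc hw hy i]
          simp [h3]
      · have h4 : ‖y - axpt y‖ = 0 := by rw [norm_sub_axpt, hy]
        rw [norm_sub_eq_zero_iff] at h4
        conv_lhs => rw [h4]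
        ext i
        simp [axpt, EuclideanSpace.single, Pi.single_apply]
    obtain ⟨h2, h3⟩ := h1 x hx
    have h4 : L x = x := by
      rw [h3, map_smul, hL]
    rw [h4]
    conv_rhs => rw [h2, map_smul, hL]
    exact h2
  · obtain ⟨a, b, hab⟩ := hw
    obtain ⟨h1, h2⟩ := hab x hx
    have hx' : MP_c167ed_an.rad (L x) ≠ 0 := by rwa [hL.rad]
    obtain ⟨h3, h4⟩ := hab (L x) hx'
    rw [axisym_vec hx h1 h2, axisym_vec hx' h3 h4, hL.rad, hL.ax, map_add, map_smul, map_smul,
      map_sub, map_smul, hL]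

/-- reflections in hyperplanes containing the axis -/
theorem fixAx_reflection {y : V m} (hy : ax y = 0) : FixAx ((ℝ ∙ y)ᗮ).reflection := by
  refine Submodule.reflection_mem_subspace_eq_self ?_
  rw [Submodule.mem_orthogonal_singleton_iff_inner_left, inner_e]
  exact hy

theorem axisym_of_equivariant (hm : 1 ≤ m) {w : V m → V m}
    (h : ∀ L : V m ≃ₗᵢ[ℝ] V m, FixAx L → ∀ x, w (L x) = L (w x)) : AxisymNoSwirl w := by
  refine ⟨fun r z => w (emb r z) 0, fun r z => w (emb r z) (Fin.last m), fun x hx => ?_⟩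
  set r := rad x with hr
  set z := ax x with hz
  set y : V m := emb r z with hy
  have hr0 : 0 ≤ r := rad_nonneg x
  have hyr : rad y = r := by rw [hy, rad_emb hm, abs_of_nonneg hr0]
  have hyz : ax y = z := by rw [hy, ax_emb hm]
  have hyeq : y = r • e 0 + z • e (Fin.last m) := by
    rw [hy, emb]
    ext i
    simp [EuclideanSpace.single, Pi.single_apply]
  have hlast : (0 : Fin (m + 1)) ≠ Fin.last m := by
    intro h0
    have := congrArg Fin.val h0
    simp at this
    omega
  -- `w y` has only two components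
  have h1 : ∀ i : Fin (m + 1), i ≠ 0 → i ≠ Fin.last m → w y i = 0 := by
    intro i hi0 hil
    have hfix : FixAx ((ℝ ∙ (e i : V m))ᗮ).reflection := by
      refine fixAx_reflection ?_
      rw [ax_eq_inner, inner_e]
      simp [hil.symm]
    have h2 : ((ℝ ∙ (e i : V m))ᗮ).reflection y = y := by
      refine Submodule.reflection_mem_subspace_eq_self ?_
      rw [Submodule.mem_orthogonal_singleton_iff_inner_right, inner_e, hyeq]
      simp [hi0, hil]
    have h3 := h _ hfix y
    rw [h2] at h3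
    have h4 : ⟪(e i : V m), w y⟫ = ⟪(e i : V m), ((ℝ ∙ (e i : V m))ᗮ).reflection (w y)⟫ := by
      rw [← h3]
    have h5 : ⟪(e i : V m), ((ℝ ∙ (e i : V m))ᗮ).reflection (w y)⟫ =
        ⟪((ℝ ∙ (e i : V m))ᗮ).reflection (e i : V m), w y⟫ := by
      rw [← LinearIsometryEquiv.inner_map_map ((ℝ ∙ (e i : V m))ᗮ).reflection
        (((ℝ ∙ (e i : V m))ᗮ).reflection (e i : V m)) (w y), Submodule.reflection_reflection]
    rw [h5, Submodule.reflection_orthogonalComplement_singleton_eq_neg, inner_neg_left,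
      inner_e] at h4
    linarith
  have h2 : w y = w y 0 • e 0 + w y (Fin.last m) • e (Fin.last m) := by
    ext i
    by_cases hi0 : i = 0
    · subst hi0
      simp [hlast]
    · by_cases hil : i = Fin.last m
      · subst hil
        simp [hlast.symm]
      · rw [h1 i hi0 hil]
        simp [hi0, hil]
  -- a rotation which maps `y` to `x`
  have hnorm : ‖y‖ = ‖x‖ := by
    have h3 := sym_norm_sq_eq y
    have h4 := sym_norm_sq_eq x
    rw [hyr, hyz] at h3
    rw [← hr, ← hz] at h4
    exact (pow_left_inj₀ (norm_nonneg _) (norm_nonneg _) two_ne_zero).mp (h3.trans h4.symm)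
  set L := ((ℝ ∙ (y - x))ᗮ).reflection with hL
  have hLy : L y = x := Submodule.reflection_sub hnorm
  have hfix : FixAx L := by
    refine fixAx_reflection ?_
    rw [ax_eq_inner, inner_sub_right, ← ax_eq_inner, ← ax_eq_inner, hyz, sub_self]
  have hLe : L (e 0) = r⁻¹ • (x - z • e (Fin.last m)) := by
    have h3 : r • L (e 0) + z • e (Fin.last m) = x := by
      rw [← hLy]
      conv_rhs => rw [hyeq, map_add, map_smul, map_smul, hfix]
    rw [← h3, add_sub_cancel_right, smul_smul, inv_mul_cancel₀ hx, one_smul]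
  have h3 : w x = (w y 0 * r⁻¹) • (x - z • e (Fin.last m)) + w y (Fin.last m) • e (Fin.last m) := by
    have h4 := h L hfix y
    rw [hLy] at h4
    rw [h4]
    conv_lhs => rw [h2, map_add, map_smul, map_smul, hfix, hLe, smul_smul]
  constructor
  · intro i
    have h4 : (i.castSucc : Fin (m + 1)) ≠ Fin.last m := (Fin.castSucc_lt_last i).ne
    rw [h3]
    simp [h4]
    ring
  · have h4 : x (Fin.last m) - z = 0 := sub_self _
    rw [h3]
    simp [h4, ← hy]

end SymAux

theorem axisym_preserved (hm : 2 ≤ m) (h : EulerSolution m T u p) (h0 : AxisymNoSwirl (u 0)) :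
    ∀ t ∈ Ico 0 T, AxisymNoSwirl (u t) := by
  intro t ht
  have hT : (0 : ℝ) ∈ Ico 0 T := ⟨le_rfl, ht.1.trans_lt ht.2⟩
  refine axisym_of_equivariant (by omega) fun L hL x => ?_
  have h1 : u 0 = fun x => L.symm (u 0 (L x)) := by
    funext x
    exact (hL.axisym (by omega) (continuous_space h hT) h0 x).symm
  have h2 := unique h (h.rotate L) h1 ht
  have h3 : u t x = L.symm (u t (L x)) := congrFun h2 x
  rw [h3, LinearIsometryEquiv.apply_symm_apply]

end Pool.Agent.Lib.MP_c167ed_an
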