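import Pool.Agent.Lib.MP_c167ed_an.Defs
import Pool.Agent.Lib.MP_c167ed_an.Planar
import Pool.Agent.Lib.MP_c167ed_an.Transport
import Pool.Agent.Lib.MP_c167ed_an.Sobolev

/-! Backward trajectories in the meridian plane. -/

open MeasureTheory Set Filter Topology
open scoped ContDiff ENNReal NNReal

namespace Pool.Agent.Lib.MP_c167ed_an

variable {m : ℕ} {T : ℝ} {u : ℝ → V m → V m} {p : ℝ → V m → ℝ}

/-- coordinates are bounded by the norm -/
theorem traj_coord_le (y : V m) (j : Fin (m + 1)) : |y j| ≤ ‖y‖ := by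
  have := PiLp.norm_apply_le (p := 2) y j
  simpa [Real.norm_eq_abs] using this

theorem traj_emb_sub (r z r' z' : ℝ) :
    ‖(emb r z : V m) - emb r' z'‖ ≤ |r - r'| + |z - z'| := by
  have h : (emb r z : V m) - emb r' z'
      = EuclideanSpace.single 0 (r - r') + EuclideanSpace.single (Fin.last m) (z - z') := by
    unfold emb
    ext i
    simp only [PiLp.sub_apply, PiLp.add_apply, PiLp.single_apply]
    split_ifs <;> ring
  rw [h]
  refine (norm_add_le _ _).trans ?_
  simp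

theorem traj_emb_continuous : Continuous (fun q : ℝ × ℝ => (emb q.1 q.2 : V m)) := by
  have : LipschitzWith 2 (fun q : ℝ × ℝ => (emb q.1 q.2 : V m)) := by
    refine LipschitzWith.of_dist_le_mul fun q q' => ?_
    rw [dist_eq_norm, dist_eq_norm]
    refine (traj_emb_sub _ _ _ _).trans ?_
    have h1 : |q.1 - q'.1| ≤ ‖q - q'‖ := by
      have := norm_fst_le (q - q'); simpa [Real.norm_eq_abs] using this
    have h2 : |q.2 - q'.2| ≤ ‖q - q'‖ := by
      have := norm_snd_le (q - q'); simpa [Real.norm_eq_abs] using this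
    have : ((2 : ℝ≥0) : ℝ) = 2 := rfl
    rw [this]
    linarith
  exact this.continuous

/-- the planar field -/
noncomputable def trajField (u : ℝ → V m → V m) (s : ℝ) (q : ℝ × ℝ) : ℝ × ℝ :=
  (u s (emb q.1 q.2) 0, u s (emb q.1 q.2) (Fin.last m))

/-- the solution field is Lipschitz in space -/
theorem traj_lip (h : EulerSolution m T u p) {s C : ℝ} (hs : s ∈ Ico 0 T)
    (hC : ∀ x, ‖fderiv ℝ (u s) x‖ ≤ C) (x y : V m) : ‖u s x - u s y‖ ≤ C * ‖x - y‖ := by
  have hd : Differentiable ℝ (u s) := (h.contDiff hs).differentiable (by simp)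
  exact Convex.norm_image_sub_le_of_norm_fderiv_le (fun z _ => hd z) (fun z _ => hC z)
    convex_univ (mem_univ _) (mem_univ _)

theorem traj_field_continuousOn (h : EulerSolution m T u p) (q : ℝ × ℝ) {t : ℝ} (ht : t < T) :
    ContinuousOn (fun s => trajField u s q) (Icc 0 t) := by
  have h1 : ContinuousOn (fun s : ℝ => u s (emb q.1 q.2)) (Icc 0 t) := by
    have := h.smooth_u.continuousOn
    refine this.comp (f := fun s : ℝ => (s, (emb q.1 q.2 : V m))) ?_ ?_
    · fun_prop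
    · intro s hs
      exact ⟨⟨hs.1, hs.2.trans_lt ht⟩, mem_univ _⟩
  have h2 : ∀ j : Fin (m + 1), ContinuousOn (fun s : ℝ => u s (emb q.1 q.2) j) (Icc 0 t) := by
    intro j
    exact (EuclideanSpace.proj (𝕜 := ℝ) j).continuous.comp_continuousOn h1
  exact (h2 0).prodMk (h2 (Fin.last m))

/-- Backward trajectory through `(t,r,z)`, `r > 0`, on `[0,t]` (Picard-Lindelöf with the bounded
Lipschitz field `(a,b)`); `ρ > 0` since `|a| ≤ L r`; `ω/r^{m-1}` is constant along it. -/
theorem exists_traj (hm : 2 ≤ m) (h : EulerSolution m T u p)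
    (hax : ∀ t ∈ Ico 0 T, AxisymNoSwirl (u t)) {t : ℝ} (ht : t ∈ Ioo 0 T) {r z : ℝ} (hr : 0 < r) :
    ∃ ρ ζ : ℝ → ℝ, ContinuousOn ρ (Icc 0 t) ∧ ContinuousOn ζ (Icc 0 t) ∧
      (∀ s ∈ Icc 0 t, 0 < ρ s) ∧
      (∀ s ∈ Ioo 0 t, HasDerivAt ρ (u s (emb (ρ s) (ζ s)) 0) s) ∧ ρ t = r ∧ ζ t = z ∧
      om (u t) r z / r ^ (m - 1) = om (u 0) (ρ 0) (ζ 0) / (ρ 0) ^ (m - 1) := by
  obtain ⟨C, hC0, hC⟩ := h.bounds01 ht.2
  have hmem : ∀ s ∈ Icc 0 t, s ∈ Ico 0 T := fun s hs => ⟨hs.1, hs.2.trans_lt ht.2⟩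
  -- the estimates for the field
  have hbd : ∀ s ∈ Icc 0 t, ∀ q, ‖trajField u s q‖ ≤ C := by
    intro s hs q
    have h1 := (hC s hs (emb q.1 q.2)).1
    rw [trajField, Prod.norm_def]
    exact max_le ((traj_coord_le _ _).trans h1) ((traj_coord_le _ _).trans h1)
  have hlip : ∀ s ∈ Icc 0 t, LipschitzWith (Real.toNNReal (2 * C)) (trajField u s) := by
    intro s hs
    refine LipschitzWith.of_dist_le_mul fun q q' => ?_
    rw [dist_eq_norm, dist_eq_norm, Real.coe_toNNReal _ (by positivity)]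
    have h1 := traj_lip h (hmem s hs) (fun x => (hC s hs x).2) (emb q.1 q.2) (emb q'.1 q'.2)
    have h2 := traj_emb_sub (m := m) q.1 q.2 q'.1 q'.2
    have h3 : |q.1 - q'.1| ≤ ‖q - q'‖ := by
      have := norm_fst_le (q - q'); simpa [Real.norm_eq_abs] using this
    have h4 : |q.2 - q'.2| ≤ ‖q - q'‖ := by
      have := norm_snd_le (q - q'); simpa [Real.norm_eq_abs] using this
    have h5 : ‖u s (emb q.1 q.2) - u s (emb q'.1 q'.2)‖ ≤ 2 * C * ‖q - q'‖ := by
      calc _ ≤ C * ‖(emb q.1 q.2 : V m) - emb q'.1 q'.2‖ := h1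
        _ ≤ C * (‖q - q'‖ + ‖q - q'‖) := by
          apply mul_le_mul_of_nonneg_left _ hC0
          linarith
        _ = 2 * C * ‖q - q'‖ := by ring
    rw [Prod.norm_def]
    have e1 : (trajField u s q - trajField u s q').1
        = (u s (emb q.1 q.2) - u s (emb q'.1 q'.2)) 0 := by simp [trajField]
    have e2 : (trajField u s q - trajField u s q').2
        = (u s (emb q.1 q.2) - u s (emb q'.1 q'.2)) (Fin.last m) := by simp [trajField]
    rw [e1, e2]
    exact max_le ((traj_coord_le _ _).trans h5) ((traj_coord_le _ _).trans h5)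
  -- Picard-Lindelöf
  have htt : t ∈ Icc 0 t := ⟨ht.1.le, le_rfl⟩
  have hpl : IsPicardLindelof (trajField u) (tmin := 0) (tmax := t) ⟨t, htt⟩ (r, z)
      (Real.toNNReal (C * t)) 0 (Real.toNNReal C) (Real.toNNReal (2 * C)) := by
    refine ⟨fun s hs => (hlip s hs).lipschitzOnWith, fun q _ => traj_field_continuousOn h q ht.2,
      ?_, ?_⟩
    · intro s hs q _
      rw [Real.coe_toNNReal _ hC0]
      exact hbd s hs q
    · rw [Real.coe_toNNReal _ hC0, Real.coe_toNNReal _ (mul_nonneg hC0 ht.1.le)]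
      simp only [sub_self, sub_zero, NNReal.coe_zero]
      rw [max_eq_right ht.1.le]
  obtain ⟨α, hα0, hα⟩ := hpl.exists_eq_forall_mem_Icc_hasDerivWithinAt₀
  have hα0' : α t = (r, z) := hα0
  have hcont : ContinuousOn α (Icc 0 t) := fun s hs => (hα s hs).continuousWithinAt
  have hρc : ContinuousOn (fun s => (α s).1) (Icc 0 t) := continuous_fst.comp_continuousOn hcont
  have hζc : ContinuousOn (fun s => (α s).2) (Icc 0 t) := continuous_snd.comp_continuousOn hcont
  have hρd : ∀ s ∈ Icc 0 t, HasDerivWithinAt (fun s => (α s).1)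
      (u s (emb (α s).1 (α s).2) 0) (Icc 0 t) s := by
    intro s hs
    exact (hα s hs).fst
  have hζd : ∀ s ∈ Icc 0 t, HasDerivWithinAt (fun s => (α s).2)
      (u s (emb (α s).1 (α s).2) (Fin.last m)) (Icc 0 t) s := by
    intro s hs
    exact (hα s hs).snd
  -- the first component is controlled by the distance to the axis
  have hax0 : ∀ s ∈ Icc 0 t, ∀ y : ℝ, u s (emb 0 y) 0 = 0 := by
    intro s hs y
    have hrad : rad (emb 0 y : V m) = 0 := by
      rw [rad_emb (by omega)]; simp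
    have := axisym_axis (by omega : 1 ≤ m) (h.contDiff (hmem s hs)).continuous (hax s (hmem s hs))
      hrad (⟨0, by omega⟩ : Fin m)
    simpa using this
  have hctrl : ∀ s ∈ Icc 0 t, ∀ x y : ℝ, |u s (emb x y) 0| ≤ C * |x| := by
    intro s hs x y
    have h1 := traj_lip h (hmem s hs) (fun x => (hC s hs x).2) (emb x y) (emb 0 y)
    have h2 := traj_emb_sub (m := m) x y 0 y
    have h3 := traj_coord_le (u s (emb x y) - u s (emb 0 y)) 0
    have h4 : (u s (emb x y) - u s (emb 0 y)) 0 = u s (emb x y) 0 := by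
      rw [PiLp.sub_apply, hax0 s hs y, sub_zero]
    rw [h4] at h3
    refine h3.trans (h1.trans ?_)
    apply mul_le_mul_of_nonneg_left _ hC0
    simpa using h2
  -- positivity
  have hpos : ∀ s ∈ Icc 0 t, 0 < (α s).1 := by
    by_contra hcon
    push Not at hcon
    obtain ⟨s₀, hs₀, hs₀'⟩ := hcon
    have hsub : Icc s₀ t ⊆ Icc 0 t := Icc_subset_Icc hs₀.1 le_rfl
    have hrt : (α t).1 = r := by rw [hα0']
    obtain ⟨s₁, hs₁, hz⟩ : (0 : ℝ) ∈ (fun s => (α s).1) '' Icc s₀ t := by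
      apply intermediate_value_Icc hs₀.2 (hρc.mono hsub)
      exact ⟨hs₀', by simpa [hrt] using hr.le⟩
    have hsub1 : Icc s₁ t ⊆ Icc 0 t := Icc_subset_Icc (hs₀.1.trans hs₁.1) le_rfl
    have hder : ∀ x ∈ Ico s₁ t, HasDerivWithinAt (fun s => (α s).1)
        (u x (emb (α x).1 (α x).2) 0) (Ici x) x := by
      intro x hx
      have hx' : x ∈ Icc 0 t := hsub1 ⟨hx.1, hx.2.le⟩
      have := hρd x hx'
      refine (this.mono (t := Icc 0 t) (s := Icc x t) (Icc_subset_Icc hx'.1 le_rfl)).mono_of_mem_nhdsWithin ?_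
      exact Icc_mem_nhdsGE hx.2
    have := eq_zero_of_abs_deriv_le_mul_abs_self_of_eq_zero_right (K := C) (hρc.mono hsub1) hder
      (by simpa using hz) (by
        intro x hx
        have hx' : x ∈ Icc 0 t := hsub1 ⟨hx.1, hx.2.le⟩
        simpa [Real.norm_eq_abs] using hctrl x hx' (α x).1 (α x).2) t ⟨hs₁.2, le_rfl⟩
    simp only [hrt] at this
    exact hr.ne' this
  refine ⟨fun s => (α s).1, fun s => (α s).2, hρc, hζc, hpos, ?_, by simp [hα0'], by simp [hα0'], ?_⟩
  · intro s hs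
    exact (hρd s (Ioo_subset_Icc_self hs)).hasDerivAt (Icc_mem_nhds hs.1 hs.2)
  -- constancy
  set q : ℝ → ℝ := fun s => om (u s) (α s).1 (α s).2 / (α s).1 ^ (m - 1) with hq
  have hqc : ContinuousOn q (Icc 0 t) := by
    refine ContinuousOn.div ?_ (hρc.pow _) ?_
    · have h1 := om_continuousOn h
      refine h1.comp (f := fun s : ℝ => (s, (α s).1, (α s).2))
        (continuousOn_id.prodMk (hρc.prodMk hζc)) ?_
      intro s hs
      exact ⟨hmem s hs, mem_univ _⟩
    · intro s hs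
      exact (pow_pos (hpos s hs) _).ne'
  have hqd : ∀ s ∈ Ioo 0 t, HasDerivAt q 0 s := by
    intro s hs
    have hs' : s ∈ Icc 0 t := Ioo_subset_Icc_self hs
    have hsT : s ∈ Ioo 0 T := ⟨hs.1, hs.2.trans ht.2⟩
    have hρ' : HasDerivAt (fun s => (α s).1) (u s (emb (α s).1 (α s).2) 0) s :=
      (hρd s hs').hasDerivAt (Icc_mem_nhds hs.1 hs.2)
    have hζ' : HasDerivAt (fun s => (α s).2) (u s (emb (α s).1 (α s).2) (Fin.last m)) s :=
      (hζd s hs').hasDerivAt (Icc_mem_nhds hs.1 hs.2)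
    have hpt : HasDerivAt (fun s : ℝ => (s, (α s).1, (α s).2))
        (1, u s (emb (α s).1 (α s).2) 0, u s (emb (α s).1 (α s).2) (Fin.last m)) s :=
      (hasDerivAt_id s).prodMk (hρ'.prodMk hζ')
    have hnhds : Ioo 0 T ×ˢ (univ : Set (ℝ × ℝ)) ∈ 𝓝 (s, (α s).1, (α s).2) :=
      prod_mem_nhds (Ioo_mem_nhds hsT.1 hsT.2) univ_mem
    have hdiff : DifferentiableAt ℝ (fun q : ℝ × ℝ × ℝ => om (u q.1) q.2.1 q.2.2)
        (s, (α s).1, (α s).2) :=
      ((om_contDiffOn h).contDiffAt hnhds).differentiableAt (by simp)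
    have hom := hdiff.hasFDerivAt.comp_hasDerivAt s hpt
    rw [om_transport hm h hax hsT (hpos s hs')] at hom
    have hom' : HasDerivAt (fun s => om (u s) (α s).1 (α s).2)
        ((m - 1) * (u s (emb (α s).1 (α s).2) 0 / (α s).1) * om (u s) (α s).1 (α s).2) s := hom
    have hpow := hρ'.pow (m - 1)
    have hne : (α s).1 ^ (m - 1) ≠ 0 := (pow_pos (hpos s hs') _).ne'
    have hdq := hom'.div hpow hne
    have hne' : (α s).1 ≠ 0 := (hpos s hs').ne'
    have e1 : ((m - 1 : ℕ) : ℝ) = (m : ℝ) - 1 := by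
      rw [Nat.cast_sub (by omega)]; simp
    have e2 : (α s).1 ^ (m - 1) = (α s).1 ^ (m - 1 - 1) * (α s).1 := by
      rw [← pow_succ]; congr 1; omega
    have e3 : ((fun s => (α s).1) ^ (m - 1)) s = (α s).1 ^ (m - 1 - 1) * (α s).1 := by
      rw [Pi.pow_apply, e2]
    have e4 : ((m : ℝ) - 1) * (u s (emb (α s).1 (α s).2) 0 / (α s).1) * om (u s) (α s).1 (α s).2 *
        ((α s).1 ^ (m - 1 - 1) * (α s).1) - om (u s) (α s).1 (α s).2 *
        (((m : ℝ) - 1) * (α s).1 ^ (m - 1 - 1) * u s (emb (α s).1 (α s).2) 0) = 0 := by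
      field_simp
      ring
    rw [e3, e1, e4, zero_div] at hdq
    exact hdq
  obtain ⟨c, hc, hslope⟩ := exists_deriv_eq_slope q ht.1 hqc
    (fun s hs => (hqd s hs).differentiableAt.differentiableWithinAt)
  rw [(hqd c hc).deriv] at hslope
  have h0 : q t - q 0 = 0 := by
    have ht0 : t - 0 ≠ 0 := by simpa using ht.1.ne'
    have := hslope.symm
    rw [div_eq_zero_iff] at this
    rcases this with h | h
    · exact h
    · exact absurd h ht0
  have h1 : q t = q 0 := sub_eq_zero.mp h0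
  have h2 : q t = om (u t) r z / r ^ (m - 1) := by
    simp [hq, hα0']
  rw [← h2, h1]

end Pool.Agent.Lib.MP_c167ed_an
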