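
import Pool.Agent.Lib.MP_c167ed_an.Far
import Pool.Agent.Lib.MP_c167ed_an.Near
import Pool.Agent.Lib.MP_c167ed_an.QInit
import Pool.Agent.Lib.MP_c167ed_an.QBound
import Pool.Agent.Lib.MP_c167ed_an.Energy
import Pool.Agent.Lib.MP_c167ed_an.Sym
import Pool.Agent.Lib.MP_c167ed_an.Traj
import Pool.Agent.Lib.MP_c167ed_an.AbsFar
import Pool.Agent.Lib.MP_c167ed_an.QInitA

open MeasureTheory Set Filter Topology
open scoped ContDiff ENNReal NNReal

namespace Pool.Agent.Lib.MP_c167ed_an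

variable {m : ℕ} {T : ℝ} {u : ℝ → V m → V m} {p : ℝ → V m → ℝ}


/-- assembly -/
theorem absData (hm : 3 ≤ m) (hT : 0 < T) (h : EulerSolution m T u p)
    (hax : ∀ t ∈ Ico 0 T, AxisymNoSwirl (u t))
    (hQ : ∫⁻ x : V m, ENNReal.ofReal (F m (curl (u 0) x / rad x ^ (m - 1))) < ⊤) :
    ∃ K W A0 C1 : ℝ, AbsData m T (fun t r z => u t (emb r z) 0) (fun t r z => om (u t) r z)
      K W A0 C1 := by
  have hm1 : 1 ≤ m := by omega
  obtain ⟨Cn, hCn, hnear⟩ := near_axis hm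
  -- energy
  obtain ⟨CE, hCE⟩ := h.sobolev 0 0 hT
  have hE0 : ∫⁻ x, ‖u 0 x‖ₑ ^ 2 ≤ CE := by
    have := hCE 0 (by simp)
    refine le_trans (le_of_eq ?_) this
    congr 1
    ext x
    rw [← ofReal_norm, ← ofReal_norm, norm_iteratedFDeriv_zero]
  set E : ℝ := √(CE : ℝ) with hEdef
  have hE : 0 ≤ E := Real.sqrt_nonneg _
  have hE2 : (CE : ℝ≥0∞) = ENNReal.ofReal (E ^ 2) := by
    rw [hEdef, Real.sq_sqrt (NNReal.coe_nonneg _), ENNReal.ofReal_coe_nnreal]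
  have hEt : ∀ t ∈ Ico 0 T, ∫⁻ x, ‖u t x‖ₑ ^ 2 ≤ ENNReal.ofReal (E ^ 2) := fun t ht =>
    (energy_le h ht).trans (hE0.trans hE2.le)
  set Q : ℝ := (∫⁻ x : V m, ENNReal.ofReal (F m (curl (u 0) x / rad x ^ (m - 1)))).toReal with hQdef
  have hQ0 : 0 ≤ Q := ENNReal.toReal_nonneg
  have hQt : ∀ t ∈ Ico 0 T, ∫⁻ x : V m, ENNReal.ofReal (F m (curl (u t) x / rad x ^ (m - 1)))
      ≤ ENNReal.ofReal Q := fun t ht =>
    (Q_le (by omega) h hax ht).trans (le_of_eq (ENNReal.ofReal_toReal hQ.ne).symm)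
  -- local bounds
  have hloc2 : ∀ T' < T, ∃ C, 0 ≤ C ∧ ∀ t ∈ Icc 0 T', ∀ r, 0 < r → ∀ z,
      |om (u t) r z| ≤ C * r := by
    intro T' hT'
    obtain ⟨C, hC0, hC⟩ := h.bounds 2 hT'
    refine ⟨2 * C, by positivity, fun t ht r hr z => ?_⟩
    have ht' : t ∈ Ico 0 T := ⟨ht.1, ht.2.trans_lt hT'⟩
    exact abs_om_le hm1 (h.contDiff ht') (hax t ht') hr.le (fun r' _ => hC t ht _)
  have hloc1 : ∀ T' < T, ∃ C, 0 ≤ C ∧ ∀ t ∈ Icc 0 T', ∀ r, 0 < r → ∀ z,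
      |om (u t) r z| ≤ C := by
    intro T' hT'
    obtain ⟨C, hC0, hC⟩ := h.bounds 1 hT'
    refine ⟨2 * (m + 1) * C, by positivity, fun t ht r hr z => ?_⟩
    have ht' : t ∈ Ico 0 T := ⟨ht.1, ht.2.trans_lt hT'⟩
    have h1 := curl_eq_abs_om hm1 (h.contDiff ht') (hax t ht') (x := emb r z)
      (by rw [rad_emb hm1, abs_of_pos hr]; exact hr)
    rw [rad_emb hm1, ax_emb hm1, abs_of_pos hr] at h1
    rw [← h1]
    refine (curl_le _ _).trans ?_
    gcongr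
    exact hC t ht _
  obtain ⟨K, hK0, hK⟩ := hloc2 0 hT
  obtain ⟨W, hW0, hW⟩ := hloc1 0 hT
  refine ⟨K, W, Cn * (1 + E + Q), Cn, ⟨hT, hK0, hW0, by positivity, hCn.le, ?_, ?_, ?_, ?_, ?_⟩⟩
  · intro t ht r hr z
    obtain ⟨ρ, ζ, h1, _, h3, h4, h5, _, h7⟩ := exists_traj (by omega) h hax ht (z := z) hr
    exact ⟨ρ, ζ, h1, h3, h4, h5, h7⟩
  · intro t ht r hr z μ hμ hw
    have hr0 : 0 < r := hr.1
    have hrad : rad (emb r z : V m) = r := by rw [rad_emb hm1, abs_of_pos hr0]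
    have key := hnear (u t) (h.contDiff ht) (h.divfree t ht) (hax t ht) E Q hE hQ0 (hEt t ht)
      (hQt t ht) (emb r z) μ (by rw [hrad]; exact hr0) (by rw [hrad]; exact hr.2) hμ ?_
    · -- the radial component
      have hsum : (∑ i : Fin m, u t (emb r z) i.castSucc * (emb r z : V m) i.castSucc)
          = u t (emb r z) 0 * r := sum_emb hm1 _ r z
      rw [hsum, hrad] at key
      have : u t (emb r z) 0 * r ≤ (r * (Cn * (1 + E + Q) + Cn * (μ * r))) * r := by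
        calc _ ≤ _ := key
          _ = _ := by ring
      exact le_of_mul_le_mul_right this hr0
    · intro y hy
      rw [hrad] at hy
      rcases (rad_nonneg y).eq_or_lt with h0 | h0
      · rw [curl_axis hm1 (h.contDiff ht) (hax t ht) h0.symm, ← h0, mul_zero]
      · rw [curl_eq_abs_om hm1 (h.contDiff ht) (hax t ht) h0]
        exact hw _ ⟨h0, hy⟩ _
  · intro r hr z
    exact hK 0 (by simp) r hr z
  · intro r hr z
    exact hW 0 (by simp) r hr z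
  · intro T' hT'
    obtain ⟨C, hC0, hC⟩ := hloc2 T' hT'
    obtain ⟨C', hC0', hC'⟩ := hloc1 T' hT'
    refine ⟨max C C', fun t ht r hr z => ⟨(hC t ht r hr z).trans ?_, (hC' t ht r hr z).trans ?_⟩⟩
    · gcongr; exact le_max_left _ _
    · exact le_max_right _ _

/-- the far velocity estimate in the form needed by `abs_far`. -/
theorem far_est (hm : 3 ≤ m) (hT : 0 < T) (h : EulerSolution m T u p)
    (hax : ∀ t ∈ Ico 0 T, AxisymNoSwirl (u t)) :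
    ∃ C2 : ℝ, 0 ≤ C2 ∧ ∀ t ∈ Ico 0 T, ∀ r, 0 < r → ∀ z δ M : ℝ, 0 < δ → δ ≤ r / 2 → 0 ≤ M →
      (∀ r', 0 < r' → ∀ z', |om (u t) r' z'| ≤ M) →
      u t (emb r z) 0 ≤ C2 * (1 / (δ * √(r ^ (m - 1))) + δ * M) := by
  have hm1 : 1 ≤ m := by omega
  obtain ⟨Cf, hCf, hfar⟩ := far_axis hm1
  obtain ⟨CE, hCE⟩ := h.sobolev 0 0 hT
  have hE0 : ∫⁻ x, ‖u 0 x‖ₑ ^ 2 ≤ CE := by
    have := hCE 0 (by simp)
    refine le_trans (le_of_eq ?_) this
    congr 1
    ext x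
    rw [← ofReal_norm, ← ofReal_norm, norm_iteratedFDeriv_zero]
  set E : ℝ := √(CE : ℝ) with hEdef
  have hE : 0 ≤ E := Real.sqrt_nonneg _
  have hE2 : (CE : ℝ≥0∞) = ENNReal.ofReal (E ^ 2) := by
    rw [hEdef, Real.sq_sqrt (NNReal.coe_nonneg _), ENNReal.ofReal_coe_nnreal]
  have hEt : ∀ t ∈ Ico 0 T, ∫⁻ x, ‖u t x‖ₑ ^ 2 ≤ ENNReal.ofReal (E ^ 2) := fun t ht =>
    (energy_le h ht).trans (hE0.trans hE2.le)
  refine ⟨Cf * max E 1, by positivity, ?_⟩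
  intro t ht r hr z δ M hδ hδr hM hw
  have hrad : rad (emb r z : V m) = r := by rw [rad_emb hm1, abs_of_pos hr]
  have key := hfar (u t) (h.contDiff ht) (h.divfree t ht) (hax t ht) E hE (hEt t ht)
    (emb r z) δ M hδ (by rw [hrad]; exact hδr) hM ?_
  · rw [hrad] at key
    have h1 : u t (emb r z) 0 ≤ ‖u t (emb r z)‖ :=
      (le_abs_self _).trans (by simpa using PiLp.norm_apply_le (u t (emb r z)) 0)
    refine h1.trans (key.trans ?_)
    have hs : 0 < δ * √(r ^ (m - 1)) := by positivity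
    have h2 : E / (δ * √(r ^ (m - 1))) ≤ max E 1 * (1 / (δ * √(r ^ (m - 1)))) := by
      rw [mul_one_div]
      gcongr
      exact le_max_left _ _
    have h3 : δ * M ≤ max E 1 * (δ * M) :=
      le_mul_of_one_le_left (by positivity) (le_max_right _ _)
    calc Cf * (E / (δ * √(r ^ (m - 1))) + δ * M)
        ≤ Cf * (max E 1 * (1 / (δ * √(r ^ (m - 1)))) + max E 1 * (δ * M)) := by
          gcongr
      _ = _ := by ring
  · intro y hy
    rcases (rad_nonneg y).eq_or_lt with h0 | h0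
    · rw [curl_axis hm1 (h.contDiff ht) (hax t ht) h0.symm]
      exact hM
    · rw [curl_eq_abs_om hm1 (h.contDiff ht) (hax t ht) h0]
      exact hw _ h0 _

/-- curl bounded from the scalar vorticity bounded -/
theorem curl_bdd_of_om (hm : 1 ≤ m) (h : EulerSolution m T u p)
    (hax : ∀ t ∈ Ico 0 T, AxisymNoSwirl (u t)) {C : ℝ}
    (hC : ∀ t ∈ Ico 0 T, ∀ r, 0 < r → ∀ z, |om (u t) r z| ≤ C) :
    ∀ t ∈ Ico 0 T, ∀ x, curl (u t) x ≤ C := by
  intro t ht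
  exact curl_le_of_off_axis hm (h.contDiff ht) (fun x hx => by
    rw [curl_eq_abs_om hm (h.contDiff ht) (hax t ht) hx]; exact hC t ht _ hx _)

/-- bounded vorticity on a finite time interval has a finite time integral of the sup norm -/
theorem lintegral_curl_lt_top {C : ℝ} (hC : ∀ t ∈ Ico 0 T, ∀ x, curl (u t) x ≤ C) :
    ∫⁻ t in Ioo 0 T, ⨆ x, ENNReal.ofReal (curl (u t) x) < ⊤ := by
  have h1 : ∀ t ∈ Ioo 0 T, (⨆ x, ENNReal.ofReal (curl (u t) x)) ≤ ENNReal.ofReal C :=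
    fun t ht => iSup_le fun x => ENNReal.ofReal_le_ofReal (hC t ⟨ht.1.le, ht.2⟩ x)
  calc ∫⁻ t in Ioo 0 T, ⨆ x, ENNReal.ofReal (curl (u t) x)
      ≤ ∫⁻ _t in Ioo 0 T, ENNReal.ofReal C := setLIntegral_mono' measurableSet_Ioo h1
    _ = ENNReal.ofReal C * volume (Ioo 0 T) := setLIntegral_const _ _
    _ < ⊤ := by
      rw [Real.volume_Ioo]
      exact ENNReal.mul_lt_top ENNReal.ofReal_lt_top ENNReal.ofReal_lt_top

/-- `d = 4, 5`: all `H^∞` axisymmetric data without swirl. -/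
theorem main_sobolev (hm : m = 3 ∨ m = 4) (hT : 0 < T) (h : EulerSolution m T u p)
    (h0 : AxisymNoSwirl (u 0)) : ∃ C, ∀ t ∈ Ico 0 T, ∀ x, curl (u t) x ≤ C := by
  have hm3 : 3 ≤ m := by omega
  have hax := axisym_preserved (by omega) h h0
  have hQ := Q_init_sobolev hm (h.contDiff ⟨le_rfl, hT⟩) h0 (fun k => by
    obtain ⟨C, hC⟩ := h.sobolev k 0 hT
    exact (hC 0 (by simp)).trans_lt ENNReal.coe_lt_top)
  obtain ⟨K, W, A0, C1, D⟩ := absData hm3 hT h hax hQ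
  obtain ⟨C2, hC2, far⟩ := far_est hm3 hT h hax
  obtain ⟨C, hC⟩ := abs_far hm3 (by omega) D hC2 far
  exact ⟨C, curl_bdd_of_om (by omega) h hax hC⟩

/-- `d = 4, 5, 6`: compactly supported initial vorticity. -/
theorem main_compact (hm3 : 3 ≤ m) (hm5 : m ≤ 5) (hT : 0 < T) (h : EulerSolution m T u p)
    (h0 : AxisymNoSwirl (u 0)) {R : ℝ} (hR : ∀ x, R < ‖x‖ → curl (u 0) x = 0) :
    ∃ C, ∀ t ∈ Ico 0 T, ∀ x, curl (u t) x ≤ C := by
  have hax := axisym_preserved (by omega) h h0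
  have hQ := Q_init_compact hm3 (h.contDiff ⟨le_rfl, hT⟩) h0 hR
  obtain ⟨K, W, A0, C1, D⟩ := absData hm3 hT h hax hQ
  obtain ⟨C2, hC2, far⟩ := far_est hm3 hT h hax
  obtain ⟨C, hC⟩ := abs_far hm3 (by omega) D hC2 far
  exact ⟨C, curl_bdd_of_om (by omega) h hax hC⟩

/-- every `d ≥ 4`: no singularity at a finite distance from the axis. -/
theorem main_cyl (hm3 : 3 ≤ m) (hT : 0 < T) (h : EulerSolution m T u p)
    (h0 : AxisymNoSwirl (u 0)) {R : ℝ} (hR : ∀ x, R < ‖x‖ → curl (u 0) x = 0) (R' : ℝ) :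
    ∃ C, ∀ t ∈ Ico 0 T, ∀ x, rad x ≤ R' → curl (u t) x ≤ C := by
  have hax := axisym_preserved (by omega) h h0
  have hQ := Q_init_compact hm3 (h.contDiff ⟨le_rfl, hT⟩) h0 hR
  obtain ⟨K, W, A0, C1, D⟩ := absData hm3 hT h hax hQ
  obtain ⟨C, hC⟩ := abs_cyl hm3 D R'
  refine ⟨max C 0, fun t ht x hx => ?_⟩
  rcases (rad_nonneg x).eq_or_lt with h1 | h1
  · rw [curl_axis (by omega) (h.contDiff ht) (hax t ht) h1.symm]
    exact le_max_right _ _
  · rw [curl_eq_abs_om (by omega) (h.contDiff ht) (hax t ht) h1]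
    exact (hC t ht _ ⟨h1, hx⟩ _).trans (le_max_left _ _)

end Pool.Agent.Lib.MP_c167ed_an
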