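import Pool.Agent.Lib.MP_c167ed_an.Avg
import Pool.Agent.Lib.MP_c167ed_an.Planar

/-! Radial velocity near the axis: linear estimate. -/

open MeasureTheory Set Filter Topology
open scoped ContDiff ENNReal NNReal

namespace Pool.Agent.Lib.MP_c167ed_an

theorem nearA_Om_smul {m : ℕ} (v : V m → V m) (x : V m) (c : ℝ) (y : V m) :
    Om v x (c • y) = c • Om v x y := by
  ext j
  simp only [Om, PiLp.smul_apply, smul_eq_mul, Finset.mul_sum]
  refine Finset.sum_congr rfl fun i _ => ?_
  ring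

theorem nearA_Om_sub {m : ℕ} (v : V m → V m) (x : V m) (y z : V m) :
    Om v x (y - z) = Om v x y - Om v x z := by
  ext j
  simp only [Om, PiLp.sub_apply, ← Finset.sum_sub_distrib]
  refine Finset.sum_congr rfl fun i _ => ?_
  ring

theorem nearA_continuous_pd {m : ℕ} {v : V m → V m} (hv : ContDiff ℝ ∞ v) (i j : Fin (m + 1)) :
    Continuous (fun x => pd v i j x) := by
  have h1 : Continuous (fderiv ℝ v) := hv.continuous_fderiv (by simp)
  have h2 : Continuous (fun x => fderiv ℝ v x (EuclideanSpace.single i 1)) :=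
    h1.clm_apply continuous_const
  exact (continuous_apply j).comp ((PiLp.continuous_ofLp 2 _).comp h2)

theorem nearA_continuous_Om {m : ℕ} {v : V m → V m} (hv : ContDiff ℝ ∞ v) {X : Type*}
    [TopologicalSpace X] {f g : X → V m} (hf : Continuous f) (hg : Continuous g) :
    Continuous (fun x => Om v (f x) (g x)) := by
  unfold Om
  refine (PiLp.continuous_toLp 2 _).comp (continuous_pi fun j => continuous_finsetSum _
    fun i _ => ?_)
  refine Continuous.mul (((nearA_continuous_pd hv i j).comp hf).sub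
    ((nearA_continuous_pd hv j i).comp hf)) ?_
  exact (continuous_apply i).comp ((PiLp.continuous_ofLp 2 _).comp hg)

/-- the kernel `κ(y) = bump(y) y` -/
noncomputable def nearA_kap {m : ℕ} (y : V m) : V m := bump y • y

theorem nearA_kap_continuous {m : ℕ} : Continuous (nearA_kap : V m → V m) :=
  (bump_contDiff.continuous).smul continuous_id

theorem nearA_kap_zero {m : ℕ} {y : V m} (hy : 1 ≤ ‖y‖) : nearA_kap y = 0 := by
  simp [nearA_kap, bump_eq_zero hy]

theorem nearA_integrable {m : ℕ} {v : V m → V m} (hv : ContDiff ℝ ∞ v) {κ : V m → V m}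
    (hκ : Continuous κ) {a : V m} {R : ℝ} (hR : ∀ z, R < ‖z - a‖ → κ z = 0) :
    Integrable (fun z => Om v z (κ z)) := by
  refine (nearA_continuous_Om hv continuous_id hκ).integrable_of_hasCompactSupport ?_
  refine HasCompactSupport.intro (isCompact_closedBall a R) fun z hz => ?_
  have : R < ‖z - a‖ := by
    rw [Metric.mem_closedBall, dist_eq_norm] at hz
    exact not_le.mp hz
  simp only [id]
  rw [hR z this]
  ext j
  simp [Om]

/-- the change of variables `z = x + s y` -/
theorem nearA_subst {m : ℕ} (v : V m → V m) (x : V m) {s : ℝ} (hs : 0 < s) :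
    ∫ y : V m, bump y • Om v (x + s • y) y =
      (s ^ (m + 1))⁻¹ • ∫ z : V m, Om v z (nearA_kap (s⁻¹ • (z - x))) := by
  have h1 : ∀ y : V m, bump y • Om v (x + s • y) y =
      (fun w : V m => Om v (x + w) (nearA_kap (s⁻¹ • w))) (s • y) := by
    intro y
    simp only [smul_smul, inv_mul_cancel₀ hs.ne', one_smul]
    rw [nearA_kap, nearA_Om_smul]
  rw [integral_congr_ae (Eventually.of_forall h1), Measure.integral_comp_smul volume
    (fun w : V m => Om v (x + w) (nearA_kap (s⁻¹ • w))) s]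
  have h2 : ∫ w : V m, Om v (x + w) (nearA_kap (s⁻¹ • w)) =
      ∫ z : V m, Om v z (nearA_kap (s⁻¹ • (z - x))) := by
    rw [← integral_add_left_eq_self (fun z : V m => Om v z (nearA_kap (s⁻¹ • (z - x)))) x]
    simp
  rw [h2]
  congr 1
  rw [finrank_euclideanSpace, Fintype.card_fin, abs_of_nonneg (by positivity)]

/-- Cauchy-Schwarz -/
theorem nearA_L1 {m : ℕ} {v : V m → V m} (hc : Continuous v) {E : ℝ} (hE : 0 ≤ E)
    (h : ∫⁻ x, ‖v x‖ₑ ^ 2 ≤ ENNReal.ofReal (E ^ 2)) {S : Set (V m)}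
    (hSf : volume S ≠ ⊤) (hK : IsCompact S) :
    ∫ z in S, ‖v z‖ ≤ E * (1 + volume.real S) := by
  have h0 : ∀ x : V m, ‖v x‖ₑ ^ 2 = ‖‖v x‖ ^ 2‖ₑ := by
    intro x
    rw [← enorm_norm (v x), enorm_pow]
  have hint : Integrable (fun z => ‖v z‖ ^ 2) := by
    refine ⟨(hc.norm.pow 2).aestronglyMeasurable, ?_⟩
    unfold HasFiniteIntegral
    simp_rw [← h0]
    exact lt_of_le_of_lt h ENNReal.ofReal_lt_top
  have hsq : ∫ z, ‖v z‖ ^ 2 ≤ E ^ 2 := by
    have h1 : ENNReal.ofReal (∫ z, ‖v z‖ ^ 2) ≤ ENNReal.ofReal (E ^ 2) := by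
      rw [ofReal_integral_eq_lintegral_ofReal hint (Eventually.of_forall fun z => by positivity)]
      refine le_trans (le_of_eq ?_) h
      refine lintegral_congr fun z => ?_
      rw [h0, Real.enorm_of_nonneg (by positivity)]
    exact (ENNReal.ofReal_le_ofReal_iff (by positivity)).mp h1
  have hvol : 0 ≤ volume.real S := measureReal_nonneg
  refine le_of_forall_pos_le_add fun ε hε => ?_
  set δ : ℝ := ε / (1 + volume.real S) with hδ
  have hδ0 : 0 < δ := by positivity
  set t : ℝ := (E + δ)⁻¹ with ht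
  have hEδ : 0 < E + δ := by positivity
  have ht0 : 0 < t := by positivity
  have hintS : IntegrableOn (fun z => ‖v z‖) S := hc.norm.continuousOn.integrableOn_compact hK
  have h2 : ∫ z in S, ‖v z‖ ≤ ∫ z in S, (t * ‖v z‖ ^ 2 + t⁻¹) := by
    refine setIntegral_mono hintS ((hint.integrableOn.const_mul t).add
      (integrableOn_const hSf)) fun z => ?_
    have h3 : 0 ≤ (t * ‖v z‖ - 1) ^ 2 := sq_nonneg _
    have h4 : 0 ≤ t * ‖v z‖ := by positivity
    have h5 : t * ‖v z‖ ≤ t * (t * ‖v z‖ ^ 2 + t⁻¹) := by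
      have : t * (t * ‖v z‖ ^ 2 + t⁻¹) = (t * ‖v z‖) ^ 2 + 1 := by
        rw [mul_add, mul_inv_cancel₀ ht0.ne']; ring
      rw [this]
      nlinarith
    exact le_of_mul_le_mul_left h5 ht0
  have h6 : ∫ z in S, (t * ‖v z‖ ^ 2 + t⁻¹) = t * (∫ z in S, ‖v z‖ ^ 2) +
      t⁻¹ * volume.real S := by
    rw [integral_add (hint.integrableOn.const_mul t) (integrableOn_const hSf),
      integral_const_mul, setIntegral_const, smul_eq_mul]
    ring
  have h7 : ∫ z in S, ‖v z‖ ^ 2 ≤ E ^ 2 :=
    (setIntegral_le_integral hint (Eventually.of_forall fun z => by positivity)).trans hsq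
  have h8 : t * E ^ 2 ≤ E := by
    rw [ht, inv_mul_le_iff₀ hEδ]
    nlinarith
  have h9 : t⁻¹ = E + δ := inv_inv _
  calc ∫ z in S, ‖v z‖ ≤ t * (∫ z in S, ‖v z‖ ^ 2) + t⁻¹ * volume.real S := h2.trans h6.le
    _ ≤ E + (E + δ) * volume.real S := by
      rw [h9]
      have := mul_le_mul_of_nonneg_left h7 ht0.le
      linarith
    _ ≤ E * (1 + volume.real S) + ε := by
      have : δ * volume.real S ≤ ε := by
        rw [hδ, div_mul_eq_mul_div, div_le_iff₀ (by positivity)]
        nlinarith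
      nlinarith

theorem nearA_kap_sub {m : ℕ} (x y : V m) : ‖nearA_kap x - nearA_kap y‖ ≤ 5 * ‖x - y‖ :=
  bump_smul_lip x y

/-- difference of the averages at scale 1 -/
theorem nearA_first {m : ℕ} {v : V m → V m} (hc : Continuous v) {x a : V m} (hxa : ‖x - a‖ ≤ 1) :
    ‖(∫ y : V m, bump y • v (x + y)) - ∫ y : V m, bump y • v (a + y)‖ ≤
      4 * ‖x - a‖ * ∫ z in Metric.closedBall a 2, ‖v z‖ := by
  have h1 : ∀ b : V m, ∫ y : V m, bump y • v (b + y) = ∫ z : V m, bump (z - b) • v z := by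
    intro b
    rw [← integral_add_left_eq_self (fun z : V m => bump (z - b) • v z) b]
    simp
  have hbz : ∀ b : V m, ‖b - a‖ ≤ 1 → ∀ z : V m, 2 < ‖z - a‖ → bump (z - b) = 0 := by
    intro b hb z hz
    refine bump_eq_zero ?_
    have : ‖z - a‖ ≤ ‖z - b‖ + ‖b - a‖ := norm_sub_le_norm_sub_add_norm_sub z b a
    linarith
  have hint : ∀ b : V m, ‖b - a‖ ≤ 1 → Integrable (fun z : V m => bump (z - b) • v z) := by
    intro b hb
    refine Continuous.integrable_of_hasCompactSupport ?_ ?_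
    · exact (bump_contDiff.continuous.comp (continuous_id.sub continuous_const)).smul hc
    · refine HasCompactSupport.intro (isCompact_closedBall a 2) fun z hz => ?_
      have : 2 < ‖z - a‖ := by
        rw [Metric.mem_closedBall, dist_eq_norm] at hz
        exact not_le.mp hz
      rw [hbz b hb z this, zero_smul]
  have haa : ‖a - a‖ ≤ 1 := by simp
  rw [h1 x, h1 a, ← integral_sub (hint x hxa) (hint a haa)]
  have h2 : ∫ z : V m, (bump (z - x) • v z - bump (z - a) • v z) =
      ∫ z in Metric.closedBall a 2, (bump (z - x) • v z - bump (z - a) • v z) := by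
    rw [setIntegral_eq_integral_of_forall_compl_eq_zero]
    intro z hz
    have : 2 < ‖z - a‖ := by
      rw [Metric.mem_closedBall, dist_eq_norm] at hz
      exact not_le.mp hz
    rw [hbz x hxa z this, hbz a haa z this]
    simp
  rw [h2, ← integral_const_mul]
  refine norm_integral_le_of_norm_le ?_ (Eventually.of_forall fun z => ?_)
  · exact ((continuous_const.mul hc.norm).continuousOn.integrableOn_compact
      (isCompact_closedBall a 2))
  · rw [← sub_smul, norm_smul, Real.norm_eq_abs]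
    have h3 := bump_lip (z - x) (z - a)
    have h4 : ‖(z - x) - (z - a)‖ = ‖x - a‖ := by
      rw [← norm_neg]; congr 1; abel
    rw [h4] at h3
    exact mul_le_mul_of_nonneg_right h3 (norm_nonneg _)

/-- difference of the kernels at the scale `s ≥ ‖x - a‖` -/
theorem nearA_second {m : ℕ} {v : V m → V m} (hv : ContDiff ℝ ∞ v) {x a : V m} {s : ℝ}
    (hs : 0 < s) (hxa : ‖x - a‖ ≤ s) :
    ‖(∫ y : V m, bump y • Om v (x + s • y) y) - ∫ y : V m, bump y • Om v (a + s • y) y‖ ≤
      10 * ‖x - a‖ * ((s ^ (m + 2))⁻¹ * ∫ z in Metric.closedBall a (2 * s), curl v z) := by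
  rw [nearA_subst v x hs, nearA_subst v a hs, ← smul_sub]
  have hbz : ∀ b : V m, ‖b - a‖ ≤ s → ∀ z : V m, 2 * s < ‖z - a‖ →
      nearA_kap (s⁻¹ • (z - b)) = 0 := by
    intro b hb z hz
    refine nearA_kap_zero ?_
    have : ‖z - a‖ ≤ ‖z - b‖ + ‖b - a‖ := norm_sub_le_norm_sub_add_norm_sub z b a
    rw [norm_smul, norm_inv, Real.norm_of_nonneg hs.le, ← div_eq_inv_mul, le_div_iff₀ hs]
    linarith
  have hcont : ∀ b : V m, Continuous (fun z : V m => nearA_kap (s⁻¹ • (z - b))) := fun b =>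
    nearA_kap_continuous.comp ((continuous_id.sub continuous_const).const_smul s⁻¹)
  have hint : ∀ b : V m, ‖b - a‖ ≤ s →
      Integrable (fun z : V m => Om v z (nearA_kap (s⁻¹ • (z - b)))) := fun b hb =>
    nearA_integrable hv (hcont b) (hbz b hb)
  have haa : ‖a - a‖ ≤ s := by simpa using hs.le
  rw [← integral_sub (hint x hxa) (hint a haa)]
  have h2 : ∫ z : V m, (Om v z (nearA_kap (s⁻¹ • (z - x))) - Om v z (nearA_kap (s⁻¹ • (z - a)))) =
      ∫ z in Metric.closedBall a (2 * s),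
        (Om v z (nearA_kap (s⁻¹ • (z - x))) - Om v z (nearA_kap (s⁻¹ • (z - a)))) := by
    rw [setIntegral_eq_integral_of_forall_compl_eq_zero]
    intro z hz
    have : 2 * s < ‖z - a‖ := by
      rw [Metric.mem_closedBall, dist_eq_norm] at hz
      exact not_le.mp hz
    rw [hbz x hxa z this, hbz a haa z this]
    simp
  rw [h2, norm_smul, Real.norm_of_nonneg (by positivity)]
  have h3 : ‖∫ z in Metric.closedBall a (2 * s),
      (Om v z (nearA_kap (s⁻¹ • (z - x))) - Om v z (nearA_kap (s⁻¹ • (z - a))))‖ ≤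
      ∫ z in Metric.closedBall a (2 * s), 10 * ‖x - a‖ * s⁻¹ * curl v z := by
    refine norm_integral_le_of_norm_le ?_ (Eventually.of_forall fun z => ?_)
    · exact ((continuous_const.mul (continuous_curl hv)).continuousOn.integrableOn_compact
        (isCompact_closedBall a (2 * s)))
    · rw [← nearA_Om_sub]
      refine (norm_Om_le v z _).trans ?_
      have h4 := nearA_kap_sub (s⁻¹ • (z - x)) (s⁻¹ • (z - a))
      have h5 : ‖s⁻¹ • (z - x) - s⁻¹ • (z - a)‖ = s⁻¹ * ‖x - a‖ := by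
        rw [← smul_sub, norm_smul, norm_inv, Real.norm_of_nonneg hs.le]
        congr 1
        rw [← norm_neg]; congr 1; abel
      rw [h5] at h4
      have h6 := curl_nonneg v z
      calc 2 * curl v z * ‖nearA_kap (s⁻¹ • (z - x)) - nearA_kap (s⁻¹ • (z - a))‖
          ≤ 2 * curl v z * (5 * (s⁻¹ * ‖x - a‖)) := by gcongr
        _ = 10 * ‖x - a‖ * s⁻¹ * curl v z := by ring
  rw [integral_const_mul] at h3
  calc (s ^ (m + 1))⁻¹ * _ ≤ (s ^ (m + 1))⁻¹ * (10 * ‖x - a‖ * s⁻¹ *
        ∫ z in Metric.closedBall a (2 * s), curl v z) := by gcongr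
    _ = 10 * ‖x - a‖ * ((s ^ (m + 2))⁻¹ * ∫ z in Metric.closedBall a (2 * s), curl v z) := by
      have : (s ^ (m + 2))⁻¹ = (s ^ (m + 1))⁻¹ * s⁻¹ := by
        rw [← mul_inv]; rfl
      rw [this]
      ring

/-- crude bound at small scales -/
theorem nearA_small {m : ℕ} {v : V m → V m} (hv : ContDiff ℝ ∞ v) {b : V m} {s M : ℝ}
    (hs : 0 ≤ s) (hM : ∀ y, ‖y - b‖ ≤ s → curl v y ≤ M) :
    ‖∫ y : V m, bump y • Om v (b + s • y) y‖ ≤ 2 * M * volume.real (Metric.closedBall (0 : V m) 1) := by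
  have h2 : ∫ y : V m, bump y • Om v (b + s • y) y =
      ∫ y in Metric.closedBall (0 : V m) 1, bump y • Om v (b + s • y) y := by
    rw [setIntegral_eq_integral_of_forall_compl_eq_zero]
    intro z hz
    have : 1 < ‖z‖ := by
      rw [Metric.mem_closedBall, dist_zero_right] at hz
      exact not_le.mp hz
    rw [bump_eq_zero this.le, zero_smul]
  rw [h2]
  refine norm_setIntegral_le_of_norm_le_const ?_ (fun y hy => ?_)
  · exact (isCompact_closedBall (0 : V m) 1).measure_lt_top
  · rw [Metric.mem_closedBall, dist_zero_right] at hy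
    rw [norm_smul, Real.norm_of_nonneg (bump_nonneg y)]
    have h3 := norm_Om_le v (b + s • y) y
    have h4 : curl v (b + s • y) ≤ M := by
      refine hM _ ?_
      rw [add_sub_cancel_left, norm_smul, Real.norm_of_nonneg hs]
      nlinarith [norm_nonneg y]
    have h5 := curl_nonneg v (b + s • y)
    have h6 := bump_le_one y
    have h7 := bump_nonneg y
    calc bump y * ‖Om v (b + s • y) y‖ ≤ 1 * (2 * curl v (b + s • y) * ‖y‖) := by gcongr
      _ ≤ 1 * (2 * M * 1) := by
          have : 0 ≤ M := h5.trans h4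
          gcongr
      _ = 2 * M := by ring

theorem nearA_diff {m : ℕ} (hm : 1 ≤ m) {v : V m → V m} (hv : ContDiff ℝ ∞ v)
    (hdiv : ∀ x, dvg v x = 0) {E : ℝ} (hE : 0 ≤ E)
    (hE2 : ∫⁻ x, ‖v x‖ₑ ^ 2 ≤ ENNReal.ofReal (E ^ 2)) (x : V m) (μ : ℝ) (hx : 0 < rad x)
    (hx1 : rad x ≤ 1) (hμ : 0 ≤ μ) (hcurl : ∀ y, rad y ≤ 2 * rad x → curl v y ≤ μ * rad y)
    (g : ℝ → ℝ) (hg : ContinuousOn g (Icc (rad x) 1))
    (hgi : ∀ s ∈ Icc (rad x) 1,
      ∫ y in Metric.closedBall (axpt x) (2 * s), curl v y ≤ s ^ (m + 2) * g s) :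
    c0 m * ‖v x - v (axpt x)‖ ≤
      rad x * (4 * (1 + volume.real (Metric.closedBall (axpt x) 2)) * E +
        8 * volume.real (Metric.closedBall (0 : V m) 1) * (μ * rad x) +
        10 * ∫ s in (rad x)..1, g s) := by
  set a := axpt x with ha
  set r := rad x with hr
  have hxa : ‖x - a‖ = r := norm_sub_axpt x
  have hra : rad a = 0 := rad_axpt x
  have hf1 := avg_formula hv hdiv x (δ := 1) one_pos
  have hf2 := avg_formula hv hdiv a (δ := 1) one_pos
  set J : V m → ℝ → V m := fun b s => ∫ y : V m, bump y • Om v (b + s • y) y with hJ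
  have hJc : ∀ b, Continuous (J b) := fun b => continuous_avg_Om hv b
  have hJi : ∀ b p q, IntervalIntegrable (J b) volume p q := fun b p q =>
    (hJc b).intervalIntegrable p q
  have hD : c0 m • (v x - v a) = ((∫ y : V m, bump y • v (x + y)) -
      ∫ y : V m, bump y • v (a + y)) - ∫ s in (0 : ℝ)..1, (J x s - J a s) := by
    rw [smul_sub, hf1, hf2, intervalIntegral.integral_sub (hJi x _ _) (hJi a _ _)]
    simp only [one_smul, hJ]
    abel
  have hsplit : ∫ s in (0 : ℝ)..1, (J x s - J a s) = (∫ s in (0 : ℝ)..r, (J x s - J a s)) +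
      ∫ s in r..1, (J x s - J a s) := by
    rw [intervalIntegral.integral_add_adjacent_intervals]
    · exact ((hJc x).sub (hJc a)).intervalIntegrable _ _
    · exact ((hJc x).sub (hJc a)).intervalIntegrable _ _
  set V1 := volume.real (Metric.closedBall (0 : V m) 1) with hV1
  have hV10 : 0 ≤ V1 := measureReal_nonneg
  have hb1 : ‖∫ s in (0 : ℝ)..r, (J x s - J a s)‖ ≤ 8 * V1 * (μ * r) * r := by
    have h1 : ∀ s ∈ Set.uIoc 0 r, ‖J x s - J a s‖ ≤ 8 * V1 * (μ * r) := by
      intro s hs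
      rw [Set.uIoc_of_le hx.le] at hs
      have hcl : ∀ y, rad y ≤ 2 * r → curl v y ≤ 2 * μ * r := by
        intro y hy
        refine (hcurl y hy).trans ?_
        have := mul_le_mul_of_nonneg_left hy hμ
        linarith
      have h2 : ‖J x s‖ ≤ 2 * (2 * μ * r) * V1 := by
        refine nearA_small hv hs.1.le fun y hy => hcl y ?_
        have := rad_sub_le y x
        have h3 := le_abs_self (rad y - rad x)
        have h4 := hs.2
        rw [← hr] at this h3
        linarith
      have h3 : ‖J a s‖ ≤ 2 * (2 * μ * r) * V1 := by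
        refine nearA_small hv hs.1.le fun y hy => hcl y ?_
        have := rad_sub_le y a
        have h3 := le_abs_self (rad y - rad a)
        have h4 := hs.2
        rw [hra] at this h3
        linarith
      calc ‖J x s - J a s‖ ≤ ‖J x s‖ + ‖J a s‖ := norm_sub_le _ _
        _ ≤ 2 * (2 * μ * r) * V1 + 2 * (2 * μ * r) * V1 := add_le_add h2 h3
        _ = 8 * V1 * (μ * r) := by ring
    have h2 := intervalIntegral.norm_integral_le_of_norm_le_const h1
    rwa [sub_zero, abs_of_pos hx] at h2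
  have hb2 : ‖∫ s in r..1, (J x s - J a s)‖ ≤ 10 * r * ∫ s in r..1, g s := by
    rw [← intervalIntegral.integral_const_mul]
    refine intervalIntegral.norm_integral_le_of_norm_le hx1
      (Eventually.of_forall fun s hs => ?_) ?_
    · have hs0 : 0 < s := hx.trans hs.1
      have h1 := nearA_second hv (x := x) (a := a) hs0 (hxa.le.trans hs.1.le)
      refine h1.trans ?_
      rw [hxa]
      have h2 := hgi s ⟨hs.1.le, hs.2⟩
      have h3 : (s ^ (m + 2))⁻¹ * ∫ z in Metric.closedBall a (2 * s), curl v z ≤ g s := by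
        rw [inv_mul_le_iff₀ (by positivity)]
        exact h2
      exact mul_le_mul_of_nonneg_left h3 (by positivity)
    · refine ContinuousOn.intervalIntegrable ?_
      rw [Set.uIcc_of_le hx1]
      exact continuousOn_const.mul hg
  have hb0 : ‖(∫ y : V m, bump y • v (x + y)) - ∫ y : V m, bump y • v (a + y)‖ ≤
      4 * r * (E * (1 + volume.real (Metric.closedBall a 2))) := by
    have h1 := nearA_first hv.continuous (x := x) (a := a) (hxa.le.trans hx1)
    rw [hxa] at h1
    refine h1.trans ?_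
    have hK : IsCompact (Metric.closedBall a (2 : ℝ)) := isCompact_closedBall a 2
    exact mul_le_mul_of_nonneg_left (nearA_L1 hv.continuous hE hE2 hK.measure_lt_top.ne hK)
      (by positivity)
  have hc0 := c0_pos m
  calc c0 m * ‖v x - v a‖ = ‖c0 m • (v x - v a)‖ := by
        rw [norm_smul, Real.norm_of_nonneg hc0.le]
    _ ≤ 4 * r * (E * (1 + volume.real (Metric.closedBall a 2))) +
        (8 * V1 * (μ * r) * r + 10 * r * ∫ s in r..1, g s) := by
        rw [hD, hsplit]
        refine (norm_sub_le _ _).trans (add_le_add hb0 ((norm_add_le _ _).trans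
          (add_le_add hb1 hb2)))
    _ = _ := by ring

/-- Step 1 (linear estimate). Subtract the averaging formulas (`δ = 1`) at `x` and at `axpt x`
(`⟪v (axpt x), e_r⟫ = 0`, `axisym_axis`), `r = rad x = ‖x - axpt x‖`. First term:
`|∫ (bump(z - x) - bump(z - axpt x)) v(z) dz| ≤ C r E`. Second term, `s ≤ r`: each integrand at most
`C sup_{B(axpt x,2r)} |curl v| ≤ C μ 2r`; `r ≤ s ≤ 1`: substitute `z = x + s y`,
`κ(y) = bump(y) y` is Lipschitz, difference of the kernels at most
`C (r/s) s^{-(m+1)} 1_{‖z - axpt x‖ ≤ 2s}`. -/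
theorem near_axis_aux {m : ℕ} (hm : 1 ≤ m) : ∃ C : ℝ, 0 < C ∧ ∀ v : V m → V m, ContDiff ℝ ∞ v →
    (∀ x, dvg v x = 0) → AxisymNoSwirl v → ∀ E : ℝ, 0 ≤ E →
    (∫⁻ x, ‖v x‖ₑ ^ 2 ≤ ENNReal.ofReal (E ^ 2)) → ∀ (x : V m) (μ : ℝ), 0 < rad x → rad x ≤ 1 →
    0 ≤ μ → (∀ y, rad y ≤ 2 * rad x → curl v y ≤ μ * rad y) →
    ∀ g : ℝ → ℝ, ContinuousOn g (Icc (rad x) 1) →
    (∀ s ∈ Icc (rad x) 1,
      ∫ y in Metric.closedBall (axpt x) (2 * s), curl v y ≤ s ^ (m + 2) * g s) →
    (∑ i : Fin m, v x i.castSucc * x i.castSucc) ≤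
      rad x ^ 2 * (C * (E + μ * rad x + ∫ s in (rad x)..1, g s)) := by
  set V1 := volume.real (Metric.closedBall (0 : V m) 1) with hV1
  set V2 := volume.real (Metric.closedBall (0 : V m) 2) with hV2
  have hV10 : 0 ≤ V1 := measureReal_nonneg
  have hV20 : 0 ≤ V2 := measureReal_nonneg
  have hc0 := c0_pos m
  refine ⟨(c0 m)⁻¹ * (4 * (1 + V2) + 8 * V1 + 10), by positivity, ?_⟩
  intro v hv hdiv hax E hE hE2 x μ hx hx1 hμ hcurl g hg hgi
  have hmain := nearA_diff hm hv hdiv hE hE2 x μ hx hx1 hμ hcurl g hg hgi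
  have hV2' : volume.real (Metric.closedBall (axpt x) 2) = V2 := by
    rw [hV2, measureReal_def, measureReal_def, Measure.addHaar_closedBall_center]
  rw [hV2'] at hmain
  set a := axpt x with ha
  set r := rad x with hr
  have hg0 : 0 ≤ ∫ s in r..1, g s := by
    refine intervalIntegral.integral_nonneg hx1 fun s hs => ?_
    have hs0 : 0 < s := hx.trans_le hs.1
    have h1 := hgi s hs
    have h2 : 0 ≤ ∫ y in Metric.closedBall (axpt x) (2 * s), curl v y :=
      integral_nonneg fun y => curl_nonneg v y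
    have h3 : 0 ≤ s ^ (m + 2) * g s := h2.trans h1
    exact nonneg_of_mul_nonneg_right h3 (by positivity)
  -- the radial component
  have hrad2 : r ^ 2 = ∑ i : Fin m, (x i.castSucc) ^ 2 := by
    rw [hr, rad, Real.sq_sqrt (Finset.sum_nonneg fun i _ => sq_nonneg _)]
  have hva : ∀ i : Fin m, v a i.castSucc = 0 := fun i =>
    axisym_axis hm hv.continuous hax (rad_axpt x) i
  have hsum : (∑ i : Fin m, v x i.castSucc * x i.castSucc) =
      ∑ i : Fin m, (v x - v a) i.castSucc * x i.castSucc := by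
    refine Finset.sum_congr rfl fun i _ => ?_
    rw [PiLp.sub_apply, hva i, sub_zero]
  have hcs : (∑ i : Fin m, (v x - v a) i.castSucc * x i.castSucc) ≤ ‖v x - v a‖ * r := by
    have h1 : (∑ i : Fin m, ((v x - v a) i.castSucc) ^ 2) ≤ ‖v x - v a‖ ^ 2 := by
      rw [EuclideanSpace.norm_sq_eq, Fin.sum_univ_castSucc]
      simp only [Real.norm_eq_abs, sq_abs]
      have : 0 ≤ ((v x - v a) (Fin.last m)) ^ 2 := sq_nonneg _
      linarith
    have h2 := Finset.sum_mul_sq_le_sq_mul_sq Finset.univ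
      (fun i : Fin m => (v x - v a) i.castSucc) (fun i : Fin m => x i.castSucc)
    refine le_of_sq_le_sq ?_ (by positivity)
    calc _ ≤ _ := h2
      _ ≤ ‖v x - v a‖ ^ 2 * r ^ 2 := by
        rw [hrad2]
        refine mul_le_mul_of_nonneg_right h1 (Finset.sum_nonneg fun i _ => sq_nonneg _)
      _ = (‖v x - v a‖ * r) ^ 2 := by ring
  rw [hsum]
  refine hcs.trans ?_
  have hfin : ‖v x - v a‖ ≤ (c0 m)⁻¹ * (r * (4 * (1 + V2) * E + 8 * V1 * (μ * r) +
      10 * ∫ s in r..1, g s)) := by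
    rw [le_inv_mul_iff₀ hc0]
    exact hmain
  set G := ∫ s in r..1, g s with hG
  have hμr : 0 ≤ μ * r := by positivity
  have hle : 4 * (1 + V2) * E + 8 * V1 * (μ * r) + 10 * G ≤
      (4 * (1 + V2) + 8 * V1 + 10) * (E + μ * r + G) := by
    nlinarith [mul_nonneg hV10 hE, mul_nonneg hV20 hμr, mul_nonneg hV10 hg0, mul_nonneg hV20 hg0]
  calc ‖v x - v a‖ * r ≤ (c0 m)⁻¹ * (r * (4 * (1 + V2) * E + 8 * V1 * (μ * r) + 10 * G)) * r := by
        gcongr
    _ ≤ (c0 m)⁻¹ * (r * ((4 * (1 + V2) + 8 * V1 + 10) * (E + μ * r + G))) * r := by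
        gcongr
    _ = r ^ 2 * ((c0 m)⁻¹ * (4 * (1 + V2) + 8 * V1 + 10) * (E + μ * r + G)) := by ring

end Pool.Agent.Lib.MP_c167ed_an
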