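import Pool.Agent.Lib.MP_c167ed_an.QBound
import Pool.Agent.Lib.MP_c167ed_an.Energy
import Pool.Agent.Lib.MP_c167ed_an.Traj

/-! Impulse of one-signed vorticity. -/

open MeasureTheory Set Filter Topology
open scoped ContDiff ENNReal NNReal

namespace Pool.Agent.Lib.MP_c167ed_an

variable {m : ℕ} {T : ℝ} {u : ℝ → V m → V m} {p : ℝ → V m → ℝ}

/-- sign of the vorticity is preserved (`exists_traj`). -/
theorem om_nonneg (hm : 2 ≤ m) (h : EulerSolution m T u p)
    (hax : ∀ t ∈ Ico 0 T, AxisymNoSwirl (u t)) (hs : ∀ r, 0 < r → ∀ z, 0 ≤ om (u 0) r z)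
    {t : ℝ} (ht : t ∈ Ico 0 T) {r : ℝ} (hr : 0 < r) (z : ℝ) : 0 ≤ om (u t) r z := by
  rcases ht.1.eq_or_lt with h0 | h0
  · rw [← h0]; exact hs r hr z
  obtain ⟨ρ, ζ, -, -, hpos, -, -, -, hq⟩ := exists_traj hm h hax ⟨h0, ht.2⟩ hr (z := z)
  have hρ0 := hpos 0 ⟨le_rfl, h0.le⟩
  have h1 : 0 ≤ om (u t) r z / r ^ (m - 1) := by
    rw [hq]; exact div_nonneg (hs _ hρ0 _) (pow_pos hρ0 _).le
  have h2 := mul_nonneg h1 (pow_pos hr (m - 1)).le
  rwa [div_mul_cancel₀ _ (pow_pos hr _).ne'] at h2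

/-! ### `r ω` and `u^r ω` as smooth functions -/

/-- `r ω` -/
noncomputable def rom {m : ℕ} (v : V m → V m) (x : V m) : ℝ :=
  ∑ i : Fin m, x i.castSucc * (pd v (Fin.last m) i.castSucc x - pd v i.castSucc (Fin.last m) x)

/-- `u^r ω` -/
noncomputable def uom {m : ℕ} (v : V m → V m) (x : V m) : ℝ :=
  ∑ i : Fin (m + 1), v x i * (pd v (Fin.last m) i x - pd v i (Fin.last m) x)

/-- the flux `J`, `div J = u^r ω` -/
noncomputable def Jf {m : ℕ} (v : V m → V m) (x : V m) : V m :=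
  (‖v x‖ ^ 2 / 2) • (EuclideanSpace.single (Fin.last m) (1 : ℝ) : V m) - (v x (Fin.last m)) • v x

theorem pd_sub_eq (hm : 1 ≤ m) {v : V m → V m} (hC : ContDiff ℝ ∞ v)
    (hv : AxisymNoSwirl v) {x : V m} (hx : 0 < rad x) (i : Fin m) :
    pd v (Fin.last m) i.castSucc x - pd v i.castSucc (Fin.last m) x =
      (x i.castSucc / rad x) * om v (rad x) (ax x) := by
  have h1 := rad_mul_deriv hm hC hv hx i (Fin.last m)
  rw [dRad_last, bv_apply, bv_apply, if_neg (Fin.castSucc_ne_last i), if_pos rfl] at h1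
  rw [pd_last hm hC hv hx i]
  unfold om
  have h2 : pd v (Fin.last m) i.castSucc x =
      x i.castSucc / rad x * pd v (Fin.last m) 0 (emb (rad x) (ax x)) := by
    field_simp
    linear_combination h1
  rw [h2]; ring

theorem rom_eq (hm : 1 ≤ m) {v : V m → V m} (hC : ContDiff ℝ ∞ v)
    (hv : AxisymNoSwirl v) {x : V m} (hx : 0 < rad x) :
    rom v x = rad x * om v (rad x) (ax x) := by
  unfold rom
  have h1 : ∀ i : Fin m, x i.castSucc *
      (pd v (Fin.last m) i.castSucc x - pd v i.castSucc (Fin.last m) x) =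
      (x i.castSucc) ^ 2 * (om v (rad x) (ax x) / rad x) := by
    intro i
    rw [pd_sub_eq hm hC hv hx i]
    ring
  simp only [h1]
  rw [← Finset.sum_mul, ← rad_sq]
  field_simp

theorem uom_eq (hm : 1 ≤ m) {v : V m → V m} (hC : ContDiff ℝ ∞ v)
    (hv : AxisymNoSwirl v) {x : V m} (hx : 0 < rad x) :
    uom v x = v (emb (rad x) (ax x)) 0 * om v (rad x) (ax x) := by
  unfold uom
  rw [Fin.sum_univ_castSucc]
  have h1 : ∀ i : Fin m, v x i.castSucc *
      (pd v (Fin.last m) i.castSucc x - pd v i.castSucc (Fin.last m) x) =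
      (x i.castSucc) ^ 2 * (v (emb (rad x) (ax x)) 0 * om v (rad x) (ax x) / rad x ^ 2) := by
    intro i
    rw [pd_sub_eq hm hC hv hx i, (axisym_apply hm hv hx).1 i]
    field_simp
  simp only [h1]
  rw [← Finset.sum_mul, ← rad_sq, sub_self, mul_zero, add_zero]
  field_simp

theorem rom_contDiffOn (h : EulerSolution m T u p) :
    ContDiffOn ℝ ∞ (fun q : ℝ × V m => rom (u q.1) q.2) (Ico 0 T ×ˢ univ) := by
  unfold rom
  refine ContDiffOn.sum fun i _ => ContDiffOn.mul ?_ ?_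
  · exact ((EuclideanSpace.proj (𝕜 := ℝ) i.castSucc : V m →L[ℝ] ℝ).contDiff.comp
      contDiff_snd).contDiffOn
  · exact (transport_pd_contDiffOn h _ _).sub (transport_pd_contDiffOn h _ _)

theorem continuous_uom {v : V m → V m} (hC : ContDiff ℝ ∞ v) : Continuous (uom v) := by
  unfold uom
  refine continuous_finsetSum _ fun i _ => Continuous.mul ?_ ?_
  · exact (EuclideanSpace.proj (𝕜 := ℝ) i : V m →L[ℝ] ℝ).continuous.comp hC.continuous
  · exact (continuous_pd hC _ _).sub (continuous_pd hC _ _)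

theorem Jf_contDiff {v : V m → V m} (hC : ContDiff ℝ ∞ v) : ContDiff ℝ 1 (Jf v) := by
  have h1 : ContDiff ℝ 1 v := hC.of_le (by exact_mod_cast le_top)
  unfold Jf
  exact (((h1.norm_sq ℝ).div_const 2).smul contDiff_const).sub ((contDiff_coord h1 _).smul h1)

theorem norm_Jf_le (v : V m → V m) (x : V m) : ‖Jf v x‖ ≤ 2 * ‖v x‖ ^ 2 := by
  unfold Jf
  refine (norm_sub_le _ _).trans ?_
  rw [norm_smul, norm_smul, Real.norm_of_nonneg (by positivity)]
  have h1 : ‖(EuclideanSpace.single (Fin.last m) (1 : ℝ) : V m)‖ = 1 := by simp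
  have h2 : ‖v x (Fin.last m)‖ ≤ ‖v x‖ := PiLp.norm_apply_le (p := 2) (v x) (Fin.last m)
  rw [h1]
  nlinarith [norm_nonneg (v x), mul_le_mul_of_nonneg_right h2 (norm_nonneg (v x))]

theorem dvg_Jf {v : V m → V m} (hC : ContDiff ℝ ∞ v) {x : V m} (hd : dvg v x = 0) :
    dvg (Jf v) x = uom v x := by
  have hv : DifferentiableAt ℝ v x := hC.differentiable (by simp) x
  have hN := hasFDerivAt_normSq hv
  have hdiff : DifferentiableAt ℝ (Jf v) x := (Jf_contDiff hC).differentiable (by norm_num) x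
  have h1 : ∀ i, pd (Jf v) i i x =
      (∑ j, v x j * pd v i j x) * (if i = Fin.last m then 1 else 0) -
        (pd v i (Fin.last m) x * v x i + v x (Fin.last m) * pd v i i x) := by
    intro i
    rw [energy_pd_eq hdiff]
    have h2 := ((hN.mul_const (2⁻¹ : ℝ)).mul_const (if i = Fin.last m then (1 : ℝ) else 0)).sub
      ((energy_hasFDerivAt_coord hv (Fin.last m)).mul (energy_hasFDerivAt_coord hv i))
    have h3 := h2.congr_of_eventuallyEq (f₁ := fun y => (Jf v y) i) (Eventually.of_forall fun y => by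
      show (Jf v y) i = _
      unfold Jf
      rw [PiLp.sub_apply, PiLp.smul_apply, PiLp.smul_apply, PiLp.single_apply, div_eq_mul_inv]
      rfl)
    rw [h3.fderiv]
    simp only [eprj_apply, pd, _root_.sub_apply, _root_.smul_apply, _root_.add_apply,
      _root_.sum_apply, ContinuousLinearMap.comp_apply, smul_eq_mul]
    rw [Finset.mul_sum]
    split_ifs
    · rw [one_mul, mul_one]
      congr 1
      · exact Finset.sum_congr rfl fun j _ => by ring
      · ring
    · simp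
      ring
  unfold dvg
  rw [Finset.sum_congr rfl fun i _ => h1 i]
  rw [Finset.sum_sub_distrib, Finset.sum_add_distrib]
  have h4 : ∑ i, pd v i i x = 0 := hd
  rw [← Finset.mul_sum, h4, mul_zero, add_zero]
  unfold uom
  simp only [mul_sub, Finset.sum_sub_distrib]
  congr 1
  · simp
  · exact Finset.sum_congr rfl fun j _ => by ring

/-! ### the cutoff -/

/-- the moving cutoff at scale `R` -/
noncomputable def chp {m : ℕ} (U R : ℝ) (q : ℝ × V m) : ℝ :=
  hh (R - (U * q.1 + √(1 + ‖q.2‖ ^ 2)) / R)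

theorem chp_contDiff (U R : ℝ) : ContDiff ℝ 1 (chp (m := m) U R) := by
  unfold chp
  refine hh_contDiff.comp ?_
  refine ContDiff.sub (by fun_prop) (ContDiff.div_const (ContDiff.add (by fun_prop)
    (ContDiff.sqrt ?_ fun x => by positivity)) R)
  exact contDiff_const.add (contDiff_snd.norm_sq ℝ)

theorem chp_nonneg (U R : ℝ) (q : ℝ × V m) : 0 ≤ chp U R q := hh_nonneg _

theorem chp_le_one (U R : ℝ) (q : ℝ × V m) : chp U R q ≤ 1 := hh_le_one _

theorem chp_compact {U R : ℝ} (hU : 0 ≤ U) (hR : 0 < R) {q : ℝ × V m} (hq : 0 ≤ q.1)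
    (hx : q.2 ∉ Metric.closedBall (0 : V m) (R ^ 2)) : chp U R q = 0 := by
  unfold chp
  rw [hh_zero]
  have h1 : R ^ 2 < ‖q.2‖ := by simpa using hx
  have h2 : ‖q.2‖ ≤ √(1 + ‖q.2‖ ^ 2) := by
    apply Real.le_sqrt_of_sq_le; linarith
  have h3 := mul_nonneg hU hq
  rw [sub_nonpos, le_div_iff₀ hR]
  nlinarith

theorem chp_tendsto (U : ℝ) (q : ℝ × V m) :
    Tendsto (fun n : ℕ => chp U ((n : ℝ) + 1) q) atTop (𝓝 1) := by
  unfold chp
  refine hh_tendsto.comp ?_
  have h1 : Tendsto (fun n : ℕ => (n : ℝ) + 1) atTop atTop :=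
    tendsto_atTop_add_const_right _ _ tendsto_natCast_atTop_atTop
  have h2 : Tendsto (fun n : ℕ => -((U * q.1 + √(1 + ‖q.2‖ ^ 2)) / ((n : ℝ) + 1))) atTop (𝓝 (-0)) :=
    (h1.const_div_atTop _).neg
  simp only [sub_eq_add_neg]
  exact h1.atTop_add h2

theorem hh_deriv_le (s : ℝ) : 0 ≤ 2 * max s 0 / (1 + (max s 0) ^ 2) ^ 2 ∧
    2 * max s 0 / (1 + (max s 0) ^ 2) ^ 2 ≤ 1 := by
  have h0 : 0 ≤ max s 0 := le_max_right _ _
  refine ⟨by positivity, ?_⟩
  rw [div_le_one (by positivity)]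
  nlinarith [sq_nonneg (max s 0 - 1), sq_nonneg (max s 0), sq_nonneg ((max s 0) ^ 2)]

/-- spatial gradient of the cutoff -/
theorem chp_grad {U R : ℝ} (hR : 0 < R) (t : ℝ) (x w : V m) :
    |fderiv ℝ (fun y : V m => chp U R (t, y)) x w| ≤ R⁻¹ * ‖w‖ := by
  have hl : HasDerivAt (fun s : ℝ => x + s • w) w 0 := by
    simpa using ((hasDerivAt_id (0 : ℝ)).smul_const w).const_add x
  have a2 : HasDerivAt (fun s : ℝ => 1 + ‖x + s • w‖ ^ 2) (2 * inner ℝ x w) 0 := by
    simpa using hl.norm_sq.const_add 1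
  have a3 := a2.sqrt (by positivity)
  have a4 := (((a3.const_add (U * t)).div_const R).const_sub R)
  have a5 := (hasDerivAt_hh _).comp (0 : ℝ) a4
  have b1 : HasFDerivAt (fun y : V m => chp U R (t, y))
      (fderiv ℝ (fun y : V m => chp U R (t, y)) x) x := by
    have : ContDiff ℝ 1 (fun y : V m => chp U R (t, y)) :=
      (chp_contDiff U R).comp (contDiff_prodMk_right t)
    exact (this.differentiable (by norm_num) x).hasFDerivAt
  have b2 := b1.comp_hasDerivAt_of_eq (0 : ℝ) hl (by simp)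
  have b3 := b2.unique a5
  rw [b3]
  obtain ⟨c1, c2⟩ := hh_deriv_le (R - (U * t + √(1 + ‖x + (0 : ℝ) • w‖ ^ 2)) / R)
  rw [abs_mul, abs_of_nonneg c1]
  have e1 : |inner ℝ x w| ≤ ‖x‖ * ‖w‖ := abs_real_inner_le_norm x w
  have e2 : ‖x‖ ≤ √(1 + ‖x‖ ^ 2) := by apply Real.le_sqrt_of_sq_le; linarith
  have e3 : 0 < √(1 + ‖x‖ ^ 2) := by positivity
  have e4 : |-(2 * inner ℝ x w / (2 * √(1 + ‖x + (0 : ℝ) • w‖ ^ 2)) / R)| ≤ R⁻¹ * ‖w‖ := by
    rw [zero_smul, add_zero, mul_div_mul_left _ _ (by norm_num : (2 : ℝ) ≠ 0), abs_neg, abs_div,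
      abs_div, abs_of_pos hR, abs_of_pos e3, div_eq_inv_mul]
    refine mul_le_mul_of_nonneg_left ?_ (by positivity)
    rw [div_le_iff₀ e3]
    calc |inner ℝ x w| ≤ ‖x‖ * ‖w‖ := e1
      _ ≤ ‖w‖ * √(1 + ‖x‖ ^ 2) := by rw [mul_comm]; gcongr
  calc _ ≤ 1 * |-(2 * inner ℝ x w / (2 * √(1 + ‖x + (0 : ℝ) • w‖ ^ 2)) / R)| :=
        mul_le_mul_of_nonneg_right c2 (abs_nonneg _)
    _ ≤ _ := by rw [one_mul]; exact e4

/-- the cutoff is nonincreasing along the flow -/
theorem chp_deriv {U R : ℝ} (hR : 0 < R) {t : ℝ} {x w : V m} (hU : ‖w‖ ≤ U) :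
    ∃ D ≤ 0, HasDerivAt (fun s : ℝ => chp U R (t + s, x + s • w)) D 0 := by
  have hl : HasDerivAt (fun s : ℝ => x + s • w) w 0 := by
    simpa using ((hasDerivAt_id (0 : ℝ)).smul_const w).const_add x
  have a1 : HasDerivAt (fun s : ℝ => U * (t + s)) U 0 := by
    simpa using (((hasDerivAt_id (0 : ℝ)).const_add t).const_mul U)
  have a2 : HasDerivAt (fun s : ℝ => 1 + ‖x + s • w‖ ^ 2) (2 * inner ℝ x w) 0 := by
    simpa using hl.norm_sq.const_add 1
  have a3 := a2.sqrt (by positivity)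
  have a4 := (((a1.fun_add a3).div_const R).const_sub R)
  refine hh_comp a4 ?_
  have e1 : |inner ℝ x w| ≤ ‖x‖ * ‖w‖ := abs_real_inner_le_norm x w
  have e2 : ‖x‖ ≤ √(1 + ‖x‖ ^ 2) := by apply Real.le_sqrt_of_sq_le; linarith
  have e3 : 0 < √(1 + ‖x‖ ^ 2) := by positivity
  rw [zero_smul, add_zero, mul_div_mul_left _ _ (by norm_num : (2 : ℝ) ≠ 0)]
  have e4 : -inner ℝ x w / √(1 + ‖x‖ ^ 2) ≤ U := by
    rw [div_le_iff₀ e3]
    calc -inner ℝ x w ≤ |inner ℝ x w| := neg_le_abs _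
      _ ≤ ‖x‖ * ‖w‖ := e1
      _ ≤ √(1 + ‖x‖ ^ 2) * U := by gcongr
      _ = _ := by ring
  rw [neg_div] at e4
  rw [neg_nonpos]
  exact div_nonneg (by linarith) hR.le

/-! ### transport of `r ω` -/

theorem rom_line (hm : 2 ≤ m) (h : EulerSolution m T u p)
    (hax : ∀ t ∈ Ico 0 T, AxisymNoSwirl (u t)) {t : ℝ} (ht : t ∈ Ioo 0 T) {x : V m}
    (hx : 0 < rad x) :
    HasDerivAt (fun s : ℝ => rom (u (t + s)) (x + s • u t x)) (m * uom (u t) x) 0 := by
  have hm1 : 1 ≤ m := by omega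
  have ht0 : t ∈ Ico 0 T := ⟨ht.1.le, ht.2⟩
  rw [uom_eq hm1 (h.contDiff ht0) (hax t ht0) hx]
  set w := u t x with hw
  set r := rad x with hr
  set z := ax x with hz
  set a := u t (emb r z) 0 with ha
  obtain ⟨hwi, hwl⟩ := axisym_apply hm1 (hax t ⟨ht.1.le, ht.2⟩) hx
  have hl : HasDerivAt (fun s : ℝ => x + s • w) w 0 := by
    simpa using ((hasDerivAt_id (0 : ℝ)).smul_const w).const_add x
  have hsq : ∑ i : Fin m, (x i.castSucc) ^ 2 = r ^ 2 :=
    (Real.sq_sqrt (Finset.sum_nonneg fun i _ => sq_nonneg _)).symm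
  have hsum : ∑ i : Fin m, 2 * x i.castSucc * w i.castSucc = 2 * (a * r) := by
    have : ∀ i : Fin m, 2 * x i.castSucc * w i.castSucc = 2 * (a / r) * (x i.castSucc) ^ 2 := by
      intro i
      rw [hw, hwi i, ← hr, ← hz, ← ha]
      field_simp
    simp only [this]
    rw [← Finset.mul_sum, hsq]
    field_simp
  have hrad : HasDerivAt (fun s : ℝ => rad (x + s • w)) a 0 := by
    have b1 : HasDerivAt (fun s : ℝ => ∑ i : Fin m, ((x + s • w) i.castSucc) ^ 2)
        (∑ i : Fin m, 2 * x i.castSucc * w i.castSucc) 0 := by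
      refine HasDerivAt.fun_sum fun i _ => ?_
      have c1 : HasDerivAt (fun s : ℝ => (x + s • w) i.castSucc) (w i.castSucc) 0 := by
        have := (EuclideanSpace.proj (𝕜 := ℝ) i.castSucc : V m →L[ℝ] ℝ).hasFDerivAt.comp_hasDerivAt 0 hl
        exact this
      have := c1.fun_pow 2
      simp only [zero_smul, add_zero] at this
      exact this.congr_deriv (by norm_num)
    have b2 := b1.sqrt (by simp only [zero_smul, add_zero]; rw [hsq]; positivity)
    refine b2.congr_deriv ?_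
    simp only [zero_smul, add_zero]
    rw [hsum, hsq, Real.sqrt_sq hx.le]
    field_simp
  have hax' : HasDerivAt (fun s : ℝ => ax (x + s • w)) (w (Fin.last m)) 0 := by
    have := (EuclideanSpace.proj (𝕜 := ℝ) (Fin.last m) : V m →L[ℝ] ℝ).hasFDerivAt.comp_hasDerivAt 0 hl
    exact this
  have ht' : HasDerivAt (fun s : ℝ => t + s) 1 0 := (hasDerivAt_id (0 : ℝ)).const_add t
  have hcurve : HasDerivAt (fun s : ℝ => (t + s, rad (x + s • w), ax (x + s • w)))
      (1, a, w (Fin.last m)) 0 := ht'.prodMk (hrad.prodMk hax')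
  have hom : HasFDerivAt (fun q : ℝ × ℝ × ℝ => om (u q.1) q.2.1 q.2.2)
      (fderiv ℝ (fun q : ℝ × ℝ × ℝ => om (u q.1) q.2.1 q.2.2) (t, r, z)) (t, r, z) :=
    (((om_contDiffOn h).contDiffAt ((isOpen_Ioo.prod isOpen_univ).mem_nhds
      ⟨ht, mem_univ _⟩)).differentiableAt (by simp)).hasFDerivAt
  have hN : HasDerivAt (fun s : ℝ => om (u (t + s)) (rad (x + s • w)) (ax (x + s • w)))
      ((m - 1) * (a / r) * om (u t) r z) 0 := by
    have := hom.comp_hasDerivAt_of_eq 0 hcurve (by simp [hr, hz])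
    refine this.congr_deriv ?_
    have h2 : w (Fin.last m) = u t (emb r z) (Fin.last m) := hwl
    rw [h2]
    exact om_transport hm h hax ht hx
  have hP := hrad.fun_mul hN
  have hev : (fun s : ℝ => rom (u (t + s)) (x + s • w)) =ᶠ[𝓝 0]
      fun s => rad (x + s • w) * om (u (t + s)) (rad (x + s • w)) (ax (x + s • w)) := by
    have h1 : ∀ᶠ s in 𝓝 (0 : ℝ), t + s ∈ Ioo 0 T := by
      have : Tendsto (fun s : ℝ => t + s) (𝓝 0) (𝓝 t) := by
        have h3 : Continuous fun s : ℝ => t + s := by fun_prop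
        simpa using h3.tendsto 0
      exact this.eventually (Ioo_mem_nhds ht.1 ht.2)
    have h2 : ∀ᶠ s in 𝓝 (0 : ℝ), 0 < rad (x + s • w) := by
      refine hrad.continuousAt.eventually (lt_mem_nhds ?_)
      simpa using hx
    filter_upwards [h1, h2] with s hs1 hs2
    exact rom_eq hm1 (h.contDiff ⟨hs1.1.le, hs1.2⟩) (hax _ ⟨hs1.1.le, hs1.2⟩) hs2
  refine (hP.congr_of_eventuallyEq hev).congr_deriv ?_
  simp only [add_zero, zero_smul]
  rw [← hr, ← hz]
  field_simp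
  ring

/-- the density -/
noncomputable def densP (u : ℝ → V m → V m) (U R : ℝ) (q : ℝ × V m) : ℝ :=
  rom (u q.1) q.2 * chp U R q

theorem densP_contDiffOn (h : EulerSolution m T u p) (U R : ℝ) :
    ContDiffOn ℝ 1 (densP u U R) (Ico 0 T ×ˢ univ) :=
  ((rom_contDiffOn h).of_le (by exact_mod_cast le_top)).mul (chp_contDiff U R).contDiffOn

theorem rom_nonneg (hm : 2 ≤ m) (h : EulerSolution m T u p)
    (hax : ∀ t ∈ Ico 0 T, AxisymNoSwirl (u t)) (hs : ∀ r, 0 < r → ∀ z, 0 ≤ om (u 0) r z)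
    {t : ℝ} (ht : t ∈ Ico 0 T) (x : V m) : 0 ≤ rom (u t) x := by
  rcases (rad_nonneg x).eq_or_lt with hr | hr
  · unfold rom
    refine le_of_eq (Finset.sum_eq_zero fun i _ => ?_).symm
    rw [castSucc_eq_zero_of_rad hr.symm, zero_mul]
  · rw [rom_eq (by omega) (h.contDiff ht) (hax t ht) hr]
    exact mul_nonneg hr.le (om_nonneg hm h hax hs ht hr _)

theorem rad_mul_curl (hm : 2 ≤ m) (h : EulerSolution m T u p)
    (hax : ∀ t ∈ Ico 0 T, AxisymNoSwirl (u t)) (hs : ∀ r, 0 < r → ∀ z, 0 ≤ om (u 0) r z)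
    {t : ℝ} (ht : t ∈ Ico 0 T) (x : V m) : rad x * curl (u t) x = rom (u t) x := by
  rcases (rad_nonneg x).eq_or_lt with hr | hr
  · rw [← hr, zero_mul]
    unfold rom
    refine (Finset.sum_eq_zero fun i _ => ?_).symm
    rw [castSucc_eq_zero_of_rad hr.symm, zero_mul]
  · rw [rom_eq (by omega) (h.contDiff ht) (hax t ht) hr,
      curl_eq_abs_om (by omega) (h.contDiff ht) (hax t ht) hr,
      abs_of_nonneg (om_nonneg hm h hax hs ht hr _)]

theorem densP_line (hm : 2 ≤ m) (h : EulerSolution m T u p)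
    (hax : ∀ t ∈ Ico 0 T, AxisymNoSwirl (u t)) (hs : ∀ r, 0 < r → ∀ z, 0 ≤ om (u 0) r z)
    {U R : ℝ} (hR : 0 < R) {t : ℝ} (ht : t ∈ Ioo 0 T)
    (hU : ∀ x, ‖u t x‖ ≤ U) {x : V m} (hx : 0 < rad x) :
    fderiv ℝ (densP u U R) (t, x) (1, u t x) ≤ m * (chp U R (t, x) * uom (u t) x) := by
  obtain ⟨D, hD, h2⟩ := chp_deriv (U := U) (R := R) hR (t := t) (x := x) (w := u t x) (hU x)
  have h1 := rom_line hm h hax ht hx
  have h4 := h1.fun_mul h2
  have h5 : HasFDerivAt (densP u U R) (fderiv ℝ (densP u U R) (t, x)) (t, x) :=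
    (((densP_contDiffOn h U R).contDiffAt (prod_mem_nhds (Ico_mem_nhds ht.1 ht.2)
      univ_mem)).differentiableAt (by norm_num)).hasFDerivAt
  have hl : HasDerivAt (fun s : ℝ => (t + s, x + s • u t x)) (1, u t x) 0 := by
    refine ((hasDerivAt_id (0 : ℝ)).const_add t).prodMk ?_
    simpa using ((hasDerivAt_id (0 : ℝ)).smul_const (u t x)).const_add x
  have h6 := h5.comp_hasDerivAt_of_eq 0 hl (by simp)
  have h7 := h6.unique h4
  rw [h7]
  simp only [add_zero, zero_smul]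
  have h8 := mul_nonpos_of_nonneg_of_nonpos (rom_nonneg hm h hax hs ⟨ht.1.le, ht.2⟩ x) hD
  linarith

/-- the flux integral is `O(1/R)` -/
theorem uom_integral_le {v : V m → V m} (hC : ContDiff ℝ ∞ v) (hd : ∀ x, dvg v x = 0)
    {E : ℝ} (hi : Integrable fun x => ‖v x‖ ^ 2) (hE : ∫ x, ‖v x‖ ^ 2 ≤ E) {U R : ℝ} (hU : 0 ≤ U)
    (hR : 0 < R) {t : ℝ} (ht : 0 ≤ t) :
    ∫ x, chp U R (t, x) * uom v x ≤ R⁻¹ * (2 * E) := by
  have hφ : ContDiff ℝ 1 (fun y : V m => chp U R (t, y)) :=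
    (chp_contDiff U R).comp (contDiff_prodMk_right t)
  have hc : HasCompactSupport (fun y : V m => chp U R (t, y)) :=
    HasCompactSupport.intro (isCompact_closedBall (0 : V m) (R ^ 2))
      fun x hx => chp_compact hU hR (q := (t, x)) ht hx
  have h1 : ∀ x, chp U R (t, x) * uom v x = chp U R (t, x) * dvg (Jf v) x := fun x => by
    rw [dvg_Jf hC (hd x)]
  simp only [h1]
  rw [integral_mul_dvg hφ hc (Jf_contDiff hC)]
  refine (neg_le_abs _).trans ?_
  rw [← Real.norm_eq_abs]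
  have h2 : ‖∫ x, fderiv ℝ (fun y : V m => chp U R (t, y)) x (Jf v x)‖ ≤
      ∫ x, R⁻¹ * (2 * ‖v x‖ ^ 2) := by
    refine norm_integral_le_of_norm_le ((hi.const_mul 2).const_mul _) (Eventually.of_forall fun x => ?_)
    rw [Real.norm_eq_abs]
    exact (chp_grad hR t x _).trans (mul_le_mul_of_nonneg_left (norm_Jf_le v x) (by positivity))
  refine h2.trans ?_
  rw [integral_const_mul, integral_const_mul]
  have : 0 < R⁻¹ := by positivity
  gcongr

/-- For `ω ≥ 0`, `∫ r ω dx` does not increase. Proof: `D_t (r ω) = m u^r ω` (`m = d-1`), so with a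
moving cutoff `χ = φ((√(1+|x|²) + U t)/R)`, `D_t χ ≤ 0` (as in `QBound`; `r ω` is continuous up to the
axis and `C¹` off the axis, one may also cut off the axis with the second cutoff of `QBound`),
`d/dt ∫ r ω χ ≤ m ∫ u^r ω χ`, and pointwise `u^r ω = -(Om u u)_last`,
`(Om u u)_j = ∑_i u_i (∂_i u_j - ∂_j u_i) = ∑_i ∂_i (u_i u_j) - ∂_j |u|²/2`, so
`|∫ u^r ω χ| = |∫ (u_last u - |u|²/2 e_last)·∇χ| ≤ 2 ‖∇χ‖_∞ ‖u‖_2² = O(1/R)`. Let `R → ∞`. -/
theorem P_le (hm : 2 ≤ m) (h : EulerSolution m T u p)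
    (hax : ∀ t ∈ Ico 0 T, AxisymNoSwirl (u t)) (hs : ∀ r, 0 < r → ∀ z, 0 ≤ om (u 0) r z)
    {t : ℝ} (ht : t ∈ Ico 0 T) :
    ∫⁻ x : V m, ENNReal.ofReal (rad x * curl (u t) x) ≤
      ∫⁻ x : V m, ENNReal.ofReal (rad x * curl (u 0) x) := by
  rcases ht.1.eq_or_lt with h0 | h0
  · rw [← h0]
  have hm1 : 1 ≤ m := by omega
  obtain ⟨C, hC0, hC⟩ := h.bounds01 ht.2
  have hT : 0 < T := h0.trans ht.2
  obtain ⟨E, hE⟩ := h.L2 ht.2
  have hsub : Icc 0 t ⊆ Ico 0 T := fun s hs => ⟨hs.1, hs.2.trans_lt ht.2⟩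
  -- energy
  have henn' : ∀ y : V m, ENNReal.ofReal (‖y‖ ^ 2) = ‖y‖ₑ ^ 2 := fun y => by
    rw [ENNReal.ofReal_pow (norm_nonneg _), ofReal_norm]
  have hwi : ∀ s ∈ Icc 0 t, Integrable (fun x => ‖u s x‖ ^ 2) := by
    intro s hs'
    refine ⟨((h.contDiff (hsub hs')).continuous.norm.pow 2).aestronglyMeasurable, ?_⟩
    rw [hasFiniteIntegral_iff_ofReal (Eventually.of_forall fun x => by positivity)]
    simp_rw [henn']
    exact (hE s hs').trans_lt ENNReal.coe_lt_top
  have hwE : ∀ s ∈ Icc 0 t, ∫ x, ‖u s x‖ ^ 2 ≤ E := by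
    intro s hs'
    have h1 := hE s hs'
    have h2 : ENNReal.ofReal (∫ x, ‖u s x‖ ^ 2) = ∫⁻ x, ‖u s x‖ₑ ^ 2 := by
      rw [ofReal_integral_eq_lintegral_ofReal (hwi s hs') (Eventually.of_forall fun x => by positivity)]
      simp_rw [henn']
    rw [← h2, ← ENNReal.ofReal_coe_nnreal, ENNReal.ofReal_le_ofReal_iff (NNReal.coe_nonneg _)] at h1
    exact h1
  simp only [rad_mul_curl hm h hax hs ht, rad_mul_curl hm h hax hs (⟨le_rfl, hT⟩ : (0 : ℝ) ∈ Ico 0 T)]
  -- cutoffs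
  have hpos : ∀ n : ℕ, (0 : ℝ) < (n : ℝ) + 1 := fun n => by positivity
  have hcs : ∀ n : ℕ, ∀ s, 0 ≤ s → ∀ x : V m, x ∉ Metric.closedBall (0 : V m) (((n : ℝ) + 1) ^ 2) →
      densP u C ((n : ℝ) + 1) (s, x) = 0 := by
    intro n s hs' x hx
    unfold densP
    rw [chp_compact hC0 (hpos n) (q := (s, x)) hs' hx, mul_zero]
  have hcont : ∀ n : ℕ, ContinuousOn (fun s => ∫ x, densP u C ((n : ℝ) + 1) (s, x)) (Icc 0 t) := by
    intro n
    refine continuousOn_integral_of_compact_support (isCompact_closedBall (0 : V m) (((n : ℝ) + 1) ^ 2))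
      (f := fun s x => densP u C ((n : ℝ) + 1) (s, x)) ?_ fun s x hs' hx => hcs n s hs'.1 x hx
    refine (densP_contDiffOn h C _).continuousOn.mono fun q hq => ⟨hsub hq.1, hq.2⟩
  have hder : ∀ n : ℕ, ∀ s ∈ Ioo 0 t, HasDerivAt (fun s => ∫ x, densP u C ((n : ℝ) + 1) (s, x))
      (∫ x, fderiv ℝ (densP u C ((n : ℝ) + 1)) (s, x) (1, u s x)) s := by
    intro n s hs'
    have hs2 : s ∈ Ico 0 T := ⟨hs'.1.le, hs'.2.trans ht.2⟩
    exact hasDerivAt_integral_drift (isCompact_closedBall (0 : V m) (((n : ℝ) + 1) ^ 2))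
      ((densP_contDiffOn h C _).mono (prod_mono Ioo_subset_Ico_self subset_rfl))
      (fun s' hs' x hx => hcs n s' hs'.1.le x hx) ⟨hs'.1, hs'.2.trans ht.2⟩
      ((h.contDiff hs2).of_le (by exact_mod_cast le_top)) (fun x => h.divfree s hs2 x)
  have hbd : ∀ n : ℕ, ∀ s ∈ Ioo 0 t,
      (∫ x, fderiv ℝ (densP u C ((n : ℝ) + 1)) (s, x) (1, u s x)) ≤
        m * (((n : ℝ) + 1)⁻¹ * (2 * E)) := by
    intro n s hs'
    have hs2 : s ∈ Icc 0 t := ⟨hs'.1.le, hs'.2.le⟩
    have hs3 : s ∈ Ioo 0 T := ⟨hs'.1, hs'.2.trans ht.2⟩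
    have hS : IsOpen (Ioo 0 T ×ˢ (univ : Set (V m))) := isOpen_Ioo.prod isOpen_univ
    have hi1 : Integrable fun x => fderiv ℝ (densP u C ((n : ℝ) + 1)) (s, x) (1, u s x) := by
      have hfc : ContinuousOn (fderiv ℝ (densP u C ((n : ℝ) + 1))) (Ioo 0 T ×ˢ univ) :=
        ((densP_contDiffOn h C _).mono (prod_mono Ioo_subset_Ico_self
          subset_rfl)).continuousOn_fderiv_of_isOpen hS le_rfl
      have hfs : Continuous fun x => fderiv ℝ (densP u C ((n : ℝ) + 1)) (s, x) := by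
        rw [← continuousOn_univ]
        exact hfc.comp (by fun_prop) fun x _ => ⟨hs3, mem_univ _⟩
      refine (hfs.clm_apply (continuous_const.prodMk
        (h.contDiff (hsub hs2)).continuous)).integrable_of_hasCompactSupport ?_
      refine HasCompactSupport.intro (isCompact_closedBall (0 : V m) (((n : ℝ) + 1) ^ 2))
        fun x hx => ?_
      have : densP u C ((n : ℝ) + 1) =ᶠ[𝓝 (s, x)] fun _ => 0 := by
        filter_upwards [(isOpen_Ioo.prod (isCompact_closedBall (0 : V m)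
          (((n : ℝ) + 1) ^ 2)).isClosed.isOpen_compl).mem_nhds ⟨hs3, hx⟩] with q hq
        exact hcs n q.1 hq.1.1.le q.2 hq.2
      rw [this.fderiv_eq]
      simp
    have hi2 : Integrable fun x => (m : ℝ) * (chp C ((n : ℝ) + 1) (s, x) * uom (u s) x) := by
      refine Integrable.const_mul ?_ _
      refine Continuous.integrable_of_hasCompactSupport ?_ ?_
      · exact ((chp_contDiff C _).continuous.comp (by fun_prop)).mul
          (continuous_uom (h.contDiff (hsub hs2)))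
      · exact HasCompactSupport.intro (isCompact_closedBall (0 : V m) (((n : ℝ) + 1) ^ 2))
          fun x hx => by rw [chp_compact hC0 (hpos n) (q := (s, x)) hs2.1 hx, zero_mul]
    calc (∫ x, fderiv ℝ (densP u C ((n : ℝ) + 1)) (s, x) (1, u s x))
        ≤ ∫ x, (m : ℝ) * (chp C ((n : ℝ) + 1) (s, x) * uom (u s) x) := by
          refine integral_mono_ae hi1 hi2 ?_
          filter_upwards [ae_rad_pos hm1] with x hx
          exact densP_line hm h hax hs (hpos n) hs3 (fun x => (hC s hs2 x).1) hx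
      _ ≤ _ := by
          rw [integral_const_mul]
          refine mul_le_mul_of_nonneg_left ?_ (Nat.cast_nonneg m)
          exact uom_integral_le (h.contDiff (hsub hs2)) (h.divfree s (hsub hs2)) (hwi s hs2)
            (hwE s hs2) hC0 (hpos n) hs2.1
  have hanti : ∀ n : ℕ, ∫ x, densP u C ((n : ℝ) + 1) (t, x) ≤
      (∫ x, densP u C ((n : ℝ) + 1) (0, x)) + m * (((n : ℝ) + 1)⁻¹ * (2 * E)) * t := by
    intro n
    have := antitoneOn_of_deriv_nonpos (f := fun s => (∫ x, densP u C ((n : ℝ) + 1) (s, x)) -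
        m * (((n : ℝ) + 1)⁻¹ * (2 * E)) * s) (convex_Icc 0 t)
      ((hcont n).sub (by fun_prop))
      (by
        rw [interior_Icc]
        intro s hs'
        have h1 := (hder n s hs').differentiableAt
        exact (h1.sub (by fun_prop)).differentiableWithinAt)
      (by
        rw [interior_Icc]
        intro s hs'
        have h1 := (hder n s hs').fun_sub ((hasDerivAt_id s).const_mul
          ((m : ℝ) * (((n : ℝ) + 1)⁻¹ * (2 * E))))
        have h2 : deriv (fun s => (∫ x, densP u C ((n : ℝ) + 1) (s, x)) -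
            m * (((n : ℝ) + 1)⁻¹ * (2 * E)) * s) s = _ := h1.deriv
        rw [h2]
        have := hbd n s hs'
        linarith)
    have h3 := this ⟨le_rfl, h0.le⟩ ⟨h0.le, le_rfl⟩ h0.le
    simp only at h3
    linarith
  have hint : ∀ n : ℕ, ∀ s ∈ Ico 0 T, Integrable fun x => densP u C ((n : ℝ) + 1) (s, x) := by
    intro n s hs'
    refine Continuous.integrable_of_hasCompactSupport ?_
      (HasCompactSupport.intro (isCompact_closedBall (0 : V m) (((n : ℝ) + 1) ^ 2))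
        fun x hx => hcs n s hs'.1 x hx)
    rw [← continuousOn_univ]
    exact (densP_contDiffOn h C _).continuousOn.comp (by fun_prop) fun x _ => ⟨hs', mem_univ _⟩
  have hnn : ∀ n : ℕ, ∀ s ∈ Ico 0 T, ∀ x, 0 ≤ densP u C ((n : ℝ) + 1) (s, x) := fun n s hs' x =>
    mul_nonneg (rom_nonneg hm h hax hs hs' x) (chp_nonneg _ _ _)
  have hlint : ∀ n : ℕ, ∀ s ∈ Ico 0 T, ∫⁻ x, ENNReal.ofReal (densP u C ((n : ℝ) + 1) (s, x)) =
      ENNReal.ofReal (∫ x, densP u C ((n : ℝ) + 1) (s, x)) := fun n s hs' =>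
    (ofReal_integral_eq_lintegral_ofReal (hint n s hs')
      (Eventually.of_forall fun x => hnn n s hs' x)).symm
  have h0T : (0 : ℝ) ∈ Ico 0 T := ⟨le_rfl, hT⟩
  have hlim0 : Tendsto (fun n : ℕ => (∫⁻ x : V m, ENNReal.ofReal (rom (u 0) x)) +
      ENNReal.ofReal (m * (((n : ℝ) + 1)⁻¹ * (2 * E)) * t)) atTop
      (𝓝 ((∫⁻ x : V m, ENNReal.ofReal (rom (u 0) x)) + 0)) := by
    refine Tendsto.const_add _ ?_
    have h1 : Tendsto (fun n : ℕ => ((n : ℝ) + 1)⁻¹) atTop (𝓝 0) := by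
      simpa [one_div] using tendsto_one_div_add_atTop_nhds_zero_nat (𝕜 := ℝ)
    have h2 := (((h1.mul_const (2 * (E : ℝ))).const_mul (m : ℝ)).mul_const t)
    have h3 := ENNReal.continuous_ofReal.continuousAt.tendsto.comp h2
    simpa [Function.comp_def] using h3
  calc ∫⁻ x : V m, ENNReal.ofReal (rom (u t) x)
      ≤ ∫⁻ x : V m, liminf (fun n : ℕ => ENNReal.ofReal (densP u C ((n : ℝ) + 1) (t, x))) atTop := by
        refine lintegral_mono fun x => ?_
        have h1 : Tendsto (fun n : ℕ => ENNReal.ofReal (densP u C ((n : ℝ) + 1) (t, x))) atTop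
            (𝓝 (ENNReal.ofReal (rom (u t) x))) := by
          refine (ENNReal.continuous_ofReal.tendsto _).comp ?_
          unfold densP
          simpa using (chp_tendsto C (t, x)).const_mul (rom (u t) x)
        exact h1.liminf_eq.ge
    _ ≤ liminf (fun n : ℕ => ∫⁻ x : V m, ENNReal.ofReal (densP u C ((n : ℝ) + 1) (t, x))) atTop := by
        refine lintegral_liminf_le' fun n => ?_
        exact (hint n t ht).aestronglyMeasurable.aemeasurable.ennreal_ofReal
    _ ≤ liminf (fun n : ℕ => (∫⁻ x : V m, ENNReal.ofReal (rom (u 0) x)) +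
          ENNReal.ofReal (m * (((n : ℝ) + 1)⁻¹ * (2 * E)) * t)) atTop := by
        refine liminf_le_liminf (Eventually.of_forall fun n => ?_)
        rw [hlint n t ht]
        refine (ENNReal.ofReal_le_ofReal (hanti n)).trans ?_
        refine ENNReal.ofReal_add_le.trans ?_
        rw [← hlint n 0 h0T]
        refine add_le_add_left (lintegral_mono fun x => ENNReal.ofReal_le_ofReal ?_) _
        exact mul_le_of_le_one_right (rom_nonneg hm h hax hs h0T x) (chp_le_one _ _ _)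
    _ = _ := by rw [hlim0.liminf_eq, add_zero]

end Pool.Agent.Lib.MP_c167ed_an
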