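import Pool.Agent.Lib.MP_c167ed_an.Far

/-! Velocity estimate by the energy and the impulse. -/

open MeasureTheory Set Filter Topology
open scoped ContDiff ENNReal NNReal Pointwise

namespace Pool.Agent.Lib.MP_c167ed_an

/-- rescaling of an integral over a ball -/
theorem SF_rescale {m : ℕ} (g : V m → ℝ) (x : V m) {δ : ℝ} (hδ : 0 < δ) :
    ∫ y in Metric.closedBall (0 : V m) 1, g (x + δ • y) =
      (δ ^ (m + 1))⁻¹ * ∫ y in Metric.closedBall x δ, g y := by
  have h1 := Measure.setIntegral_comp_smul_of_pos (μ := (volume : Measure (V m)))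
    (fun z : V m => g (x + z)) (Metric.closedBall (0 : V m) 1) hδ
  rw [h1]
  have h2 : δ • Metric.closedBall (0 : V m) 1 = Metric.closedBall (0 : V m) δ := by
    rw [smul_closedBall _ _ (by norm_num), smul_zero, Real.norm_of_nonneg hδ.le, mul_one]
  have h3 : Module.finrank ℝ (V m) = m + 1 := by simp
  rw [h2, h3, smul_eq_mul]
  congr 1
  rw [← integral_indicator measurableSet_closedBall, ← integral_indicator measurableSet_closedBall,
    ← integral_add_left_eq_self (μ := (volume : Measure (V m)))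
      ((Metric.closedBall x δ).indicator fun y : V m => g y) x]
  congr 1
  funext z
  by_cases hz : z ∈ Metric.closedBall (0 : V m) δ
  · have hz' : x + z ∈ Metric.closedBall x δ := by
      rw [Metric.mem_closedBall, dist_eq_norm] at hz ⊢
      simpa using hz
    rw [indicator_of_mem hz, indicator_of_mem hz']
  · have hz' : x + z ∉ Metric.closedBall x δ := by
      rw [Metric.mem_closedBall, dist_eq_norm] at hz ⊢
      simpa using hz
    rw [indicator_of_notMem hz, indicator_of_notMem hz']

theorem SF_continuous_curl {m : ℕ} {v : V m → V m} (hv : ContDiff ℝ ∞ v) :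
    Continuous (curl v) := by
  unfold curl
  refine Continuous.sqrt (Continuous.div_const ?_ _)
  refine continuous_finsetSum _ fun i _ => continuous_finsetSum _ fun j _ => ?_
  exact ((avg_continuous_pd hv i j).sub (avg_continuous_pd hv j i)).pow 2

/-- first term of the averaging formula -/
theorem SF_first {m : ℕ} (hm : 1 ≤ m) {C1 : ℝ} (hC1 : 0 < C1)
    (hcap : ∀ f : ℝ → ℝ → ℝ≥0∞,
    Measurable (Function.uncurry f) → ∀ (x : V m) (δ : ℝ), 0 < δ → δ ≤ rad x / 2 →
      ∫⁻ y in Metric.closedBall x δ, f (rad y) (ax y) ≤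
        ENNReal.ofReal (C1 * (δ / rad x) ^ (m - 1)) * ∫⁻ y : V m, f (rad y) (ax y))
    {v : V m → V m} (hvc : Continuous v) (ha : AxisymNoSwirl v) {E : ℝ} (hE0 : 0 ≤ E)
    (hE : ∫⁻ x, ‖v x‖ₑ ^ 2 ≤ ENNReal.ofReal (E ^ 2)) {x : V m} {δ : ℝ} (hδ : 0 < δ)
    (hδx : δ ≤ rad x / 2) :
    ‖∫ y : V m, bump y • v (x + δ • y)‖ ≤
      ((volume : Measure (V m)).real (Metric.closedBall (0 : V m) 1) + C1) / 2 *
        (E / (δ * √(rad x ^ (m - 1)))) := by
  set b : ℝ := (volume : Measure (V m)).real (Metric.closedBall (0 : V m) 1) with hb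
  have hb0 : 0 ≤ b := measureReal_nonneg
  have hR : 0 < rad x := by linarith
  set L : ℝ := E / (δ * √(rad x ^ (m - 1))) with hL
  have hRm : 0 < rad x ^ (m - 1) := pow_pos hR _
  have hsq : 0 < √(rad x ^ (m - 1)) := Real.sqrt_pos.2 hRm
  have hL0 : 0 ≤ L := by positivity
  -- the energy
  have hW : ∫ y in Metric.closedBall (0 : V m) 1, ‖v (x + δ • y)‖ ^ 2 ≤ C1 * L ^ 2 := by
    rw [Far_rescale x hδ]
    have h1 := Far_energy hm hC1 hcap hvc ha hE hδ hδx
    calc (δ ^ (m + 1))⁻¹ * ∫ y in Metric.closedBall x δ, ‖v y‖ ^ 2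
        ≤ (δ ^ (m + 1))⁻¹ * (C1 * (δ / rad x) ^ (m - 1) * E ^ 2) :=
          mul_le_mul_of_nonneg_left h1 (by positivity)
      _ = C1 * L ^ 2 := by
          rw [hL, div_pow, div_pow, mul_pow, Real.sq_sqrt hRm.le]
          have h2 : δ ^ (m + 1) = δ ^ 2 * δ ^ (m - 1) := by
            rw [← pow_add]
            congr 1
            omega
          rw [h2]
          field_simp
  have hWint : IntegrableOn (fun y : V m => ‖v (x + δ • y)‖ ^ 2) (Metric.closedBall (0 : V m) 1) := by
    refine ContinuousOn.integrableOn_compact (isCompact_closedBall _ _) ?_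
    fun_prop
  -- the first term
  have hI1 : ∀ l : ℝ, 0 < l → ‖∫ y : V m, bump y • v (x + δ • y)‖ ≤
      b * (l / 2) + C1 * L ^ 2 / (2 * l) := by
    intro l hl
    set g : V m → ℝ := fun y => l / 2 + ‖v (x + δ • y)‖ ^ 2 * (1 / (2 * l)) with hg
    have hgint : IntegrableOn g (Metric.closedBall (0 : V m) 1) := by
      refine ContinuousOn.integrableOn_compact (isCompact_closedBall _ _) ?_
      fun_prop
    have h1 : ‖∫ y : V m, bump y • v (x + δ • y)‖ ≤
        ∫ y, (Metric.closedBall (0 : V m) 1).indicator g y := by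
      refine norm_integral_le_of_norm_le
        ((integrable_indicator_iff measurableSet_closedBall).2 hgint)
        (Eventually.of_forall fun y => ?_)
      by_cases hy : y ∈ Metric.closedBall (0 : V m) 1
      · rw [indicator_of_mem hy, norm_smul, Real.norm_of_nonneg (bump_nonneg y)]
        have h2 : bump y * ‖v (x + δ • y)‖ ≤ 1 * ‖v (x + δ • y)‖ :=
          mul_le_mul_of_nonneg_right (bump_le_one y) (norm_nonneg _)
        refine h2.trans ?_
        rw [one_mul, hg]
        simp only
        have h3 : l / 2 + ‖v (x + δ • y)‖ ^ 2 * (1 / (2 * l)) - ‖v (x + δ • y)‖ =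
            (‖v (x + δ • y)‖ - l) ^ 2 / (2 * l) := by
          field_simp
          ring
        have h4 : 0 ≤ (‖v (x + δ • y)‖ - l) ^ 2 / (2 * l) := by positivity
        linarith
      · rw [indicator_of_notMem hy]
        have h5 : 1 ≤ ‖y‖ := by
          rw [mem_closedBall_zero_iff, not_le] at hy
          exact hy.le
        rw [bump_eq_zero h5]
        simp
    refine h1.trans ?_
    rw [integral_indicator measurableSet_closedBall, hg]
    have hcint : IntegrableOn (fun _ : V m => l / 2) (Metric.closedBall (0 : V m) 1) :=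
      integrableOn_const (measure_closedBall_lt_top.ne)
    rw [integral_add hcint (hWint.mul_const _), integral_mul_const]
    have h6 : ∫ _ in Metric.closedBall (0 : V m) 1, l / 2 = b * (l / 2) := by
      rw [setIntegral_const, hb, smul_eq_mul]
    rw [h6]
    have h7 : (∫ y in Metric.closedBall (0 : V m) 1, ‖v (x + δ • y)‖ ^ 2) * (1 / (2 * l)) ≤
        C1 * L ^ 2 * (1 / (2 * l)) := mul_le_mul_of_nonneg_right hW (by positivity)
    have h8 : C1 * L ^ 2 * (1 / (2 * l)) = C1 * L ^ 2 / (2 * l) := by ring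
    linarith
  rcases eq_or_lt_of_le hL0 with h | h
  · rw [← h]
    refine le_of_forall_pos_le_add fun ε hε => ?_
    have h1 := hI1 (ε / (b + 1)) (by positivity)
    rw [← h] at h1
    have h2 : b * (ε / (b + 1) / 2) ≤ ε := by
      rw [div_div, ← mul_div_assoc, div_le_iff₀ (by positivity)]
      nlinarith
    have h3 : C1 * (0 : ℝ) ^ 2 / (2 * (ε / (b + 1))) = 0 := by simp
    rw [h3] at h1
    linarith
  · have h1 := hI1 L h
    have h2 : C1 * L ^ 2 / (2 * L) = C1 / 2 * L := by field_simp
    rw [h2] at h1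
    linarith

/-- the inner integral is bounded by an average of the vorticity -/
theorem SF_inner {m : ℕ} {v : V m → V m} (hv : ContDiff ℝ ∞ v) (x : V m) (s : ℝ) :
    ‖∫ y : V m, bump y • Om v (x + s • y) y‖ ≤
      ∫ y in Metric.closedBall (0 : V m) 1, 2 * curl v (x + s • y) := by
  have hc := SF_continuous_curl hv
  have hgint : IntegrableOn (fun y : V m => 2 * curl v (x + s • y))
      (Metric.closedBall (0 : V m) 1) := by
    refine ContinuousOn.integrableOn_compact (isCompact_closedBall _ _) ?_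
    fun_prop
  rw [← integral_indicator measurableSet_closedBall]
  refine norm_integral_le_of_norm_le
    ((integrable_indicator_iff measurableSet_closedBall).2 hgint)
    (Eventually.of_forall fun y => ?_)
  by_cases hy : y ∈ Metric.closedBall (0 : V m) 1
  · rw [indicator_of_mem hy, norm_smul, Real.norm_of_nonneg (bump_nonneg y)]
    have hy1 : ‖y‖ ≤ 1 := by rwa [mem_closedBall_zero_iff] at hy
    have h5 := norm_Om_le v (x + s • y) y
    have h6 := curl_nonneg v (x + s • y)
    calc bump y * ‖Om v (x + s • y) y‖ ≤ 1 * (2 * curl v (x + s • y) * 1) := by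
          refine mul_le_mul (bump_le_one y) (h5.trans ?_) (norm_nonneg _) zero_le_one
          exact mul_le_mul_of_nonneg_left hy1 (by linarith)
      _ = 2 * curl v (x + s • y) := by ring
  · rw [indicator_of_notMem hy]
    have h5 : 1 ≤ ‖y‖ := by
      rw [mem_closedBall_zero_iff, not_le] at hy
      exact hy.le
    rw [bump_eq_zero h5]
    simp

/-- first bound for the inner integral -/
theorem SF_bound1 {m : ℕ} {v : V m → V m} (hv : ContDiff ℝ ∞ v) {x : V m} {N : ℝ} (hN : 0 ≤ N)
    (hcurl : ∀ y, rad x / 2 ≤ rad y → curl v y ≤ N * rad y ^ (m - 1)) {s : ℝ} (hs0 : 0 < s)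
    (hs : s ≤ rad x / 2) :
    ‖∫ y : V m, bump y • Om v (x + s • y) y‖ ≤
      2 * (volume : Measure (V m)).real (Metric.closedBall (0 : V m) 1) * (2 ^ (m - 1) *
        (N * rad x ^ (m - 1))) := by
  have hR : 0 < rad x := by linarith
  have hc := SF_continuous_curl hv
  refine (SF_inner hv x s).trans ?_
  have h1 : ∀ y ∈ Metric.closedBall (0 : V m) 1,
      2 * curl v (x + s • y) ≤ 2 * (2 ^ (m - 1) * (N * rad x ^ (m - 1))) := by
    intro y hy
    have hy1 : ‖y‖ ≤ 1 := by rwa [mem_closedBall_zero_iff] at hy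
    have h2 := rad_sub_le (x + s • y) x
    rw [add_sub_cancel_left, norm_smul, Real.norm_of_nonneg hs0.le] at h2
    have h3 : s * ‖y‖ ≤ s := by nlinarith
    have h4 := abs_le.1 (h2.trans h3)
    have h5 : rad x / 2 ≤ rad (x + s • y) := by linarith
    have h6 : rad (x + s • y) ≤ 2 * rad x := by linarith
    have h7 := hcurl _ h5
    have h8 : rad (x + s • y) ^ (m - 1) ≤ (2 * rad x) ^ (m - 1) :=
      pow_le_pow_left₀ (by linarith) h6 _
    have h9 := mul_le_mul_of_nonneg_left h8 hN
    rw [mul_pow] at h9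
    nlinarith
  have h2 : IntegrableOn (fun y : V m => 2 * curl v (x + s • y))
      (Metric.closedBall (0 : V m) 1) := by
    refine ContinuousOn.integrableOn_compact (isCompact_closedBall _ _) ?_
    fun_prop
  have h3 : IntegrableOn (fun _ : V m => 2 * (2 ^ (m - 1) * (N * rad x ^ (m - 1))))
      (Metric.closedBall (0 : V m) 1) := integrableOn_const (measure_closedBall_lt_top.ne)
  refine (setIntegral_mono_on h2 h3 measurableSet_closedBall h1).trans (le_of_eq ?_)
  rw [setIntegral_const, smul_eq_mul]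
  ring

/-- second bound for the inner integral -/
theorem SF_bound2 {m : ℕ} (hm : 1 ≤ m) {C1 : ℝ} (hC1 : 0 < C1)
    (hcap : ∀ f : ℝ → ℝ → ℝ≥0∞,
    Measurable (Function.uncurry f) → ∀ (x : V m) (δ : ℝ), 0 < δ → δ ≤ rad x / 2 →
      ∫⁻ y in Metric.closedBall x δ, f (rad y) (ax y) ≤
        ENNReal.ofReal (C1 * (δ / rad x) ^ (m - 1)) * ∫⁻ y : V m, f (rad y) (ax y))
    {v : V m → V m} (hv : ContDiff ℝ ∞ v) (ha : AxisymNoSwirl v) {P : ℝ} (hP0 : 0 ≤ P)
    (hP : ∫⁻ x : V m, ENNReal.ofReal (rad x * curl v x) ≤ ENNReal.ofReal P) {x : V m} {s : ℝ}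
    (hs0 : 0 < s) (hs : s ≤ rad x / 2) :
    ‖∫ y : V m, bump y • Om v (x + s • y) y‖ ≤ 4 * C1 * (P / rad x ^ m) / s ^ 2 := by
  have hR : 0 < rad x := by linarith
  have hc := SF_continuous_curl hv
  refine (SF_inner hv x s).trans ?_
  rw [integral_const_mul, SF_rescale (curl v) x hs0]
  set f : ℝ → ℝ → ℝ≥0∞ := fun r z =>
    if rad x / 2 ≤ r then ENNReal.ofReal |om v r z| else 0 with hf
  have hfm : Measurable (Function.uncurry f) := by
    have h1 : Continuous (fun q : ℝ × ℝ => om v q.1 q.2) := continuous_om hv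
    have h2 : Measurable (fun q : ℝ × ℝ => ENNReal.ofReal |om v q.1 q.2|) :=
      (ENNReal.continuous_ofReal.comp h1.abs).measurable
    exact Measurable.ite (measurableSet_le measurable_const measurable_fst) h2 measurable_const
  have h1 := hcap f hfm x s hs0 hs
  have hint : IntegrableOn (curl v) (Metric.closedBall x s) :=
    (hc.continuousOn).integrableOn_compact (isCompact_closedBall x s)
  have hnn : 0 ≤ C1 * (s / rad x) ^ (m - 1) := by positivity
  have h2 : ENNReal.ofReal (∫ y in Metric.closedBall x s, curl v y) ≤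
      ENNReal.ofReal (C1 * (s / rad x) ^ (m - 1) * (2 / rad x * P)) := by
    rw [ofReal_integral_eq_lintegral_ofReal hint (Eventually.of_forall fun y => curl_nonneg v y),
      ENNReal.ofReal_mul hnn, ENNReal.ofReal_mul (p := 2 / rad x) (by positivity)]
    calc ∫⁻ y in Metric.closedBall x s, ENNReal.ofReal (curl v y)
        = ∫⁻ y in Metric.closedBall x s, f (rad y) (ax y) := by
          refine setLIntegral_congr_fun measurableSet_closedBall ?_
          intro y hy
          have hy' : ‖x - y‖ ≤ s := by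
            rw [Metric.mem_closedBall, dist_comm, dist_eq_norm] at hy
            exact hy
          have h3 := (abs_le.1 (rad_sub_le x y)).2
          have h4 : rad x / 2 ≤ rad y := by linarith
          have h5 : 0 < rad y := by linarith
          simp only [hf]
          rw [if_pos h4, curl_eq_abs_om hm hv ha h5]
      _ ≤ ENNReal.ofReal (C1 * (s / rad x) ^ (m - 1)) * ∫⁻ y : V m, f (rad y) (ax y) := h1
      _ ≤ ENNReal.ofReal (C1 * (s / rad x) ^ (m - 1)) *
          (ENNReal.ofReal (2 / rad x) * ENNReal.ofReal P) := by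
          refine mul_le_mul_right ?_ _
          calc ∫⁻ y : V m, f (rad y) (ax y)
              ≤ ∫⁻ y : V m, ENNReal.ofReal (2 / rad x) * ENNReal.ofReal (rad y * curl v y) := by
                refine lintegral_mono fun y => ?_
                simp only [hf]
                split_ifs with h6
                · have h5 : 0 < rad y := by linarith
                  rw [← ENNReal.ofReal_mul (by positivity), ← curl_eq_abs_om hm hv ha h5]
                  refine ENNReal.ofReal_le_ofReal ?_
                  have h7 : 1 ≤ 2 / rad x * rad y := by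
                    rw [div_mul_eq_mul_div, le_div_iff₀ hR]
                    linarith
                  have h8 := mul_le_mul_of_nonneg_right h7 (curl_nonneg v y)
                  linarith
                · exact zero_le
            _ = ENNReal.ofReal (2 / rad x) * ∫⁻ y : V m, ENNReal.ofReal (rad y * curl v y) :=
                lintegral_const_mul' _ _ ENNReal.ofReal_ne_top
            _ ≤ _ := mul_le_mul_right hP _
  have h3 := (ENNReal.ofReal_le_ofReal_iff (by positivity)).1 h2
  calc 2 * ((s ^ (m + 1))⁻¹ * ∫ y in Metric.closedBall x s, curl v y)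
      ≤ 2 * ((s ^ (m + 1))⁻¹ * (C1 * (s / rad x) ^ (m - 1) * (2 / rad x * P))) := by
        gcongr
    _ = 4 * C1 * (P / rad x ^ m) / s ^ 2 := by
        obtain ⟨n, rfl⟩ : ∃ n, m = n + 1 := ⟨m - 1, by omega⟩
        rw [Nat.add_sub_cancel, div_pow]
        field_simp
        ring

/-- optimisation -/
theorem SF_opt {X A B c : ℝ} (hA : 0 ≤ A) (hB : 0 ≤ B) (hc : 0 ≤ c)
    (h : ∀ l : ℝ, 0 < l → X ≤ c * (A * l + B / l)) : X ≤ 2 * c * √(A * B) := by
  rcases eq_or_lt_of_le hA with hA0 | hA0
  · rw [← hA0, zero_mul, Real.sqrt_zero, mul_zero]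
    refine le_of_forall_pos_le_add fun ε hε => ?_
    have h1 := h ((c * B + 1) / ε) (by positivity)
    rw [← hA0, zero_mul, zero_add, ← mul_div_assoc, div_div_eq_mul_div] at h1
    have h2 : c * B * ε / (c * B + 1) ≤ ε := by
      rw [div_le_iff₀ (by positivity)]
      nlinarith
    linarith
  · rcases eq_or_lt_of_le hB with hB0 | hB0
    · rw [← hB0, mul_zero, Real.sqrt_zero, mul_zero]
      refine le_of_forall_pos_le_add fun ε hε => ?_
      have h1 := h (ε / (c * A + 1)) (by positivity)
      rw [← hB0, zero_div, add_zero] at h1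
      have h2 : c * (A * (ε / (c * A + 1))) ≤ ε := by
        rw [← mul_assoc, ← mul_div_assoc, div_le_iff₀ (by positivity)]
        nlinarith
      linarith
    · have hsa := Real.sqrt_pos.2 hA0
      have hsb := Real.sqrt_pos.2 hB0
      have h1 := h (√B / √A) (by positivity)
      refine h1.trans (le_of_eq ?_)
      rw [Real.sqrt_mul hA]
      have h2 := Real.mul_self_sqrt hA
      have h3 := Real.mul_self_sqrt hB
      have h4 : A * (√B / √A) = √A * √B := by
        rw [← mul_div_assoc, div_eq_iff hsa.ne']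
        nlinarith
      have h5 : B / (√B / √A) = √A * √B := by
        rw [div_div_eq_mul_div, div_eq_iff hsb.ne']
        nlinarith
      rw [h4, h5]
      ring

/-- Averaging formula with `δ = R/2`, `R = rad x`. First term as in `far_axis`:
`≤ C E / (δ √(R^{m-1}))`. Second term: for `0 < s ≤ R/2`,
`‖∫ bump(y) Om v (x+sy) y dy‖ ≤ min (C N R^{m-1}) (C s^{-(m+1)} ∫_{B(x,s)} curl v)` and by
`lintegral_ball_le` applied to `curl v` restricted to `rad ≥ R/2` (where
`curl v ≤ (2/R) rad curl v`), `∫_{B(x,s)} curl v ≤ C (s/R)^{m-1} P/R`, so the integrand is at most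
`min (C N R^{m-1}) (C s^{-2} R^{-m} P)`, and `∫_0^∞ min(A, B/s²) ds = 2 √(AB)`. -/
theorem signed_far {m : ℕ} (hm : 1 ≤ m) : ∃ C : ℝ, 0 < C ∧ ∀ v : V m → V m, ContDiff ℝ ∞ v →
    (∀ x, dvg v x = 0) → AxisymNoSwirl v → ∀ E P N : ℝ, 0 ≤ E → 0 ≤ P → 0 ≤ N →
    (∫⁻ x, ‖v x‖ₑ ^ 2 ≤ ENNReal.ofReal (E ^ 2)) →
    (∫⁻ x : V m, ENNReal.ofReal (rad x * curl v x) ≤ ENNReal.ofReal P) →
    ∀ x : V m, 0 < rad x → (∀ y, rad x / 2 ≤ rad y → curl v y ≤ N * rad y ^ (m - 1)) →
    ‖v x‖ ≤ C * (E / √(rad x ^ (m + 1)) + √(N * P / rad x)) := by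
  obtain ⟨C1, hC1, hcap⟩ := lintegral_ball_le (m := m) hm
  set b : ℝ := (volume : Measure (V m)).real (Metric.closedBall (0 : V m) 1) with hb
  have hb0 : 0 ≤ b := measureReal_nonneg
  have hc := c0_pos m
  set K : ℝ := √(2 * b * 2 ^ (m - 1) * (4 * C1)) with hK
  have hK0 : 0 ≤ K := Real.sqrt_nonneg _
  have hpi := Real.pi_pos
  refine ⟨(b + C1 + Real.pi * K) / c0 m, by positivity, ?_⟩
  intro v hv hdiv ha E P N hE0 hP0 hN0 hE hP x hR hcurl
  have hvc : Continuous v := hv.continuous
  have hδ : 0 < rad x / 2 := by linarith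
  have havg := avg_formula hv hdiv x hδ
  have hfirst := SF_first hm hC1 hcap hvc ha hE0 hE hδ le_rfl
  rw [← hb] at hfirst
  have hL : E / (rad x / 2 * √(rad x ^ (m - 1))) = 2 * (E / √(rad x ^ (m + 1))) := by
    have h1 : √(rad x ^ (m + 1)) = rad x * √(rad x ^ (m - 1)) := by
      have h2 : rad x ^ (m + 1) = rad x ^ 2 * rad x ^ (m - 1) := by
        rw [← pow_add]
        congr 1
        omega
      rw [h2, Real.sqrt_mul (by positivity), Real.sqrt_sq hR.le]
    rw [h1]
    have h3 : 0 < √(rad x ^ (m - 1)) := Real.sqrt_pos.2 (by positivity)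
    field_simp
  rw [hL] at hfirst
  set A : ℝ := 2 * b * (2 ^ (m - 1) * (N * rad x ^ (m - 1))) with hA
  set B : ℝ := 4 * C1 * (P / rad x ^ m) with hB
  have hA0 : 0 ≤ A := by positivity
  have hB0 : 0 ≤ B := by positivity
  have hsec : ∀ l : ℝ, 0 < l →
      ‖∫ s in (0 : ℝ)..(rad x / 2), ∫ y : V m, bump y • Om v (x + s • y) y‖ ≤
        Real.pi / 2 * (A * l + B / l) := by
    intro l hl
    set g : ℝ → ℝ := fun s => (A + B / l ^ 2) * (1 / (1 + (s / l) ^ 2)) with hg
    have hgc : Continuous g := by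
      have : ∀ s : ℝ, (1 + (s / l) ^ 2) ≠ 0 := fun s => by positivity
      fun_prop (disch := assumption)
    have h1 : ∀ s : ℝ, s ∈ Set.Ioc (0 : ℝ) (rad x / 2) →
        ‖∫ y : V m, bump y • Om v (x + s • y) y‖ ≤ g s := by
      intro s hs
      have h2 := SF_bound1 hv hN0 hcurl hs.1 hs.2
      have h3 := SF_bound2 hm hC1 hcap hv ha hP0 hP hs.1 hs.2
      rw [← hb, ← hA] at h2
      rw [← hB] at h3
      have hs0 := hs.1
      rw [hg]
      simp only
      rw [mul_one_div, le_div_iff₀ (by positivity), mul_add, mul_one]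
      have h4 : ‖∫ y : V m, bump y • Om v (x + s • y) y‖ * (s / l) ^ 2 ≤ B / l ^ 2 := by
        calc ‖∫ y : V m, bump y • Om v (x + s • y) y‖ * (s / l) ^ 2 ≤ B / s ^ 2 * (s / l) ^ 2 :=
              mul_le_mul_of_nonneg_right h3 (by positivity)
          _ = B / l ^ 2 := by field_simp
      linarith
    have h5 := intervalIntegral.norm_integral_le_of_norm_le (μ := volume)
      (f := fun s => ∫ y : V m, bump y • Om v (x + s • y) y) (g := g) (a := 0) (b := rad x / 2)
      hδ.le (Eventually.of_forall h1) (hgc.intervalIntegrable _ _)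
    refine h5.trans ?_
    have h6 : ∫ s in (0 : ℝ)..(rad x / 2), g s =
        (A + B / l ^ 2) * (l * Real.arctan (rad x / 2 / l)) := by
      rw [hg, intervalIntegral.integral_const_mul]
      congr 1
      rw [intervalIntegral.integral_comp_div (fun s => 1 / (1 + s ^ 2)) hl.ne',
        integral_one_div_one_add_sq]
      simp
    have h7 : 0 ≤ Real.arctan (rad x / 2 / l) := Real.arctan_nonneg.2 (by positivity)
    have h8 := (Real.arctan_lt_pi_div_two (rad x / 2 / l)).le
    rw [h6]
    calc (A + B / l ^ 2) * (l * Real.arctan (rad x / 2 / l))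
        ≤ (A + B / l ^ 2) * (l * (Real.pi / 2)) := by gcongr
      _ = Real.pi / 2 * (A * l + B / l) := by
          field_simp
  have hsec2 := SF_opt hA0 hB0 (by positivity) hsec
  have hAB : √(A * B) = K * √(N * P / rad x) := by
    rw [hK, ← Real.sqrt_mul (by positivity)]
    congr 1
    rw [hA, hB]
    obtain ⟨n, rfl⟩ : ∃ n, m = n + 1 := ⟨m - 1, by omega⟩
    rw [Nat.add_sub_cancel]
    field_simp
    ring
  rw [hAB] at hsec2
  have hE' : 0 ≤ E / √(rad x ^ (m + 1)) := by positivity
  have hS' : 0 ≤ √(N * P / rad x) := Real.sqrt_nonneg _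
  have hmain : c0 m * ‖v x‖ ≤ (b + C1 + Real.pi * K) *
      (E / √(rad x ^ (m + 1)) + √(N * P / rad x)) := by
    calc c0 m * ‖v x‖ = ‖c0 m • v x‖ := by rw [norm_smul, Real.norm_of_nonneg hc.le]
      _ = ‖(∫ y : V m, bump y • v (x + (rad x / 2) • y))
          - ∫ s in (0 : ℝ)..(rad x / 2), ∫ y : V m, bump y • Om v (x + s • y) y‖ := by rw [havg]
      _ ≤ (b + C1) / 2 * (2 * (E / √(rad x ^ (m + 1)))) +
          2 * (Real.pi / 2) * (K * √(N * P / rad x)) :=
          (norm_sub_le _ _).trans (add_le_add hfirst hsec2)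
      _ ≤ _ := by
          have h1 : 0 ≤ Real.pi * K := by positivity
          have h2 : 0 ≤ b + C1 := by positivity
          nlinarith [mul_nonneg h1 hE', mul_nonneg h2 hS']
  rw [div_mul_eq_mul_div, le_div_iff₀ hc]
  linarith

end Pool.Agent.Lib.MP_c167ed_an
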