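import Pool.Agent.Lib.MP_c167ed_an.Main
import Pool.Agent.Lib.MP_c167ed_an.AbsSigned
import Pool.Agent.Lib.MP_c167ed_an.SignedFar
import Pool.Agent.Lib.MP_c167ed_an.PBound

/-! One-signed vorticity, every dimension. -/

open MeasureTheory Set Filter Topology
open scoped ContDiff ENNReal NNReal

namespace Pool.Agent.Lib.MP_c167ed_an

variable {m : ℕ} {T : ℝ} {u : ℝ → V m → V m} {p : ℝ → V m → ℝ}

theorem P_init_compact {v : V m → V m} (hv : ContDiff ℝ ∞ v) {R : ℝ}
    (hR : ∀ x, R < ‖x‖ → curl v x = 0) :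
    ∫⁻ x : V m, ENNReal.ofReal (rad x * curl v x) < ⊤ := by
  have hc : Continuous (fun x : V m => rad x * curl v x) := continuous_rad.mul (continuous_curl hv)
  have hs : HasCompactSupport (fun x : V m => rad x * curl v x) := by
    refine HasCompactSupport.intro (isCompact_closedBall (0 : V m) R) fun x hx => ?_
    rw [Metric.mem_closedBall, dist_zero_right, not_le] at hx
    rw [hR x hx, mul_zero]
  exact (hc.integrable_of_hasCompactSupport hs).lintegral_lt_top

theorem main_signed_pos (hm3 : 3 ≤ m) (hT : 0 < T) (h : EulerSolution m T u p)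
    (h0 : AxisymNoSwirl (u 0)) {R : ℝ} (hR : ∀ x, R < ‖x‖ → curl (u 0) x = 0)
    (hs : ∀ r, 0 < r → ∀ z, 0 ≤ om (u 0) r z) :
    ∃ C, ∀ t ∈ Ico 0 T, ∀ x, curl (u t) x ≤ C := by
  have hm1 : 1 ≤ m := by omega
  have hax := axisym_preserved (by omega) h h0
  have hQ := Q_init_compact hm3 (h.contDiff ⟨le_rfl, hT⟩) h0 hR
  obtain ⟨K, W, A0, C1, D⟩ := absData hm3 hT h hax hQ
  obtain ⟨Cf, hCf, hfar⟩ := signed_far hm1
  obtain ⟨CE, hCE⟩ := h.sobolev 0 0 hT
  have hE0 : ∫⁻ x, ‖u 0 x‖ₑ ^ 2 ≤ CE := by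
    have := hCE 0 (by simp)
    refine le_trans (le_of_eq ?_) this
    congr 1
    ext x
    rw [← ofReal_norm, ← ofReal_norm, norm_iteratedFDeriv_zero]
  set E : ℝ := √(CE : ℝ) with hEdef
  have hE : 0 ≤ E := Real.sqrt_nonneg _
  have hE2 : (CE : ℝ≥0∞) = ENNReal.ofReal (E ^ 2) := by
    rw [hEdef, Real.sq_sqrt (NNReal.coe_nonneg _), ENNReal.ofReal_coe_nnreal]
  have hEt : ∀ t ∈ Ico 0 T, ∫⁻ x, ‖u t x‖ₑ ^ 2 ≤ ENNReal.ofReal (E ^ 2) := fun t ht =>
    (energy_le h ht).trans (hE0.trans hE2.le)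
  have hPfin := P_init_compact (h.contDiff ⟨le_rfl, hT⟩) hR
  set P : ℝ := (∫⁻ x : V m, ENNReal.ofReal (rad x * curl (u 0) x)).toReal with hPdef
  have hP0 : 0 ≤ P := ENNReal.toReal_nonneg
  have hPt : ∀ t ∈ Ico 0 T, ∫⁻ x : V m, ENNReal.ofReal (rad x * curl (u t) x)
      ≤ ENNReal.ofReal P := fun t ht =>
    (P_le (by omega) h hax hs ht).trans (le_of_eq (ENNReal.ofReal_toReal hPfin.ne).symm)
  obtain ⟨C, hC⟩ := abs_signed hm3 D (by
    intro ε hε N hN
    refine ⟨Cf * (E / √((2 * ε) ^ (m + 1)) + √(N * P / (2 * ε))), by positivity, ?_⟩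
    intro t ht hw r hr z
    have hr0 : 0 < r := by linarith
    have hrad : rad (emb r z : V m) = r := by rw [rad_emb hm1, abs_of_pos hr0]
    have key := hfar (u t) (h.contDiff ht) (h.divfree t ht) (hax t ht) E P N hE hP0 hN
      (hEt t ht) (hPt t ht) (emb r z) (by rw [hrad]; exact hr0) ?_
    · rw [hrad] at key
      have h1 : u t (emb r z) 0 ≤ ‖u t (emb r z)‖ :=
        (le_abs_self _).trans (by simpa using PiLp.norm_apply_le (u t (emb r z)) 0)
      refine h1.trans (key.trans ?_)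
      gcongr
    · intro y hy
      rw [hrad] at hy
      have hy0 : 0 < rad y := by linarith
      rw [curl_eq_abs_om hm1 (h.contDiff ht) (hax t ht) hy0]
      exact hw _ (by linarith) _)
  exact ⟨C, curl_bdd_of_om hm1 h hax hC⟩

/-- the reflection `z ↦ -z` -/
noncomputable def flip (m : ℕ) : V m ≃ₗᵢ[ℝ] V m :=
  LinearIsometryEquiv.piLpCongrRight 2 (fun i : Fin (m + 1) =>
    if i = Fin.last m then LinearIsometryEquiv.neg ℝ else LinearIsometryEquiv.refl ℝ ℝ)

theorem flip_castSucc (x : V m) (i : Fin m) : flip m x i.castSucc = x i.castSucc := by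
  have hi : i.castSucc ≠ Fin.last m := (Fin.castSucc_lt_last i).ne
  simp [flip, hi]

theorem flip_last (x : V m) : flip m x (Fin.last m) = - x (Fin.last m) := by
  simp [flip]

theorem flip_flip (x : V m) : flip m (flip m x) = x := by
  ext i
  refine Fin.lastCases ?_ (fun j => ?_) i
  · rw [flip_last, flip_last, neg_neg]
  · rw [flip_castSucc, flip_castSucc]

theorem flip_symm (x : V m) : (flip m).symm x = flip m x := by
  rw [LinearIsometryEquiv.symm_apply_eq, flip_flip]

theorem rad_flip (x : V m) : rad (flip m x) = rad x := by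
  simp only [rad, flip_castSucc]

theorem ax_flip (x : V m) : ax (flip m x) = - ax x := flip_last x

theorem flip_emb (hm : 1 ≤ m) (r z : ℝ) : flip m (emb r z) = emb r (-z) := by
  have h0 : (0 : Fin (m + 1)) ≠ Fin.last m := by
    intro h
    have := congrArg Fin.val h
    simp at this
    omega
  ext i
  refine Fin.lastCases ?_ (fun j => ?_) i
  · rw [flip_last]
    simp [emb, h0.symm]
  · rw [flip_castSucc]
    simp [emb]

theorem om_flip (hm : 1 ≤ m) (v : V m → V m) (r z : ℝ) :
    om (fun x => (flip m).symm (v (flip m x))) r z = - om v r (-z) := by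
  have h0 : (0 : Fin (m + 1)) ≠ Fin.last m := by
    intro h
    have := congrArg Fin.val h
    simp at this
    omega
  have hc0 : (0 : Fin (m + 1)) = (⟨0, by omega⟩ : Fin m).castSucc := rfl
  have h1 : flip m (EuclideanSpace.single (Fin.last m) (1 : ℝ))
      = - EuclideanSpace.single (Fin.last m) (1 : ℝ) := by
    ext i
    refine Fin.lastCases ?_ (fun j => ?_) i
    · rw [flip_last]; simp
    · rw [flip_castSucc]; simp
  have h2 : flip m (EuclideanSpace.single 0 (1 : ℝ))
      = EuclideanSpace.single 0 (1 : ℝ) := by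
    ext i
    refine Fin.lastCases ?_ (fun j => ?_) i
    · rw [flip_last]; simp [h0.symm]
    · rw [flip_castSucc]
  simp only [om, pd]
  rw [SymAux.fderiv_rot, SymAux.fderiv_rot, flip_emb hm, h1, h2, flip_symm, flip_symm, flip_last,
    hc0, flip_castSucc, map_neg]
  simp
  ring

theorem curl_flip (hm : 1 ≤ m) {v : V m → V m} (hv : ContDiff ℝ ∞ v) (hax : AxisymNoSwirl v)
    (hax' : AxisymNoSwirl (fun x => (flip m).symm (v (flip m x)))) {x : V m} (hx : 0 < rad x) :
    curl (fun x => (flip m).symm (v (flip m x))) x = curl v (flip m x) := by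
  have hv' : ContDiff ℝ ∞ (fun x => (flip m).symm (v (flip m x))) :=
    (flip m).symm.contDiff.comp (hv.comp (flip m).contDiff)
  rw [curl_eq_abs_om hm hv' hax' hx, om_flip hm, abs_neg,
    curl_eq_abs_om hm hv hax (by rw [rad_flip]; exact hx), rad_flip, ax_flip]

theorem axisym_flip {v : V m → V m} (hax : AxisymNoSwirl v) :
    AxisymNoSwirl (fun x => (flip m).symm (v (flip m x))) := by
  obtain ⟨a, b, hab⟩ := hax
  refine ⟨fun r z => a r (-z), fun r z => - b r (-z), fun x hx => ?_⟩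
  have h1 := hab (flip m x) (by rw [rad_flip]; exact hx)
  rw [rad_flip, ax_flip] at h1
  refine ⟨fun i => ?_, ?_⟩
  · simp only [flip_symm]
    rw [flip_castSucc, h1.1 i, flip_castSucc]
  · simp only [flip_symm]
    rw [flip_last, h1.2]

/-- one-signed compactly supported initial vorticity, every `d ≥ 4` -/
theorem main_signed (hm3 : 3 ≤ m) (hT : 0 < T) (h : EulerSolution m T u p)
    (h0 : AxisymNoSwirl (u 0)) {R : ℝ} (hR : ∀ x, R < ‖x‖ → curl (u 0) x = 0)
    (hs : (∀ r, 0 < r → ∀ z, 0 ≤ om (u 0) r z) ∨ (∀ r, 0 < r → ∀ z, om (u 0) r z ≤ 0)) :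
    ∃ C, ∀ t ∈ Ico 0 T, ∀ x, curl (u t) x ≤ C := by
  have hm1 : 1 ≤ m := by omega
  rcases hs with hs | hs
  · exact main_signed_pos hm3 hT h h0 hR hs
  · have h' := h.rotate (flip m)
    have h0' : AxisymNoSwirl (fun x => (flip m).symm (u 0 (flip m x))) := axisym_flip h0
    have hC0 : ContDiff ℝ ∞ (u 0) := h.contDiff ⟨le_rfl, hT⟩
    have hC0' : ContDiff ℝ ∞ (fun x => (flip m).symm (u 0 (flip m x))) :=
      (flip m).symm.contDiff.comp (hC0.comp (flip m).contDiff)
    have hax := axisym_preserved (by omega) h h0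
    obtain ⟨C, hC⟩ := main_signed_pos hm3 hT h' h0' (R := R) (by
      intro x hx
      rcases (rad_nonneg x).eq_or_lt with h1 | h1
      · exact curl_axis hm1 hC0' h0' h1.symm
      · rw [curl_flip hm1 hC0 h0 h0' h1]
        exact hR _ (by rw [LinearIsometryEquiv.norm_map]; exact hx)) (by
      intro r hr z
      rw [om_flip hm1]
      have := hs r hr (-z)
      linarith)
    refine ⟨C, fun t ht => curl_le_of_off_axis hm1 (h.contDiff ht) fun x hx => ?_⟩
    have h2 := hC t ht (flip m x)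
    rw [curl_flip hm1 (h.contDiff ht) (hax t ht) (axisym_flip (hax t ht))
      (by rw [rad_flip]; exact hx), flip_flip] at h2
    exact h2

end Pool.Agent.Lib.MP_c167ed_an
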