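import Pool.Agent.Lib.MP_c167ed_an.Defs

/-! Local Sobolev inequality. -/

open MeasureTheory Set Filter Topology
open scoped ContDiff ENNReal NNReal

namespace Pool.Agent.Lib.MP_c167ed_an

section compact

variable {m : ℕ} {W : Type} [NormedAddCommGroup W] [NormedSpace ℝ W]

/-- The derivative in the direction of a coordinate. -/
noncomputable def sobD (i : Fin (m + 1)) (h : V m → W) (y : V m) : W :=
  fderiv ℝ h y (EuclideanSpace.single i 1)

theorem sobD_contDiff (i : Fin (m + 1)) {h : V m → W} (hh : ContDiff ℝ ∞ h) :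
    ContDiff ℝ ∞ (sobD i h) := by
  unfold sobD
  exact (hh.fderiv_right (m := ∞) (by simp)).clm_apply contDiff_const

theorem sobD_compact (i : Fin (m + 1)) {h : V m → W} (hh : HasCompactSupport h) :
    HasCompactSupport (sobD i h) := by
  have h1 := hh.fderiv (𝕜 := ℝ)
  refine h1.mono fun y hy => ?_
  rw [Function.mem_support] at hy ⊢
  intro h0
  apply hy
  unfold sobD
  rw [h0, zero_apply]

theorem sobD_norm (i : Fin (m + 1)) {h : V m → W} (hh : ContDiff ℝ ∞ h) (k : ℕ) (y : V m) :
    ‖iteratedFDeriv ℝ k (sobD i h) y‖ ≤ ‖iteratedFDeriv ℝ (k + 1) h y‖ := by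
  have h1 : sobD i h = (ContinuousLinearMap.apply ℝ W (EuclideanSpace.single i (1 : ℝ))) ∘
      fderiv ℝ h := rfl
  have h2 : ContDiff ℝ k (fderiv ℝ h) := hh.fderiv_right (by exact_mod_cast le_top)
  rw [h1]
  refine (ContinuousLinearMap.norm_iteratedFDeriv_comp_left _ h2.contDiffAt le_rfl).trans ?_
  rw [norm_iteratedFDeriv_fderiv]
  have h3 : ‖ContinuousLinearMap.apply ℝ W (EuclideanSpace.single i (1 : ℝ))‖ ≤ 1 := by
    refine ContinuousLinearMap.opNorm_le_bound _ zero_le_one fun f => ?_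
    rw [ContinuousLinearMap.apply_apply]
    refine (f.le_opNorm _).trans ?_
    rw [PiLp.norm_single, norm_one, mul_one, one_mul]
  exact (mul_le_mul_of_nonneg_right h3 (norm_nonneg _)).trans (one_mul _).le

theorem sob_line (i : Fin (m + 1)) {h : V m → W} (hh : ContDiff ℝ ∞ h)
    (hc : HasCompactSupport h) (y : Fin (m + 1) → ℝ) :
    ‖h (WithLp.toLp 2 y)‖ₑ ≤
      ∫⁻ t : ℝ, ‖sobD i h (WithLp.toLp 2 (Function.update y i t))‖ₑ := by
  classical
  set e : ℝ → V m := fun t => WithLp.toLp 2 (Function.update y i t) with he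
  have he1 : ∀ t, e t = WithLp.toLp 2 (Function.update y i 0) + t • EuclideanSpace.single i 1 := by
    intro t
    ext j
    by_cases hj : j = i
    · subst hj
      simp [he]
    · simp [he, hj]
  have hed : ∀ t, HasDerivAt e (EuclideanSpace.single i 1) t := by
    intro t
    have h1 : HasDerivAt (fun t : ℝ => WithLp.toLp 2 (Function.update y i 0) +
        t • (EuclideanSpace.single i (1 : ℝ) : V m)) ((1 : ℝ) • EuclideanSpace.single i 1) t :=
      ((hasDerivAt_id t).smul_const _).const_add _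
    rw [one_smul] at h1
    have h2 : e = fun t : ℝ => WithLp.toLp 2 (Function.update y i 0) +
        t • (EuclideanSpace.single i (1 : ℝ) : V m) := funext he1
    rw [h2]
    exact h1
  have hec : ContDiff ℝ ∞ e := by
    have h2 : e = fun t : ℝ => WithLp.toLp 2 (Function.update y i 0) +
        t • (EuclideanSpace.single i (1 : ℝ) : V m) := funext he1
    rw [h2]
    fun_prop
  have hφ : ContDiff ℝ 1 (h ∘ e) := (hh.comp hec).of_le (by exact_mod_cast le_top)
  have hφc : HasCompactSupport (h ∘ e) := by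
    refine hc.comp_isClosedEmbedding ?_
    have h3 : e = (fun z => WithLp.toLp 2 z) ∘ (Function.update y i) := rfl
    rw [h3]
    exact (PiLp.homeomorph 2 (fun _ : Fin (m + 1) => ℝ)).symm.isClosedEmbedding.comp
      (isClosedEmbedding_update y i)
  have h4 := HasCompactSupport.enorm_le_lintegral_Ici_deriv hφ hφc (y i)
  have h5 : (h ∘ e) (y i) = h (WithLp.toLp 2 y) := by
    simp [he]
  rw [h5] at h4
  refine h4.trans ?_
  refine (lintegral_mono' Measure.restrict_le_self le_rfl).trans ?_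
  refine lintegral_mono fun t => ?_
  have h6 : deriv (h ∘ e) t = sobD i h (e t) := by
    have h7 : HasFDerivAt h (fderiv ℝ h (e t)) (e t) :=
      (hh.differentiable (by simp)).differentiableAt.hasFDerivAt
    exact (h7.comp_hasDerivAt t (hed t)).deriv
  rw [h6]

theorem sob_step (g : V m → W) (hg : ContDiff ℝ ∞ g) (hc : HasCompactSupport g)
    (s : Finset (Fin (m + 1))) :
    ∃ h : V m → W, ContDiff ℝ ∞ h ∧ HasCompactSupport h ∧
      (∀ k y, ‖iteratedFDeriv ℝ k h y‖ ≤ ‖iteratedFDeriv ℝ (k + s.card) g y‖) ∧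
      ∀ y : Fin (m + 1) → ℝ, ‖g (WithLp.toLp 2 y)‖ₑ ≤
        (∫⋯∫⁻_s, (fun z => ‖h (WithLp.toLp 2 z)‖ₑ) ∂fun _ => (volume : Measure ℝ)) y := by
  classical
  induction s using Finset.induction_on with
  | empty =>
    refine ⟨g, hg, hc, fun k y => le_of_eq (by rw [Finset.card_empty, add_zero]), fun y => ?_⟩
    rw [lmarginal_empty]
  | insert i s hi ih =>
    obtain ⟨h, hh, hhc, hhn, hhg⟩ := ih
    refine ⟨sobD i h, sobD_contDiff i hh, sobD_compact i hhc, fun k y => ?_, fun y => ?_⟩
    · refine (sobD_norm i hh k y).trans ((hhn (k + 1) y).trans ?_)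
      rw [Finset.card_insert_of_notMem hi]
      have : k + 1 + s.card = k + (s.card + 1) := by ring
      rw [this]
    · have hcont : Continuous fun z : Fin (m + 1) → ℝ => sobD i h (WithLp.toLp 2 z) :=
        (sobD_contDiff i hh).continuous.comp (PiLp.continuous_toLp 2 _)
      have hmeas : Measurable fun z : Fin (m + 1) → ℝ => ‖sobD i h (WithLp.toLp 2 z)‖ₑ :=
        hcont.enorm.measurable
      rw [lmarginal_insert' _ hmeas hi]
      refine (hhg y).trans ?_
      exact lmarginal_mono (fun z => sob_line i hh hhc z) y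

end compact

/-- Sobolev inequality for compact support. Proof: one integration in every coordinate: induction
over the set of coordinates with `lmarginal` and `HasCompactSupport.enorm_le_lintegral_Ici_deriv`,
as in Mathlib's file `Analysis/FunctionalSpaces/SobolevInequality.lean`: if `h = ∂_i g` then
`‖iteratedFDeriv k h‖ ≤ ‖iteratedFDeriv (k+1) g‖`; transfer from `Fin (m+1) → ℝ`. -/
theorem sobolev_compact (m : ℕ) (W : Type) [NormedAddCommGroup W] [NormedSpace ℝ W]
    (g : V m → W) (hg : ContDiff ℝ ∞ g) (hc : HasCompactSupport g) (x : V m) :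
    ‖g x‖ₑ ≤ ∫⁻ y, ‖iteratedFDeriv ℝ (m + 1) g y‖ₑ := by
  classical
  obtain ⟨h, hh, hhc, hhn, hhg⟩ := sob_step g hg hc Finset.univ
  have h1 := hhg (WithLp.ofLp x)
  rw [lmarginal_univ] at h1
  have h2 : (WithLp.toLp 2 (WithLp.ofLp x) : V m) = x := rfl
  rw [h2] at h1
  refine h1.trans ?_
  have h3 : ∫⁻ z : Fin (m + 1) → ℝ, ‖h (WithLp.toLp 2 z)‖ₑ ∂(Measure.pi fun _ => volume) =
      ∫⁻ y : V m, ‖h y‖ₑ := by
    have hmeas : Measurable fun y : V m => ‖h y‖ₑ := hh.continuous.enorm.measurable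
    exact (PiLp.volume_preserving_toLp (Fin (m + 1))).lintegral_comp hmeas
  rw [h3]
  refine lintegral_mono fun y => ?_
  have h4 := hhn 0 y
  rw [norm_iteratedFDeriv_zero, Finset.card_univ, Fintype.card_fin, zero_add] at h4
  rw [← ofReal_norm, ← ofReal_norm]
  exact ENNReal.ofReal_le_ofReal h4

/-- Cauchy-Schwarz. -/
theorem sq_lintegral_le {α : Type*} [MeasurableSpace α] (μ : Measure α) {f : α → ℝ≥0∞}
    (hf : AEMeasurable f μ) : (∫⁻ a, f a ∂μ) ^ 2 ≤ μ univ * ∫⁻ a, f a ^ 2 ∂μ := by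
  have h := ENNReal.lintegral_mul_le_Lp_mul_Lq μ (p := 2) (q := 2)
    (Real.HolderConjugate.two_two) hf (aemeasurable_const (b := (1 : ℝ≥0∞)))
  simp only [Pi.mul_apply, mul_one, ENNReal.one_rpow, lintegral_one] at h
  have h2 := pow_le_pow_left' h 2
  refine h2.trans ?_
  rw [mul_pow, ← ENNReal.rpow_natCast, ← ENNReal.rpow_natCast, ← ENNReal.rpow_mul,
    ← ENNReal.rpow_mul]
  norm_num
  rw [mul_comm]

/-- Local Sobolev inequality. Apply `sobolev_compact` to `y ↦ φ (y - x) • f y` with a fixed smooth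
cutoff `φ` supported in the closed unit ball, Leibniz (`norm_iteratedFDeriv_smul_le`),
Cauchy-Schwarz. -/
theorem sobolev_local (m : ℕ) (W : Type) [NormedAddCommGroup W] [NormedSpace ℝ W] :
    ∃ C : ℝ≥0, ∀ f : V m → W, ContDiff ℝ ∞ f → ∀ x : V m,
      ‖f x‖ₑ ^ 2 ≤ C * ∑ k ∈ Finset.range (m + 2),
        ∫⁻ y in Metric.closedBall x 1, ‖iteratedFDeriv ℝ k f y‖ₑ ^ 2 := by
  classical
  let φ : ContDiffBump (0 : V m) := ⟨1 / 2, 1, by norm_num, by norm_num⟩
  have hφ : ContDiff ℝ ∞ (φ : V m → ℝ) := φ.contDiff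
  have hφc : HasCompactSupport (φ : V m → ℝ) := φ.hasCompactSupport
  -- bounds for the derivatives of the cutoff
  have hb : ∀ k : ℕ, ∃ M : ℝ, 0 ≤ M ∧ ∀ y, ‖iteratedFDeriv ℝ k (φ : V m → ℝ) y‖ ≤ M := by
    intro k
    have h1 : Continuous (iteratedFDeriv ℝ k (φ : V m → ℝ)) :=
      hφ.continuous_iteratedFDeriv (by exact_mod_cast le_top)
    obtain ⟨M, hM⟩ := (hφc.iteratedFDeriv k).exists_bound_of_continuous h1
    exact ⟨M, (norm_nonneg _).trans (hM 0), hM⟩
  choose M hM0 hM using hb
  set B : ℝ := ∑ k ∈ Finset.range (m + 2), M k with hB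
  have hB0 : 0 ≤ B := Finset.sum_nonneg fun k _ => hM0 k
  have hMB : ∀ k ∈ Finset.range (m + 2), M k ≤ B := fun k hk =>
    Finset.single_le_sum (fun k _ => hM0 k) hk
  set c : ℝ := 2 ^ (m + 1) * B with hc
  have hc0 : 0 ≤ c := by positivity
  set v : ℝ≥0∞ := volume (Metric.closedBall (0 : V m) 1) with hv
  have hvtop : v ≠ ⊤ := (isCompact_closedBall (0 : V m) 1).measure_lt_top.ne
  refine ⟨(Real.toNNReal c) ^ 2 * ((m : ℝ≥0) + 2) * v.toNNReal, fun f hf x => ?_⟩
  set g : V m → W := fun y => φ (y - x) • f y with hg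
  have hψ : ContDiff ℝ ∞ fun y : V m => φ (y - x) := hφ.comp (contDiff_id.sub contDiff_const)
  have hgs : ContDiff ℝ ∞ g := hψ.smul hf
  have hψc : HasCompactSupport fun y : V m => φ (y - x) :=
    hφc.comp_homeomorph (Homeomorph.subRight x)
  have hgc : HasCompactSupport g := hψc.smul_right
  have hgx : g x = f x := by
    have : φ (0 : V m) = 1 := φ.one_of_mem_closedBall (by simp [φ])
    simp only [hg, sub_self, this, one_smul]
  -- pointwise bound
  have hpt : ∀ y, ‖iteratedFDeriv ℝ (m + 1) g y‖ₑ ≤ (Metric.closedBall x 1).indicator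
      (fun y => ENNReal.ofReal c * ∑ k ∈ Finset.range (m + 2), ‖iteratedFDeriv ℝ k f y‖ₑ) y := by
    intro y
    by_cases hy : y ∈ Metric.closedBall x 1
    · rw [indicator_of_mem hy]
      have h1 := norm_iteratedFDeriv_smul_le hψ hf y (n := m + 1) (by exact_mod_cast le_top)
      have h2 : ∑ i ∈ Finset.range (m + 1 + 1), ((m + 1).choose i : ℝ) *
          ‖iteratedFDeriv ℝ i (fun y : V m => φ (y - x)) y‖ * ‖iteratedFDeriv ℝ (m + 1 - i) f y‖ ≤
          c * ∑ k ∈ Finset.range (m + 2), ‖iteratedFDeriv ℝ k f y‖ := by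
        have h3 : ∀ i ∈ Finset.range (m + 1 + 1), ((m + 1).choose i : ℝ) *
            ‖iteratedFDeriv ℝ i (fun y : V m => φ (y - x)) y‖ *
              ‖iteratedFDeriv ℝ (m + 1 - i) f y‖ ≤
            ((m + 1).choose i : ℝ) * (B * ∑ k ∈ Finset.range (m + 2), ‖iteratedFDeriv ℝ k f y‖) := by
          intro i hi
          rw [mul_assoc]
          refine mul_le_mul_of_nonneg_left ?_ (Nat.cast_nonneg _)
          refine mul_le_mul ?_ ?_ (norm_nonneg _) hB0
          · rw [iteratedFDeriv_comp_sub]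
            exact (hM i _).trans (hMB i hi)
          · refine Finset.single_le_sum (f := fun k => ‖iteratedFDeriv ℝ k f y‖)
              (fun k _ => norm_nonneg _) ?_
            rw [Finset.mem_range]
            omega
        refine (Finset.sum_le_sum h3).trans (le_of_eq ?_)
        rw [← Finset.sum_mul, hc]
        have h4 : ∑ i ∈ Finset.range (m + 1 + 1), ((m + 1).choose i : ℝ) = 2 ^ (m + 1) := by
          exact_mod_cast Nat.sum_range_choose (m + 1)
        rw [h4, mul_assoc]
      have h5 := h1.trans h2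
      rw [← ofReal_norm]
      refine (ENNReal.ofReal_le_ofReal h5).trans (le_of_eq ?_)
      rw [ENNReal.ofReal_mul hc0, ENNReal.ofReal_sum_of_nonneg fun k _ => norm_nonneg _]
      simp only [ofReal_norm]
    · rw [indicator_of_notMem hy]
      have h1 : y ∉ tsupport g := by
        intro h2
        apply hy
        have h3 : tsupport g ⊆ Metric.closedBall x 1 := by
          refine closure_minimal ?_ Metric.isClosed_closedBall
          intro z hz
          by_contra hz2
          apply hz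
          have h4 : φ (z - x) = 0 := by
            apply φ.zero_of_le_dist
            rw [dist_zero_right]
            rw [Metric.mem_closedBall, not_le, dist_eq_norm] at hz2
            exact hz2.le
          simp only [hg, h4, zero_smul]
        exact h3 h2
      have h4 : iteratedFDeriv ℝ (m + 1) g y = 0 := by
        by_contra h5
        exact h1 (support_iteratedFDeriv_subset (𝕜 := ℝ) (m + 1) h5)
      rw [h4, enorm_zero]
  have hmeas : ∀ k : ℕ, Measurable fun y => ‖iteratedFDeriv ℝ k f y‖ₑ := fun k =>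
    (hf.continuous_iteratedFDeriv (by exact_mod_cast le_top)).enorm.measurable
  have h1 : ‖f x‖ₑ ≤ ENNReal.ofReal c * ∑ k ∈ Finset.range (m + 2),
      ∫⁻ y in Metric.closedBall x 1, ‖iteratedFDeriv ℝ k f y‖ₑ := by
    rw [← hgx]
    refine (sobolev_compact m W g hgs hgc x).trans ((lintegral_mono hpt).trans (le_of_eq ?_))
    rw [lintegral_indicator Metric.isClosed_closedBall.measurableSet,
      lintegral_const_mul _ (Finset.measurable_sum _ fun k _ => hmeas k),
      lintegral_finsetSum _ fun k _ => hmeas k]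
  have h2 := pow_le_pow_left' h1 2
  refine h2.trans ?_
  have h3 : (∑ k ∈ Finset.range (m + 2),
      ∫⁻ y in Metric.closedBall x 1, ‖iteratedFDeriv ℝ k f y‖ₑ) ^ 2 ≤ ((m : ℝ≥0∞) + 2) *
      ∑ k ∈ Finset.range (m + 2),
        (∫⁻ y in Metric.closedBall x 1, ‖iteratedFDeriv ℝ k f y‖ₑ) ^ 2 := by
    have h4 := ENNReal.rpow_sum_le_const_mul_sum_rpow (Finset.range (m + 2))
      (fun k => ∫⁻ y in Metric.closedBall x 1, ‖iteratedFDeriv ℝ k f y‖ₑ) (p := 2) (by norm_num)
    rw [Finset.card_range] at h4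
    norm_num at h4
    exact h4
  have h5 : ∀ k ∈ Finset.range (m + 2),
      (∫⁻ y in Metric.closedBall x 1, ‖iteratedFDeriv ℝ k f y‖ₑ) ^ 2 ≤
        v * ∫⁻ y in Metric.closedBall x 1, ‖iteratedFDeriv ℝ k f y‖ₑ ^ 2 := by
    intro k _
    refine (sq_lintegral_le _ (hmeas k).aemeasurable).trans (le_of_eq ?_)
    rw [Measure.restrict_apply_univ, hv, Measure.addHaar_closedBall_center]
  rw [mul_pow]
  have h6 : (((Real.toNNReal c) ^ 2 * ((m : ℝ≥0) + 2) * v.toNNReal : ℝ≥0) : ℝ≥0∞) =
      ENNReal.ofReal c ^ 2 * ((m : ℝ≥0∞) + 2) * v := by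
    push_cast
    rw [ENNReal.coe_toNNReal hvtop]
    rfl
  rw [h6, mul_assoc, mul_assoc]
  gcongr
  refine h3.trans ?_
  gcongr
  rw [Finset.mul_sum]
  exact Finset.sum_le_sum h5

end Pool.Agent.Lib.MP_c167ed_an
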