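import Pool.Agent.Lib.MP_c167ed_an.Defs

/-! The solution class, split into short named definitions (used in the final statements). -/

open MeasureTheory Set Filter Topology
open scoped ContDiff ENNReal NNReal

namespace Pool.Agent.Lib.MP_c167ed_an

/-- `f` is `C^∞` on `[0,T) × ℝ^{m+1}`. -/
def SmoothSlab {m : ℕ} {W : Type} [NormedAddCommGroup W] [NormedSpace ℝ W] (T : ℝ)
    (f : ℝ → V m → W) : Prop :=
  ContDiffOn ℝ ∞ (Function.uncurry f) (Ico 0 T ×ˢ univ)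

/-- `(v · ∇) v_j` at `x`. -/
noncomputable def advect {m : ℕ} (v : V m → V m) (j : Fin (m + 1)) (x : V m) : ℝ :=
  ∑ i, v x i * pd v i j x

/-- `∂_j f` for a scalar function `f`. -/
noncomputable def spd {m : ℕ} (f : V m → ℝ) (j : Fin (m + 1)) (x : V m) : ℝ :=
  fderiv ℝ f x (EuclideanSpace.single j 1)

/-- `∂_t u_j + (u · ∇) u_j + ∂_j p = 0` on `(0,T) × ℝ^{m+1}`. -/
def Momentum {m : ℕ} (T : ℝ) (u : ℝ → V m → V m) (p : ℝ → V m → ℝ) : Prop :=
  ∀ t ∈ Ioo 0 T, ∀ x j, deriv (fun s => u s x j) t + advect (u t) j x + spd (p t) j x = 0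

/-- the square of the `L²` norm of the `k`-th derivative of `f`. -/
noncomputable def sobSq {m : ℕ} {W : Type} [NormedAddCommGroup W] [NormedSpace ℝ W] (k : ℕ)
    (f : V m → W) : ℝ≥0∞ :=
  ∫⁻ x, ‖iteratedFDeriv ℝ k f x‖ₑ ^ 2

/-- the `L²` norm of `D^k f(t)` is bounded on `[0,T']` for every `T' < T`. -/
def SobBdd {m : ℕ} {W : Type} [NormedAddCommGroup W] [NormedSpace ℝ W] (T : ℝ) (k : ℕ)
    (f : ℝ → V m → W) : Prop :=
  ∀ T' < T, ∃ C : ℝ≥0, ∀ t ∈ Icc 0 T', sobSq k (f t) ≤ C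

/-- `(u,p)` is a smooth solution of the Euler equations on `[0,T) × ℝ^{m+1}` with
`u ∈ L^∞_loc([0,T); H^k)` for all `k`, and `p ∈ L^∞_loc([0,T); L²)` (normalised pressure). -/
structure IsEulerFlow {m : ℕ} (T : ℝ) (u : ℝ → V m → V m) (p : ℝ → V m → ℝ) : Prop where
  smooth_u : SmoothSlab T u
  smooth_p : SmoothSlab T p
  momentum : Momentum T u p
  divfree : ∀ t ∈ Ico 0 T, ∀ x, dvg (u t) x = 0
  sobolev : ∀ k, SobBdd T k u
  pressure : SobBdd T 0 p

theorem IsEulerFlow.euler {m : ℕ} {T : ℝ} {u : ℝ → V m → V m} {p : ℝ → V m → ℝ}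
    (h : IsEulerFlow T u p) : EulerSolution m T u p where
  smooth_u := h.smooth_u
  smooth_p := h.smooth_p
  momentum := h.momentum
  divfree := h.divfree
  sobolev := h.sobolev
  pressure := by
    intro T' hT'
    obtain ⟨C, hC⟩ := h.pressure T' hT'
    refine ⟨C, fun t ht => le_trans (le_of_eq ?_) (hC t ht)⟩
    unfold sobSq
    congr 1
    ext x
    rw [← ofReal_norm, ← ofReal_norm, norm_iteratedFDeriv_zero]

/-- `∫_0^T ‖∇ × u(t)‖_∞ dt`. -/
noncomputable def curlIntegral {m : ℕ} (T : ℝ) (u : ℝ → V m → V m) : ℝ≥0∞ :=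
  ∫⁻ t in Ioo 0 T, ⨆ x, ENNReal.ofReal (curl (u t) x)

end Pool.Agent.Lib.MP_c167ed_an
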