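import Pool.Agent.Lib.MP_c167ed_an.Statement

/-! One-signed vorticity. -/

namespace Pool.Agent.Lib.MP_c167ed_an

/-- the scalar vorticity `∂_z v^r - ∂_r v^z` of an axisymmetric field without swirl (evaluated at
the points `(r,0,…,0,z)`) has one sign. -/
def OneSigned {m : ℕ} (v : V m → V m) : Prop :=
  (∀ r, 0 < r → ∀ z, 0 ≤ om v r z) ∨ (∀ r, 0 < r → ∀ z, om v r z ≤ 0)

end Pool.Agent.Lib.MP_c167ed_an
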